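import Pool.Agent.Helper70.SUB.SheetG

/-!
Project SUB, row THG: Theorem G by induction, from NDG and QUO.
-/

set_option autoImplicit false

namespace Pool.Agent.Helper27.SUB

open Finset Matrix Pool.Agent.Helper70.SUB

theorem GSeq_mono {N : ℕ} {S : Finset ℕ} {A : Option ℕ → Matrix (Fin N) (Fin N) ℚ} {K a δ : ℝ}
    {M M' : Set ℕ} {Q : ℕ → ℝ} {s : ℕ → Option ℕ → Fin N → ℝ} {μ ν : ℕ → ℝ}
    {h : ℕ → Fin N → ℤ} (H : GSeq N S A K a δ M Q s μ ν h) (hsub : M' ⊆ M) (hinf : M'.Infinite) :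
    GSeq N S A K a δ M' Q s μ ν h :=
  ⟨hinf, H.lim, fun j hj => H.hyp j (hsub hj), fun j hj => H.sK j (hsub hj),
    fun j hj => H.lo j (hsub hj), fun j hj => H.up j (hsub hj), fun j hj => H.gap j (hsub hj)⟩

theorem pigeon2 {M : Set ℕ} (hM : M.Infinite) (f : ℕ → ℤ) (hf : ∀ j ∈ M, f j = 1 ∨ f j = -1) :
    ∃ c : ℤ, {j | j ∈ M ∧ f j = c}.Infinite := by
  by_contra hcon
  have hcon' : ∀ c : ℤ, {j | j ∈ M ∧ f j = c}.Finite := by
    intro c
    by_contra h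
    exact hcon ⟨c, h⟩
  apply hM
  refine ((hcon' 1).union (hcon' (-1))).subset ?_
  intro j hj
  rcases hf j hj with h | h
  · exact Or.inl ⟨hj, h⟩
  · exact Or.inr ⟨hj, h⟩

theorem THG (hNDG : ST_NDG) (hQUO : ST_QUO) : ST_THG := by
  intro N
  induction N with
  | zero =>
    intro S A K a δ M Q s μ ν h hN
    omega
  | succ k ih =>
    intro S A K a δ M Q s μ ν h hN hS hA hK ha hδ H
    rcases Nat.eq_zero_or_pos k with hk | hk
    · subst hk
      have h1 : ∀ j ∈ M, h j 0 = 1 ∨ h j 0 = -1 := by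
        intro j hj
        have h2 := (H.hyp j hj).prim (h j 0) (by
          intro i
          rw [Fin.fin_one_eq_zero i])
        exact Int.isUnit_iff.mp h2
      obtain ⟨c, hc⟩ := pigeon2 H.inf (fun j => h j 0) h1
      refine ⟨fun _ => c, hc.mono ?_⟩
      rintro j ⟨hj, hjc⟩
      refine ⟨hj, ?_⟩
      funext i
      rw [Fin.fin_one_eq_zero i]
      exact hjc
    · obtain ⟨u, hu0, huinf⟩ := hNDG k S A K a δ M Q s μ ν h hk hS hA hK ha hδ H
      have H1 := GSeq_mono H (M' := {j | j ∈ M ∧ ∑ i, u i * h j i = 0}) (fun j hj => hj.1) huinf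
      obtain ⟨A', K', a', δ', M', s', μ', ν', h', T, hA', hK', ha', hδ', hM', H', hT⟩ :=
        hQUO k S A K a δ _ Q s μ ν h u hk hS hA hK ha hδ H1 hu0 (fun j hj => hj.2)
      obtain ⟨h0, hh0⟩ := ih S A' K' a' δ' M' Q s' μ' ν' h' hk hS hA' hK' ha' hδ' H'
      refine ⟨T.mulVec h0, hh0.mono ?_⟩
      rintro j ⟨hj, hjh⟩
      refine ⟨(hM' hj).1, ?_⟩
      rw [hT j hj, hjh]

end Pool.Agent.Helper27.SUB
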