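import Pool.Agent.Helper70.SUB.SheetA

/-!
Project SUB, row T2, first part: grouping of proportional terms, from U2.
-/

set_option autoImplicit false

namespace Pool.Agent.Helper27.SUB

open Finset Pool.Agent.Helper70.SUB

/-- `u β` is a constant multiple of `u γ` on `X` -/
def Prp {ι : Type} (u : ℕ → ι → ℤ) (X : Set ℕ) (β γ : ι) : Prop :=
  ∃ ρ : ℚ, ∀ j ∈ X, (u j β : ℚ) = ρ * u j γ

theorem Prp_mono {ι : Type} {u : ℕ → ι → ℤ} {X X' : Set ℕ} (h : X' ⊆ X) {β γ : ι}
    (H : Prp u X β γ) : Prp u X' β γ := by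
  obtain ⟨ρ, hρ⟩ := H
  exact ⟨ρ, fun j hj => hρ j (h hj)⟩

theorem exists_sat (ι : Type) [Fintype ι] (M : Set ℕ) (u : ℕ → ι → ℤ) (hM : M.Infinite) :
    ∃ X : Set ℕ, X ⊆ M ∧ X.Infinite ∧ ∀ β γ, Prp u X β γ ∨
      ∀ ρ : ℚ, {j | j ∈ X ∧ (u j β : ℚ) = ρ * u j γ}.Finite := by
  classical
  let R : Set ℕ → Finset (ι × ι) := fun X => Finset.univ.filter (fun x => Prp u X x.1 x.2)
  have hR : ∀ X X' : Set ℕ, X' ⊆ X → R X ⊆ R X' := by
    intro X X' h x hx
    simp only [R, Finset.mem_filter, Finset.mem_univ, true_and] at hx ⊢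
    exact Prp_mono h hx
  have hex : ∃ n : ℕ, ∃ X : Set ℕ, X ⊆ M ∧ X.Infinite ∧ Fintype.card (ι × ι) - (R X).card = n :=
    ⟨_, M, Set.Subset.rfl, hM, rfl⟩
  obtain ⟨X, hXM, hX, hXn⟩ := Nat.find_spec hex
  refine ⟨X, hXM, hX, fun β γ => ?_⟩
  by_contra hcon
  push Not at hcon
  obtain ⟨h1, ρ, hρ⟩ := hcon
  have hinf : {j | j ∈ X ∧ (u j β : ℚ) = ρ * u j γ}.Infinite := hρ
  set X' : Set ℕ := {j | j ∈ X ∧ (u j β : ℚ) = ρ * u j γ} with hX'
  have hsub : X' ⊆ X := fun j hj => hj.1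
  have h2 : Nat.find hex ≤ Fintype.card (ι × ι) - (R X').card :=
    Nat.find_min' hex ⟨X', hsub.trans hXM, hinf, rfl⟩
  rw [← hXn] at h2
  have h3 := Finset.card_le_card (hR X X' hsub)
  have h4 : (R X').card ≤ Fintype.card (ι × ι) := Finset.card_le_univ _
  have h5 : R X = R X' := Finset.eq_of_subset_of_card_le (hR X X' hsub) (by omega)
  have h6 : (β, γ) ∈ R X' := by
    simp only [R, Finset.mem_filter, Finset.mem_univ, true_and]
    exact ⟨ρ, fun j hj => hj.2⟩
  rw [← h5] at h6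
  simp only [R, Finset.mem_filter, Finset.mem_univ, true_and] at h6
  exact h1 h6

theorem grp (hU2 : ST_U2) (ι : Type) [Fintype ι] [DecidableEq ι] (S : Finset ℕ) (a : ι → ℚ)
    (ε : ℝ) (M : Set ℕ) (u : ℕ → ι → ℤ) (hS : ∀ p ∈ S, p.Prime) (hε : 0 < ε) (hM : M.Infinite)
    (hu : ∀ j ∈ M, ∀ i, SU S (u j i)) (α : ι) :
    ∃ (M' : Set ℕ) (Cl : Finset ι) (ρ : ι → ℚ), M' ⊆ M ∧ M'.Infinite ∧ α ∈ Cl ∧
      (∀ β ∈ Cl, ∀ j ∈ M', (u j β : ℚ) = ρ β * u j α) ∧
      ((∑ β ∈ Cl, a β * ρ β = 0) ∨ ∃ C : ℝ, 0 < C ∧ {j | j ∈ M' ∧ ¬ ∀ H : ℝ,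
        (∀ i', |(u j i' : ℝ)| ≤ H) → C * |(u j α : ℝ)| * H ^ (-ε) ≤
          |((∑ i, a i * (u j i : ℚ) : ℚ) : ℝ)|}.Finite) := by
  classical
  obtain ⟨X, hXM, hX, hsat⟩ := exists_sat ι M u hM
  obtain ⟨j0, hj0⟩ := hX.nonempty
  have hne : ∀ j ∈ X, ∀ i, (u j i : ℚ) ≠ 0 := by
    intro j hj i
    exact_mod_cast (hu j (hXM hj) i).1
  let s : Setoid ι :=
    { r := fun β γ => Prp u X β γ
      iseqv :=
        { refl := fun β => ⟨1, fun j _ => (one_mul _).symm⟩
          symm := by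
            rintro β γ ⟨ρ, hρ⟩
            have hρ0 : ρ ≠ 0 := by
              rintro rfl
              have := hρ j0 hj0
              rw [zero_mul] at this
              exact hne j0 hj0 β this
            refine ⟨ρ⁻¹, fun j hj => ?_⟩
            rw [hρ j hj, ← mul_assoc, inv_mul_cancel₀ hρ0, one_mul]
          trans := by
            rintro β γ δ ⟨ρ, hρ⟩ ⟨σ, hσ⟩
            refine ⟨ρ * σ, fun j hj => ?_⟩
            rw [hρ j hj, hσ j hj, mul_assoc] } }
  have hout : ∀ β : ι, Prp u X β (Quotient.out (Quotient.mk s β)) := by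
    intro β
    exact s.symm (Quotient.mk_out (s := s) β)
  choose ρ hρ using hout
  have hρ0 : ∀ β, ρ β ≠ 0 := by
    intro β h
    have := hρ β j0 hj0
    rw [h, zero_mul] at this
    exact hne j0 hj0 β this
  let b : Quotient s → ℚ := fun q => ∑ β ∈ Finset.univ.filter (fun β => Quotient.mk s β = q), a β * ρ β
  have hsum : ∀ j ∈ X, ∑ i, a i * (u j i : ℚ) = ∑ q : Quotient s, b q * (u j q.out : ℚ) := by
    intro j hj
    simp only [b, Finset.sum_mul]
    rw [← Finset.sum_fiberwise_of_maps_to (s := Finset.univ) (t := Finset.univ)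
      (g := fun β : ι => Quotient.mk s β) (fun _ _ => Finset.mem_univ _)]
    refine Finset.sum_congr rfl fun q _ => Finset.sum_congr rfl fun β hβ => ?_
    simp only [Finset.mem_filter, Finset.mem_univ, true_and] at hβ
    rw [hρ β j hj, hβ, mul_assoc]
  refine ⟨X, Finset.univ.filter (fun β => Quotient.mk s β = Quotient.mk s α),
    fun β => ρ β / ρ α, hXM, hX, by simp, ?_, ?_⟩
  · intro β hβ j hj
    simp only [Finset.mem_filter, Finset.mem_univ, true_and] at hβ
    rw [hρ β j hj, hρ α j hj, hβ]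
    have := hρ0 α
    field_simp
  · by_cases hb : b (Quotient.mk s α) = 0
    · left
      have : ∑ β ∈ Finset.univ.filter (fun β => Quotient.mk s β = Quotient.mk s α),
          a β * (ρ β / ρ α) = b (Quotient.mk s α) / ρ α := by
        simp only [b]
        rw [Finset.sum_div]
        refine Finset.sum_congr rfl fun β _ => ?_
        ring
      rw [this, hb, zero_div]
    · right
      obtain ⟨C, hC, hfin⟩ := hU2 {q : Quotient s // b q ≠ 0} S (fun q => b q.1) ε X
        (fun j q => u j q.1.out) none hS ⟨⟨_, hb⟩⟩ (fun q => q.2) hε hX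
        (fun j hj q => hu j (hXM hj) _)
        (by
          intro q q' σ hqq'
          rcases hsat q.1.out q'.1.out with h | h
          · exfalso
            apply hqq'
            apply Subtype.ext
            have h1 : s.r q.1.out q'.1.out := h
            have h2 := Quotient.sound (s := s) h1
            rwa [Quotient.out_eq, Quotient.out_eq] at h2
          · exact h σ)
        (by simp [plc])
      refine ⟨C * |((ρ α : ℚ) : ℝ)|⁻¹, by
        have : ((ρ α : ℚ) : ℝ) ≠ 0 := by exact_mod_cast hρ0 α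
        positivity, hfin.subset ?_⟩
      rintro j ⟨hj, hjn⟩
      refine ⟨hj, fun hall => hjn ?_⟩
      intro H hH
      have h1 := hall ⟨_, hb⟩ H (fun q => hH _)
      have h2 : ∑ q : {q : Quotient s // b q ≠ 0}, b q.1 * (u j q.1.out : ℚ)
          = ∑ i, a i * (u j i : ℚ) := by
        rw [hsum j hj]
        rw [← Finset.sum_subtype (Finset.univ.filter (fun q : Quotient s => b q ≠ 0))
          (by intro x; simp) (fun q : Quotient s => b q * (u j q.out : ℚ))]
        rw [Finset.sum_filter_of_ne]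
        intro q _ hq hb0
        exact hq (by rw [hb0, zero_mul])
      rw [h2] at h1
      simp only [av] at h1
      have h3 : |((u j α : ℚ) : ℝ)| = |((ρ α : ℚ) : ℝ)| *
          |(((u j (Quotient.mk s α).out : ℤ) : ℚ) : ℝ)| := by
        rw [hρ α j hj]
        push_cast
        rw [abs_mul]
      have h4 : |((ρ α : ℚ) : ℝ)| ≠ 0 := by
        have : ((ρ α : ℚ) : ℝ) ≠ 0 := by exact_mod_cast hρ0 α
        positivity
      have h5 : |(u j α : ℝ)| = |((u j α : ℚ) : ℝ)| := by push_cast; rfl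
      rw [h5, h3]
      calc C * |((ρ α : ℚ) : ℝ)|⁻¹ * (|((ρ α : ℚ) : ℝ)| *
            |(((u j (Quotient.mk s α).out : ℤ) : ℚ) : ℝ)|) * H ^ (-ε)
          = C * |(((u j (Quotient.mk s α).out : ℤ) : ℚ) : ℝ)| * H ^ (-ε) *
            (|((ρ α : ℚ) : ℝ)|⁻¹ * |((ρ α : ℚ) : ℝ)|) := by ring
        _ = C * |(((u j (Quotient.mk s α).out : ℤ) : ℚ) : ℝ)| * H ^ (-ε) := by
          rw [inv_mul_cancel₀ h4, mul_one]
        _ ≤ _ := h1

end Pool.Agent.Helper27.SUB
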