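import Pool.Agent.Helper27.SUB.T2c
import Pool.Agent.Helper46.HB.C

/-!
Project SUB, row T2.
-/

set_option autoImplicit false

namespace Pool.Agent.Helper27.SUB

open Finset Pool.Agent.Helper70.SUB

theorem pigeonS {β : Type} {M : Set ℕ} (hM : M.Infinite) (f : ℕ → β) (s : Set β) (hs : s.Finite)
    (hf : ∀ j ∈ M, f j ∈ s) : ∃ b ∈ s, {j | j ∈ M ∧ f j = b}.Infinite := by
  by_contra hcon
  have h1 : ∀ b ∈ s, {j | j ∈ M ∧ f j = b}.Finite := by
    intro b hb
    by_contra h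
    exact hcon ⟨b, hb, h⟩
  apply hM
  refine (hs.biUnion h1).subset ?_
  intro j hj
  exact Set.mem_biUnion (hf j hj) ⟨hj, rfl⟩

theorem zeta_ge_one (k : ℕ) (hk : 2 ≤ k) :
    1 ≤ ∑' n : ℕ, (1 : ℝ) / ((n + 1 : ℕ) : ℝ) ^ k := by
  have hs : Summable (fun n : ℕ => (1 : ℝ) / ((n + 1 : ℕ) : ℝ) ^ k) :=
    (summable_nat_add_iff 1 (f := fun n : ℕ => 1 / ((n : ℝ) ^ k))).mpr
      (Real.summable_one_div_nat_pow.mpr (by omega))
  have h := hs.le_tsum 0 (fun n _ => by positivity)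
  simpa using h

theorem T2 (hU2 : ST_U2) : ST_T2 := by
  classical
  intro t H
  by_contra hcon
  push Not at hcon
  choose k W c c0 h2 hcard hW hc hc0 hrel hnon using hcon
  -- the constant term vanishes
  obtain ⟨R1, hR1⟩ : ∃ R1 : ℕ, ∀ j, R1 ≤ j → 4 ≤ j ∧ c0 j = 0 := by
    obtain ⟨B, hB⟩ := exists_nat_gt ((t : ℝ) * H * (16 * Z4))
    refine ⟨max 4 B, fun j hj => ⟨(le_max_left _ _).trans hj, ?_⟩⟩
    have hj4 : 4 ≤ j := (le_max_left _ _).trans hj
    have hjB : B ≤ j := (le_max_right _ _).trans hj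
    by_contra h0
    have hz := zeta_ge_one (k j) (h2 j)
    have h1 : (1 : ℝ) ≤ |(c0 j : ℝ)| := by
      exact_mod_cast Int.one_le_abs h0
    have h3 : (1 : ℝ) ≤ |(c0 j : ℝ) * ∑' n : ℕ, (1 : ℝ) / ((n + 1 : ℕ) : ℝ) ^ (k j)| := by
      rw [abs_mul]
      have h4 : (1 : ℝ) ≤ |∑' n : ℕ, (1 : ℝ) / ((n + 1 : ℕ) : ℝ) ^ (k j)| := hz.trans (le_abs_self _)
      nlinarith [abs_nonneg (c0 j : ℝ)]
    rw [← hrel j] at h3
    have h5 : |∑ r ∈ W j, (c j r : ℝ) * dz r (k j - r)| ≤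
        ∑ _r ∈ W j, (H : ℝ) * (16 * Z4 / 2 ^ j) := by
      refine (Finset.abs_sum_le_sum_abs _ _).trans (Finset.sum_le_sum fun r hr => ?_)
      rw [abs_mul]
      have hrj := (hW j r hr).1
      have h6 : |(c j r : ℝ)| ≤ (H : ℝ) := by exact_mod_cast hc j r hr
      have h7 : |dz r (k j - r)| ≤ 16 * Z4 / 2 ^ j := by
        rw [abs_of_nonneg (dz_nonneg _ _)]
        refine (dz_le r (k j - r) (hj4.trans hrj)).trans ?_
        have := Z4_nonneg
        apply div_le_div_of_nonneg_left (by positivity) (by positivity)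
        exact pow_le_pow_right₀ (by norm_num) hrj
      exact mul_le_mul h6 h7 (abs_nonneg _) (by positivity)
    rw [Finset.sum_const, nsmul_eq_mul] at h5
    have h8 : ((W j).card : ℝ) ≤ t := by exact_mod_cast hcard j
    have hZ := Z4_nonneg
    have h9 : ((W j).card : ℝ) * ((H : ℝ) * (16 * Z4 / 2 ^ j)) ≤ (t : ℝ) * ((H : ℝ) * (16 * Z4 / 2 ^ j)) :=
      mul_le_mul_of_nonneg_right h8 (by positivity)
    have h10 : (t : ℝ) * ((H : ℝ) * (16 * Z4 / 2 ^ j)) < 1 := by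
      have h11 : (t : ℝ) * ((H : ℝ) * (16 * Z4 / 2 ^ j)) = (t : ℝ) * H * (16 * Z4) / 2 ^ j := by ring
      rw [h11, div_lt_one (by positivity)]
      have h12 : (j : ℝ) < (2 : ℝ) ^ j := by exact_mod_cast Nat.lt_two_pow_self
      have h13 : (B : ℝ) ≤ (j : ℝ) := by exact_mod_cast hjB
      linarith
    linarith
  -- the nonzero terms
  obtain ⟨W', hW'⟩ : ∃ W' : ℕ → Finset ℕ, ∀ j, W' j = (W j).filter (fun r => c j r ≠ 0) :=
    ⟨_, fun _ => rfl⟩
  have hW'mem : ∀ j r, r ∈ W' j → j ≤ r ∧ r < k j ∧ c j r ≠ 0 ∧ |c j r| ≤ (H : ℤ) := by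
    intro j r hr
    rw [hW', Finset.mem_filter] at hr
    exact ⟨(hW j r hr.1).1, (hW j r hr.1).2, hr.2, hc j r hr.1⟩
  have hW'sum : ∀ j, R1 ≤ j → ∑ r ∈ W' j, (c j r : ℝ) * dz r (k j - r) = 0 := by
    intro j hj
    have h1 := hrel j
    rw [(hR1 j hj).2] at h1
    rw [hW', Finset.sum_filter_of_ne]
    · rw [h1]; simp
    · intro r _ hr h0
      apply hr
      rw [h0]; simp
  have hW'ne : ∀ j, R1 ≤ j → (W' j).Nonempty := by
    intro j hj
    have h1 := hnon j
    have h3 : ¬ ∀ r ∈ W j, c j r = 0 := fun h => (h1 h) (hR1 j hj).2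
    push Not at h3
    obtain ⟨r, hr, hr0⟩ := h3
    exact ⟨r, by rw [hW', Finset.mem_filter]; exact ⟨hr, hr0⟩⟩
  -- pigeonhole
  have hM0 : {j : ℕ | R1 ≤ j}.Infinite := Set.infinite_of_not_bddAbove (by
    rintro ⟨b, hb⟩
    have := hb (show R1 + b + 1 ∈ {j : ℕ | R1 ≤ j} by simp only [Set.mem_ofPred_eq]; omega)
    omega)
  obtain ⟨n', hn't, hM1⟩ := pigeonS hM0 (fun j => (W' j).card) (Set.Iic t) (Set.finite_Iic t)
    (fun j _ => by
      rw [Set.mem_Iic, hW']
      exact (Finset.card_filter_le _ _).trans (hcard j))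
  obtain ⟨n, hn⟩ : ∃ n, n' = n + 1 := by
    obtain ⟨j, hj, hjn⟩ := hM1.nonempty
    have h1 := Finset.card_pos.mpr (hW'ne j hj)
    have h3 : (W' j).card = n' := hjn
    exact ⟨n' - 1, by omega⟩
  subst hn
  obtain ⟨r, hrdef⟩ : ∃ r : ℕ → Fin (n + 1) → ℕ, ∀ j, ∀ h : (W' j).card = n + 1,
      ∀ i, r j i = (W' j).orderEmbOfFin h i := by
    refine ⟨fun j => if h : (W' j).card = n + 1 then (W' j).orderEmbOfFin h else fun _ => 0, ?_⟩
    intro j h i
    simp only [h, dif_pos]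
  obtain ⟨a, -, hM2⟩ := pigeonS hM1 (fun j => fun i => c j (r j i))
    (Set.pi Set.univ (fun _ : Fin (n + 1) => Set.Icc (-(H : ℤ)) H))
    (Set.Finite.pi (fun _ => Set.finite_Icc _ _))
    (by
      rintro j ⟨hj, hjn⟩ i -
      have hmem : r j i ∈ W' j := by
        rw [hrdef j hjn]
        exact Finset.orderEmbOfFin_mem _ _ _
      exact Set.mem_Icc.mpr (abs_le.mp (hW'mem j _ hmem).2.2.2))
  obtain ⟨M, hMdef⟩ : ∃ M : Set ℕ, M = {j | j ∈ {j | j ∈ {j : ℕ | R1 ≤ j} ∧ (W' j).card = n + 1} ∧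
    (fun i => c j (r j i)) = a} := ⟨_, rfl⟩
  have hMinf : M.Infinite := by rw [hMdef]; exact hM2
  have hM : ∀ j ∈ M, R1 ≤ j ∧ (W' j).card = n + 1 ∧ ∀ i, c j (r j i) = a i := by
    intro j hj
    rw [hMdef] at hj
    exact ⟨hj.1.1, hj.1.2, fun i => congrFun hj.2 i⟩
  have hmem : ∀ j ∈ M, ∀ i, r j i ∈ W' j := by
    intro j hj i
    rw [hrdef j (hM j hj).2.1]
    exact Finset.orderEmbOfFin_mem _ _ _
  have hmono : ∀ j ∈ M, StrictMono (r j) := by
    intro j hj i i' hii'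
    rw [hrdef j (hM j hj).2.1, hrdef j (hM j hj).2.1]
    exact ((W' j).orderEmbOfFin (hM j hj).2.1).strictMono hii'
  have hsurj : ∀ j ∈ M, ∀ x ∈ W' j, ∃ i, r j i = x := by
    intro j hj x hx
    have h1 : x ∈ Set.range ((W' j).orderEmbOfFin (hM j hj).2.1) := by
      rw [Finset.range_orderEmbOfFin]
      exact hx
    obtain ⟨i, hi⟩ := h1
    exact ⟨i, by rw [hrdef j (hM j hj).2.1]; exact hi⟩
  have hmin : ∀ j ∈ M, ∀ x ∈ W' j, r j 0 ≤ x := by
    intro j hj x hx
    obtain ⟨i, rfl⟩ := hsurj j hj x hx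
    exact (hmono j hj).monotone (Fin.zero_le i)
  obtain ⟨C, hHBL⟩ := Pool.Agent.Helper43.OD.height_bound_linear
  refine core hU2 n a H M r k ?_ ?_ hMinf hmono ?_ ?_ ?_ ?_
  · intro i
    obtain ⟨j, hj⟩ := hMinf.nonempty
    rw [← (hM j hj).2.2 i]
    exact (hW'mem j _ (hmem j hj i)).2.2.1
  · intro i
    obtain ⟨j, hj⟩ := hMinf.nonempty
    rw [← (hM j hj).2.2 i]
    exact (hW'mem j _ (hmem j hj i)).2.2.2
  · intro j hj
    exact (hW'mem j _ (hmem j hj 0)).1
  · intro j hj i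
    exact (hW'mem j _ (hmem j hj i)).2.1
  · intro j hj
    rw [← hW'sum j (hM j hj).1]
    conv_rhs => rw [← Finset.map_orderEmbOfFin_univ (W' j) (hM j hj).2.1]
    rw [Finset.sum_map]
    refine Finset.sum_congr rfl fun i _ => ?_
    rw [← (hM j hj).2.2 i, hrdef j (hM j hj).2.1]
    rfl
  · intro B
    obtain ⟨B2, hB2⟩ := exists_nat_gt (|C| * B * |Real.log (2 * (H : ℝ))|)
    refine (Set.finite_le_nat B2).subset ?_
    rintro j ⟨hj, hjB⟩
    have hj4 : 4 ≤ j := (hR1 j (hM j hj).1).1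
    have h0 := hW'mem j _ (hmem j hj 0)
    have hS1 : 1 ≤ k j - r j 0 := by omega
    have hkey := hHBL (k j) (k j - r j 0) 0 (fun s => if k j - s ∈ W' j then c j (k j - s) else 0)
      (H : ℝ) hS1 (by omega)
      (Or.inr ⟨k j - r j 0, Finset.mem_Icc.mpr ⟨hS1, le_rfl⟩, by
        rw [show k j - (k j - r j 0) = r j 0 by omega, if_pos (hmem j hj 0)]
        exact h0.2.2.1⟩)
      (by simp)
      (by
        intro s _
        split_ifs with hs
        · exact_mod_cast (hW'mem j _ hs).2.2.2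
        · simp)
      (by
        simp only [Int.cast_zero, zero_mul]
        rw [← hW'sum j (hM j hj).1]
        have h3 : ∀ s ∈ Finset.Icc 1 (k j - r j 0),
            (((if k j - s ∈ W' j then c j (k j - s) else 0 : ℤ) : ℤ) : ℝ) * ∑' p : ℕ × ℕ,
              (1 : ℝ) / ((((p.1 + p.2 + 2 : ℕ) : ℝ) ^ (k j - s)) * (((p.2 + 1 : ℕ) : ℝ) ^ s))
            = if k j - s ∈ W' j then (c j (k j - s) : ℝ) * dz (k j - s) s else 0 := by
          intro s _
          split_ifs
          · rfl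
          · simp
        rw [Finset.sum_congr rfl h3, ← Finset.sum_filter]
        refine Finset.sum_nbij' (fun s => k j - s) (fun x => k j - x) ?_ ?_ ?_ ?_ ?_
        · intro s hs
          rw [Finset.mem_filter] at hs
          exact hs.2
        · intro x hx
          have hx1 := hW'mem j x hx
          have hx2 := hmin j hj x hx
          rw [Finset.mem_filter, Finset.mem_Icc]
          refine ⟨⟨by omega, by omega⟩, ?_⟩
          rw [show k j - (k j - x) = x by omega]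
          exact hx
        · intro s hs
          rw [Finset.mem_filter, Finset.mem_Icc] at hs
          omega
        · intro x hx
          have hx1 := hW'mem j x hx
          omega
        · intro s hs
          rw [Finset.mem_filter, Finset.mem_Icc] at hs
          rw [show k j - (k j - s) = s by omega])
    simp only [Set.mem_ofPred_eq]
    have hjk : (j : ℝ) ≤ (k j : ℝ) := by exact_mod_cast (by omega : j ≤ k j)
    have h5 : C * ((k j - r j 0 : ℕ) : ℝ) * Real.log (2 * (H : ℝ)) ≤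
        |C| * B * |Real.log (2 * (H : ℝ))| := by
      refine (le_abs_self _).trans ?_
      rw [abs_mul, abs_mul]
      refine mul_le_mul_of_nonneg_right ?_ (abs_nonneg _)
      refine mul_le_mul_of_nonneg_left ?_ (abs_nonneg _)
      rw [Nat.abs_cast]
      exact_mod_cast hjB
    have h6 : (j : ℝ) < (B2 : ℝ) := by linarith
    exact_mod_cast h6.le

end Pool.Agent.Helper27.SUB
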