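import Pool.Agent.Helper27.SUB.Grp

/-!
Project SUB, row T2, second part: truncation of double zeta values.
-/

set_option autoImplicit false

namespace Pool.Agent.Helper27.SUB

open Finset Pool.Agent.Helper70.SUB

/-- the denominators -/
def ND (r s : ℕ) (x : ℕ × ℕ) : ℕ := (x.1 + x.2 + 2) ^ r * (x.2 + 1) ^ s

theorem ND_pos (r s : ℕ) (x : ℕ × ℕ) : 0 < ND r s x := by
  unfold ND; positivity

noncomputable def g4 (x : ℕ × ℕ) : ℝ := 1 / ((x.1 + x.2 + 2 : ℕ) : ℝ) ^ 4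

theorem g4_nonneg (x : ℕ × ℕ) : 0 ≤ g4 x := by unfold g4; positivity

theorem g4_summable : Summable g4 := by
  have h1 : Summable (fun n : ℕ => 1 / (((n + 1 : ℕ) : ℝ) ^ 2)) :=
    (summable_nat_add_iff 1 (f := fun n : ℕ => 1 / ((n : ℝ) ^ 2))).mpr
      (Real.summable_one_div_nat_pow.mpr (by norm_num))
  have h2 := h1.mul_of_nonneg h1 (fun n => by positivity) (fun n => by positivity)
  refine Summable.of_nonneg_of_le g4_nonneg (fun x => ?_) h2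
  unfold g4
  rw [one_div_mul_one_div]
  apply one_div_le_one_div_of_le (by positivity)
  have h3 : (x.1 + 1) * (x.2 + 1) ≤ (x.1 + x.2 + 2) ^ 2 := by nlinarith [Nat.zero_le x.1, Nat.zero_le x.2]
  have h4 : (((x.1 + 1 : ℕ) : ℝ) * ((x.2 + 1 : ℕ) : ℝ)) ≤ ((x.1 + x.2 + 2 : ℕ) : ℝ) ^ 2 := by
    exact_mod_cast h3
  calc ((x.1 + 1 : ℕ) : ℝ) ^ 2 * ((x.2 + 1 : ℕ) : ℝ) ^ 2
      = (((x.1 + 1 : ℕ) : ℝ) * ((x.2 + 1 : ℕ) : ℝ)) ^ 2 := by ring
    _ ≤ (((x.1 + x.2 + 2 : ℕ) : ℝ) ^ 2) ^ 2 := by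
      apply pow_le_pow_left₀ (by positivity) h4
    _ = _ := by ring

noncomputable def Z4 : ℝ := ∑' x, g4 x

theorem Z4_nonneg : 0 ≤ Z4 := tsum_nonneg g4_nonneg

theorem dz_eq (r s : ℕ) : dz r s = ∑' x, 1 / (ND r s x : ℝ) := by
  unfold dz ND
  refine tsum_congr fun x => ?_
  push_cast
  rfl

/-- the basic bound -/
theorem term_le (r s b : ℕ) (hb : 1 ≤ b) (hr : 4 ≤ r) (x : ℕ × ℕ) (hx : b ≤ x.1 + x.2 + 2) :
    1 / (ND r s x : ℝ) ≤ (b : ℝ) ^ 4 / (b : ℝ) ^ r * g4 x := by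
  have hb0 : (0 : ℝ) < b := by exact_mod_cast hb
  have hm0 : (0 : ℝ) < ((x.1 + x.2 + 2 : ℕ) : ℝ) := by positivity
  have hbm : (b : ℝ) ≤ ((x.1 + x.2 + 2 : ℕ) : ℝ) := by exact_mod_cast hx
  unfold g4
  have h1 : ((x.1 + x.2 + 2 : ℕ) : ℝ) ^ r ≤ (ND r s x : ℝ) := by
    have : (x.1 + x.2 + 2) ^ r ≤ ND r s x := by
      unfold ND
      exact Nat.le_mul_of_pos_right _ (by positivity)
    exact_mod_cast this
  have h2 : (b : ℝ) ^ (r - 4) ≤ ((x.1 + x.2 + 2 : ℕ) : ℝ) ^ (r - 4) :=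
    pow_le_pow_left₀ hb0.le hbm _
  have h3 : ∀ y : ℝ, y ^ r = y ^ (r - 4) * y ^ 4 := by
    intro y
    rw [← pow_add]
    congr 1
    omega
  calc 1 / (ND r s x : ℝ) ≤ 1 / ((x.1 + x.2 + 2 : ℕ) : ℝ) ^ r :=
        one_div_le_one_div_of_le (by positivity) h1
    _ = 1 / (((x.1 + x.2 + 2 : ℕ) : ℝ) ^ (r - 4) * ((x.1 + x.2 + 2 : ℕ) : ℝ) ^ 4) := by rw [h3]
    _ ≤ 1 / ((b : ℝ) ^ (r - 4) * ((x.1 + x.2 + 2 : ℕ) : ℝ) ^ 4) := by
        apply one_div_le_one_div_of_le (by positivity)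
        exact mul_le_mul_of_nonneg_right h2 (by positivity)
    _ = (b : ℝ) ^ 4 / (b : ℝ) ^ r * (1 / ((x.1 + x.2 + 2 : ℕ) : ℝ) ^ 4) := by
        rw [h3 (b : ℝ)]
        field_simp

theorem term_summable (r s : ℕ) (hr : 4 ≤ r) : Summable (fun x => 1 / (ND r s x : ℝ)) := by
  refine Summable.of_nonneg_of_le (fun x => by positivity) (fun x => ?_)
    (g4_summable.mul_left ((1 : ℕ) : ℝ))
  have := term_le r s 1 le_rfl hr x (by omega)
  simpa using this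

theorem dz_nonneg (r s : ℕ) : 0 ≤ dz r s := by
  rw [dz_eq]
  exact tsum_nonneg (fun x => by positivity)

theorem dz_le (r s : ℕ) (hr : 4 ≤ r) : dz r s ≤ 16 * Z4 / 2 ^ r := by
  rw [dz_eq]
  have h1 : ∀ x, 1 / (ND r s x : ℝ) ≤ (16 / 2 ^ r : ℝ) * g4 x := by
    intro x
    have := term_le r s 2 (by norm_num) hr x (by omega)
    norm_num at this ⊢
    exact this
  calc ∑' x, 1 / (ND r s x : ℝ) ≤ ∑' x, (16 / 2 ^ r : ℝ) * g4 x :=
        (term_summable r s hr).tsum_le_tsum h1 (g4_summable.mul_left _)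
    _ = (16 / 2 ^ r : ℝ) * Z4 := by rw [tsum_mul_left]; rfl
    _ = _ := by ring

/-- the pairs of the main part -/
def Fs (P r0 r s : ℕ) : Finset (ℕ × ℕ) :=
  (Finset.range P ×ˢ Finset.range P).filter (fun x => ND r s x ≤ P ^ r0)

theorem mem_Fs {P r0 r s : ℕ} (hr0 : 4 ≤ r0) (hr : r0 ≤ r) (x : ℕ × ℕ) :
    x ∈ Fs P r0 r s ↔ ND r s x ≤ P ^ r0 := by
  unfold Fs
  simp only [Finset.mem_filter, Finset.mem_product, Finset.mem_range, and_iff_right_iff_imp]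
  intro h
  have h1 : (x.1 + x.2 + 2) ^ r0 ≤ P ^ r0 := by
    refine le_trans ?_ h
    unfold ND
    calc (x.1 + x.2 + 2) ^ r0 ≤ (x.1 + x.2 + 2) ^ r := Nat.pow_le_pow_right (by omega) hr
      _ ≤ _ := Nat.le_mul_of_pos_right _ (by positivity)
  have h2 : x.1 + x.2 + 2 ≤ P := (Nat.pow_le_pow_iff_left (by omega)).mp h1
  omega

theorem dz_trunc (P r0 r s : ℕ) (hP : 1 ≤ P) (hr0 : 4 ≤ r0) (hr : r0 ≤ r) :
    |dz r s - ∑ x ∈ Fs P r0 r s, 1 / (ND r s x : ℝ)| ≤ (P : ℝ) ^ 4 * Z4 / (P : ℝ) ^ r0 := by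
  have hs := term_summable r s (hr0.trans hr)
  have hP0 : (0 : ℝ) < P := by exact_mod_cast hP
  have h1 := hs.sum_add_tsum_compl (s := Fs P r0 r s)
  rw [dz_eq, ← h1, add_sub_cancel_left, tsum_subtype (s := ((↑(Fs P r0 r s) : Set (ℕ × ℕ)))ᶜ)
    (f := fun x => 1 / (ND r s x : ℝ))]
  have h2 : ∀ x, 0 ≤ (((↑(Fs P r0 r s) : Set (ℕ × ℕ)))ᶜ).indicator
      (fun x => 1 / (ND r s x : ℝ)) x := by
    intro x
    exact Set.indicator_nonneg (fun x _ => by positivity) x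
  rw [abs_of_nonneg (tsum_nonneg h2)]
  have h3 : ∀ x, (((↑(Fs P r0 r s) : Set (ℕ × ℕ)))ᶜ).indicator
      (fun x => 1 / (ND r s x : ℝ)) x ≤ (P : ℝ) ^ 4 / (P : ℝ) ^ r0 * g4 x := by
    intro x
    by_cases hx : x ∈ (((↑(Fs P r0 r s) : Set (ℕ × ℕ)))ᶜ)
    · rw [Set.indicator_of_mem hx]
      have hx' : ¬ ND r s x ≤ P ^ r0 := by
        rw [← mem_Fs hr0 hr x]
        simpa using hx
      rcases le_or_gt P (x.1 + x.2 + 2) with hm | hm
      · have h4 := term_le r s P hP (hr0.trans hr) x hm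
        refine h4.trans (mul_le_mul_of_nonneg_right ?_ (g4_nonneg x))
        apply div_le_div_of_nonneg_left (by positivity) (by positivity)
        exact pow_le_pow_right₀ (by exact_mod_cast hP) hr
      · have h5 : ((P : ℝ)) ^ r0 ≤ (ND r s x : ℝ) := by
          have : P ^ r0 ≤ ND r s x := (not_le.mp hx').le
          exact_mod_cast this
        have h6 : (1 : ℝ) ≤ (P : ℝ) ^ 4 * g4 x := by
          unfold g4
          rw [mul_one_div, le_div_iff₀ (by positivity), one_mul]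
          apply pow_le_pow_left₀ (by positivity)
          exact_mod_cast hm.le
        calc 1 / (ND r s x : ℝ) ≤ 1 / (P : ℝ) ^ r0 :=
              one_div_le_one_div_of_le (by positivity) h5
          _ ≤ 1 / (P : ℝ) ^ r0 * ((P : ℝ) ^ 4 * g4 x) :=
              le_mul_of_one_le_right (by positivity) h6
          _ = _ := by ring
    · rw [Set.indicator_of_notMem hx]
      have := g4_nonneg x
      positivity
  calc _ ≤ ∑' x, (P : ℝ) ^ 4 / (P : ℝ) ^ r0 * g4 x :=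
        (hs.indicator _).tsum_le_tsum h3 (g4_summable.mul_left _)
    _ = (P : ℝ) ^ 4 / (P : ℝ) ^ r0 * Z4 := by rw [tsum_mul_left]; rfl
    _ = _ := by ring

end Pool.Agent.Helper27.SUB
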