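import Pool.Agent.Helper27.SUB.T2a

/-!
Project SUB, row T2, third part: arithmetic of the proportional terms.
-/

set_option autoImplicit false

namespace Pool.Agent.Helper27.SUB

open Finset Pool.Agent.Helper70.SUB

theorem unbdd {X : Set ℕ} (hX : X.Infinite) (f : ℕ → ℕ) (h : ∀ j ∈ X, j ≤ f j) (B : ℕ)
    (hB : ∀ j ∈ X, f j ≤ B) : False := by
  obtain ⟨j, hj, hjB⟩ := hX.exists_gt B
  have h1 := h j hj
  have h2 := hB j hj
  omega

theorem cls (p m n : ℕ) (hp : p.Prime) (hm : 2 ≤ m) (hn : 1 ≤ n) (hnm : n < m) (X : Set ℕ)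
    (hX : X.Infinite) (r0 ri s : ℕ → ℕ) (h01 : ∀ j ∈ X, j ≤ r0 j) (h02 : ∀ j ∈ X, r0 j ≤ ri j)
    (hk : ∀ B, {j | j ∈ X ∧ s j + ri j - r0 j ≤ B}.Finite) (ρ : ℚ)
    (h : ∀ j ∈ X, (p : ℚ) ^ (r0 j) = ρ * ((m : ℚ) ^ (ri j) * (n : ℚ) ^ (s j))) :
    m = p ∧ n = 1 ∧ ∃ d : ℕ, (∀ j ∈ X, ri j = r0 j + d) ∧ ρ = 1 / (p : ℚ) ^ d := by
  obtain ⟨j0, hj0⟩ := hX.nonempty
  have hp0 : p ≠ 0 := hp.ne_zero
  have hm0 : m ≠ 0 := by omega
  have hn0 : n ≠ 0 := by omega
  have hpq : (p : ℚ) ≠ 0 := by exact_mod_cast hp0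
  have hmq : (m : ℚ) ≠ 0 := by exact_mod_cast hm0
  have hnq : (n : ℚ) ≠ 0 := by exact_mod_cast hn0
  have key : ∀ j ∈ X, p ^ (r0 j) * (m ^ (ri j0) * n ^ (s j0)) = p ^ (r0 j0) * (m ^ (ri j) * n ^ (s j)) := by
    intro j hj
    have h1 := h j hj
    have h2 := h j0 hj0
    have h3 : (p : ℚ) ^ (r0 j) * ((m : ℚ) ^ (ri j0) * (n : ℚ) ^ (s j0))
        = (p : ℚ) ^ (r0 j0) * ((m : ℚ) ^ (ri j) * (n : ℚ) ^ (s j)) := by
      rw [h1, h2]; ring
    exact_mod_cast h3
  have hfac : ∀ j ∈ X, ∀ q : ℕ, r0 j * p.factorization q + (ri j0 * m.factorization q + s j0 * n.factorization q)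
      = r0 j0 * p.factorization q + (ri j * m.factorization q + s j * n.factorization q) := by
    intro j hj q
    have h1 := congrArg (fun N : ℕ => N.factorization q) (key j hj)
    simp only [Nat.factorization_mul (pow_ne_zero _ hp0) (mul_ne_zero (pow_ne_zero _ hm0) (pow_ne_zero _ hn0)),
      Nat.factorization_mul (pow_ne_zero _ hm0) (pow_ne_zero _ hn0), Nat.factorization_pow,
      Finsupp.add_apply, Finsupp.smul_apply, smul_eq_mul] at h1
    exact h1
  -- all primes dividing m are p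
  have hmp : ∀ {q : ℕ}, q.Prime → q ∣ m → q = p := by
    intro q hq hqm
    by_contra hne
    have h1 : 1 ≤ m.factorization q := (hq.dvd_iff_one_le_factorization hm0).mp hqm
    have h2 : p.factorization q = 0 := Nat.factorization_eq_zero_of_not_dvd (fun hd =>
      hne ((Nat.prime_dvd_prime_iff_eq hq hp).mp hd))
    refine unbdd hX ri (fun j hj => (h01 j hj).trans (h02 j hj))
      (ri j0 * m.factorization q + s j0 * n.factorization q) (fun j hj => ?_)
    have h3 := hfac j hj q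
    rw [h2] at h3
    nlinarith [Nat.zero_le (s j * n.factorization q), Nat.zero_le (ri j)]
  have hme := Nat.eq_prime_pow_of_unique_prime_dvd hm0 hmp
  set e := m.primeFactorsList.length with he
  have hpp : p.factorization p = 1 := hp.factorization_self
  have hmf : m.factorization p = e := by
    rw [hme, Nat.factorization_pow, Finsupp.smul_apply, hpp, smul_eq_mul, mul_one]
  have he1 : e = 1 := by
    have he0 : e ≠ 0 := by
      intro h0
      rw [h0, pow_zero] at hme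
      omega
    by_contra hne
    have he2 : 2 ≤ e := by omega
    refine unbdd hX ri (fun j hj => (h01 j hj).trans (h02 j hj))
      (ri j0 * m.factorization p + s j0 * n.factorization p) (fun j hj => ?_)
    have h3 := hfac j hj p
    rw [hpp, hmf] at h3
    rw [hmf]
    have h4 := h02 j hj
    nlinarith [Nat.zero_le (s j * n.factorization p), Nat.zero_le (ri j), Nat.zero_le (r0 j0)]
  rw [he1, pow_one] at hme
  have hnp : n.factorization p = 0 := Nat.factorization_eq_zero_of_not_dvd (fun hd => by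
    have := Nat.le_of_dvd (by omega) hd
    omega)
  have hd : ∀ j ∈ X, ri j = r0 j + (ri j0 - r0 j0) := by
    intro j hj
    have h3 := hfac j hj p
    rw [hpp, hmf, he1, hnp] at h3
    have h4 := h02 j0 hj0
    omega
  have hn1 : n = 1 := by
    by_contra hne
    obtain ⟨q, hq, hqn⟩ := Nat.exists_prime_and_dvd hne
    have hqle : q ≤ n := Nat.le_of_dvd (by omega) hqn
    have hqp : q ≠ p := by omega
    have h1 : 1 ≤ n.factorization q := (hq.dvd_iff_one_le_factorization hn0).mp hqn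
    have h2 : p.factorization q = 0 := Nat.factorization_eq_zero_of_not_dvd (fun hd =>
      hqp ((Nat.prime_dvd_prime_iff_eq hq hp).mp hd))
    have h5 : m.factorization q = 0 := by rw [hme]; exact h2
    have hs : ∀ j ∈ X, s j = s j0 := by
      intro j hj
      have h3 := hfac j hj q
      rw [h2, h5] at h3
      have h6 : s j0 * n.factorization q = s j * n.factorization q := by omega
      exact (Nat.eq_of_mul_eq_mul_right (by omega) h6).symm
    apply hX
    refine (hk (s j0 + (ri j0 - r0 j0))).subset (fun j hj => ⟨hj, ?_⟩)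
    rw [hs j hj, hd j hj]
    omega
  refine ⟨hme, hn1, ri j0 - r0 j0, hd, ?_⟩
  have h1 := h j0 hj0
  rw [hme, hn1, Nat.cast_one, one_pow, mul_one, hd j0 hj0, pow_add] at h1
  have h2 : (p : ℚ) ^ r0 j0 ≠ 0 := pow_ne_zero _ hpq
  have h3 : (p : ℚ) ^ (ri j0 - r0 j0) ≠ 0 := pow_ne_zero _ hpq
  rw [eq_div_iff h3]
  have h4 : (p : ℚ) ^ r0 j0 * 1 = (p : ℚ) ^ r0 j0 * (ρ * (p : ℚ) ^ (ri j0 - r0 j0)) := by
    rw [mul_one]
    calc (p : ℚ) ^ r0 j0 = ρ * ((p : ℚ) ^ r0 j0 * (p : ℚ) ^ (ri j0 - r0 j0)) := h1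
      _ = _ := by ring
  exact (mul_left_cancel₀ h2 h4).symm

theorem fin_arith {ι : Type} [DecidableEq ι] (p : ℕ) (hp : 1 < p) (Cl : Finset ι) (a : ι → ℤ)
    (d : ι → ℕ) (hCl : Cl.Nonempty) (hinj : ∀ β ∈ Cl, ∀ γ ∈ Cl, d β = d γ → β = γ)
    (ha0 : ∀ β ∈ Cl, a β ≠ 0) (hap : ∀ β ∈ Cl, |a β| < p)
    (hsum : ∑ β ∈ Cl, (a β : ℚ) * (1 / (p : ℚ) ^ (d β)) = 0) : False := by
  obtain ⟨β, hβ, hmax⟩ := Finset.exists_max_image Cl d hCl
  have hp0 : (p : ℚ) ≠ 0 := by
    have : p ≠ 0 := by omega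
    exact_mod_cast this
  have h1 : ∑ γ ∈ Cl, a γ * (p : ℤ) ^ (d β - d γ) = 0 := by
    have h2 : ((∑ γ ∈ Cl, a γ * (p : ℤ) ^ (d β - d γ) : ℤ) : ℚ) = 0 := by
      push_cast
      calc ∑ γ ∈ Cl, (a γ : ℚ) * (p : ℚ) ^ (d β - d γ)
          = ∑ γ ∈ Cl, (p : ℚ) ^ (d β) * ((a γ : ℚ) * (1 / (p : ℚ) ^ (d γ))) := by
            refine Finset.sum_congr rfl fun γ hγ => ?_
            have h3 : (p : ℚ) ^ (d β) = (p : ℚ) ^ (d β - d γ) * (p : ℚ) ^ (d γ) := by
              rw [← pow_add]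
              congr 1
              have := hmax γ hγ
              omega
            rw [h3]
            have h4 : (p : ℚ) ^ (d γ) ≠ 0 := pow_ne_zero _ hp0
            field_simp
        _ = 0 := by rw [← Finset.mul_sum, hsum, mul_zero]
    exact_mod_cast h2
  rw [← Finset.add_sum_erase Cl _ hβ, Nat.sub_self, pow_zero, mul_one] at h1
  have h2 : (p : ℤ) ∣ ∑ γ ∈ Cl.erase β, a γ * (p : ℤ) ^ (d β - d γ) := by
    refine Finset.dvd_sum fun γ hγ => ?_
    rw [Finset.mem_erase] at hγ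
    have h3 : d γ < d β := by
      refine lt_of_le_of_ne (hmax γ hγ.2) (fun h => hγ.1 (hinj γ hγ.2 β hβ h))
    exact Dvd.dvd.mul_left (dvd_pow_self _ (by omega)) _
  have h3 : (p : ℤ) ∣ a β := by
    have : a β = - ∑ γ ∈ Cl.erase β, a γ * (p : ℤ) ^ (d β - d γ) := by linarith
    rw [this]
    exact (dvd_neg).mpr h2
  exact ha0 β hβ (Int.eq_zero_of_abs_lt_dvd h3 (hap β hβ))

theorem pigeonF {β : Type} [Finite β] {M : Set ℕ} (hM : M.Infinite) (f : ℕ → β) :
    ∃ b, {j | j ∈ M ∧ f j = b}.Infinite := by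
  by_contra hcon
  have h1 : ∀ b, {j | j ∈ M ∧ f j = b}.Finite := by
    intro b
    by_contra h
    exact hcon ⟨b, h⟩
  apply hM
  refine (Set.finite_iUnion h1).subset ?_
  intro j hj
  exact Set.mem_iUnion.mpr ⟨f j, hj, rfl⟩

end Pool.Agent.Helper27.SUB
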