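import Pool.Agent.Helper27.SUB.T2b

/-!
Project SUB, row T2, fourth part: the contradiction for a sequence.
-/

set_option autoImplicit false

namespace Pool.Agent.Helper27.SUB

open Finset Pool.Agent.Helper70.SUB

/-- indices of the terms -/
abbrev Ix (P n : ℕ) : Type := (Fin P × Fin P) × Fin (n + 1)

def NI {P n : ℕ} (r : Fin (n + 1) → ℕ) (k : ℕ) (x : Ix P n) : ℕ :=
  ND (r x.2) (k - r x.2) ((x.1.1 : ℕ), (x.1.2 : ℕ))

def FI (P n : ℕ) (r : Fin (n + 1) → ℕ) (k : ℕ) : Finset (Ix P n) :=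
  Finset.univ.filter (fun x => NI r k x ≤ P ^ (r 0))

theorem sumFI (P n : ℕ) (r : Fin (n + 1) → ℕ) (k : ℕ) (a : Fin (n + 1) → ℝ) :
    ∑ x ∈ FI P n r k, a x.2 / (NI r k x : ℝ)
      = ∑ i, a i * ∑ y ∈ Fs P (r 0) (r i) (k - r i), 1 / (ND (r i) (k - r i) y : ℝ) := by
  unfold FI
  rw [Finset.sum_filter, Fintype.sum_prod_type, Finset.sum_comm]
  refine Finset.sum_congr rfl fun i _ => ?_
  unfold Fs
  rw [Finset.sum_filter, Finset.sum_product, Fintype.sum_prod_type, Finset.mul_sum,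
    Finset.sum_range]
  refine Finset.sum_congr rfl fun y1 _ => ?_
  rw [Finset.mul_sum, Finset.sum_range]
  refine Finset.sum_congr rfl fun y2 _ => ?_
  unfold NI
  simp only
  split_ifs
  · ring
  · ring

theorem core (hU2 : ST_U2) (n : ℕ) (a : Fin (n + 1) → ℤ) (H : ℕ) (M : Set ℕ)
    (r : ℕ → Fin (n + 1) → ℕ) (k : ℕ → ℕ) (ha0 : ∀ i, a i ≠ 0) (haH : ∀ i, |a i| ≤ (H : ℤ))
    (hM : M.Infinite) (hr : ∀ j ∈ M, StrictMono (r j)) (hrj : ∀ j ∈ M, j ≤ r j 0)
    (hrk : ∀ j ∈ M, ∀ i, r j i < k j)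
    (hrel : ∀ j ∈ M, ∑ i, (a i : ℝ) * dz (r j i) (k j - r j i) = 0)
    (hk0 : ∀ B, {j | j ∈ M ∧ k j - r j 0 ≤ B}.Finite) : False := by
  classical
  obtain ⟨p, hpH, hp⟩ := Nat.exists_infinite_primes (H + 1)
  have hp2 := hp.two_le
  obtain ⟨P, hP⟩ : ∃ P, P = p ^ 2 := ⟨_, rfl⟩
  have hpP : p < P := by rw [hP]; nlinarith
  have hP0 : 0 < P := by omega
  have hM4 : {j | j ∈ M ∧ 4 ≤ j}.Infinite := by
    intro hfin
    apply hM
    refine (hfin.union (Set.finite_lt_nat 4)).subset ?_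
    intro j hj
    rcases le_or_gt 4 j with h | h
    · exact Or.inl ⟨hj, h⟩
    · exact Or.inr h
  obtain ⟨F, hF⟩ := pigeonF hM4 (fun j => FI P n (r j) (k j))
  obtain ⟨M1, hM1def⟩ : ∃ M1 : Set ℕ, M1 = {j | j ∈ {j | j ∈ M ∧ 4 ≤ j} ∧
    FI P n (r j) (k j) = F} := ⟨_, rfl⟩
  rw [← hM1def] at hF
  have hM1 : ∀ j ∈ M1, j ∈ M ∧ 4 ≤ j ∧ FI P n (r j) (k j) = F := by
    intro j hj
    rw [hM1def] at hj
    exact ⟨hj.1.1, hj.1.2, hj.2⟩
  have hr0i : ∀ j ∈ M1, ∀ i, r j 0 ≤ r j i := by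
    intro j hj i
    exact (hr j (hM1 j hj).1).monotone (Fin.zero_le i)
  let ι : Type := {x : Ix P n // x ∈ F}
  let N : ℕ → ι → ℕ := fun j x => NI (r j) (k j) x.1
  have hN0 : ∀ j x, 0 < N j x := fun j x => ND_pos _ _ _
  let D : ℕ → ℕ := fun j => ∏ y, N j y
  have hD0 : ∀ j, 0 < D j := fun j => Finset.prod_pos (fun y _ => hN0 j y)
  let u : ℕ → ι → ℤ := fun j x => ((∏ y ∈ (Finset.univ : Finset ι).erase x, N j y : ℕ) : ℤ)
  have hu0 : ∀ j x, (0 : ℤ) < u j x := by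
    intro j x
    have : 0 < ∏ y ∈ (Finset.univ : Finset ι).erase x, N j y :=
      Finset.prod_pos (fun y _ => hN0 j y)
    show (0 : ℤ) < ((∏ y ∈ (Finset.univ : Finset ι).erase x, N j y : ℕ) : ℤ)
    exact Int.natCast_pos.mpr this
  have hDu : ∀ j x, u j x * (N j x : ℤ) = (D j : ℤ) := by
    intro j x
    have := Finset.prod_erase_mul (Finset.univ : Finset ι) (N j) (Finset.mem_univ x)
    simp only [u, D]
    rw [← this]
    push_cast
    ring
  have hNle : ∀ j ∈ M1, ∀ x, N j x ≤ P ^ (r j 0) := by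
    intro j hj x
    have h1 : x.1 ∈ FI P n (r j) (k j) := by
      rw [(hM1 j hj).2.2]
      exact x.2
    exact (Finset.mem_filter.mp h1).2
  obtain ⟨S, hSdef⟩ : ∃ S : Finset ℕ, S = (Finset.range (2 * P + 1)).filter Nat.Prime := ⟨_, rfl⟩
  have hS : ∀ q ∈ S, q.Prime := by
    intro q hq
    rw [hSdef] at hq
    exact (Finset.mem_filter.mp hq).2
  have hSU : ∀ j ∈ M1, ∀ x, SU S (u j x) := by
    intro j hj x
    refine ⟨(hu0 j x).ne', fun q hq hqu => ?_⟩
    have h1 : q ∣ ∏ y ∈ (Finset.univ : Finset ι).erase x, N j y := Int.natCast_dvd_natCast.mp hqu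
    obtain ⟨y, -, hy⟩ := (hq.prime.dvd_finsetProd_iff _).mp h1
    have hy1 := y.1.1.1.2
    have hy2 := y.1.1.2.2
    rw [hSdef, Finset.mem_filter, Finset.mem_range]
    refine ⟨?_, hq⟩
    simp only [N, NI, ND] at hy
    rcases (hq.dvd_mul).mp hy with h | h
    · have h3 := Nat.le_of_dvd (by omega) (hq.dvd_of_dvd_pow h)
      omega
    · have h3 := Nat.le_of_dvd (by omega) (hq.dvd_of_dvd_pow h)
      omega
  -- the special term
  obtain ⟨j1, hj1⟩ := hF.nonempty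
  have hx0 : (((⟨p - 2, by omega⟩ : Fin P), (⟨0, hP0⟩ : Fin P)), (0 : Fin (n + 1))) ∈ F := by
    rw [← (hM1 j1 hj1).2.2]
    unfold FI
    rw [Finset.mem_filter]
    refine ⟨Finset.mem_univ _, ?_⟩
    simp only [NI, ND]
    rw [show p - 2 + 0 + 2 = p by omega, show 0 + 1 = 1 by rfl, one_pow, mul_one]
    exact Nat.pow_le_pow_left hpP.le _
  let α : ι := ⟨(((⟨p - 2, by omega⟩ : Fin P), (⟨0, hP0⟩ : Fin P)), (0 : Fin (n + 1))), hx0⟩
  have hNα : ∀ j, N j α = p ^ (r j 0) := by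
    intro j
    simp only [N, NI, ND, α]
    rw [show p - 2 + 0 + 2 = p by omega, show 0 + 1 = 1 by rfl, one_pow, mul_one]
  obtain ⟨cF, hcF⟩ : ∃ cF : ℕ, cF = Fintype.card ι := ⟨_, rfl⟩
  obtain ⟨ε, hε, hεc⟩ : ∃ ε : ℝ, 0 < ε ∧ 2 * cF * ε ≤ 1 / 2 := by
    refine ⟨1 / (4 * (cF + 1)), by positivity, ?_⟩
    rw [mul_one_div, div_le_div_iff₀ (by positivity) (by norm_num)]
    linarith
  obtain ⟨M', Cl, ρ, hM', hM'inf, hαCl, hρ, halt⟩ := grp hU2 ι S (fun x => (a x.1.2 : ℚ)) ε M1 u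
    hS hε hF hSU α
  rcases halt with hzero | ⟨C, hC, hfin⟩
  · -- the group of the special term
    obtain ⟨j2, hj2⟩ := hM'inf.nonempty
    have hcl : ∀ β ∈ Cl, ((β.1.1.1 : ℕ) + (β.1.1.2 : ℕ) + 2 = p) ∧ ((β.1.1.2 : ℕ) + 1 = 1) ∧
        ρ β = 1 / (p : ℚ) ^ (r j2 β.1.2 - r j2 0) := by
      intro β hβ
      obtain ⟨h1, h2, d, hd, hρd⟩ := cls p ((β.1.1.1 : ℕ) + (β.1.1.2 : ℕ) + 2)
        ((β.1.1.2 : ℕ) + 1) hp (by omega) (by omega) (by omega) M' hM'inf (fun j => r j 0)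
        (fun j => r j β.1.2) (fun j => k j - r j β.1.2)
        (fun j hj => hrj j (hM1 j (hM' hj)).1) (fun j hj => hr0i j (hM' hj) _)
        (by
          intro B
          refine (hk0 B).subset ?_
          rintro j ⟨hj, hjB⟩
          refine ⟨(hM1 j (hM' hj)).1, ?_⟩
          have := hrk j (hM1 j (hM' hj)).1 β.1.2
          omega)
        (ρ β)
        (by
          intro j hj
          have h3 : (u j β : ℚ) * (N j β : ℚ) = (u j α : ℚ) * (N j α : ℚ) := by
            have h4 := hDu j β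
            have h5 := hDu j α
            rw [← h5] at h4
            exact_mod_cast h4
          rw [hρ β hβ j hj, hNα] at h3
          have h6 : (u j α : ℚ) ≠ 0 := by exact_mod_cast (hu0 j α).ne'
          have h7 : (N j β : ℚ) = (((β.1.1.1 : ℕ) + (β.1.1.2 : ℕ) + 2 : ℕ) : ℚ) ^ (r j β.1.2) *
              (((β.1.1.2 : ℕ) + 1 : ℕ) : ℚ) ^ (k j - r j β.1.2) := by
            simp only [N, NI, ND]
            push_cast
            ring
          rw [← h7]
          apply mul_left_cancel₀ h6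
          push_cast at h3
          linarith)
      refine ⟨h1, h2, ?_⟩
      have h8 : r j2 β.1.2 = r j2 0 + d := hd j2 hj2
      rw [h8, Nat.add_sub_cancel_left]
      exact hρd
    refine fin_arith p (by omega) Cl (fun β => a β.1.2) (fun β => r j2 β.1.2 - r j2 0)
      ⟨α, hαCl⟩ ?_ (fun β _ => ha0 _) ?_ ?_
    · intro β hβ γ hγ hd
      obtain ⟨h1, h2, -⟩ := hcl β hβ
      obtain ⟨h3, h4, -⟩ := hcl γ hγ
      have h5 := hr0i j2 (hM' hj2) β.1.2
      have h6 := hr0i j2 (hM' hj2) γ.1.2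
      have h7 : β.1.2 = γ.1.2 := (hr j2 (hM1 j2 (hM' hj2)).1).injective (by omega)
      apply Subtype.ext
      apply Prod.ext
      · apply Prod.ext
        · apply Fin.ext; omega
        · apply Fin.ext; omega
      · exact h7
    · intro β _
      have := haH β.1.2
      have h9 : (H : ℤ) < (p : ℤ) := by exact_mod_cast (by omega : H < p)
      exact lt_of_le_of_lt this h9
    · rw [← hzero]
      refine Finset.sum_congr rfl fun β hβ => ?_
      rw [(hcl β hβ).2.2]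
  · -- size
    obtain ⟨K, hK⟩ : ∃ K : ℝ, K = (n + 1) * H * ((P : ℝ) ^ 4 * Z4) := ⟨_, rfl⟩
    have hK0 : 0 ≤ K := by
      rw [hK]
      have := Z4_nonneg
      positivity
    obtain ⟨B, hB⟩ := exists_nat_gt ((K / C) ^ 2)
    obtain ⟨j, ⟨hj, hjn⟩, hjB⟩ := (hM'inf.sdiff hfin).exists_gt B
    have hj1' := hM1 j (hM' hj)
    have hgood := Classical.not_not.mp (fun h => hjn ⟨hj, h⟩) (D j : ℝ) (by
      intro x
      have h1 := hDu j x
      have h2 : u j x ≤ (D j : ℤ) := by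
        have h3 : (1 : ℤ) ≤ (N j x : ℤ) := by exact_mod_cast hN0 j x
        nlinarith [hu0 j x]
      rw [abs_of_pos (by exact_mod_cast hu0 j x)]
      exact_mod_cast h2)
    have hDr : (0 : ℝ) < (D j : ℝ) := by exact_mod_cast hD0 j
    have hNr : ∀ x, (0 : ℝ) < (N j x : ℝ) := fun x => by exact_mod_cast hN0 j x
    have hur : ∀ x, (u j x : ℝ) = (D j : ℝ) / (N j x : ℝ) := by
      intro x
      rw [eq_div_iff (hNr x).ne']
      exact_mod_cast hDu j x
    -- the truncated sum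
    obtain ⟨T, hT⟩ : ∃ T : ℝ, T = ∑ x : ι, (a x.1.2 : ℝ) / (N j x : ℝ) := ⟨_, rfl⟩
    have hsumT : ((∑ x, (a x.1.2 : ℚ) * (u j x : ℚ) : ℚ) : ℝ) = (D j : ℝ) * T := by
      push_cast
      rw [hT, Finset.mul_sum]
      refine Finset.sum_congr rfl fun x _ => ?_
      rw [hur x]
      ring
    have hTle : |T| ≤ K / (P : ℝ) ^ (r j 0) := by
      have h1 : T = ∑ i, (a i : ℝ) * ∑ y ∈ Fs P (r j 0) (r j i) (k j - r j i),
          1 / (ND (r j i) (k j - r j i) y : ℝ) := by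
        rw [← sumFI P n (r j) (k j) (fun i => (a i : ℝ)), hj1'.2.2, hT]
        exact Finset.sum_coe_sort F (fun x => (a x.2 : ℝ) / (NI (r j) (k j) x : ℝ))
      have h2 : T = - ∑ i, (a i : ℝ) * (dz (r j i) (k j - r j i) -
          ∑ y ∈ Fs P (r j 0) (r j i) (k j - r j i), 1 / (ND (r j i) (k j - r j i) y : ℝ)) := by
        simp only [mul_sub, Finset.sum_sub_distrib]
        rw [hrel j hj1'.1, ← h1]
        ring
      rw [h2, abs_neg]
      calc _ ≤ ∑ i : Fin (n + 1), |(a i : ℝ) * (dz (r j i) (k j - r j i) -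
          ∑ y ∈ Fs P (r j 0) (r j i) (k j - r j i), 1 / (ND (r j i) (k j - r j i) y : ℝ))| :=
            Finset.abs_sum_le_sum_abs _ _
        _ ≤ ∑ _i : Fin (n + 1), (H : ℝ) * ((P : ℝ) ^ 4 * Z4 / (P : ℝ) ^ (r j 0)) := by
            refine Finset.sum_le_sum fun i _ => ?_
            rw [abs_mul]
            have h3 : |(a i : ℝ)| ≤ (H : ℝ) := by exact_mod_cast haH i
            have h4 : 4 ≤ r j 0 := hj1'.2.1.trans (hrj j hj1'.1)
            exact mul_le_mul h3 (dz_trunc P (r j 0) (r j i) (k j - r j i) hP0 h4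
              (hr0i j (hM' hj) i)) (abs_nonneg _) (by positivity)
        _ = K / (P : ℝ) ^ (r j 0) := by
            rw [Finset.sum_const, Finset.card_univ, Fintype.card_fin, nsmul_eq_mul, hK]
            push_cast
            ring
    rw [hsumT, hur α, hNα, abs_mul, abs_of_pos hDr, abs_of_pos (div_pos hDr (by
      have : 0 < p := by omega
      positivity))] at hgood
    have hpr : (1 : ℝ) < (p : ℝ) := by exact_mod_cast (by omega : 1 < p)
    have hp0r : (0 : ℝ) < (p : ℝ) := by linarith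
    obtain ⟨x, hx⟩ : ∃ x : ℝ, x = (p : ℝ) ^ ((r j 0 : ℝ) / 2) := ⟨_, rfl⟩
    have hx0' : 0 < x := by rw [hx]; exact Real.rpow_pos_of_pos hp0r _
    have hx2 : (p : ℝ) ^ (r j 0) = x ^ 2 := by
      rw [hx, ← Real.rpow_natCast, ← Real.rpow_natCast, ← Real.rpow_mul hp0r.le]
      congr 1
      push_cast
      ring
    have hxP : (P : ℝ) ^ (r j 0) = x ^ 4 := by
      rw [hP]
      push_cast
      rw [← pow_mul, mul_comm 2, pow_mul, hx2]
      ring
    have hDε : (D j : ℝ) ^ ε ≤ x := by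
      have h1 : (D j : ℝ) ≤ (p : ℝ) ^ (2 * r j 0 * cF) := by
        have h2 : D j ≤ (P ^ (r j 0)) ^ cF := by
          rw [hcF]
          exact Finset.prod_le_pow_card _ _ _ (fun y _ => hNle j (hM' hj) y)
        have h3 : (P ^ (r j 0)) ^ cF = p ^ (2 * r j 0 * cF) := by
          rw [hP, ← pow_mul, ← pow_mul]
          congr 1
          ring
        rw [h3] at h2
        exact_mod_cast h2
      calc (D j : ℝ) ^ ε ≤ ((p : ℝ) ^ (2 * r j 0 * cF)) ^ ε :=
            Real.rpow_le_rpow hDr.le h1 hε.le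
        _ = (p : ℝ) ^ (((2 * r j 0 * cF : ℕ) : ℝ) * ε) := by
            rw [Real.rpow_mul hp0r.le, Real.rpow_natCast]
        _ ≤ x := by
            rw [hx]
            apply Real.rpow_le_rpow_of_exponent_le hpr.le
            push_cast
            have h5 : (0 : ℝ) ≤ (r j 0 : ℝ) := Nat.cast_nonneg _
            calc 2 * (r j 0 : ℝ) * cF * ε = (r j 0 : ℝ) * (2 * cF * ε) := by ring
              _ ≤ (r j 0 : ℝ) * (1 / 2) := mul_le_mul_of_nonneg_left hεc h5
              _ = _ := by ring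
    have hfinal : C * x ≤ K := by
      have h1 : C * ((D j : ℝ) / x ^ 2) * (D j : ℝ) ^ (-ε) ≤ (D j : ℝ) * (K / x ^ 4) := by
        rw [← hx2, ← hxP]
        push_cast at hgood
        exact hgood.trans (mul_le_mul_of_nonneg_left hTle hDr.le)
      have h2 : (0 : ℝ) < (D j : ℝ) ^ ε := Real.rpow_pos_of_pos hDr _
      rw [Real.rpow_neg hDr.le] at h1
      have h3 : C * x ^ 2 ≤ K * (D j : ℝ) ^ ε := by
        have h4 : C * ((D j : ℝ) / x ^ 2) * ((D j : ℝ) ^ ε)⁻¹ * ((D j : ℝ) ^ ε * x ^ 4 / D j)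
            ≤ (D j : ℝ) * (K / x ^ 4) * ((D j : ℝ) ^ ε * x ^ 4 / D j) :=
          mul_le_mul_of_nonneg_right h1 (by positivity)
        have h5 : C * ((D j : ℝ) / x ^ 2) * ((D j : ℝ) ^ ε)⁻¹ * ((D j : ℝ) ^ ε * x ^ 4 / D j)
            = C * x ^ 2 := by
          field_simp
        have h6 : (D j : ℝ) * (K / x ^ 4) * ((D j : ℝ) ^ ε * x ^ 4 / D j) = K * (D j : ℝ) ^ ε := by
          field_simp
        rw [h5, h6] at h4
        exact h4
      have h7 : C * x ^ 2 ≤ K * x := h3.trans (mul_le_mul_of_nonneg_left hDε hK0)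
      have h8 : C * x * x ≤ K * x := by
        calc C * x * x = C * x ^ 2 := by ring
          _ ≤ _ := h7
      exact le_of_mul_le_mul_right h8 hx0'
    have h1 : x ≤ K / C := by
      rw [le_div_iff₀ hC]
      linarith
    have h2 : x ^ 2 ≤ (K / C) ^ 2 := pow_le_pow_left₀ hx0'.le h1 2
    have h3 : (r j 0 : ℝ) < x ^ 2 := by
      rw [← hx2]
      have h4 : r j 0 < p ^ (r j 0) := Nat.lt_pow_self (by omega)
      exact_mod_cast h4
    have h5 : (B : ℝ) < (r j 0 : ℝ) := by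
      exact_mod_cast lt_of_lt_of_le hjB (hrj j hj1'.1)
    linarith

end Pool.Agent.Helper27.SUB
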