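import Pool.Agent.Helper27.SUB.U3b

/-!
Lower bound for sums of moving integers which are almost S-units.
-/

set_option autoImplicit false

namespace Pool.Agent.Helper27.SUB

open Finset Pool.Agent.Helper70.SUB Pool.Agent.Helper89.SUB

/-- the form with all coefficients `1` at the real place, the coordinate at the others -/
def wv {n : ℕ} (κ : Fin n) : Option ℕ → Fin n → ℚ
  | none => fun _ => 1
  | some _ => Pi.single κ 1

theorem wv_ne {n : ℕ} (κ : Fin n) (v : Option ℕ) : wv κ v κ ≠ 0 := by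
  cases v <;> simp [wv]

theorem U3 (hAV0 : ST_AV) (hSUBT : ST_SUBT) (S : Finset ℕ) (hSp : ∀ p ∈ S, p.Prime)
    (ι : Type) [Fintype ι] [DecidableEq ι] (M : Set ℕ) (X : ℕ → ℝ) (u : ℕ → ι → ℤ)
    (δ η ε C : ℝ) (i0 : ι) (hδ : 0 < δ) (hη : 0 ≤ η) (hε : 0 < ε) (hC : 0 < C)
    (h4 : 4 * (Fintype.card ι : ℝ) * η ≤ δ) (h2 : 2 * (Fintype.card ι : ℝ) * η ≤ ε)
    (hu : HM S M X u δ η) (hup : ∀ j ∈ M, ∀ i, |(u j i : ℝ)| ≤ X j ^ C)
    (hlow : ∀ j ∈ M, |((∑ i, u j i : ℤ) : ℝ)| < |(u j i0 : ℝ)| * X j ^ (-ε)) : False := by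
  have hAV1 := hAV0
  obtain ⟨av0, -, hAV⟩ := hAV0
  obtain ⟨avp, avm, -, -, avi, -, avpf, -, -⟩ := hAV S hSp
  have hM := hu.inf
  obtain ⟨n, hn⟩ : ∃ n, Fintype.card ι = n := ⟨_, rfl⟩
  obtain ⟨e⟩ : Nonempty (Fin n ≃ ι) := ⟨(Fintype.equivFinOfCardEq hn).symm⟩
  have hn0 : 0 < n := by rw [← hn]; exact Fintype.card_pos_iff.mpr ⟨i0⟩
  rcases Nat.lt_or_ge n 2 with hn2 | hn2
  · -- one term
    have h1 : ∀ i, i = i0 := by
      intro i
      have : Fintype.card ι ≤ 1 := by omega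
      exact Fintype.card_le_one_iff.mp this i i0
    obtain ⟨j, hj⟩ := hM.nonempty
    have h3 := hlow j hj
    have h4 : ∑ i, u j i = u j i0 :=
      Finset.sum_eq_single i0 (fun i _ hi => absurd (h1 i) hi)
        (fun h => absurd (Finset.mem_univ _) h)
    rw [h4] at h3
    have h5 : X j ^ (-ε) ≤ 1 :=
      Real.rpow_le_one_of_one_le_of_nonpos (hu.X1 j hj) (by linarith)
    have h6 := mul_le_mul_of_nonneg_left h5 (abs_nonneg (u j i0 : ℝ))
    linarith
  -- at least two terms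
  have hx : ∀ j, ∃ x : Fin n → ℤ, (∀ k, u j (e k) =
      (univ.gcd fun k : Fin n => u j (e k)) * x k) ∧ univ.gcd x = 1 := by
    intro j
    obtain ⟨x, h1, h2⟩ := Finset.extract_gcd (s := (univ : Finset (Fin n)))
      (fun k => u j (e k)) ⟨⟨0, hn0⟩, Finset.mem_univ _⟩
    exact ⟨x, fun k => h1 k (Finset.mem_univ _), h2⟩
  choose x hx1 hx2 using hx
  obtain ⟨g, hg⟩ : ∃ g : ℕ → ℤ, ∀ j, g j = univ.gcd fun k : Fin n => u j (e k) :=
    ⟨_, fun _ => rfl⟩
  have hux : ∀ j k, u j (e k) = g j * x j k := fun j k => by rw [hg]; exact hx1 j k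
  have huxQ : ∀ j k, (u j (e k) : ℚ) = g j * x j k := fun j k => by
    rw [hux]; push_cast; rfl
  have hg0 : ∀ j ∈ M, g j ≠ 0 := fun j hj h => by
    have h1 := hux j ⟨0, hn0⟩
    rw [h, zero_mul] at h1
    exact hu.ne j hj _ h1
  have hx0 : ∀ j ∈ M, ∀ k, x j k ≠ 0 := fun j hj k h => by
    have h1 := hux j k
    rw [h, mul_zero] at h1
    exact hu.ne j hj _ h1
  -- the vectors are long
  obtain ⟨k0, hk0⟩ : ∃ k : Fin n, k = ⟨0, by omega⟩ := ⟨_, rfl⟩
  obtain ⟨k1, hk1⟩ : ∃ k : Fin n, k = ⟨1, by omega⟩ := ⟨_, rfl⟩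
  have hk01 : e k0 ≠ e k1 := by
    intro h
    have h1 := e.injective h
    rw [hk0, hk1, Fin.mk.injEq] at h1
    omega
  have hlong : ∀ j ∈ M, X j ^ δ ≤ ‖x j‖ := by
    intro j hj
    have h1 := hu.ht j hj _ _ hk01
    have h2 : (u j (e k0) : ℚ) / u j (e k1) = (x j k0 : ℚ) / x j k1 := by
      rw [huxQ, huxQ, mul_div_mul_left]
      exact_mod_cast hg0 j hj
    rw [h2] at h1
    refine h1.trans ((hq_le _ _ (hx0 j hj _)).trans (max_le ?_ ?_))
    · have := norm_le_pi_norm (x j) k0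
      rwa [Int.norm_eq_abs] at this
    · have := norm_le_pi_norm (x j) k1
      rwa [Int.norm_eq_abs] at this
  have hshort : ∀ j ∈ M, ‖x j‖ ≤ X j ^ C := by
    intro j hj
    have hX0 : 0 ≤ X j := zero_le_one.trans (hu.X1 j hj)
    refine (pi_norm_le_iff_of_nonneg (Real.rpow_nonneg hX0 _)).2 fun k => ?_
    refine le_trans ?_ (hup j hj (e k))
    rw [Int.norm_eq_abs, hux]
    push_cast
    rw [abs_mul]
    have h1 : (1 : ℝ) ≤ |(g j : ℝ)| := by exact_mod_cast Int.one_le_abs (hg0 j hj)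
    exact le_mul_of_one_le_left (abs_nonneg _) h1
  have hfin : ∀ H : ℝ, {j | j ∈ M ∧ ‖x j‖ ≤ H}.Finite := by
    intro H
    refine (hu.fin ((max H 0) ^ (1 / δ))).subset ?_
    rintro j ⟨hj, hjH⟩
    refine ⟨hj, ?_⟩
    have h2 : 0 ≤ X j := zero_le_one.trans (hu.X1 j hj)
    have h1 : X j ^ δ ≤ max H 0 := ((hlong j hj).trans hjH).trans (le_max_left _ _)
    calc X j = (X j ^ δ) ^ (1 / δ) := by
          rw [← Real.rpow_mul h2, mul_one_div_cancel hδ.ne', Real.rpow_one]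
      _ ≤ _ := Real.rpow_le_rpow (Real.rpow_nonneg h2 _) h1 (by positivity)
  obtain ⟨κ, hκ⟩ : ∃ κ : Fin n, κ = e.symm i0 := ⟨_, rfl⟩
  have hprod : ∀ j ∈ M, ∏ v ∈ plc S, ∏ i, av v ((frm κ (wv κ v)).mulVec (cv (x j)) i) ≤
      ‖x j‖ ^ (-(ε / (2 * C))) := by
    intro j hj
    obtain ⟨P, hP⟩ : ∃ P : ℝ, P = ∏ v ∈ plc S, ∏ i,
      av v ((frm κ (wv κ v)).mulVec (cv (x j)) i) := ⟨_, rfl⟩
    have hP0 : 0 ≤ P := by
      rw [hP]
      exact Finset.prod_nonneg fun v _ => Finset.prod_nonneg fun i _ => av0 _ _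
    have hXj := hu.X1 j hj
    have hX0 : 0 < X j := lt_of_lt_of_le one_pos hXj
    have hg1 : 1 ≤ ∏ v ∈ plc S, av v (g j) := avpf _ (hg0 j hj)
    have hgr : (0 : ℝ) < |(g j : ℝ)| := abs_pos.mpr (by exact_mod_cast hg0 j hj)
    have e1' : ∀ i, ∏ v ∈ plc S, av v (x j i) ≤ X j ^ η := by
      intro i
      have h1 : ∏ v ∈ plc S, (av v (g j) * av v (x j i)) =
          ∏ v ∈ plc S, av v (u j (e i)) :=
        Finset.prod_congr rfl fun v hv => by rw [← avm v hv, huxQ]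
      rw [Finset.prod_mul_distrib] at h1
      have h2 : 0 ≤ ∏ v ∈ plc S, av v (x j i) := Finset.prod_nonneg fun v _ => av0 _ _
      calc ∏ v ∈ plc S, av v (x j i) ≤ (∏ v ∈ plc S, av v (g j)) * ∏ v ∈ plc S, av v (x j i) :=
            le_mul_of_one_le_left h2 hg1
        _ = _ := h1
        _ ≤ _ := hu.pr j hj _
    obtain ⟨Q, hQ⟩ : ∃ Q : ℝ, Q = ∏ v ∈ plc S, av v (x j κ) := ⟨_, rfl⟩
    have hQ0 : 0 < Q := by
      rw [hQ]
      refine Finset.prod_pos fun v hv => avp v hv _ ?_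
      exact_mod_cast hx0 j hj κ
    have hsum : |((∑ l, x j l : ℤ) : ℝ)| ≤ |(x j κ : ℝ)| * X j ^ (-ε) := by
      have h1 : ∑ i, u j i = g j * ∑ l, x j l := by
        rw [← Equiv.sum_comp e, Finset.mul_sum]
        exact Finset.sum_congr rfl fun k _ => hux j k
      have h2 : u j i0 = g j * x j κ := by
        rw [← hux, hκ, Equiv.apply_symm_apply]
      have h3 := hlow j hj
      rw [h1, h2, Int.cast_mul, Int.cast_mul, abs_mul, abs_mul, mul_assoc] at h3
      exact (lt_of_mul_lt_mul_left h3 hgr.le).le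
    have e2 : P * Q ≤ (X j ^ (-ε) * Q) * (X j ^ η) ^ n := by
      rw [hP, hQ, ← Finset.prod_mul_distrib]
      have h1 : ∏ v ∈ plc S, ((∏ i, av v ((frm κ (wv κ v)).mulVec (cv (x j)) i)) *
          av v (x j κ)) = ∏ v ∈ plc S, (av v (∑ l, wv κ v l * cv (x j) l) *
            ∏ i, av v (x j i)) := by
        refine Finset.prod_congr rfl fun v _ => ?_
        exact frm_prod v κ (wv κ v) (cv (x j))
      rw [h1, Finset.prod_mul_distrib]
      have h3 : ∏ v ∈ plc S, av v (∑ l, wv κ v l * cv (x j) l) ≤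
          X j ^ (-ε) * ∏ v ∈ plc S, av v (x j κ) := by
        rw [plc, Finset.prod_insertNone, Finset.prod_insertNone, ← mul_assoc]
        have h5 : ∏ p ∈ S, av (some p) (∑ l, wv κ (some p) l * cv (x j) l) =
            ∏ p ∈ S, av (some p) (x j κ) := by
          refine Finset.prod_congr rfl fun p _ => ?_
          congr 1
          simp [wv, cv, Pi.single_apply]
        rw [h5]
        refine mul_le_mul_of_nonneg_right ?_ (Finset.prod_nonneg fun v _ => av0 _ _)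
        have h6 : av none (∑ l, wv κ none l * cv (x j) l) = |((∑ l, x j l : ℤ) : ℝ)| := by
          simp [wv, cv, av]
        have h7 : av none ((x j κ : ℤ) : ℚ) = |(x j κ : ℝ)| := by simp [av]
        rw [h6, h7, mul_comm]
        exact hsum
      have h4 : ∏ v ∈ plc S, ∏ i, av v (x j i) ≤ (X j ^ η) ^ n := by
        rw [Finset.prod_comm]
        calc ∏ i, ∏ v ∈ plc S, av v (x j i) ≤ ∏ _i : Fin n, X j ^ η :=
              Finset.prod_le_prod (fun i _ => Finset.prod_nonneg fun v _ => av0 _ _)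
                (fun i _ => e1' i)
          _ = _ := by rw [Finset.prod_const, Finset.card_univ, Fintype.card_fin]
      exact mul_le_mul h3 h4 (Finset.prod_nonneg fun v _ => Finset.prod_nonneg fun i _ => av0 _ _)
        (mul_nonneg (Real.rpow_nonneg hX0.le _) (hQ ▸ hQ0.le))
    have e3 : P ≤ X j ^ (-(ε / 2)) := by
      have h1 : P * Q ≤ (X j ^ (-ε) * (X j ^ η) ^ n) * Q := by linarith [e2]
      have h2' := le_of_mul_le_mul_right h1 hQ0
      refine h2'.trans ?_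
      rw [← Real.rpow_natCast, ← Real.rpow_mul hX0.le, ← Real.rpow_add hX0]
      apply Real.rpow_le_rpow_of_exponent_le hXj
      rw [hn] at h2
      linarith
    have hlj := hlong j hj
    have hn4 : 0 < ‖x j‖ := lt_of_lt_of_le (Real.rpow_pos_of_pos hX0 _) hlj
    rw [← hP]
    refine e3.trans ?_
    have h1 : X j ^ (-(ε / 2)) = (X j ^ C) ^ (-(ε / (2 * C))) := by
      rw [← Real.rpow_mul hX0.le]
      congr 1
      field_simp
    rw [h1]
    exact Real.rpow_le_rpow_of_nonpos hn4 (hshort j hj) (by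
      have : 0 < ε / (2 * C) := by positivity
      linarith)
  obtain ⟨b, hb0, hbi⟩ := hSUBT n S (fun v => frm κ (wv κ v)) (ε / (2 * C)) M x (by omega) hSp
    (fun v _ => frm_det _ _ (wv_ne κ v)) (by positivity) hM hfin hprod
  have hcard : Fintype.card {k : Fin n // b k ≠ 0} ≤ n :=
    (Fintype.card_subtype_le _).trans (by simp)
  refine rel3 hAV1 hSUBT S hSp δ η hδ hη (Fintype.card {k : Fin n // b k ≠ 0})
    {k : Fin n // b k ≠ 0} rfl X (fun k => b k.1)
    {j | j ∈ M ∧ ∑ i, b i * (x j i : ℚ) = 0} (fun j k => u j (e k.1)) ?_ ?_ ?_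
    (fun k => k.2) ?_
  · refine le_trans ?_ h4
    rw [hn]
    refine mul_le_mul_of_nonneg_right ?_ hη
    refine mul_le_mul_of_nonneg_left ?_ (by norm_num)
    exact_mod_cast hcard
  · exact (hu.sub (fun j hj => hj.1) hbi).comp (fun k : {k : Fin n // b k ≠ 0} => e k.1)
      (fun k k' h => Subtype.ext (e.injective h))
  · by_contra h
    apply hb0
    funext k
    by_contra hk
    exact h ⟨⟨k, hk⟩⟩
  · intro j hj
    have h1 : ∑ k : {k : Fin n // b k ≠ 0}, b k.1 * (u j (e k.1) : ℚ) =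
        ∑ k : Fin n, b k * (u j (e k) : ℚ) := by
      rw [← Finset.sum_filter_of_ne (s := univ) (p := fun k => b k ≠ 0)
        (f := fun k : Fin n => b k * (u j (e k) : ℚ)) (fun k _ hk h => hk (by
          show b k * (u j (e k) : ℚ) = 0
          rw [h, zero_mul]))]
      exact (Finset.sum_subtype (univ.filter fun k => b k ≠ 0) (fun k => by simp)
        (fun k : Fin n => b k * (u j (e k) : ℚ))).symm
    rw [h1]
    have h2 : ∑ k : Fin n, b k * (u j (e k) : ℚ) =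
        (g j : ℚ) * ∑ k : Fin n, b k * (x j k : ℚ) := by
      rw [Finset.mul_sum]
      refine Finset.sum_congr rfl fun k _ => ?_
      rw [huxQ]
      ring
    rw [h2, hj.2, mul_zero]

end Pool.Agent.Helper27.SUB
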