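import Pool.Agent.Helper27.SUB.T2c
import Pool.Agent.Helper27.SUB.U3

/-!
Relations between double zeta values with boundedly many terms: a nonsingular system,
truncation with weights, widely spaced primes.
-/

set_option autoImplicit false

namespace Pool.Agent.Helper27.SUB

open Finset Pool.Agent.Helper70.SUB

/-- a nonsingular system: the functions `f i` decrease faster and faster -/
theorem nons : ∀ (n : ℕ) (K : ℝ) (f : ℕ → ℕ → ℝ) (a : ℕ → ℝ), 2 * (n : ℝ) + 2 ≤ K →
    (∀ i ≤ n, ∀ l ≤ n, 0 < f i l) →
    (∀ i i' l l', i < i' → i' ≤ n → l < l' → l' ≤ n →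
      K * (f i l * f i' l') ≤ f i l' * f i' l) →
    (∀ l ≤ n, ∑ i ∈ range (n + 1), a i * f i l = 0) → ∀ i ≤ n, a i = 0 := by
  intro n
  induction n with
  | zero =>
    intro K f a _ hpos _ hsum i hi
    have h := hsum 0 le_rfl
    rw [zero_add, Finset.sum_range_one] at h
    have h1 := hpos 0 le_rfl 0 le_rfl
    have h2 : i = 0 := by omega
    rw [h2]
    exact (mul_eq_zero.mp h).resolve_right h1.ne'
  | succ n ih =>
    intro K f a hK hpos hc hsum
    have hn0 : (0 : ℝ) ≤ n := Nat.cast_nonneg n
    have hK2 : 2 < K := by push_cast at hK; linarith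
    have hK0 : 0 < K := by linarith
    obtain ⟨g, hg⟩ : ∃ g : ℕ → ℕ → ℝ, ∀ i l, g i l = f (i + 1) l / f 0 l := ⟨_, fun _ _ => rfl⟩
    have hgpos : ∀ i ≤ n, ∀ l ≤ n + 1, 0 < g i l := by
      intro i hi l hl
      rw [hg]
      exact div_pos (hpos _ (by omega) _ hl) (hpos _ (by omega) _ hl)
    have hg1 : ∀ i ≤ n, ∀ l ≤ n, K * g i (l + 1) ≤ g i l := by
      intro i hi l hl
      have h1 := hc 0 (i + 1) l (l + 1) (by omega) (by omega) (by omega) (by omega)
      have h2 := hpos 0 (by omega) l (by omega)
      have h3 := hpos 0 (by omega) (l + 1) (by omega)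
      rw [hg, hg, mul_div_assoc', div_le_div_iff₀ h3 h2]
      linarith
    have hg2 : ∀ i i' l l', i < i' → i' ≤ n → l < l' → l' ≤ n →
        K * (g i l * g i' l') ≤ g i l' * g i' l := by
      intro i i' l l' hi hi' hl hl'
      have h1 := hc (i + 1) (i' + 1) l l' (by omega) (by omega) hl (by omega)
      have h2 := hpos 0 (by omega) l (by omega)
      have h3 := hpos 0 (by omega) l' (by omega)
      rw [hg, hg, hg, hg, div_mul_div_comm, div_mul_div_comm, mul_div_assoc',
        div_le_div_iff₀ (by positivity) (by positivity)]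
      have h4 := mul_le_mul_of_nonneg_right h1 (mul_pos h2 h3).le
      linarith
    have hsum' : ∀ l ≤ n + 1, a 0 + ∑ i ∈ range (n + 1), a (i + 1) * g i l = 0 := by
      intro l hl
      have h1 := hsum l hl
      have h2 := hpos 0 (by omega) l hl
      rw [Finset.sum_range_succ'] at h1
      have h3 : (∑ i ∈ range (n + 1), a (i + 1) * f (i + 1) l + a 0 * f 0 l) / f 0 l = 0 := by
        rw [h1, zero_div]
      rw [add_div, Finset.sum_div, mul_div_assoc, div_self h2.ne', mul_one] at h3
      rw [add_comm, ← h3]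
      congr 1
      refine Finset.sum_congr rfl fun i _ => ?_
      rw [hg, mul_div_assoc]
    have hall := ih (K - 2) (fun i l => g i l - g i (l + 1)) (fun i => a (i + 1))
      (by push_cast at hK; linarith)
      (by
        intro i hi l hl
        have h1 := hg1 i hi l hl
        have h2 := hgpos i hi (l + 1) (by omega)
        nlinarith)
      (by
        intro i i' l l' hi hi' hl hl'
        have e1 := hg1 i (by omega) l (by omega)
        have e2 := hg1 i' (by omega) l' (by omega)
        have e3 := hg1 i (by omega) l' (by omega)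
        have e4 := hg1 i' (by omega) l (by omega)
        have p1 := hgpos i (by omega) (l + 1) (by omega)
        have p2 := hgpos i' (by omega) (l' + 1) (by omega)
        have p3 := hgpos i (by omega) (l' + 1) (by omega)
        have p4 := hgpos i' (by omega) (l + 1) (by omega)
        have q1 := hgpos i (by omega) l (by omega)
        have q2 := hgpos i' (by omega) l' (by omega)
        have q3 := hgpos i (by omega) l' (by omega)
        have q4 := hgpos i' (by omega) l (by omega)
        have e5 := hg2 i i' l l' hi hi' hl hl'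
        have b1 : (g i l - g i (l + 1)) * (g i' l' - g i' (l' + 1)) ≤ g i l * g i' l' :=
          mul_le_mul (by linarith) (by linarith) (by nlinarith) q1.le
        have c3 : (1 - 1 / K) * g i l' ≤ g i l' - g i (l' + 1) := by
          have : g i (l' + 1) ≤ g i l' / K := by
            rw [le_div_iff₀ hK0]; linarith
          have h5 : (1 - 1 / K) * g i l' = g i l' - g i l' / K := by ring
          rw [h5]; linarith
        have c4 : (1 - 1 / K) * g i' l ≤ g i' l - g i' (l + 1) := by
          have : g i' (l + 1) ≤ g i' l / K := by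
            rw [le_div_iff₀ hK0]; linarith
          have h5 : (1 - 1 / K) * g i' l = g i' l - g i' l / K := by ring
          rw [h5]; linarith
        have hK1 : 0 < 1 - 1 / K := by
          rw [sub_pos, div_lt_one hK0]; linarith
        have b2 : ((1 - 1 / K) * g i l') * ((1 - 1 / K) * g i' l) ≤
            (g i l' - g i (l' + 1)) * (g i' l - g i' (l + 1)) :=
          mul_le_mul c3 c4 (by positivity) (le_trans (by positivity) c3)
        refine le_trans (mul_le_mul_of_nonneg_left b1 (by linarith)) (le_trans ?_ b2)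
        have h6 : ((1 - 1 / K) * g i l') * ((1 - 1 / K) * g i' l) =
            (1 - 1 / K) ^ 2 * (g i l' * g i' l) := by ring
        rw [h6]
        refine le_trans ?_ (mul_le_mul_of_nonneg_left e5 (by positivity))
        have h7 : (1 - 1 / K) ^ 2 * (K * (g i l * g i' l')) =
            (K - 2 + 1 / K) * (g i l * g i' l') := by
          field_simp
          ring
        rw [h7]
        refine mul_le_mul_of_nonneg_right ?_ (by positivity)
        have : 0 < 1 / K := by positivity
        linarith)
      (by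
        intro l hl
        have h1 := hsum' l (by omega)
        have h2 := hsum' (l + 1) (by omega)
        simp only [mul_sub, Finset.sum_sub_distrib]
        linarith)
    have h0 : a 0 = 0 := by
      have h1 := hsum' 0 (by omega)
      rw [Finset.sum_eq_zero] at h1
      · linarith
      · intro i hi
        rw [Finset.mem_range] at hi
        rw [hall i (by omega), zero_mul]
    intro i hi
    cases i with
    | zero => exact h0
    | succ i => exact hall i (by omega)

/-- truncation with weights -/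
theorem tail1 (P r0 r s : ℕ) (hP : 1 ≤ P) (hr0 : 4 ≤ r0) (hr : r0 ≤ r) (a τ : ℝ) (hτ : 0 ≤ τ)
    (hτ4 : τ ≤ 1 / 4) (ha : |a| ≤ Real.exp (τ * r)) :
    |a * (dz r s - ∑ x ∈ Fs P r0 r s, 1 / (ND r s x : ℝ))| ≤
      (((P : ℝ) ^ 4 + 16) * Z4) * Real.exp (τ * (2 * P * r0)) / (P : ℝ) ^ r0 := by
  have hP0 : (0 : ℝ) < P := by exact_mod_cast hP
  have hZ := Z4_nonneg
  rw [abs_mul]
  rcases le_or_gt r (2 * P * r0) with h | h
  · have h1 : |a| ≤ Real.exp (τ * (2 * P * r0)) := by
      refine ha.trans (Real.exp_le_exp.mpr (mul_le_mul_of_nonneg_left ?_ hτ))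
      exact_mod_cast h
    have h2 := dz_trunc P r0 r s hP hr0 hr
    calc |a| * |dz r s - ∑ x ∈ Fs P r0 r s, 1 / (ND r s x : ℝ)| ≤
          Real.exp (τ * (2 * P * r0)) * ((P : ℝ) ^ 4 * Z4 / (P : ℝ) ^ r0) :=
          mul_le_mul h1 h2 (abs_nonneg _) (Real.exp_nonneg _)
      _ = ((P : ℝ) ^ 4 * Z4) * Real.exp (τ * (2 * P * r0)) / (P : ℝ) ^ r0 := by ring
      _ ≤ _ := by
          apply div_le_div_of_nonneg_right _ (by positivity)
          apply mul_le_mul_of_nonneg_right _ (Real.exp_nonneg _)
          apply mul_le_mul_of_nonneg_right _ hZ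
          linarith
  · have h1 : |dz r s - ∑ x ∈ Fs P r0 r s, 1 / (ND r s x : ℝ)| ≤ 16 * Z4 / 2 ^ r := by
      have h2 : ∑ x ∈ Fs P r0 r s, 1 / (ND r s x : ℝ) ≤ dz r s := by
        rw [dz_eq]
        exact (term_summable r s (hr0.trans hr)).sum_le_tsum _ (fun x _ => by positivity)
      have h3 : 0 ≤ ∑ x ∈ Fs P r0 r s, 1 / (ND r s x : ℝ) :=
        Finset.sum_nonneg fun x _ => by positivity
      rw [abs_of_nonneg (by linarith)]
      have := dz_le r s (hr0.trans hr)
      linarith
    have h2 : |a| ≤ Real.exp ((r : ℝ) / 4) := by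
      refine ha.trans (Real.exp_le_exp.mpr ?_)
      have : (0 : ℝ) ≤ r := Nat.cast_nonneg r
      nlinarith
    have h3 : Real.exp ((r : ℝ) / 4) * (P : ℝ) ^ r0 ≤ 2 ^ r := by
      obtain ⟨E, hE⟩ : ∃ E : ℝ, E = Real.exp ((r : ℝ) / 4) := ⟨_, rfl⟩
      have hE0 : 0 < E := by rw [hE]; exact Real.exp_pos _
      have hE4 : (E ^ 2) ^ 2 ≤ ((2 : ℝ) ^ r) ^ 2 := by
        have h4 : (E ^ 2) ^ 2 = Real.exp 1 ^ r := by
          rw [← pow_mul, hE, ← Real.exp_nat_mul, ← Real.exp_nat_mul]
          congr 1
          push_cast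
          ring
        have h5 : ((2 : ℝ) ^ r) ^ 2 = 4 ^ r := by
          rw [← pow_mul, mul_comm, pow_mul]
          norm_num
        rw [h4, h5]
        apply pow_le_pow_left₀ (Real.exp_nonneg _)
        have := Real.exp_one_lt_d9
        linarith
      have hE2 : E ^ 2 ≤ 2 ^ r := by
        exact (pow_le_pow_iff_left₀ (by positivity) (by positivity) (by norm_num)).mp hE4
      have hP2 : ((P : ℝ) ^ r0) ^ 2 ≤ 2 ^ r := by
        have h6 : (P ^ r0) ^ 2 ≤ 2 ^ r := by
          calc (P ^ r0) ^ 2 ≤ ((2 ^ P) ^ r0) ^ 2 :=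
                Nat.pow_le_pow_left (Nat.pow_le_pow_left Nat.lt_two_pow_self.le _) _
            _ = 2 ^ (2 * P * r0) := by
                rw [← pow_mul, ← pow_mul]
                congr 1
                ring
            _ ≤ _ := Nat.pow_le_pow_right (by norm_num) h.le
        exact_mod_cast h6
      rw [← hE]
      have h7 : (E * (P : ℝ) ^ r0) ^ 2 ≤ ((2 : ℝ) ^ r) ^ 2 := by
        rw [mul_pow, sq ((2 : ℝ) ^ r)]
        exact mul_le_mul hE2 hP2 (by positivity) (by positivity)
      exact (pow_le_pow_iff_left₀ (by positivity) (by positivity) (by norm_num)).mp h7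
    calc |a| * |dz r s - ∑ x ∈ Fs P r0 r s, 1 / (ND r s x : ℝ)| ≤
          Real.exp ((r : ℝ) / 4) * (16 * Z4 / 2 ^ r) :=
          mul_le_mul h2 h1 (abs_nonneg _) (Real.exp_nonneg _)
      _ ≤ 16 * Z4 / (P : ℝ) ^ r0 := by
          rw [mul_div_assoc', div_le_div_iff₀ (by positivity) (by positivity)]
          have := mul_le_mul_of_nonneg_left h3 (by positivity : (0 : ℝ) ≤ 16 * Z4)
          linarith
      _ ≤ _ := by
          apply div_le_div_of_nonneg_right _ (by positivity)
          have h8 : 1 ≤ Real.exp (τ * (2 * P * r0)) := Real.one_le_exp (by positivity)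
          have h9 : 16 * Z4 ≤ ((P : ℝ) ^ 4 + 16) * Z4 := by
            apply mul_le_mul_of_nonneg_right _ hZ
            have : 0 ≤ (P : ℝ) ^ 4 := by positivity
            linarith
          calc 16 * Z4 = 16 * Z4 * 1 := by ring
            _ ≤ _ := mul_le_mul h9 h8 (by norm_num) (by positivity)

/-- harmonic sums are at most twice the square root -/
theorem hsum_le (b : ℕ) : ∑ y ∈ range b, 1 / ((y : ℝ) + 1) ≤ 2 * Real.sqrt b := by
  induction b with
  | zero => simp
  | succ b ih =>
    rw [Finset.sum_range_succ]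
    have h1 : 1 / ((b : ℝ) + 1) ≤ 2 * (Real.sqrt (b + 1) - Real.sqrt b) := by
      have hb : (0 : ℝ) ≤ b := Nat.cast_nonneg b
      have e1 := Real.sq_sqrt hb
      have e2 := Real.sq_sqrt (by linarith : (0 : ℝ) ≤ (b : ℝ) + 1)
      have e3 : Real.sqrt b ≤ Real.sqrt (b + 1) := Real.sqrt_le_sqrt (by linarith)
      have e4 : 1 ≤ Real.sqrt (b + 1) := by
        rw [Real.one_le_sqrt]; linarith
      have e5 := Real.sqrt_nonneg (b : ℝ)
      have e6 : (Real.sqrt (b + 1) - Real.sqrt b) * (Real.sqrt (b + 1) + Real.sqrt b) = 1 := by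
        nlinarith
      rw [div_le_iff₀ (by linarith)]
      have e7 : Real.sqrt (b + 1) + Real.sqrt b ≤ 2 * ((b : ℝ) + 1) := by
        nlinarith
      have e8 : 0 ≤ Real.sqrt (b + 1) - Real.sqrt b := by linarith
      nlinarith
    push_cast
    linarith

/-- widely spaced primes -/
theorem primes (L : ℕ) : ∃ pl : ℕ → ℕ, (∀ l, (pl l).Prime) ∧
    ∀ l l', l < l' → L * (pl l) ^ 4 ≤ pl l' := by
  have h : ∀ x : ℕ, ∃ q, L * x ^ 4 + x ≤ q ∧ q.Prime := fun x => Nat.exists_infinite_primes _
  choose nx hnx hnp using h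
  obtain ⟨pl, hpl⟩ : ∃ pl : ℕ → ℕ, pl 0 = 2 ∧ ∀ l, pl (l + 1) = nx (pl l) :=
    ⟨fun l => Nat.rec 2 (fun _ x => nx x) l, rfl, fun _ => rfl⟩
  refine ⟨pl, ?_, ?_⟩
  · intro l
    cases l with
    | zero => rw [hpl.1]; exact Nat.prime_two
    | succ l => rw [hpl.2]; exact hnp _
  · intro l l' hll'
    induction l' with
    | zero => omega
    | succ m ih =>
      have h1 := hnx (pl m)
      rw [hpl.2]
      rcases Nat.lt_or_ge l m with h2 | h2
      · have := ih h2
        omega
      · have : l = m := by omega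
        subst this
        omega

end Pool.Agent.Helper27.SUB
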