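import Pool.Agent.Helper27.SUB.T3a

/-!
Slowly growing quantities along an ultrafilter; the class of `p ^ r`.
-/

set_option autoImplicit false

namespace Pool.Agent.Helper27.SUB

open Finset Filter Pool.Agent.Helper70.SUB

/-- `f` grows more slowly than every power of `X` -/
def Sml (U : Ultrafilter ℕ) (X f : ℕ → ℝ) : Prop :=
  ∀ η : ℝ, 0 < η → ∀ᶠ j in (U : Filter ℕ), f j ≤ X j ^ η

section

variable {U : Ultrafilter ℕ} {X f g : ℕ → ℝ}

theorem Sml.mono (hg : Sml U X g) (h : ∀ᶠ j in (U : Filter ℕ), f j ≤ g j) : Sml U X f :=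
  fun η hη => by
    filter_upwards [hg η hη, h] with j h1 h2
    exact h2.trans h1

theorem Sml.mul (hX : ∀ j, 1 ≤ X j) (hf : Sml U X f) (hg : Sml U X g)
    (hg0 : ∀ j, 0 ≤ g j) : Sml U X (fun j => f j * g j) := fun η hη => by
  filter_upwards [hf (η / 2) (by positivity), hg (η / 2) (by positivity)] with j h1 h2
  have hX0 : 0 < X j := lt_of_lt_of_le one_pos (hX j)
  calc f j * g j ≤ X j ^ (η / 2) * X j ^ (η / 2) :=
        mul_le_mul h1 h2 (hg0 j) (Real.rpow_nonneg hX0.le _)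
    _ = X j ^ η := by rw [← Real.rpow_add hX0, add_halves]

theorem Sml.const (hX : Tendsto X U atTop) (c : ℝ) : Sml U X (fun _ => c) := fun η hη => by
  have h1 : Tendsto (fun j => X j ^ η) U atTop := (tendsto_rpow_atTop hη).comp hX
  exact h1.eventually (eventually_ge_atTop c)

theorem Sml.prod {ι : Type} [DecidableEq ι] (hX : ∀ j, 1 ≤ X j) (T : Finset ι) (F : ι → ℕ → ℝ)
    (hF : ∀ i ∈ T, Sml U X (F i)) (hF0 : ∀ i ∈ T, ∀ j, 0 ≤ F i j) :
    Sml U X (fun j => ∏ i ∈ T, F i j) := by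
  induction T using Finset.induction_on with
  | empty =>
    intro η hη
    refine Eventually.of_forall fun j => ?_
    simp only [Finset.prod_empty]
    exact Real.one_le_rpow (hX j) hη.le
  | insert a s ha ih =>
    simp only [Finset.prod_insert ha]
    exact Sml.mul hX (hF a (Finset.mem_insert_self _ _))
      (ih (fun i hi => hF i (Finset.mem_insert_of_mem hi))
        (fun i hi => hF0 i (Finset.mem_insert_of_mem hi)))
      (fun j => Finset.prod_nonneg fun i hi => hF0 i (Finset.mem_insert_of_mem hi) j)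

theorem Sml.pow (hX : ∀ j, 1 ≤ X j) (hf : Sml U X f) (hf0 : ∀ j, 0 ≤ f j) (n : ℕ) :
    Sml U X (fun j => f j ^ n) := by
  induction n with
  | zero =>
    intro η hη
    refine Eventually.of_forall fun j => ?_
    simp only [pow_zero]
    exact Real.one_le_rpow (hX j) hη.le
  | succ n ih =>
    simp only [pow_succ]
    exact Sml.mul hX ih hf hf0

end

/-- prime powers in quotients -/
theorem val_hq (q A B e : ℕ) (hq' : q.Prime) (hA : A ≠ 0) (hB : B ≠ 0)
    (h : B.factorization q + e ≤ A.factorization q) : ((q : ℝ)) ^ e ≤ hq ((A : ℚ) / B) := by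
  obtain ⟨z, hz⟩ : ∃ z : ℚ, z = (A : ℚ) / B := ⟨_, rfl⟩
  have hBq : (B : ℚ) ≠ 0 := by exact_mod_cast hB
  have hAq : (A : ℚ) ≠ 0 := by exact_mod_cast hA
  have hz0 : z ≠ 0 := by rw [hz]; exact div_ne_zero hAq hBq
  have hzpos : 0 < z := by
    rw [hz]
    have h1 : (0 : ℚ) < A := by exact_mod_cast Nat.pos_of_ne_zero hA
    have h2 : (0 : ℚ) < B := by exact_mod_cast Nat.pos_of_ne_zero hB
    positivity
  have hnum : 0 < z.num := Rat.num_pos.mpr hzpos
  obtain ⟨a, ha⟩ : ∃ a : ℕ, z.num = a := ⟨z.num.toNat, by omega⟩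
  have ha0 : a ≠ 0 := by omega
  have hkey : A * z.den = a * B := by
    have h1 : (A : ℚ) * z.den = z.num * B := by
      have h2 := Rat.num_div_den z
      have h3 : (z.den : ℚ) ≠ 0 := by exact_mod_cast z.den_pos.ne'
      rw [hz] at h2 ⊢
      field_simp at h2 ⊢
      rw [← h2]
    rw [ha] at h1
    exact_mod_cast h1
  have hf := congrArg (fun N : ℕ => N.factorization q) hkey
  simp only [Nat.factorization_mul hA z.den_pos.ne', Nat.factorization_mul ha0 hB,
    Finsupp.add_apply] at hf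
  have he : e ≤ a.factorization q := by omega
  have hdvd : q ^ e ∣ a := (hq'.pow_dvd_iff_le_factorization ha0).mpr he
  have hle : q ^ e ≤ a := Nat.le_of_dvd (Nat.pos_of_ne_zero ha0) hdvd
  rw [← hz]
  refine le_trans ?_ (num_le_hq z)
  rw [ha]
  have : ((q ^ e : ℕ) : ℝ) ≤ (a : ℝ) := by exact_mod_cast hle
  push_cast at this ⊢
  rw [Nat.abs_cast]
  exact this

theorem exp_le_two_pow (e : ℕ) : Real.exp (e : ℝ) ≤ ((2 : ℝ) ^ e) ^ 2 := by
  have h1 : Real.exp (e : ℝ) = Real.exp 1 ^ e := by rw [← Real.exp_nat_mul, mul_one]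
  have h2 : ((2 : ℝ) ^ e) ^ 2 = 4 ^ e := by
    rw [← pow_mul, mul_comm, pow_mul]
    norm_num
  rw [h1, h2]
  apply pow_le_pow_left₀ (Real.exp_nonneg _)
  have := Real.exp_one_lt_d9
  linarith

theorem exp_le_prime_pow (q e : ℕ) (hq' : 2 ≤ q) : Real.exp (e : ℝ) ≤ ((q : ℝ) ^ e) ^ 2 := by
  refine (exp_le_two_pow e).trans ?_
  have h1 : (2 : ℝ) ≤ q := by exact_mod_cast hq'
  gcongr

theorem pow_le_exp_pow (q e : ℕ) : (q : ℝ) ^ e ≤ Real.exp (e : ℝ) ^ q := by
  have h1 : (q : ℝ) ≤ Real.exp q := by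
    have := Real.add_one_le_exp (q : ℝ)
    linarith
  calc (q : ℝ) ^ e ≤ Real.exp q ^ e := pow_le_pow_left₀ (Nat.cast_nonneg _) h1 _
    _ = Real.exp (e : ℝ) ^ q := by
        rw [← Real.exp_nat_mul, ← Real.exp_nat_mul, mul_comm]

/-- the class of `p ^ r0` -/
theorem cl_fwd (U : Ultrafilter ℕ) (hU : (U : Filter ℕ) ≤ atTop) (p m n : ℕ) (hp : p.Prime)
    (hm : 2 ≤ m) (hn : 1 ≤ n) (hnm : n < m) (r0 ri s : ℕ → ℕ)
    (h01 : ∀ᶠ j in (U : Filter ℕ), j ≤ r0 j) (h02 : ∀ᶠ j in (U : Filter ℕ), r0 j ≤ ri j)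
    (h : Sml U (fun j => Real.exp (r0 j)) (fun j => hq (((m ^ ri j * n ^ s j : ℕ) : ℚ) / ((p ^ r0 j : ℕ) : ℚ)))) :
    m = p ∧ Sml U (fun j => Real.exp (r0 j)) (fun j => Real.exp ((ri j - r0 j : ℕ) : ℝ)) ∧
      (n = 1 ∨ Sml U (fun j => Real.exp (r0 j)) (fun j => Real.exp (s j))) := by
  have hp0 : p ≠ 0 := hp.ne_zero
  have hm0 : m ≠ 0 := by omega
  have hn0 : n ≠ 0 := by omega
  have h1j : ∀ᶠ j in (U : Filter ℕ), 1 ≤ r0 j := by
    filter_upwards [h01, hU (eventually_ge_atTop 1)] with j h1 h2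
    omega
  have hfac : ∀ q j, (m ^ ri j * n ^ s j).factorization q =
      ri j * m.factorization q + s j * n.factorization q := by
    intro q j
    simp only [Nat.factorization_mul (pow_ne_zero _ hm0) (pow_ne_zero _ hn0), Nat.factorization_pow,
      Finsupp.add_apply, Finsupp.smul_apply, smul_eq_mul]
  have hfacp : ∀ q j, (p ^ r0 j).factorization q = r0 j * p.factorization q := by
    intro q j
    simp only [Nat.factorization_pow, Finsupp.smul_apply, smul_eq_mul]
  have hbase : ∀ (q : ℕ) (e : ℕ → ℕ), q.Prime → (∀ᶠ j in (U : Filter ℕ),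
      (p ^ r0 j).factorization q + e j ≤ (m ^ ri j * n ^ s j).factorization q) →
      Sml U (fun j => Real.exp (r0 j)) (fun j => Real.exp (e j)) := by
    intro q e hq' he
    have h3 : Sml U (fun j => Real.exp (r0 j)) (fun j =>
        hq (((m ^ ri j * n ^ s j : ℕ) : ℚ) / ((p ^ r0 j : ℕ) : ℚ)) ^ 2) :=
      Sml.pow (fun j => Real.one_le_exp (Nat.cast_nonneg _)) h (fun j => (hq_pos _).le) 2
    refine h3.mono ?_
    filter_upwards [he] with j hj
    refine (exp_le_prime_pow q (e j) hq'.two_le).trans ?_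
    have h4 := val_hq q (m ^ ri j * n ^ s j) (p ^ r0 j) (e j) hq'
      (mul_ne_zero (pow_ne_zero _ hm0) (pow_ne_zero _ hn0)) (pow_ne_zero _ hp0) hj
    exact pow_le_pow_left₀ (by positivity) h4 2
  -- a quantity larger than `r0` is not small
  have hbig : ∀ e : ℕ → ℕ, Sml U (fun j => Real.exp (r0 j)) (fun j => Real.exp (e j)) →
      (∀ᶠ j in (U : Filter ℕ), r0 j ≤ e j) → False := by
    intro e he hr
    obtain ⟨j, h1, h2, h3⟩ := ((he (1 / 2) (by norm_num)).and (hr.and h1j)).exists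
    rw [← Real.exp_mul, Real.exp_le_exp] at h1
    have h4 : (r0 j : ℝ) ≤ e j := by exact_mod_cast h2
    have h5 : (1 : ℝ) ≤ r0 j := by exact_mod_cast h3
    linarith
  have hmp : ∀ {q : ℕ}, q.Prime → q ∣ m → q = p := by
    intro q hq' hqm
    by_contra hne
    have h1 : 1 ≤ m.factorization q := (hq'.dvd_iff_one_le_factorization hm0).mp hqm
    have h2 : p.factorization q = 0 := Nat.factorization_eq_zero_of_not_dvd (fun hd =>
      hne ((Nat.prime_dvd_prime_iff_eq hq' hp).mp hd))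
    refine hbig r0 (hbase q r0 hq' ?_) (Eventually.of_forall fun j => le_rfl)
    filter_upwards [h02] with j hj
    rw [hfac, hfacp, h2, mul_zero, zero_add]
    nlinarith [Nat.zero_le (s j * n.factorization q), Nat.zero_le (ri j)]
  have hme := Nat.eq_prime_pow_of_unique_prime_dvd hm0 hmp
  obtain ⟨e, he⟩ : ∃ e, e = m.primeFactorsList.length := ⟨_, rfl⟩
  rw [← he] at hme
  have hpp : p.factorization p = 1 := hp.factorization_self
  have hmf : m.factorization p = e := by
    rw [hme, Nat.factorization_pow, Finsupp.smul_apply, hpp, smul_eq_mul, mul_one]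
  have he1 : e = 1 := by
    have he0 : e ≠ 0 := by
      intro h0
      rw [h0, pow_zero] at hme
      omega
    by_contra hne
    have he2 : 2 ≤ e := by omega
    refine hbig r0 (hbase p r0 hp ?_) (Eventually.of_forall fun j => le_rfl)
    filter_upwards [h02] with j hj
    rw [hfac, hfacp, hpp, hmf]
    nlinarith [Nat.zero_le (s j * n.factorization p), Nat.zero_le (ri j), Nat.zero_le (r0 j)]
  rw [he1, pow_one] at hme
  have hnp : n.factorization p = 0 := Nat.factorization_eq_zero_of_not_dvd (fun hd => by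
    have := Nat.le_of_dvd (by omega) hd
    omega)
  refine ⟨hme, ?_, ?_⟩
  · refine hbase p _ hp ?_
    filter_upwards [h02] with j hj
    rw [hfac, hfacp, hpp, hmf, he1, hnp]
    omega
  · by_cases hn1 : n = 1
    · exact Or.inl hn1
    · right
      obtain ⟨q, hq', hqn⟩ := Nat.exists_prime_and_dvd hn1
      have hqle : q ≤ n := Nat.le_of_dvd (by omega) hqn
      have hqp : q ≠ p := by omega
      have h1 : 1 ≤ n.factorization q := (hq'.dvd_iff_one_le_factorization hn0).mp hqn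
      have h2 : p.factorization q = 0 := Nat.factorization_eq_zero_of_not_dvd (fun hd =>
        hqp ((Nat.prime_dvd_prime_iff_eq hq' hp).mp hd))
      refine hbase q _ hq' ?_
      refine Eventually.of_forall fun j => ?_
      rw [hfac, hfacp, h2, mul_zero, zero_add]
      nlinarith [Nat.zero_le (ri j * m.factorization q), Nat.zero_le (s j)]

theorem cl_bwd (U : Ultrafilter ℕ) (p n : ℕ) (hp : p.Prime)
    (hn : 1 ≤ n) (r0 ri s : ℕ → ℕ) (h02 : ∀ᶠ j in (U : Filter ℕ), r0 j ≤ ri j)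
    (h1 : Sml U (fun j => Real.exp (r0 j)) (fun j => Real.exp ((ri j - r0 j : ℕ) : ℝ)))
    (h2 : n = 1 ∨ Sml U (fun j => Real.exp (r0 j)) (fun j => Real.exp (s j))) :
    Sml U (fun j => Real.exp (r0 j)) (fun j => hq (((p ^ ri j * n ^ s j : ℕ) : ℚ) / ((p ^ r0 j : ℕ) : ℚ))) := by
  have hX : ∀ j, 1 ≤ Real.exp (r0 j) := fun j => Real.one_le_exp (Nat.cast_nonneg _)
  have hp0 : p ≠ 0 := hp.ne_zero
  have hn0 : n ≠ 0 := by omega
  have h3 : Sml U (fun j => Real.exp (r0 j)) (fun j => ((n ^ s j : ℕ) : ℝ)) := by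
    rcases h2 with h2 | h2
    · subst h2
      intro η hη
      refine Eventually.of_forall fun j => ?_
      simp only [one_pow, Nat.cast_one]
      exact Real.one_le_rpow (hX j) hη.le
    · refine (Sml.pow hX h2 (fun j => Real.exp_nonneg _) n).mono (Eventually.of_forall fun j => ?_)
      push_cast
      exact pow_le_exp_pow n (s j)
  have h4 : Sml U (fun j => Real.exp (r0 j)) (fun j => ((p ^ (ri j - r0 j) : ℕ) : ℝ)) := by
    refine (Sml.pow hX h1 (fun j => Real.exp_nonneg _) p).mono (Eventually.of_forall fun j => ?_)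
    push_cast
    exact pow_le_exp_pow p (ri j - r0 j)
  refine (Sml.mul hX h4 h3 (fun j => Nat.cast_nonneg _)).mono ?_
  filter_upwards [h02] with j hj
  have h5 : (((p ^ ri j * n ^ s j : ℕ) : ℚ) / ((p ^ r0 j : ℕ) : ℚ)) =
      ((p ^ (ri j - r0 j) * n ^ s j : ℕ) : ℚ) := by
    have h6 : ((p ^ r0 j : ℕ) : ℚ) ≠ 0 := by exact_mod_cast (pow_ne_zero _ hp0)
    rw [div_eq_iff h6]
    have h7 : p ^ ri j * n ^ s j = p ^ (ri j - r0 j) * n ^ s j * p ^ r0 j := by
      have h8 : p ^ ri j = p ^ (ri j - r0 j) * p ^ r0 j := by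
        rw [← pow_add]
        congr 1
        omega
      rw [h8]
      ring
    exact_mod_cast h7
  rw [h5]
  have h6 := hq_nat (p ^ (ri j - r0 j) * n ^ s j)
    (mul_ne_zero (pow_ne_zero _ hp0) (pow_ne_zero _ hn0))
  push_cast at h6 ⊢
  exact h6

end Pool.Agent.Helper27.SUB
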