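import Pool.Agent.Helper27.SUB.T3b

/-!
The sum over the class of `p ^ r0` vanishes.
-/

set_option autoImplicit false

namespace Pool.Agent.Helper27.SUB

open Finset Filter Pool.Agent.Helper70.SUB

theorem trunc_rel (P n : ℕ) (r : Fin (n + 1) → ℕ) (k : ℕ) (a : Fin (n + 1) → ℤ) (τ : ℝ)
    (hτ : 0 ≤ τ) (hτ4 : τ ≤ 1 / 4) (hP : 1 ≤ P) (h4 : 4 ≤ r 0) (hmono : ∀ i, r 0 ≤ r i)
    (ha : ∀ i, |(a i : ℝ)| ≤ Real.exp (τ * r i))
    (hrel : ∑ i, (a i : ℝ) * dz (r i) (k - r i) = 0) :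
    |∑ x ∈ FI P n r k, (a x.2 : ℝ) / (NI r k x : ℝ)| ≤
      ((n : ℝ) + 1) * ((((P : ℝ) ^ 4 + 16) * Z4) * Real.exp (τ * (2 * P * r 0)) /
        (P : ℝ) ^ r 0) := by
  rw [sumFI P n r k (fun i => (a i : ℝ))]
  have h2 : ∑ i, (a i : ℝ) * ∑ y ∈ Fs P (r 0) (r i) (k - r i), 1 / (ND (r i) (k - r i) y : ℝ)
      = - ∑ i, (a i : ℝ) * (dz (r i) (k - r i) -
        ∑ y ∈ Fs P (r 0) (r i) (k - r i), 1 / (ND (r i) (k - r i) y : ℝ)) := by
    simp only [mul_sub, Finset.sum_sub_distrib]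
    rw [hrel]
    ring
  rw [h2, abs_neg]
  calc _ ≤ ∑ i : Fin (n + 1), |(a i : ℝ) * (dz (r i) (k - r i) -
      ∑ y ∈ Fs P (r 0) (r i) (k - r i), 1 / (ND (r i) (k - r i) y : ℝ))| :=
        Finset.abs_sum_le_sum_abs _ _
    _ ≤ ∑ _i : Fin (n + 1), ((((P : ℝ) ^ 4 + 16) * Z4) * Real.exp (τ * (2 * P * r 0)) /
        (P : ℝ) ^ r 0) := by
        refine Finset.sum_le_sum fun i _ => ?_
        exact tail1 P (r 0) (r i) (k - r i) hP h4 (hmono i) (a i) τ hτ hτ4 (ha i)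
    _ = _ := by
        rw [Finset.sum_const, Finset.card_univ, Fintype.card_fin, nsmul_eq_mul]
        push_cast
        ring

/-- the sequence of relations -/
structure Dat (U : Ultrafilter ℕ) (n : ℕ) (r : ℕ → Fin (n + 1) → ℕ) (k : ℕ → ℕ)
    (a : ℕ → Fin (n + 1) → ℤ) : Prop where
  le : (U : Filter ℕ) ≤ atTop
  mono : ∀ᶠ j in (U : Filter ℕ), StrictMono (r j)
  r0 : ∀ᶠ j in (U : Filter ℕ), j ≤ r j 0
  rk : ∀ᶠ j in (U : Filter ℕ), ∀ i, r j i < k j
  a0 : ∀ᶠ j in (U : Filter ℕ), ∀ i, a j i ≠ 0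
  aH : ∀ᶠ j in (U : Filter ℕ), ∀ i, |(a j i : ℝ)| ≤ Real.exp (1 / ((j : ℝ) + 1) * r j i)
  rel : ∀ᶠ j in (U : Filter ℕ), ∑ i, (a j i : ℝ) * dz (r j i) (k j - r j i) = 0

section

variable {U : Ultrafilter ℕ} {n : ℕ} {r : ℕ → Fin (n + 1) → ℕ} {k : ℕ → ℕ}
  {a : ℕ → Fin (n + 1) → ℤ}

theorem Dat.le0 (h : Dat U n r k a) : ∀ᶠ j in (U : Filter ℕ), ∀ i, r j 0 ≤ r j i := by
  filter_upwards [h.mono] with j hj i
  exact hj.monotone (Fin.zero_le i)

theorem Dat.tend (h : Dat U n r k a) :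
    Tendsto (fun j => Real.exp (r j 0)) U atTop := by
  have h1 : Tendsto (fun j : ℕ => (j : ℝ)) U atTop := tendsto_natCast_atTop_atTop.mono_left h.le
  refine tendsto_atTop_mono' _ ?_ h1
  filter_upwards [h.r0] with j hj
  have h2 : (j : ℝ) ≤ r j 0 := by exact_mod_cast hj
  have h3 := Real.add_one_le_exp (r j 0 : ℝ)
  linarith

/-- the coefficients are small -/
theorem Dat.sml (h : Dat U n r k a) (P : ℕ) (F : Finset (Ix P n))
    (hF : ∀ᶠ j in (U : Filter ℕ), FI P n (r j) (k j) = F) (x : Ix P n) (hx : x ∈ F) :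
    Sml U (fun j => Real.exp (r j 0)) (fun j => max |(a j x.2 : ℝ)| 1) := by
  intro η hη
  obtain ⟨B, hB⟩ := exists_nat_gt ((P : ℝ) / η)
  filter_upwards [hF, h.aH, h.le (eventually_ge_atTop B)] with j h1 h2 h3
  refine max_le ?_ (Real.one_le_rpow (Real.one_le_exp (Nat.cast_nonneg _)) hη.le)
  refine (h2 x.2).trans ?_
  rw [← Real.exp_mul, Real.exp_le_exp]
  have h4 : NI (r j) (k j) x ≤ P ^ (r j 0) := by
    rw [← h1] at hx
    exact (Finset.mem_filter.mp hx).2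
  have h5 : r j x.2 ≤ P * r j 0 := by
    have h6 : 2 ^ (r j x.2) ≤ 2 ^ (P * r j 0) := by
      calc 2 ^ (r j x.2) ≤ ((x.1.1 : ℕ) + (x.1.2 : ℕ) + 2) ^ (r j x.2) :=
            Nat.pow_le_pow_left (by omega) _
        _ ≤ NI (r j) (k j) x := by
            unfold NI ND
            exact Nat.le_mul_of_pos_right _ (by positivity)
        _ ≤ P ^ (r j 0) := h4
        _ ≤ (2 ^ P) ^ (r j 0) := Nat.pow_le_pow_left Nat.lt_two_pow_self.le _
        _ = _ := by rw [← pow_mul]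
    exact (Nat.pow_le_pow_iff_right (by norm_num)).mp h6
  have h7 : (r j x.2 : ℝ) ≤ P * r j 0 := by exact_mod_cast h5
  have h8 : (P : ℝ) ≤ η * ((j : ℝ) + 1) := by
    rw [div_lt_iff₀ hη] at hB
    have h9 : (B : ℝ) ≤ j := by exact_mod_cast h3
    nlinarith
  have hj0 : (0 : ℝ) < (j : ℝ) + 1 := by positivity
  rw [one_div_mul_eq_div, div_le_iff₀ hj0]
  have hr : (0 : ℝ) ≤ r j 0 := Nat.cast_nonneg _
  calc (r j x.2 : ℝ) ≤ P * r j 0 := h7
    _ ≤ (η * ((j : ℝ) + 1)) * r j 0 := mul_le_mul_of_nonneg_right h8 hr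
    _ = _ := by ring

end

theorem hq_int' (z : ℤ) : hq (z : ℚ) ≤ max |(z : ℝ)| 1 := by
  by_cases hz : z = 0
  · subst hz
    rw [Int.cast_zero, hq_zero]
    exact le_max_right _ _
  · exact (hq_int z hz).trans (le_max_left _ _)

/-- an infinite subset from an ultrafilter -/
theorem inf_of_mem {U : Ultrafilter ℕ} (hU : (U : Filter ℕ) ≤ atTop) {M : Set ℕ}
    (hM : ∀ᶠ j in (U : Filter ℕ), j ∈ M) : M.Infinite := by
  intro hfin
  have h1 : ∀ᶠ j in (U : Filter ℕ), j ∉ M := by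
    apply hU
    rw [← Nat.cofinite_eq_atTop]
    exact hfin.eventually_cofinite_notMem
  obtain ⟨j, h2, h3⟩ := (hM.and h1).exists
  exact h3 h2

theorem cls0 (hAV : ST_AV) (hSUBT : ST_SUBT) (U : Ultrafilter ℕ) (n : ℕ)
    (r : ℕ → Fin (n + 1) → ℕ) (k : ℕ → ℕ) (a : ℕ → Fin (n + 1) → ℤ) (hD : Dat U n r k a)
    (P p : ℕ) (hp : p.Prime) (hpP : p ^ 2 ≤ P) (F : Finset (Ix P n))
    (hF : ∀ᶠ j in (U : Filter ℕ), FI P n (r j) (k j) = F) :
    ∃ T : Finset (Ix P n), (∀ x, x ∈ T ↔ x ∈ F ∧ Sml U (fun j => Real.exp (r j 0))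
        (fun j => hq ((NI (r j) (k j) x : ℚ) / ((p ^ r j 0 : ℕ) : ℚ)))) ∧
      ∀ᶠ j in (U : Filter ℕ), ∑ x ∈ T, (a j x.2 : ℝ) / (NI (r j) (k j) x : ℝ) = 0 := by
  classical
  have hp2 := hp.two_le
  have hP0 : 0 < P := by nlinarith
  have hpltP : p < P := by nlinarith
  obtain ⟨X, hXdef⟩ : ∃ X : ℕ → ℝ, X = fun j => Real.exp (r j 0) := ⟨_, rfl⟩
  have hXj : ∀ j, X j = Real.exp (r j 0) := fun j => by rw [hXdef]
  have hX1 : ∀ j, 1 ≤ X j := fun j => by rw [hXj]; exact Real.one_le_exp (Nat.cast_nonneg _)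
  have hX0 : ∀ j, 0 < X j := fun j => lt_of_lt_of_le one_pos (hX1 j)
  have hXt : Tendsto X U atTop := by rw [hXdef]; exact hD.tend
  rw [← hXdef]
  obtain ⟨N, hNdef⟩ : ∃ N : ℕ → Ix P n → ℕ, ∀ j x, N j x = NI (r j) (k j) x :=
    ⟨_, fun _ _ => rfl⟩
  have hN0 : ∀ j x, 0 < N j x := fun j x => by rw [hNdef]; exact ND_pos _ _ _
  have hNq : ∀ j x, (N j x : ℚ) ≠ 0 := fun j x => by exact_mod_cast (hN0 j x).ne'
  have hNr : ∀ j x, (0 : ℝ) < (N j x : ℝ) := fun j x => by exact_mod_cast hN0 j x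
  simp only [← hNdef]
  obtain ⟨D, hDdef⟩ : ∃ D : ℕ → ℕ, ∀ j, D j = ∏ y ∈ F, N j y := ⟨_, fun _ => rfl⟩
  have hD0 : ∀ j, 0 < D j := fun j => by
    rw [hDdef]; exact Finset.prod_pos (fun y _ => hN0 j y)
  obtain ⟨u, hudef⟩ : ∃ u : ℕ → Ix P n → ℤ, ∀ j x, u j x = ((∏ y ∈ F.erase x, N j y : ℕ) : ℤ) :=
    ⟨_, fun _ _ => rfl⟩
  have hu0 : ∀ j x, (0 : ℤ) < u j x := by
    intro j x
    have : 0 < ∏ y ∈ F.erase x, N j y := Finset.prod_pos (fun y _ => hN0 j y)
    rw [hudef]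
    exact Int.natCast_pos.mpr this
  have hDu : ∀ j, ∀ x ∈ F, u j x * (N j x : ℤ) = (D j : ℤ) := by
    intro j x hx
    have := Finset.prod_erase_mul F (N j) hx
    rw [hudef, hDdef, ← this]
    push_cast
    ring
  obtain ⟨S, hSdef⟩ : ∃ S : Finset ℕ, S = (Finset.range (2 * P + 1)).filter Nat.Prime := ⟨_, rfl⟩
  have hS : ∀ q ∈ S, q.Prime := by
    intro q hq
    rw [hSdef] at hq
    exact (Finset.mem_filter.mp hq).2
  have hAV2 := hAV.2.2 S hS
  obtain ⟨avp, avm, -, -, avi, -, avpf, avS, -⟩ := hAV2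
  have huS : ∀ j x, ∏ v ∈ plc S, av v (u j x) = 1 := by
    intro j x
    refine avS (u j x) (hu0 j x).ne' fun q hq hqu => ?_
    rw [hudef] at hqu
    have h1 : q ∣ ∏ y ∈ F.erase x, N j y := Int.natCast_dvd_natCast.mp hqu
    obtain ⟨y, -, hy⟩ := (hq.prime.dvd_finsetProd_iff _).mp h1
    have hy1 := y.1.1.2
    have hy2 := y.1.2.2
    rw [hSdef, Finset.mem_filter, Finset.mem_range]
    refine ⟨?_, hq⟩
    simp only [hNdef, NI, ND] at hy
    rcases (hq.dvd_mul).mp hy with h | h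
    · have h3 := Nat.le_of_dvd (by omega) (hq.dvd_of_dvd_pow h)
      omega
    · have h3 := Nat.le_of_dvd (by omega) (hq.dvd_of_dvd_pow h)
      omega
  -- the equivalence relation
  let s : Setoid (Ix P n) :=
    { r := fun x y => Sml U X (fun j => hq ((N j x : ℚ) / (N j y : ℚ)))
      iseqv :=
        { refl := fun x η hη => Eventually.of_forall fun j => by
            show hq ((N j x : ℚ) / (N j x : ℚ)) ≤ X j ^ η
            rw [div_self (hNq j x)]
            have h1 := hq_nat 1 one_ne_zero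
            rw [Nat.cast_one, Nat.cast_one] at h1
            exact h1.trans (Real.one_le_rpow (hX1 j) hη.le)
          symm := fun {x y} h => Sml.mono h (Eventually.of_forall fun j => by
            show hq ((N j y : ℚ) / (N j x : ℚ)) ≤ hq ((N j x : ℚ) / (N j y : ℚ))
            rw [← inv_div]
            exact hq_inv _)
          trans := fun {x y w} h1 h2 => Sml.mono (Sml.mul hX1 h1 h2 (fun j => (hq_pos _).le))
            (Eventually.of_forall fun j => by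
              show hq ((N j x : ℚ) / (N j w : ℚ)) ≤
                hq ((N j x : ℚ) / (N j y : ℚ)) * hq ((N j y : ℚ) / (N j w : ℚ))
              refine le_trans (le_of_eq ?_) (hq_mul _ _)
              rw [div_mul_div_cancel₀ (hNq j y)]) } }
  -- sums over subsets of a class
  obtain ⟨z, hzdef⟩ : ∃ z : Finset (Ix P n) → Ix P n → ℕ → ℚ, ∀ T x0 j,
      z T x0 j = ∑ x ∈ T, (a j x.2 : ℚ) * ((N j x0 : ℚ) / (N j x : ℚ)) := ⟨_, fun _ _ _ => rfl⟩
  have hzu : ∀ T ⊆ F, ∀ x0 ∈ F, ∀ j, ((∑ x ∈ T, a j x.2 * u j x : ℤ) : ℚ) = u j x0 * z T x0 j := by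
    intro T hT x0 hx0 j
    rw [hzdef, Finset.mul_sum]
    push_cast
    refine Finset.sum_congr rfl fun x hx => ?_
    have h1 : (u j x : ℚ) * N j x = u j x0 * N j x0 := by
      have e1 := hDu j x (hT hx)
      rw [← hDu j x0 hx0] at e1
      exact_mod_cast e1
    have h2 := hNq j x
    calc (a j x.2 : ℚ) * (u j x : ℚ) = (a j x.2 : ℚ) * ((u j x : ℚ) * N j x / N j x) := by
          rw [mul_div_cancel_right₀ _ h2]
      _ = (a j x.2 : ℚ) * ((u j x0 : ℚ) * N j x0 / N j x) := by rw [h1]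
      _ = _ := by ring
  have hzS : ∀ T ⊆ F, ∀ x0, (∀ x ∈ T, s.r x0 x) → Sml U X (fun j => hq (z T x0 j)) := by
    intro T hT x0 hcl
    have h1 : Sml U X (fun j => ∏ x ∈ T,
        (2 * (max |(a j x.2 : ℝ)| 1 * hq ((N j x0 : ℚ) / (N j x : ℚ))))) := by
      refine Sml.prod hX1 T (fun x j => 2 * (max |(a j x.2 : ℝ)| 1 *
        hq ((N j x0 : ℚ) / (N j x : ℚ)))) (fun x hx => ?_) (fun x _ j => ?_)
      · refine Sml.mul hX1 (Sml.const hXt 2) (Sml.mul hX1 ?_ (hcl x hx)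
          (fun j => (hq_pos _).le)) (fun j => ?_)
        · have h2 := hD.sml P F hF x (hT hx)
          rw [← hXdef] at h2
          exact h2
        · exact mul_nonneg (le_max_of_le_right zero_le_one) (hq_pos _).le
      · exact mul_nonneg (by norm_num) (mul_nonneg (le_max_of_le_right zero_le_one) (hq_pos _).le)
    refine h1.mono (Eventually.of_forall fun j => ?_)
    rw [hzdef]
    refine (hq_sum _ _).trans (Finset.prod_le_prod (fun x _ => by
      have := hq_pos ((a j x.2 : ℚ) * ((N j x0 : ℚ) / (N j x : ℚ)))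
      positivity) (fun x _ => ?_))
    refine mul_le_mul_of_nonneg_left ?_ (by norm_num)
    exact (hq_mul _ _).trans (mul_le_mul_of_nonneg_right (hq_int' _) (hq_pos _).le)
  -- the special term
  obtain ⟨α, hα⟩ : ∃ α : Ix P n,
      α = (((⟨p - 2, by omega⟩ : Fin P), (⟨0, hP0⟩ : Fin P)), (0 : Fin (n + 1))) := ⟨_, rfl⟩
  have hNα : ∀ j, N j α = p ^ (r j 0) := by
    intro j
    rw [hNdef, hα]
    simp only [NI, ND]
    rw [show p - 2 + 0 + 2 = p by omega, show 0 + 1 = 1 by rfl, one_pow, mul_one]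
  have hαF : α ∈ F := by
    obtain ⟨j1, hj1⟩ := hF.exists
    rw [← hj1]
    unfold FI
    rw [Finset.mem_filter]
    refine ⟨Finset.mem_univ _, ?_⟩
    rw [← hNdef, hNα]
    exact Nat.pow_le_pow_left hpltP.le _
  simp only [← hNα]
  refine ⟨F.filter (fun x => Sml U X (fun j => hq ((N j x : ℚ) / (N j α : ℚ)))),
    fun x => by rw [Finset.mem_filter], ?_⟩
  -- contradiction
  by_contra hcon
  rw [← Ultrafilter.eventually_not] at hcon
  obtain ⟨cl, hcldef⟩ : ∃ cl : Quotient s → Finset (Ix P n), ∀ q, cl q =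
      F.filter (fun x => Quotient.mk s x = q) := ⟨_, fun _ => rfl⟩
  obtain ⟨xq, hxqdef⟩ : ∃ xq : ℕ → Quotient s → ℤ, ∀ j q, xq j q = ∑ x ∈ cl q, a j x.2 * u j x :=
    ⟨_, fun _ _ => rfl⟩
  have hcl0 : cl (Quotient.mk s α) = F.filter (fun x => Sml U X
      (fun j => hq ((N j x : ℚ) / (N j α : ℚ)))) := by
    rw [hcldef]
    refine Finset.filter_congr fun x _ => ?_
    rw [Quotient.eq]
    rfl
  have hur : ∀ j, ∀ x ∈ F, (u j x : ℝ) = (D j : ℝ) / (N j x : ℝ) := by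
    intro j x hx
    rw [eq_div_iff (hNr j x).ne']
    exact_mod_cast hDu j x hx
  have hne0 : ∀ᶠ j in (U : Filter ℕ), xq j (Quotient.mk s α) ≠ 0 := by
    filter_upwards [hcon] with j hj h0
    apply hj
    have h1 : ((xq j (Quotient.mk s α) : ℤ) : ℝ) = (D j : ℝ) * ∑ x ∈ F.filter (fun x => Sml U X
        (fun j => hq ((N j x : ℚ) / (N j α : ℚ)))), (a j x.2 : ℝ) / (N j x : ℝ) := by
      rw [hxqdef, hcl0, Finset.mul_sum]
      push_cast
      refine Finset.sum_congr rfl fun x hx => ?_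
      rw [hur j x (Finset.mem_filter.mp hx).1]
      ring
    rw [h0, Int.cast_zero] at h1
    have h2 : (D j : ℝ) ≠ 0 := by exact_mod_cast (hD0 j).ne'
    exact (mul_eq_zero.mp h1.symm).resolve_left h2
  let κ : Type := {q : Quotient s // ∀ᶠ j in (U : Filter ℕ), xq j q ≠ 0}
  have hfinκ : Finite κ := inferInstance
  have : Fintype κ := Fintype.ofFinite κ
  let q0 : κ := ⟨Quotient.mk s α, hne0⟩
  -- representatives
  have hrep : ∀ q : κ, ∃ x ∈ F, Quotient.mk s x = q.1 := by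
    intro q
    obtain ⟨j, hj⟩ := q.2.exists
    by_contra h
    push Not at h
    apply hj
    rw [hxqdef, hcldef, Finset.filter_eq_empty_iff.mpr (fun x hx => h x hx), Finset.sum_empty]
  choose rep hrepF hrepq using hrep
  have hclrep : ∀ q : κ, ∀ x ∈ cl q.1, s.r (rep q) x := by
    intro q x hx
    rw [hcldef, Finset.mem_filter] at hx
    have h1 : Quotient.mk s (rep q) = Quotient.mk s x := by rw [hrepq, hx.2]
    exact Quotient.eq.mp h1
  have hclF : ∀ q, cl q ⊆ F := fun q => by rw [hcldef]; exact Finset.filter_subset _ _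
  -- separation
  have hsep : ∀ q q' : κ, ∃ d : ℝ, 0 < d ∧ (q ≠ q' → ∀ᶠ j in (U : Filter ℕ),
      X j ^ d ≤ hq ((N j (rep q) : ℚ) / (N j (rep q') : ℚ))) := by
    intro q q'
    by_cases hqq : q = q'
    · exact ⟨1, one_pos, fun h => absurd hqq h⟩
    · have h1 : ¬ Sml U X (fun j => hq ((N j (rep q) : ℚ) / (N j (rep q') : ℚ))) := by
        intro h
        apply hqq
        apply Subtype.ext
        rw [← hrepq q, ← hrepq q']
        exact Quotient.sound (s := s) h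
      unfold Sml at h1
      push Not at h1
      obtain ⟨d, hd, h2⟩ := h1
      refine ⟨d, hd, fun _ => ?_⟩
      filter_upwards [h2] with j hj
      exact hj.le
  choose d hd0 hdsep using hsep
  obtain ⟨⟨q1, q2⟩, -, hmin⟩ := Finset.exists_min_image (Finset.univ : Finset (κ × κ))
    (fun x => d x.1 x.2) ⟨(q0, q0), Finset.mem_univ _⟩
  obtain ⟨δ, hδdef⟩ : ∃ δ : ℝ, δ = d q1 q2 := ⟨_, rfl⟩
  have hδ : 0 < δ := by rw [hδdef]; exact hd0 _ _
  have hδsep : ∀ q q' : κ, q ≠ q' → ∀ᶠ j in (U : Filter ℕ),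
      X j ^ δ ≤ hq ((N j (rep q) : ℚ) / (N j (rep q') : ℚ)) := by
    intro q q' hqq
    filter_upwards [hdsep q q' hqq] with j hj
    refine le_trans ?_ hj
    apply Real.rpow_le_rpow_of_exponent_le (hX1 j)
    rw [hδdef]
    exact hmin (q, q') (Finset.mem_univ _)
  -- the constants
  obtain ⟨c, hc⟩ : ∃ c : ℕ, c = Fintype.card κ := ⟨_, rfl⟩
  obtain ⟨η, hη, hη1, hη2⟩ : ∃ η : ℝ, 0 < η ∧ 4 * (c : ℝ) * η ≤ δ / 2 ∧
      2 * (c : ℝ) * η ≤ 1 / 10 := by
    refine ⟨min (δ / 2) (1 / 10) / (4 * ((c : ℝ) + 1)), by positivity, ?_, ?_⟩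
    · have h1 : 4 * (c : ℝ) * (min (δ / 2) (1 / 10) / (4 * ((c : ℝ) + 1))) =
          min (δ / 2) (1 / 10) * (c / (c + 1)) := by
        field_simp
      rw [h1]
      have h2 : (c : ℝ) / (c + 1) ≤ 1 := by
        rw [div_le_one (by positivity)]; linarith
      calc min (δ / 2) (1 / 10) * ((c : ℝ) / (c + 1)) ≤ min (δ / 2) (1 / 10) * 1 :=
            mul_le_mul_of_nonneg_left h2 (by positivity)
        _ ≤ _ := by rw [mul_one]; exact min_le_left _ _
    · have h1 : 2 * (c : ℝ) * (min (δ / 2) (1 / 10) / (4 * ((c : ℝ) + 1))) =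
          min (δ / 2) (1 / 10) * (c / (2 * (c + 1))) := by
        field_simp
        ring
      rw [h1]
      have h2 : (c : ℝ) / (2 * (c + 1)) ≤ 1 := by
        rw [div_le_one (by positivity)]
        have : (0 : ℝ) ≤ c := Nat.cast_nonneg c
        linarith
      calc min (δ / 2) (1 / 10) * ((c : ℝ) / (2 * (c + 1))) ≤ min (δ / 2) (1 / 10) * 1 :=
            mul_le_mul_of_nonneg_left h2 (by positivity)
        _ ≤ _ := by rw [mul_one]; exact min_le_right _ _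
  obtain ⟨K, hK⟩ : ∃ K : ℝ, K = ((n : ℝ) + 1) * (((P : ℝ) ^ 4 + 16) * Z4) := ⟨_, rfl⟩
  have hK0 : 0 ≤ K := by
    rw [hK]
    have := Z4_nonneg
    positivity
  obtain ⟨zz, hzz⟩ : ∃ zz : κ → ℕ → ℚ, ∀ q j, zz q j = z (cl q.1) (rep q) j := ⟨_, fun _ _ => rfl⟩
  have hzzS : ∀ q : κ, Sml U X (fun j => hq (zz q j)) := by
    intro q
    simp only [hzz]
    exact hzS _ (hclF _) _ (hclrep q)
  have hzzx : ∀ (q : κ) j, ((xq j q.1 : ℤ) : ℚ) = u j (rep q) * zz q j := by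
    intro q j
    rw [hxqdef, hzz]
    exact hzu _ (hclF _) _ (hrepF q) j
  have hzα : Sml U X (fun j => hq (z (cl (Quotient.mk s α)) α j)) := by
    refine hzS _ (hclF _) _ fun x hx => ?_
    rw [hcldef, Finset.mem_filter] at hx
    exact Quotient.eq.mp hx.2.symm
  have hbig : ∀ᶠ j in (U : Filter ℕ), K * X j ^ (3 / 10 : ℝ) < 2 ^ (r j 0) := by
    have h1 : Tendsto (fun j => X j ^ (3 / 10 : ℝ)) U atTop :=
      (tendsto_rpow_atTop (by norm_num)).comp hXt
    filter_upwards [h1.eventually (eventually_gt_atTop K)] with j hj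
    have h2 : (0 : ℝ) < X j ^ (3 / 10 : ℝ) := Real.rpow_pos_of_pos (hX0 j) _
    have h3 : X j ^ (3 / 10 : ℝ) * X j ^ (3 / 10 : ℝ) ≤ 2 ^ (r j 0) := by
      rw [← Real.rpow_add (hX0 j), hXj, ← Real.exp_mul]
      have h4 : Real.exp ((r j 0 : ℝ) * (3 / 10 + 3 / 10)) ≤ Real.exp (Real.log 2 * r j 0) := by
        rw [Real.exp_le_exp]
        have h5 := Real.log_two_gt_d9
        have h6 : (0 : ℝ) ≤ r j 0 := Nat.cast_nonneg _
        nlinarith
      refine h4.trans (le_of_eq ?_)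
      rw [Real.exp_mul, Real.exp_log (by norm_num), Real.rpow_natCast]
    calc K * X j ^ (3 / 10 : ℝ) < X j ^ (3 / 10 : ℝ) * X j ^ (3 / 10 : ℝ) :=
          mul_lt_mul_of_pos_right hj h2
      _ ≤ _ := h3
  have hzero : ∀ᶠ j in (U : Filter ℕ), ∀ q : Quotient s,
      ¬ (∀ᶠ j in (U : Filter ℕ), xq j q ≠ 0) → xq j q = 0 := by
    rw [Filter.eventually_all]
    intro q
    by_cases h : ∀ᶠ j in (U : Filter ℕ), xq j q ≠ 0
    · exact Eventually.of_forall fun j hn => absurd h hn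
    · rw [← Ultrafilter.eventually_not] at h
      filter_upwards [h] with j hj _
      exact Classical.not_not.mp hj
  obtain ⟨B, hB⟩ := exists_nat_gt (20 * (P : ℝ))
  obtain ⟨M, hMdef⟩ : ∃ M : Set ℕ, M = {j | StrictMono (r j) ∧ j ≤ r j 0 ∧
      (∀ i, |(a j i : ℝ)| ≤ Real.exp (1 / ((j : ℝ) + 1) * r j i)) ∧
      (∑ i, (a j i : ℝ) * dz (r j i) (k j - r j i) = 0) ∧ FI P n (r j) (k j) = F ∧
      (∀ q : κ, xq j q.1 ≠ 0) ∧ (∀ q : κ, hq (zz q j) ≤ X j ^ η) ∧
      (∀ q : κ, hq (zz q j) ≤ X j ^ (δ / 4)) ∧ (∀ q : κ, hq (zz q j) ≤ X j ^ (1 : ℝ)) ∧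
      (∀ q q' : κ, q ≠ q' → X j ^ δ ≤ hq ((N j (rep q) : ℚ) / (N j (rep q') : ℚ))) ∧
      (∀ q : Quotient s, ¬ (∀ᶠ j in (U : Filter ℕ), xq j q ≠ 0) → xq j q = 0) ∧
      (K * X j ^ (3 / 10 : ℝ) < 2 ^ (r j 0)) ∧
      hq (z (cl (Quotient.mk s α)) α j) ≤ X j ^ (1 / 10 : ℝ) ∧ B ≤ j ∧ 4 ≤ j} := ⟨_, rfl⟩
  have hMU : ∀ᶠ j in (U : Filter ℕ), j ∈ M := by
    rw [hMdef]
    simp only [Set.mem_ofPred_eq]
    refine hD.mono.and (hD.r0.and (hD.aH.and (hD.rel.and (hF.and ?_))))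
    refine (Filter.eventually_all.mpr fun q => q.2).and ?_
    refine (Filter.eventually_all.mpr fun q => hzzS q η hη).and ?_
    refine (Filter.eventually_all.mpr fun q => hzzS q (δ / 4) (by positivity)).and ?_
    refine (Filter.eventually_all.mpr fun q => hzzS q 1 one_pos).and ?_
    refine (Filter.eventually_all.mpr fun q => Filter.eventually_all.mpr fun q' => ?_).and ?_
    · by_cases hqq : q = q'
      · exact Eventually.of_forall fun j h => absurd hqq h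
      · filter_upwards [hδsep q q' hqq] with j hj _
        exact hj
    refine hzero.and (hbig.and ((hzα (1 / 10) (by norm_num)).and ?_))
    have e1 : ∀ᶠ j in (U : Filter ℕ), B ≤ j := hD.le (eventually_ge_atTop B)
    have e2 : ∀ᶠ j in (U : Filter ℕ), 4 ≤ j := hD.le (eventually_ge_atTop 4)
    exact e1.and e2
  have hMinf : M.Infinite := inf_of_mem hD.le hMU
  have hxzne : ∀ j ∈ M, ∀ q : κ, zz q j ≠ 0 := by
    intro j hj q h0
    rw [hMdef] at hj
    have h1 := hj.2.2.2.2.2.1 q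
    apply h1
    have h2 := hzzx q j
    rw [h0, mul_zero] at h2
    exact_mod_cast h2
  obtain ⟨C, hCdef⟩ : ∃ C : ℝ, C = (F.card : ℝ) * Real.log P + 1 := ⟨_, rfl⟩
  have hlogP : 0 ≤ Real.log P := Real.log_nonneg (by exact_mod_cast hP0)
  have hC : 0 < C := by rw [hCdef]; positivity
  refine U3 hAV hSUBT S hS κ M X (fun j q => xq j q.1) (δ / 2) η (1 / 10) C q0 (by positivity)
    hη.le (by norm_num) hC (by rw [← hc]; exact hη1) (by rw [← hc]; exact hη2) ?_ ?_ ?_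
  · refine ⟨hMinf, fun j _ => hX1 j, ?_, ?_, ?_, ?_⟩
    · intro B'
      obtain ⟨b, hb⟩ := exists_nat_gt B'
      refine (Set.finite_le_nat b).subset ?_
      rintro j ⟨hj, hjB⟩
      rw [hMdef] at hj
      have h1 : (j : ℝ) ≤ r j 0 := by exact_mod_cast hj.2.1
      have h2 := Real.add_one_le_exp (r j 0 : ℝ)
      rw [hXj] at hjB
      have h3 : (j : ℝ) ≤ b := by linarith
      simp only [Set.mem_ofPred_eq]
      exact_mod_cast h3
    · intro j hj q
      rw [hMdef] at hj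
      exact hj.2.2.2.2.2.1 q
    · intro j hj q
      have hz0 := hxzne j hj q
      rw [hMdef] at hj
      have h1 := hj.2.2.2.2.2.2.1 q
      have h2 : ∏ v ∈ plc S, av v ((xq j q.1 : ℤ) : ℚ) = ∏ v ∈ plc S, av v (zz q j) := by
        have h3 : ∏ v ∈ plc S, av v ((xq j q.1 : ℤ) : ℚ) =
            ∏ v ∈ plc S, (av v (u j (rep q)) * av v (zz q j)) :=
          Finset.prod_congr rfl fun v hv => by rw [hzzx, avm v hv]
        rw [h3, Finset.prod_mul_distrib, huS, one_mul]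
      rw [h2]
      exact (av_hq hAV S hS _ hz0).trans h1
    · intro j hj q q' hqq
      have hz0 := hxzne j hj q
      have hz0' := hxzne j hj q'
      rw [hMdef] at hj
      have h1 := hj.2.2.2.2.2.2.2.1 q
      have h1' := hj.2.2.2.2.2.2.2.1 q'
      have h2 := hj.2.2.2.2.2.2.2.2.2.1 q' q (Ne.symm hqq)
      have hu1 : (u j (rep q) : ℚ) ≠ 0 := by exact_mod_cast (hu0 j _).ne'
      have hu1' : (u j (rep q') : ℚ) ≠ 0 := by exact_mod_cast (hu0 j _).ne'
      have h3 : (N j (rep q') : ℚ) / (N j (rep q) : ℚ) =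
          ((xq j q.1 : ℤ) : ℚ) / ((xq j q'.1 : ℤ) : ℚ) * (zz q' j * (zz q j)⁻¹) := by
        rw [hzzx, hzzx]
        have h4 : (u j (rep q) : ℚ) * N j (rep q) = u j (rep q') * N j (rep q') := by
          have e1 := hDu j (rep q) (hrepF q)
          rw [← hDu j (rep q') (hrepF q')] at e1
          exact_mod_cast e1
        have h5 := hNq j (rep q)
        field_simp
        linarith
      rw [h3] at h2
      have h4 : X j ^ δ ≤ hq (((xq j q.1 : ℤ) : ℚ) / ((xq j q'.1 : ℤ) : ℚ)) *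
          (X j ^ (δ / 4) * X j ^ (δ / 4)) := by
        refine h2.trans ((hq_mul _ _).trans (mul_le_mul_of_nonneg_left ?_ (hq_pos _).le))
        refine (hq_mul _ _).trans (mul_le_mul h1' ((hq_inv _).trans h1) (hq_pos _).le ?_)
        exact Real.rpow_nonneg (hX0 j).le _
      rw [← Real.rpow_add (hX0 j)] at h4
      have h5 : X j ^ δ = X j ^ (δ / 2) * X j ^ (δ / 4 + δ / 4) := by
        rw [← Real.rpow_add (hX0 j)]
        congr 1
        ring
      rw [h5] at h4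
      exact le_of_mul_le_mul_right h4 (Real.rpow_pos_of_pos (hX0 j) _)
  · intro j hj q
    rw [hMdef] at hj
    have h1 := hj.2.2.2.2.2.2.2.2.1 q
    have h2 : |((xq j q.1 : ℤ) : ℝ)| = |(u j (rep q) : ℝ)| * |((zz q j : ℚ) : ℝ)| := by
      have h3 := hzzx q j
      have h4 : ((xq j q.1 : ℤ) : ℝ) = (u j (rep q) : ℝ) * ((zz q j : ℚ) : ℝ) := by
        exact_mod_cast congrArg (fun x : ℚ => (x : ℝ)) h3
      rw [h4, abs_mul]
    show |((xq j q.1 : ℤ) : ℝ)| ≤ X j ^ C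
    rw [h2, hCdef, Real.rpow_add (hX0 j)]
    refine mul_le_mul ?_ ?_ (abs_nonneg _) (Real.rpow_nonneg (hX0 j).le _)
    · rw [abs_of_pos (by exact_mod_cast hu0 j (rep q)), hudef, hXj, ← Real.exp_mul]
      have h3 : ∏ y ∈ F.erase (rep q), N j y ≤ (P ^ (r j 0)) ^ F.card := by
        calc ∏ y ∈ F.erase (rep q), N j y ≤ (P ^ (r j 0)) ^ (F.erase (rep q)).card := by
              refine Finset.prod_le_pow_card _ _ _ (fun y hy => ?_)
              have hyF := Finset.mem_of_mem_erase hy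
              rw [← hj.2.2.2.2.1] at hyF
              rw [hNdef]
              exact (Finset.mem_filter.mp hyF).2
          _ ≤ _ := Nat.pow_le_pow_right (Nat.pow_pos hP0)
              (Finset.card_le_card (Finset.erase_subset _ _))
      have h4 : (((P ^ (r j 0)) ^ F.card : ℕ) : ℝ) =
          Real.exp ((r j 0 : ℝ) * ((F.card : ℝ) * Real.log P)) := by
        push_cast
        have h5 : (P : ℝ) = Real.exp (Real.log P) := by
          rw [Real.exp_log (by exact_mod_cast hP0)]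
        nth_rewrite 1 [h5]
        rw [← pow_mul, ← Real.exp_nat_mul]
        congr 1
        push_cast
        ring
      rw [← h4]
      exact_mod_cast h3
    · refine le_trans ?_ h1
      have h3 : ((zz q j : ℚ) : ℝ) = ((zz q j).num : ℝ) / ((zz q j).den : ℝ) := by
        have := Rat.num_div_den (zz q j)
        nth_rewrite 1 [← this]
        push_cast
        rfl
      rw [h3, abs_div, Nat.abs_cast]
      have h4 : (1 : ℝ) ≤ ((zz q j).den : ℝ) := by exact_mod_cast (zz q j).den_pos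
      exact (div_le_self (abs_nonneg _) h4).trans (num_le_hq _)
  · intro j hj
    have hjM := hj
    rw [hMdef] at hj
    obtain ⟨h1, h2, h3, h4, h5, -, -, -, -, -, h11, h12, h13, h14, h15⟩ := hj
    have hjr : (0 : ℝ) < (j : ℝ) + 1 := by positivity
    have hDr : (0 : ℝ) < (D j : ℝ) := by exact_mod_cast hD0 j
    -- the whole sum
    have hsum : ∑ q : κ, xq j q.1 = ∑ x ∈ F, a j x.2 * u j x := by
      have e1 : ∑ q : κ, xq j q.1 = ∑ q : Quotient s, xq j q := by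
        rw [← Finset.sum_subtype (Finset.univ.filter
          (fun q : Quotient s => ∀ᶠ j in (U : Filter ℕ), xq j q ≠ 0))
          (by intro x; simp) (fun q : Quotient s => xq j q)]
        rw [Finset.sum_filter_of_ne]
        intro q _ hq
        by_contra hcon2
        exact hq (h11 q hcon2)
      rw [e1]
      simp only [hxqdef, hcldef]
      exact Finset.sum_fiberwise_of_maps_to (fun _ _ => Finset.mem_univ _) _
    have hT := trunc_rel P n (r j) (k j) (a j) (1 / ((j : ℝ) + 1)) (by positivity) (by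
      rw [div_le_div_iff₀ hjr (by norm_num)]
      have : (4 : ℝ) ≤ j := by exact_mod_cast h15
      linarith) hP0 (h15.trans h2) (fun i => h1.monotone (Fin.zero_le i)) h3 h4
    rw [h5] at hT
    obtain ⟨T, hTdef⟩ : ∃ T : ℝ, T = ∑ x ∈ F, (a j x.2 : ℝ) / (NI (r j) (k j) x : ℝ) := ⟨_, rfl⟩
    rw [← hTdef] at hT
    have hsumT : ((∑ q : κ, xq j q.1 : ℤ) : ℝ) = (D j : ℝ) * T := by
      rw [hsum, hTdef, Finset.mul_sum]
      push_cast
      refine Finset.sum_congr rfl fun x hx => ?_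
      rw [hur j x hx, hNdef]
      ring
    have hTle : |T| ≤ K * X j ^ (1 / 10 : ℝ) / (P : ℝ) ^ r j 0 := by
      refine hT.trans ?_
      rw [hK]
      have e1 : Real.exp (1 / ((j : ℝ) + 1) * (2 * P * r j 0)) ≤ X j ^ (1 / 10 : ℝ) := by
        rw [hXj, ← Real.exp_mul, Real.exp_le_exp, one_div_mul_eq_div, div_le_iff₀ hjr]
        have e2 : (0 : ℝ) ≤ r j 0 := Nat.cast_nonneg _
        have e3 : (B : ℝ) ≤ j := by exact_mod_cast h14
        nlinarith
      have hZ := Z4_nonneg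
      calc ((n : ℝ) + 1) * ((((P : ℝ) ^ 4 + 16) * Z4) *
            Real.exp (1 / ((j : ℝ) + 1) * (2 * P * r j 0)) / (P : ℝ) ^ r j 0) ≤
            ((n : ℝ) + 1) * ((((P : ℝ) ^ 4 + 16) * Z4) * X j ^ (1 / 10 : ℝ) / (P : ℝ) ^ r j 0) := by
            refine mul_le_mul_of_nonneg_left ?_ (by positivity)
            refine div_le_div_of_nonneg_right ?_ (by positivity)
            exact mul_le_mul_of_nonneg_left e1 (by positivity)
        _ = _ := by ring
    have hlow : (D j : ℝ) / (p : ℝ) ^ r j 0 * X j ^ (-(1 / 10) : ℝ) ≤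
        |((xq j (Quotient.mk s α) : ℤ) : ℝ)| := by
      have e1 := hzu (cl (Quotient.mk s α)) (hclF _) α hαF j
      rw [← hxqdef] at e1
      have e2 : ((xq j (Quotient.mk s α) : ℤ) : ℝ) = (u j α : ℝ) *
          ((z (cl (Quotient.mk s α)) α j : ℚ) : ℝ) := by
        exact_mod_cast congrArg (fun x : ℚ => (x : ℝ)) e1
      have e3 : z (cl (Quotient.mk s α)) α j ≠ 0 := by
        intro h0
        rw [h0, mul_zero] at e1
        have h6 : xq j q0.1 ≠ 0 := by
          rw [hMdef] at hjM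
          exact hjM.2.2.2.2.2.1 q0
        exact h6 (by exact_mod_cast e1)
      rw [e2, abs_mul, abs_of_pos (by exact_mod_cast hu0 j α), hur j α hαF, hNα]
      push_cast
      refine mul_le_mul_of_nonneg_left ?_ (by positivity)
      refine le_trans ?_ (abs_ge_hq _ e3)
      rw [Real.rpow_neg (hX0 j).le, ← one_div]
      exact one_div_le_one_div_of_le (hq_pos _) h13
    show |((∑ q : κ, xq j q.1 : ℤ) : ℝ)| < |((xq j (Quotient.mk s α) : ℤ) : ℝ)| *
      X j ^ (-(1 / 10) : ℝ)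
    rw [hsumT, abs_mul, abs_of_pos hDr]
    have hY : (0 : ℝ) < X j ^ (1 / 10 : ℝ) := Real.rpow_pos_of_pos (hX0 j) _
    have hYn : X j ^ (-(1 / 10) : ℝ) = (X j ^ (1 / 10 : ℝ))⁻¹ := Real.rpow_neg (hX0 j).le _
    have hY3 : X j ^ (3 / 10 : ℝ) = (X j ^ (1 / 10 : ℝ)) ^ 3 := by
      rw [← Real.rpow_natCast, ← Real.rpow_mul (hX0 j).le]
      norm_num
    rw [hYn] at hlow ⊢
    rw [hY3] at h12
    obtain ⟨Y, hYdef⟩ : ∃ Y : ℝ, Y = X j ^ (1 / 10 : ℝ) := ⟨_, rfl⟩
    rw [← hYdef] at hlow h12 hY hTle ⊢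
    have hpp : (0 : ℝ) < (p : ℝ) ^ r j 0 := by
      have : (0 : ℝ) < p := by exact_mod_cast hp.pos
      positivity
    have hPr : (0 : ℝ) < (P : ℝ) ^ r j 0 := by
      have : (0 : ℝ) < P := by exact_mod_cast hP0
      positivity
    have hPp : (p : ℝ) ^ r j 0 * 2 ^ r j 0 ≤ (P : ℝ) ^ r j 0 := by
      rw [← mul_pow]
      apply pow_le_pow_left₀ (by positivity)
      have e1 : (p : ℝ) ^ 2 ≤ P := by exact_mod_cast hpP
      have e2 : (2 : ℝ) ≤ p := by exact_mod_cast hp2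
      nlinarith
    calc (D j : ℝ) * |T| ≤ (D j : ℝ) * (K * Y / (P : ℝ) ^ r j 0) :=
          mul_le_mul_of_nonneg_left hTle hDr.le
      _ < (D j : ℝ) / (p : ℝ) ^ r j 0 * Y⁻¹ * Y⁻¹ := by
          have e1 : (D j : ℝ) / (p : ℝ) ^ r j 0 * Y⁻¹ * Y⁻¹ =
              (D j : ℝ) * (1 / ((p : ℝ) ^ r j 0 * Y ^ 2)) := by
            field_simp
          rw [e1]
          refine mul_lt_mul_of_pos_left ?_ hDr
          rw [div_lt_div_iff₀ hPr (by positivity)]
          calc K * Y * ((p : ℝ) ^ r j 0 * Y ^ 2) = (p : ℝ) ^ r j 0 * (K * Y ^ 3) := by ring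
            _ < (p : ℝ) ^ r j 0 * 2 ^ r j 0 := mul_lt_mul_of_pos_left h12 hpp
            _ ≤ 1 * (P : ℝ) ^ r j 0 := by rw [one_mul]; exact hPp
      _ ≤ _ := mul_le_mul_of_nonneg_right hlow (inv_nonneg.mpr hY.le)

end Pool.Agent.Helper27.SUB
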