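import Pool.Agent.Helper27.SUB.T3c
import Pool.Agent.Helper27.SUB.T2

/-!
Relations between double zeta values with boundedly many terms have exponentially large height.
-/

set_option autoImplicit false

namespace Pool.Agent.Helper27.SUB

open Finset Filter Pool.Agent.Helper70.SUB

theorem constU {β : Type} [Finite β] (U : Ultrafilter ℕ) (f : ℕ → β) :
    ∃ b, ∀ᶠ j in (U : Filter ℕ), f j = b := by
  obtain ⟨b, hb⟩ := Ultrafilter.eq_pure_of_finite (U.map f)
  refine ⟨b, ?_⟩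
  have h1 : ({b} : Set β) ∈ U.map f := by
    rw [hb]
    exact Set.mem_singleton b
  exact h1

/-- the functions of the nonsingular system -/
noncomputable def ff (p R s b : ℕ) : ℝ := ∑ y ∈ range b, 1 / ((p : ℝ) ^ R * ((y : ℝ) + 1) ^ s)

theorem ff_eq (p R s b : ℕ) :
    ff p R s b = (∑ y ∈ range b, 1 / ((y : ℝ) + 1) ^ s) / (p : ℝ) ^ R := by
  unfold ff
  rw [Finset.sum_div]
  refine Finset.sum_congr rfl fun y _ => ?_
  rw [div_div, mul_comm]

theorem hs_ge (s b : ℕ) (hb : 1 ≤ b) : 1 ≤ ∑ y ∈ range b, 1 / ((y : ℝ) + 1) ^ s := by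
  have h1 : (1 : ℝ) = 1 / (((0 : ℕ) : ℝ) + 1) ^ s := by simp
  calc (1 : ℝ) = 1 / (((0 : ℕ) : ℝ) + 1) ^ s := h1
    _ ≤ _ := Finset.single_le_sum (f := fun y : ℕ => 1 / ((y : ℝ) + 1) ^ s)
      (fun y _ => by positivity) (Finset.mem_range.mpr hb)

theorem hs_le (s b p : ℕ) (hs : 1 ≤ s) (hb : b ≤ p) :
    ∑ y ∈ range b, 1 / ((y : ℝ) + 1) ^ s ≤ 2 * Real.sqrt p := by
  calc ∑ y ∈ range b, 1 / ((y : ℝ) + 1) ^ s ≤ ∑ y ∈ range b, 1 / ((y : ℝ) + 1) := by
        refine Finset.sum_le_sum fun y _ => ?_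
        apply one_div_le_one_div_of_le (by positivity)
        have : (1 : ℝ) ≤ (y : ℝ) + 1 := by
          have : (0 : ℝ) ≤ y := Nat.cast_nonneg y
          linarith
        exact le_self_pow₀ this (by omega)
    _ ≤ 2 * Real.sqrt b := hsum_le b
    _ ≤ _ := by
        have : Real.sqrt b ≤ Real.sqrt p := Real.sqrt_le_sqrt (by exact_mod_cast hb)
        linarith

theorem ff_cond (K p p' R R' s s' b1 b2 b3 b4 : ℕ) (hp : 2 ≤ p) (hK : 16 * K ^ 2 * p ^ 4 ≤ p')
    (hR : R < R') (hs : 1 ≤ s) (hs' : 1 ≤ s') (hb1 : b1 ≤ p) (hb2 : b2 ≤ p') (hb3 : 1 ≤ b3)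
    (hb4 : 1 ≤ b4) (s3 s4 : ℕ) :
    (K : ℝ) * (ff p R s b1 * ff p' R' s' b2) ≤ ff p' R s3 b3 * ff p R' s4 b4 := by
  rw [ff_eq, ff_eq, ff_eq, ff_eq]
  have h1 := hs_le s b1 p hs hb1
  have h2 := hs_le s' b2 p' hs' hb2
  have h3 := hs_ge s3 b3 hb3
  have h4 := hs_ge s4 b4 hb4
  have g1 : 0 ≤ ∑ y ∈ range b1, 1 / ((y : ℝ) + 1) ^ s :=
    Finset.sum_nonneg fun y _ => by positivity
  have g2 : 0 ≤ ∑ y ∈ range b2, 1 / ((y : ℝ) + 1) ^ s' :=
    Finset.sum_nonneg fun y _ => by positivity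
  obtain ⟨x1, hx1⟩ : ∃ x, x = ∑ y ∈ range b1, 1 / ((y : ℝ) + 1) ^ s := ⟨_, rfl⟩
  obtain ⟨x2, hx2⟩ : ∃ x, x = ∑ y ∈ range b2, 1 / ((y : ℝ) + 1) ^ s' := ⟨_, rfl⟩
  obtain ⟨x3, hx3⟩ : ∃ x, x = ∑ y ∈ range b3, 1 / ((y : ℝ) + 1) ^ s3 := ⟨_, rfl⟩
  obtain ⟨x4, hx4⟩ : ∃ x, x = ∑ y ∈ range b4, 1 / ((y : ℝ) + 1) ^ s4 := ⟨_, rfl⟩
  rw [← hx1] at h1 g1
  rw [← hx2] at h2 g2
  rw [← hx3] at h3
  rw [← hx4] at h4
  rw [← hx1, ← hx2, ← hx3, ← hx4]
  have hpr : (2 : ℝ) ≤ p := by exact_mod_cast hp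
  have hp0 : (0 : ℝ) < p := by linarith
  have hKr : 16 * (K : ℝ) ^ 2 * (p : ℝ) ^ 4 ≤ p' := by exact_mod_cast hK
  have hK0 : (0 : ℝ) ≤ K := Nat.cast_nonneg K
  obtain ⟨d, hd⟩ : ∃ d, R' = R + (d + 1) := ⟨R' - R - 1, by omega⟩
  obtain ⟨q, hq⟩ : ∃ q, q = Real.sqrt p := ⟨_, rfl⟩
  obtain ⟨q', hq'⟩ : ∃ q, q = Real.sqrt p' := ⟨_, rfl⟩
  have hq0 : 0 ≤ q := by rw [hq]; exact Real.sqrt_nonneg _
  have hq0' : 0 ≤ q' := by rw [hq']; exact Real.sqrt_nonneg _
  have hqq : q * q = p := by rw [hq]; exact Real.mul_self_sqrt hp0.le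
  have hqq' : q' * q' = p' := by rw [hq']; exact Real.mul_self_sqrt (Nat.cast_nonneg _)
  rw [← hq] at h1
  rw [← hq'] at h2
  have hq1 : 1 ≤ q := by nlinarith
  have hqp : q ≤ p := by nlinarith
  have hKq : 4 * (K : ℝ) * (p : ℝ) ^ 2 ≤ q' := by
    have e1 : (4 * (K : ℝ) * (p : ℝ) ^ 2) ^ 2 ≤ q' ^ 2 := by
      rw [sq q', hqq']
      calc (4 * (K : ℝ) * (p : ℝ) ^ 2) ^ 2 = 16 * (K : ℝ) ^ 2 * (p : ℝ) ^ 4 := by ring
        _ ≤ _ := hKr
    exact (pow_le_pow_iff_left₀ (by positivity) hq0' (by norm_num)).mp e1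
  have hp'0 : (0 : ℝ) ≤ p' := Nat.cast_nonneg _
  have hpp' : (p : ℝ) ≤ p' ∨ K = 0 := by
    by_cases hK1 : K = 0
    · exact Or.inr hK1
    · left
      have e1 : (1 : ℝ) ≤ K := by exact_mod_cast Nat.one_le_iff_ne_zero.mpr hK1
      have e2 : (1 : ℝ) ≤ (K : ℝ) ^ 2 := one_le_pow₀ e1
      have e3 : (p : ℝ) ≤ (p : ℝ) ^ 4 := le_self_pow₀ (by linarith) (by norm_num)
      nlinarith [pow_pos hp0 4]
  rcases hpp' with hpp' | hK1
  swap
  · rw [hK1, Nat.cast_zero, zero_mul]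
    positivity
  have hp'1 : (0 : ℝ) < p' := by linarith
  have key : (K : ℝ) * (x1 * x2) * (p : ℝ) ^ (d + 1) ≤ (p' : ℝ) ^ (d + 1) := by
    have e1 : x1 ≤ 2 * p := by linarith
    calc (K : ℝ) * (x1 * x2) * (p : ℝ) ^ (d + 1) ≤ (K : ℝ) * ((2 * p) * (2 * q')) * (p : ℝ) ^ (d + 1) := by
          apply mul_le_mul_of_nonneg_right _ (by positivity)
          apply mul_le_mul_of_nonneg_left _ hK0
          exact mul_le_mul e1 h2 g2 (by positivity)
      _ = (4 * (K : ℝ) * (p : ℝ) ^ 2) * (q' * (p : ℝ) ^ d) := by ring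
      _ ≤ q' * (q' * (p' : ℝ) ^ d) := by
          apply mul_le_mul hKq _ (by positivity) hq0'
          exact mul_le_mul_of_nonneg_left (pow_le_pow_left₀ hp0.le hpp' d) hq0'
      _ = (p' : ℝ) ^ (d + 1) := by rw [← mul_assoc, hqq', pow_succ]; ring
  have e5 : (p' : ℝ) ^ R' = (p' : ℝ) ^ R * (p' : ℝ) ^ (d + 1) := by rw [hd, pow_add]
  have e6 : (p : ℝ) ^ R' = (p : ℝ) ^ R * (p : ℝ) ^ (d + 1) := by rw [hd, pow_add]
  rw [div_mul_div_comm, div_mul_div_comm, mul_div_assoc', div_le_div_iff₀ (by positivity)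
    (by positivity), e5, e6]
  have e1 : 0 < (p' : ℝ) ^ R * (p : ℝ) ^ R := by positivity
  have e2 := mul_le_mul_of_nonneg_left key e1.le
  have e3 : 1 ≤ x3 * x4 := by nlinarith
  have e4 : 0 ≤ (p : ℝ) ^ R * ((p' : ℝ) ^ R * (p' : ℝ) ^ (d + 1)) := by positivity
  calc (K : ℝ) * (x1 * x2) * ((p' : ℝ) ^ R * ((p : ℝ) ^ R * (p : ℝ) ^ (d + 1)))
      = (p' : ℝ) ^ R * (p : ℝ) ^ R * ((K : ℝ) * (x1 * x2) * (p : ℝ) ^ (d + 1)) := by ring
    _ ≤ (p' : ℝ) ^ R * (p : ℝ) ^ R * (p' : ℝ) ^ (d + 1) := e2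
    _ = 1 * ((p : ℝ) ^ R * ((p' : ℝ) ^ R * (p' : ℝ) ^ (d + 1))) := by ring
    _ ≤ _ := mul_le_mul_of_nonneg_right e3 e4

theorem core3 (hAV : ST_AV) (hSUBT : ST_SUBT) (U : Ultrafilter ℕ) (n : ℕ)
    (r : ℕ → Fin (n + 1) → ℕ) (k : ℕ → ℕ) (a : ℕ → Fin (n + 1) → ℤ) (hD : Dat U n r k a) :
    False := by
  classical
  obtain ⟨pl, hpl, hplL⟩ := primes (16 * (2 * n + 2) ^ 2)
  have hpl2 : ∀ l, 2 ≤ pl l := fun l => (hpl l).two_le
  have hplm : ∀ l ≤ n, pl l ≤ pl n := by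
    intro l hl
    rcases Nat.lt_or_ge l n with h | h
    · have h1 := hplL l n h
      have h2 : pl l ≤ pl l ^ 4 := Nat.le_self_pow (by norm_num) _
      have h3 : 1 ≤ 16 * (2 * n + 2) ^ 2 := by
        have : 1 ≤ (2 * n + 2) ^ 2 := Nat.one_le_pow _ _ (by omega)
        omega
      nlinarith
    · have : l = n := by omega
      rw [this]
  obtain ⟨P, hP⟩ : ∃ P, P = pl n ^ 2 := ⟨_, rfl⟩
  have hplP : ∀ l ≤ n, pl l ^ 2 ≤ P := fun l hl => by
    rw [hP]; exact Nat.pow_le_pow_left (hplm l hl) 2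
  obtain ⟨F, hF⟩ := constU U (fun j => FI P n (r j) (k j))
  obtain ⟨X, hXdef⟩ : ∃ X : ℕ → ℝ, X = fun j => Real.exp (r j 0) := ⟨_, rfl⟩
  have hXj : ∀ j, X j = Real.exp (r j 0) := fun j => by rw [hXdef]
  have hX1 : ∀ j, 1 ≤ X j := fun j => by rw [hXj]; exact Real.one_le_exp (Nat.cast_nonneg _)
  obtain ⟨cA, hcA⟩ : ∃ cA : Prop, cA ↔ Sml U X (fun j => Real.exp ((k j - r j 0 : ℕ) : ℝ)) :=
    ⟨_, Iff.rfl⟩
  obtain ⟨I, hI⟩ : ∃ I : Fin (n + 1) → Prop, ∀ i, I i ↔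
      Sml U X (fun j => Real.exp ((r j i - r j 0 : ℕ) : ℝ)) := ⟨_, fun _ => Iff.rfl⟩
  obtain ⟨b, hb⟩ : ∃ b : ℕ → ℕ, ∀ l, b l = if cA then pl l - 1 else 1 := ⟨_, fun _ => rfl⟩
  have hb1 : ∀ l, 1 ≤ b l := by
    intro l
    have := hpl2 l
    rw [hb]
    split_ifs <;> omega
  have hbp : ∀ l, b l ≤ pl l := by
    intro l
    have := hpl2 l
    rw [hb]
    split_ifs <;> omega
  have hle0 := hD.le0
  -- the class of the prime `pl l`
  have hmem : ∀ l ≤ n, ∃ T : Finset (Ix P n), (∀ x, x ∈ T ↔ x ∈ F ∧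
      ((x.1.1 : ℕ) + (x.1.2 : ℕ) + 2 = pl l) ∧ I x.2 ∧ (x.1.2 : ℕ) < b l) ∧
      ∀ᶠ j in (U : Filter ℕ), ∑ x ∈ T, (a j x.2 : ℝ) / (NI (r j) (k j) x : ℝ) = 0 := by
    intro l hl
    obtain ⟨T, hT1, hT2⟩ := cls0 hAV hSUBT U n r k a hD P (pl l) (hpl l) (hplP l hl) F hF
    refine ⟨T, fun x => ?_, hT2⟩
    rw [hT1]
    have hNI : ∀ j, NI (r j) (k j) x = ((x.1.1 : ℕ) + (x.1.2 : ℕ) + 2) ^ (r j x.2) *
        ((x.1.2 : ℕ) + 1) ^ (k j - r j x.2) := fun j => rfl
    have h02 : ∀ᶠ j in (U : Filter ℕ), r j 0 ≤ r j x.2 := by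
      filter_upwards [hle0] with j hj
      exact hj _
    constructor
    · rintro ⟨hxF, h⟩
      refine ⟨hxF, ?_⟩
      obtain ⟨h1, h2, h3⟩ := cl_fwd U hD.le (pl l) ((x.1.1 : ℕ) + (x.1.2 : ℕ) + 2)
        ((x.1.2 : ℕ) + 1) (hpl l) (by omega) (by omega) (by omega) (fun j => r j 0)
        (fun j => r j x.2) (fun j => k j - r j x.2) hD.r0 h02 (by
          simpa only [hNI] using h)
      rw [← hXdef] at h2 h3
      refine ⟨h1, (hI _).mpr h2, ?_⟩
      rw [hb]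
      split_ifs with hc
      · omega
      · rcases h3 with h3 | h3
        · omega
        · exfalso
          apply hc
          rw [hcA]
          refine (Sml.mul hX1 h3 h2 (fun j => Real.exp_nonneg _)).mono ?_
          filter_upwards [h02, hD.rk] with j e1 e2
          rw [← Real.exp_add, Real.exp_le_exp]
          have e3 := e2 x.2
          have e4 : k j - r j 0 = (k j - r j x.2) + (r j x.2 - r j 0) := by omega
          rw [e4]
          push_cast
          exact le_rfl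
    · rintro ⟨hxF, h1, h2, h3⟩
      refine ⟨hxF, ?_⟩
      have h4 := cl_bwd U (pl l) ((x.1.2 : ℕ) + 1) (hpl l) (by omega) (fun j => r j 0)
        (fun j => r j x.2) (fun j => k j - r j x.2) h02 (by
          rw [← hXdef]; exact (hI _).mp h2) (by
          rw [← hXdef]
          by_cases hc : cA
          · right
            refine (hcA.mp hc).mono ?_
            filter_upwards [h02] with j e1
            rw [Real.exp_le_exp]
            have : k j - r j x.2 ≤ k j - r j 0 := by omega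
            exact_mod_cast this
          · left
            rw [hb, if_neg hc] at h3
            omega)
      simpa only [hNI, h1] using h4
  -- all members occur
  have hocc : ∀ l ≤ n, ∀ i : Fin (n + 1), ∀ y, I i → y < b l → ∃ x ∈ F,
      ((x.1.1 : ℕ) + (x.1.2 : ℕ) + 2 = pl l) ∧ x.2 = i ∧ (x.1.2 : ℕ) = y := by
    intro l hl i y hi hy
    have hp2 := hpl2 l
    have hyp : y + 1 < pl l := by
      rw [hb] at hy
      split_ifs at hy
      · omega
      · omega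
    have hPl : pl l < P := by
      have := hplP l hl
      nlinarith
    refine ⟨((⟨pl l - 2 - y, by omega⟩, ⟨y, by omega⟩), i), ?_, ?_, rfl, rfl⟩
    · have hs1 := (hI i).mp hi 1 one_pos
      have hs2 : ∀ᶠ j in (U : Filter ℕ), cA → k j - r j 0 ≤ r j 0 := by
        by_cases hc : cA
        · have h1 := hcA.mp hc 1 one_pos
          filter_upwards [h1] with j hj _
          rw [Real.rpow_one, hXj, Real.exp_le_exp] at hj
          exact_mod_cast hj
        · exact Eventually.of_forall fun j h => absurd h hc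
      obtain ⟨j, ⟨h1, h2⟩, h3, h4, h5⟩ := ((hs1.and hs2).and (hF.and (hle0.and hD.rk))).exists
      rw [← h3]
      unfold FI
      rw [Finset.mem_filter]
      refine ⟨Finset.mem_univ _, ?_⟩
      rw [Real.rpow_one, hXj, Real.exp_le_exp] at h1
      have h1' : r j i - r j 0 ≤ r j 0 := by exact_mod_cast h1
      have h4' := h4 i
      have h5' := h5 i
      show (pl l - 2 - y + y + 2) ^ (r j i) * (y + 1) ^ (k j - r j i) ≤ P ^ (r j 0)
      rw [show pl l - 2 - y + y + 2 = pl l by omega]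
      have hfin : pl l ^ (2 * r j 0) ≤ P ^ (r j 0) := by
        rw [pow_mul]
        exact Nat.pow_le_pow_left (hplP l hl) _
      refine le_trans ?_ hfin
      by_cases hc : cA
      · have h6 := h2 hc
        calc pl l ^ r j i * (y + 1) ^ (k j - r j i) ≤ pl l ^ r j i * pl l ^ (k j - r j i) :=
              Nat.mul_le_mul_left _ (Nat.pow_le_pow_left (by omega) _)
          _ = pl l ^ (k j) := by
              rw [← pow_add]
              congr 1
              omega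
          _ ≤ _ := Nat.pow_le_pow_right (by omega) (by omega)
      · rw [hb, if_neg hc] at hy
        have hy0 : y = 0 := by omega
        rw [hy0, zero_add, one_pow, mul_one]
        exact Nat.pow_le_pow_right (by omega) (by omega)
    · show pl l - 2 - y + y + 2 = pl l
      omega
  -- the linear system
  have hsys : ∀ l ≤ n, ∀ᶠ j in (U : Filter ℕ),
      ∑ i : Fin (n + 1), (if I i then (a j i : ℝ) else 0) * ff (pl l) (r j i) (k j - r j i) (b l)
        = 0 := by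
    intro l hl
    obtain ⟨T, hT1, hT2⟩ := hmem l hl
    filter_upwards [hT2] with j hj
    refine Eq.trans ?_ hj
    have h1 : ∑ i : Fin (n + 1), (if I i then (a j i : ℝ) else 0) *
        ff (pl l) (r j i) (k j - r j i) (b l) =
        ∑ x ∈ (Finset.univ.filter (fun i : Fin (n + 1) => I i)) ×ˢ range (b l),
          (a j x.1 : ℝ) * (1 / (((pl l : ℕ) : ℝ) ^ r j x.1 * ((x.2 : ℝ) + 1) ^ (k j - r j x.1))) := by
      rw [Finset.sum_product, Finset.sum_filter]
      refine Finset.sum_congr rfl fun i _ => ?_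
      split_ifs
      · unfold ff
        rw [Finset.mul_sum]
      · rw [zero_mul]
    rw [h1]
    symm
    refine Finset.sum_nbij (fun x : Ix P n => (x.2, (x.1.2 : ℕ))) ?_ ?_ ?_ ?_
    · intro x hx
      rw [hT1] at hx
      rw [Finset.mem_product, Finset.mem_filter, Finset.mem_range]
      exact ⟨⟨Finset.mem_univ _, hx.2.2.1⟩, hx.2.2.2⟩
    · intro x hx y hy hxy
      have hx' := (hT1 x).mp hx
      have hy' := (hT1 y).mp hy
      simp only [Prod.mk.injEq] at hxy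
      apply Prod.ext
      · apply Prod.ext
        · apply Fin.ext; omega
        · apply Fin.ext; exact hxy.2
      · exact hxy.1
    · rintro ⟨i, y⟩ hiy
      rw [Finset.mem_coe, Finset.mem_product, Finset.mem_filter, Finset.mem_range] at hiy
      obtain ⟨x, hxF, h2, h3, h4⟩ := hocc l hl i y hiy.1.2 hiy.2
      refine ⟨x, ?_, ?_⟩
      · rw [Finset.mem_coe, hT1]
        refine ⟨hxF, h2, ?_, ?_⟩
        · rw [h3]; exact hiy.1.2
        · rw [h4]; exact hiy.2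
      · simp only [h3, h4]
    · intro x hx
      rw [hT1] at hx
      have hNI : (NI (r j) (k j) x : ℝ) = ((((x.1.1 : ℕ) + (x.1.2 : ℕ) + 2 : ℕ) : ℝ)) ^ (r j x.2) *
          (((x.1.2 : ℕ) : ℝ) + 1) ^ (k j - r j x.2) := by
        unfold NI ND
        push_cast
        rfl
      rw [hNI, hx.2.1, div_eq_mul_one_div]
  -- conclusion at one index
  have hall : ∀ᶠ j in (U : Filter ℕ), ∀ l : Fin (n + 1),
      ∑ i : Fin (n + 1), (if I i then (a j i : ℝ) else 0) *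
        ff (pl l) (r j i) (k j - r j i) (b l) = 0 :=
    Filter.eventually_all.mpr fun l => hsys l (by omega)
  obtain ⟨j, ⟨h1, h2⟩, h3, h4⟩ := ((hall.and hD.mono).and (hD.rk.and hD.a0)).exists
  obtain ⟨e, he⟩ : ∃ e : ℕ → Fin (n + 1), ∀ i, (e i : ℕ) = min i n :=
    ⟨fun i => ⟨min i n, by omega⟩, fun _ => rfl⟩
  have hei : ∀ i : Fin (n + 1), e (i : ℕ) = i := by
    intro i
    apply Fin.ext
    rw [he]
    omega
  have hI0 : I 0 := by
    rw [hI]
    intro η hη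
    refine Eventually.of_forall fun j => ?_
    show Real.exp ((r j 0 - r j 0 : ℕ) : ℝ) ≤ X j ^ η
    rw [Nat.sub_self, Nat.cast_zero, Real.exp_zero]
    exact Real.one_le_rpow (hX1 j) hη.le
  have he0 : e 0 = 0 := by
    apply Fin.ext
    rw [he]
    simp
  have hnons : (if I (e 0) then (a j (e 0) : ℝ) else 0) = 0 := nons n (2 * (n : ℝ) + 2) (fun i l => ff (pl l) (r j (e i)) (k j - r j (e i)) (b l))
    (fun i => if I (e i) then (a j (e i) : ℝ) else 0) le_rfl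
    (by
      intro i _ l _
      show 0 < ff _ _ _ _
      rw [ff_eq]
      have e1 := hs_ge (k j - r j (e i)) (b l) (hb1 l)
      have e2 : (0 : ℝ) < pl l := Nat.cast_pos.mpr (hpl l).pos
      have e3 : (0 : ℝ) < ∑ y ∈ range (b l), 1 / ((y : ℝ) + 1) ^ (k j - r j (e i)) := by linarith
      exact div_pos e3 (pow_pos e2 _))
    (by
      intro i i' l l' hii' hi' hll' hl'
      have e1 : r j (e i) < r j (e i') := by
        apply h2
        rw [Fin.lt_def, he, he]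
        omega
      have e2 := h3 (e i)
      have e3 := h3 (e i')
      have e4 := ff_cond (2 * n + 2) (pl l) (pl l') (r j (e i)) (r j (e i')) (k j - r j (e i))
        (k j - r j (e i')) (b l) (b l') (b l') (b l) (hpl2 l) (hplL l l' hll') e1 (by omega)
        (by omega) (hbp l) (hbp l') (hb1 l') (hb1 l) (k j - r j (e i)) (k j - r j (e i'))
      push_cast at e4
      exact e4)
    (by
      intro l hl
      have e1 := h1 ⟨l, by omega⟩
      rw [Finset.sum_range]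
      refine Eq.trans ?_ e1
      refine Finset.sum_congr rfl fun i _ => ?_
      rw [hei i])
    0 (Nat.zero_le _)
  rw [he0, if_pos hI0] at hnons
  exact h4 0 (by exact_mod_cast hnons)

/-- relations with at most `t` terms have large coefficients -/
theorem T2p (hAV : ST_AV) (hSUBT : ST_SUBT) (t : ℕ) : ∃ (η : ℝ) (R : ℕ), 0 < η ∧
    ∀ (k : ℕ) (W : Finset ℕ) (c : ℕ → ℤ) (c0 : ℤ), 2 ≤ k → W.card ≤ t →
    (∀ r ∈ W, R ≤ r ∧ r < k) → (∀ r ∈ W, |(c r : ℝ)| ≤ Real.exp (η * r)) →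
    ∑ r ∈ W, (c r : ℝ) * dz r (k - r) = c0 * ∑' n : ℕ, (1 : ℝ) / ((n + 1 : ℕ) : ℝ) ^ k →
    (∀ r ∈ W, c r = 0) ∧ c0 = 0 := by
  classical
  by_contra hcon
  push Not at hcon
  have hcon1 := fun j : ℕ => hcon (1 / ((j : ℝ) + 1)) j (by positivity)
  choose k W c c0 h2 hcard hW hc hrel hnon using hcon1
  -- the constant term vanishes
  obtain ⟨R1, hR1⟩ : ∃ R1 : ℕ, ∀ j, R1 ≤ j → 4 ≤ j ∧ c0 j = 0 := by
    have hlim : Tendsto (fun j : ℕ => (t : ℝ) * (16 * Z4) * (3 / 4 : ℝ) ^ j) atTop (nhds 0) := by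
      have := (tendsto_pow_atTop_nhds_zero_of_lt_one (r := (3 / 4 : ℝ)) (by norm_num)
        (by norm_num)).const_mul ((t : ℝ) * (16 * Z4))
      simpa using this
    have h1 : ∀ᶠ j : ℕ in atTop, (t : ℝ) * (16 * Z4) * (3 / 4 : ℝ) ^ j < 1 :=
      hlim.eventually (gt_mem_nhds one_pos)
    obtain ⟨B, hB⟩ := eventually_atTop.mp h1
    refine ⟨max 4 B, fun j hj => ⟨(le_max_left _ _).trans hj, ?_⟩⟩
    have hj4 : 4 ≤ j := (le_max_left _ _).trans hj
    have hjB : B ≤ j := (le_max_right _ _).trans hj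
    by_contra h0
    have hz := zeta_ge_one (k j) (h2 j)
    have h1 : (1 : ℝ) ≤ |(c0 j : ℝ)| := by
      exact_mod_cast Int.one_le_abs h0
    have h3 : (1 : ℝ) ≤ |(c0 j : ℝ) * ∑' n : ℕ, (1 : ℝ) / ((n + 1 : ℕ) : ℝ) ^ (k j)| := by
      rw [abs_mul]
      have h4 : (1 : ℝ) ≤ |∑' n : ℕ, (1 : ℝ) / ((n + 1 : ℕ) : ℝ) ^ (k j)| := hz.trans (le_abs_self _)
      nlinarith [abs_nonneg (c0 j : ℝ)]
    rw [← hrel j] at h3
    have hZ := Z4_nonneg
    have h5 : |∑ r ∈ W j, (c j r : ℝ) * dz r (k j - r)| ≤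
        ∑ _r ∈ W j, (16 * Z4) * (3 / 4 : ℝ) ^ j := by
      refine (Finset.abs_sum_le_sum_abs _ _).trans (Finset.sum_le_sum fun r hr => ?_)
      rw [abs_mul]
      have hrj := (hW j r hr).1
      have h6 := hc j r hr
      have h7 : |dz r (k j - r)| ≤ 16 * Z4 / 2 ^ r := by
        rw [abs_of_nonneg (dz_nonneg _ _)]
        exact dz_le r (k j - r) (hj4.trans hrj)
      have h8 : Real.exp (1 / ((j : ℝ) + 1) * r) ≤ (3 / 2 : ℝ) ^ r := by
        have e1 : Real.exp (1 / ((j : ℝ) + 1) * r) = Real.exp (1 / ((j : ℝ) + 1)) ^ r := by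
          rw [← Real.exp_nat_mul, mul_comm]
        rw [e1]
        apply pow_le_pow_left₀ (Real.exp_nonneg _)
        have e2 : Real.exp (1 / ((j : ℝ) + 1)) ≤ Real.exp (1 / 4) := by
          rw [Real.exp_le_exp]
          apply one_div_le_one_div_of_le (by norm_num)
          have : (4 : ℝ) ≤ j := by exact_mod_cast hj4
          linarith
        refine e2.trans ?_
        have e3 : Real.exp (1 / 4) ^ 4 = Real.exp 1 := by
          rw [← Real.exp_nat_mul]
          congr 1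
          norm_num
        have e4 : Real.exp (1 / 4) ^ 4 ≤ (3 / 2 : ℝ) ^ 4 := by
          rw [e3]
          have := Real.exp_one_lt_d9
          norm_num
          linarith
        exact (pow_le_pow_iff_left₀ (Real.exp_nonneg _) (by norm_num) (by norm_num)).mp e4
      calc |(c j r : ℝ)| * |dz r (k j - r)| ≤ (3 / 2 : ℝ) ^ r * (16 * Z4 / 2 ^ r) :=
            mul_le_mul (h6.trans h8) h7 (abs_nonneg _) (by positivity)
        _ = (16 * Z4) * (3 / 4 : ℝ) ^ r := by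
            have e5 : (3 / 4 : ℝ) ^ r = (3 / 2) ^ r / 2 ^ r := by
              rw [← div_pow]
              norm_num
            rw [e5]
            ring
        _ ≤ _ := by
            refine mul_le_mul_of_nonneg_left ?_ (by positivity)
            exact pow_le_pow_of_le_one (by norm_num) (by norm_num) hrj
    rw [Finset.sum_const, nsmul_eq_mul] at h5
    have h8 : ((W j).card : ℝ) ≤ t := by exact_mod_cast hcard j
    have h9 : ((W j).card : ℝ) * ((16 * Z4) * (3 / 4 : ℝ) ^ j) ≤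
        (t : ℝ) * ((16 * Z4) * (3 / 4 : ℝ) ^ j) :=
      mul_le_mul_of_nonneg_right h8 (by positivity)
    have h10 := hB j hjB
    linarith
  -- the nonzero terms
  obtain ⟨W', hW'⟩ : ∃ W' : ℕ → Finset ℕ, ∀ j, W' j = (W j).filter (fun r => c j r ≠ 0) :=
    ⟨_, fun _ => rfl⟩
  have hW'mem : ∀ j r, r ∈ W' j → j ≤ r ∧ r < k j ∧ c j r ≠ 0 ∧
      |(c j r : ℝ)| ≤ Real.exp (1 / ((j : ℝ) + 1) * r) := by
    intro j r hr
    rw [hW', Finset.mem_filter] at hr
    exact ⟨(hW j r hr.1).1, (hW j r hr.1).2, hr.2, hc j r hr.1⟩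
  have hW'sum : ∀ j, R1 ≤ j → ∑ r ∈ W' j, (c j r : ℝ) * dz r (k j - r) = 0 := by
    intro j hj
    have h1 := hrel j
    rw [(hR1 j hj).2] at h1
    rw [hW', Finset.sum_filter_of_ne]
    · rw [h1]; simp
    · intro r _ hr h0
      apply hr
      rw [h0]; simp
  have hW'ne : ∀ j, R1 ≤ j → (W' j).Nonempty := by
    intro j hj
    have h1 := hnon j
    have h3 : ¬ ∀ r ∈ W j, c j r = 0 := fun h => (h1 h) (hR1 j hj).2
    push Not at h3
    obtain ⟨r, hr, hr0⟩ := h3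
    exact ⟨r, by rw [hW', Finset.mem_filter]; exact ⟨hr, hr0⟩⟩
  -- the ultrafilter
  obtain ⟨U, hU⟩ : ∃ U : Ultrafilter ℕ, (U : Filter ℕ) ≤ atTop :=
    ⟨Ultrafilter.of atTop, Ultrafilter.of_le atTop⟩
  have hUR : ∀ᶠ j in (U : Filter ℕ), R1 ≤ j := hU (eventually_ge_atTop R1)
  obtain ⟨n', hn'⟩ := constU U (fun j => (⟨min (W' j).card t, by omega⟩ : Fin (t + 1)))
  have hW't : ∀ j, (W' j).card ≤ t := fun j => by
    rw [hW']
    exact (Finset.card_filter_le _ _).trans (hcard j)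
  have hn'' : ∀ᶠ j in (U : Filter ℕ), (W' j).card = (n' : ℕ) := by
    filter_upwards [hn'] with j hj
    have h1 := congrArg (fun x : Fin (t + 1) => (x : ℕ)) hj
    have h3 := hW't j
    simp only at h1
    omega
  obtain ⟨n, hn⟩ : ∃ n, (n' : ℕ) = n + 1 := by
    obtain ⟨j, hj, hjn⟩ := (hUR.and hn'').exists
    have h1 := Finset.card_pos.mpr (hW'ne j hj)
    exact ⟨(n' : ℕ) - 1, by omega⟩
  rw [hn] at hn''
  obtain ⟨r, hrdef⟩ : ∃ r : ℕ → Fin (n + 1) → ℕ, ∀ j, ∀ h : (W' j).card = n + 1,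
      ∀ i, r j i = (W' j).orderEmbOfFin h i := by
    refine ⟨fun j => if h : (W' j).card = n + 1 then (W' j).orderEmbOfFin h else fun _ => 0, ?_⟩
    intro j h i
    simp only [h, dif_pos]
  have hmem : ∀ j, (W' j).card = n + 1 → ∀ i, r j i ∈ W' j := by
    intro j hj i
    rw [hrdef j hj]
    exact Finset.orderEmbOfFin_mem _ _ _
  have hmono : ∀ j, (W' j).card = n + 1 → StrictMono (r j) := by
    intro j hj i i' hii'
    rw [hrdef j hj, hrdef j hj]
    exact ((W' j).orderEmbOfFin hj).strictMono hii'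
  refine core3 hAV hSUBT U n r k (fun j i => c j (r j i)) ⟨hU, ?_, ?_, ?_, ?_, ?_, ?_⟩
  · filter_upwards [hn''] with j hj
    exact hmono j hj
  · filter_upwards [hn''] with j hj
    exact (hW'mem j _ (hmem j hj 0)).1
  · filter_upwards [hn''] with j hj i
    exact (hW'mem j _ (hmem j hj i)).2.1
  · filter_upwards [hn''] with j hj i
    exact (hW'mem j _ (hmem j hj i)).2.2.1
  · filter_upwards [hn''] with j hj i
    exact (hW'mem j _ (hmem j hj i)).2.2.2
  · filter_upwards [hn'', hUR] with j hj hjR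
    rw [← hW'sum j hjR]
    conv_rhs => rw [← Finset.map_orderEmbOfFin_univ (W' j) hj]
    rw [Finset.sum_map]
    refine Finset.sum_congr rfl fun i _ => ?_
    rw [hrdef j hj]
    rfl

end Pool.Agent.Helper27.SUB
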