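import Pool.Agent.Helper27.SUB.T5c

/-!
Relations between double zeta values supported in few windows.
-/

set_option autoImplicit false

namespace Pool.Agent.Helper27.SUB

open Finset Filter Pool.Agent.Helper70.SUB

theorem ff_pos (p R s b : ℕ) (hp : 0 < p) (hb : 1 ≤ b) : 0 < ff p R s b := by
  rw [ff_eq]
  have e1 := hs_ge s b hb
  have e2 : (0 : ℝ) < p := Nat.cast_pos.mpr hp
  have e3 : (0 : ℝ) < ∑ y ∈ range b, 1 / ((y : ℝ) + 1) ^ s := by linarith
  exact div_pos e3 (pow_pos e2 _)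

/-- few changes of sign -/
theorem signs (t k : ℕ) (V : Finset ℕ) (c : ℕ → ℤ) (g : ℕ → ℕ) (pl b : ℕ → ℕ)
    (hV : V.Nonempty) (hk : ∀ r ∈ V, r < k) (hc : ∀ r ∈ V, c r ≠ 0)
    (hg : ∀ r ∈ V, g r ≤ t ∧ 0 ≤ (-1) ^ (g r) * c r ∧ ∀ r' ∈ V, r ≤ r' → g r ≤ g r')
    (hpl : ∀ l, 2 ≤ pl l) (hplL : ∀ l l', l < l' → 16 * (2 * t + 2) ^ 2 * (pl l) ^ 4 ≤ pl l')
    (hb1 : ∀ l, 1 ≤ b l) (hbp : ∀ l, b l ≤ pl l)
    (hsys : ∀ l ≤ t, ∑ r ∈ V, (c r : ℝ) * ff (pl l) r (k - r) (b l) = 0) : False := by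
  classical
  obtain ⟨Vals, hVals⟩ : ∃ Vals : Finset ℕ, Vals = V.image g := ⟨_, rfl⟩
  have hVne : Vals.Nonempty := by rw [hVals]; exact hV.image g
  obtain ⟨n', hn'⟩ : ∃ n', Vals.card = n' + 1 := ⟨Vals.card - 1, by
    have := Finset.card_pos.mpr hVne
    omega⟩
  have hn't : n' ≤ t := by
    have h1 : Vals ⊆ range (t + 1) := by
      intro x hx
      rw [hVals, Finset.mem_image] at hx
      obtain ⟨r, hr, rfl⟩ := hx
      rw [Finset.mem_range]
      have := (hg r hr).1
      omega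
    have h2 := Finset.card_le_card h1
    rw [Finset.card_range] at h2
    omega
  obtain ⟨v, hv⟩ : ∃ v : ℕ → ℕ, ∀ (i : ℕ) (hi : i < n' + 1),
      v i = Vals.orderEmbOfFin hn' ⟨i, hi⟩ := by
    refine ⟨fun i => if hi : i < n' + 1 then Vals.orderEmbOfFin hn' ⟨i, hi⟩ else 0, ?_⟩
    intro i hi
    simp only [hi, dif_pos]
  have hvmem : ∀ i ≤ n', v i ∈ Vals := by
    intro i hi
    rw [hv i (by omega)]
    exact Finset.orderEmbOfFin_mem _ _ _
  have hvmono : ∀ i i', i < i' → i' ≤ n' → v i < v i' := by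
    intro i i' h h'
    rw [hv i (by omega), hv i' (by omega)]
    apply (Vals.orderEmbOfFin hn').strictMono
    exact h
  have hvsurj : ∀ r ∈ V, ∃ i ≤ n', v i = g r := by
    intro r hr
    have h1 : g r ∈ Set.range (Vals.orderEmbOfFin hn') := by
      rw [Finset.range_orderEmbOfFin, hVals]
      exact Finset.mem_coe.mpr (Finset.mem_image_of_mem _ hr)
    obtain ⟨i, hi⟩ := h1
    refine ⟨i, by omega, ?_⟩
    rw [hv i i.2]
    exact hi
  obtain ⟨Vb, hVb⟩ : ∃ Vb : ℕ → Finset ℕ, ∀ i, Vb i = V.filter (fun r => g r = v i) :=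
    ⟨_, fun _ => rfl⟩
  have hVbne : ∀ i ≤ n', (Vb i).Nonempty := by
    intro i hi
    have h1 := hvmem i hi
    rw [hVals, Finset.mem_image] at h1
    obtain ⟨r, hr, hrv⟩ := h1
    exact ⟨r, by rw [hVb, Finset.mem_filter]; exact ⟨hr, hrv⟩⟩
  have hVbV : ∀ i, ∀ r ∈ Vb i, r ∈ V ∧ g r = v i := by
    intro i r hr
    rw [hVb, Finset.mem_filter] at hr
    exact hr
  have hpos : ∀ l, ∀ r ∈ V, 0 < |(c r : ℝ)| * ff (pl l) r (k - r) (b l) := by
    intro l r hr
    have h1 : (c r : ℝ) ≠ 0 := by exact_mod_cast hc r hr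
    exact mul_pos (abs_pos.mpr h1) (ff_pos _ _ _ _ (by have := hpl l; omega) (hb1 l))
  have hnons := nons n' ((2 * t + 2 : ℕ) : ℝ)
    (fun i l => ∑ r ∈ Vb i, |(c r : ℝ)| * ff (pl l) r (k - r) (b l))
    (fun i => (-1 : ℝ) ^ (v i))
    (by
      push_cast
      have : (n' : ℝ) ≤ t := by exact_mod_cast hn't
      linarith)
    (by
      intro i hi l _
      exact Finset.sum_pos (fun r hr => hpos l r (hVbV i r hr).1) (hVbne i hi))
    (by
      intro i i' l l' hii' hi' hll' _
      rw [Finset.sum_mul_sum, Finset.sum_mul_sum, Finset.mul_sum]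
      refine Finset.sum_le_sum fun r hr => ?_
      rw [Finset.mul_sum]
      refine Finset.sum_le_sum fun r' hr' => ?_
      obtain ⟨h1, h2⟩ := hVbV i r hr
      obtain ⟨h1', h2'⟩ := hVbV i' r' hr'
      have h3 : r < r' := by
        by_contra hcon
        have h4 := (hg r' h1').2.2 r h1 (not_lt.mp hcon)
        have h5 := hvmono i i' hii' hi'
        omega
      have h4 := hk r h1
      have h4' := hk r' h1'
      have h5 := ff_cond (2 * t + 2) (pl l) (pl l') r r' (k - r) (k - r') (b l) (b l') (b l') (b l)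
        (hpl l) (hplL l l' hll') h3 (by omega) (by omega) (hbp l) (hbp l') (hb1 l') (hb1 l)
        (k - r) (k - r')
      have h6 : 0 ≤ |(c r : ℝ)| * |(c r' : ℝ)| := by positivity
      calc ((2 * t + 2 : ℕ) : ℝ) * (|(c r : ℝ)| * ff (pl l) r (k - r) (b l) *
            (|(c r' : ℝ)| * ff (pl l') r' (k - r') (b l')))
          = |(c r : ℝ)| * |(c r' : ℝ)| * (((2 * t + 2 : ℕ) : ℝ) *
            (ff (pl l) r (k - r) (b l) * ff (pl l') r' (k - r') (b l'))) := by ring
        _ ≤ |(c r : ℝ)| * |(c r' : ℝ)| *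
            (ff (pl l') r (k - r) (b l') * ff (pl l) r' (k - r') (b l)) :=
            mul_le_mul_of_nonneg_left h5 h6
        _ = _ := by ring)
    (by
      intro l hl
      rw [← hsys l (by omega)]
      have h1 : ∀ r ∈ V, ∃ i ∈ range (n' + 1), v i = g r := by
        intro r hr
        obtain ⟨i, hi, hiv⟩ := hvsurj r hr
        exact ⟨i, Finset.mem_range.mpr (by omega), hiv⟩
      have h2 : ∑ i ∈ range (n' + 1), (-1 : ℝ) ^ (v i) *
          ∑ r ∈ Vb i, |(c r : ℝ)| * ff (pl l) r (k - r) (b l) =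
          ∑ i ∈ range (n' + 1), ∑ r ∈ Vb i, (c r : ℝ) * ff (pl l) r (k - r) (b l) := by
        refine Finset.sum_congr rfl fun i _ => ?_
        rw [Finset.mul_sum]
        refine Finset.sum_congr rfl fun r hr => ?_
        obtain ⟨h3, h4⟩ := hVbV i r hr
        rw [← h4, ← mul_assoc]
        congr 1
        have h5 := (hg r h3).2.1
        have h6 : (0 : ℝ) ≤ (-1) ^ (g r) * (c r : ℝ) := by exact_mod_cast h5
        rcases neg_one_pow_eq_or ℝ (g r) with h7 | h7
        · rw [h7, one_mul] at h6 ⊢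
          exact abs_of_nonneg h6
        · rw [h7] at h6 ⊢
          rw [abs_of_nonpos (by linarith)]
          ring
      rw [h2]
      choose! φ hφ1 hφ2 using h1
      rw [← Finset.sum_fiberwise_of_maps_to hφ1]
      refine Finset.sum_congr rfl fun i hi => ?_
      rw [Finset.mem_range] at hi
      refine Finset.sum_congr ?_ fun _ _ => rfl
      ext r
      rw [hVb]
      simp only [Finset.mem_filter]
      constructor
      · rintro ⟨h3, h4⟩
        refine ⟨h3, ?_⟩
        have h5 := hφ1 r h3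
        rw [Finset.mem_range] at h5
        rw [← hφ2 r h3] at h4
        by_contra hne
        rcases lt_or_gt_of_ne hne with h6 | h6
        · have := hvmono _ _ h6 (by omega)
          omega
        · have := hvmono _ _ h6 (by omega)
          omega
      · rintro ⟨h3, h4⟩
        refine ⟨h3, ?_⟩
        rw [← h4, hφ2 r h3])
    0 (Nat.zero_le _)
  have h1 : ((-1 : ℝ)) ^ (v 0) ≠ 0 := pow_ne_zero _ (by norm_num)
  exact h1 hnons

/-- the main theorem -/
theorem T5 (hAV : ST_AV) (hSUBT : ST_SUBT) (t : ℕ) : ∃ (ε : ℝ) (R : ℕ), 0 < ε ∧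
    ∀ (k : ℕ) (W E : Finset ℕ) (c : ℕ → ℤ) (c0 : ℤ), 2 ≤ k → E ⊆ W → E.card ≤ t →
    (∀ r ∈ W, R ≤ r ∧ r < k ∧ c r ≠ 0 ∧ |(c r : ℝ)| ≤ Real.exp (ε * r) ∧
      ∃ e ∈ E, e ≤ r ∧ (r : ℝ) ≤ (1 + ε) * e) →
    ((∃ g : ℕ → ℕ, ∀ r ∈ W, g r ≤ t ∧ 0 ≤ (-1) ^ (g r) * c r ∧
      ∀ r' ∈ W, r ≤ r' → g r ≤ g r') ∨ ∀ r ∈ W, |c r| ≤ t) →
    ∑ r ∈ W, (c r : ℝ) * dz r (k - r) = c0 * ∑' n : ℕ, (1 : ℝ) / ((n + 1 : ℕ) : ℝ) ^ k →
    W = ∅ ∧ c0 = 0 := by
  classical
  by_contra hcon
  push Not at hcon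
  have hcon1 := fun j : ℕ => hcon (1 / ((j : ℝ) + 1)) j (by positivity)
  choose k W E c c0 h2 hEW hEcard hW hsgn hrel hnon using hcon1
  have hZ := Z4_nonneg
  -- the constant term vanishes
  obtain ⟨R1, hR1⟩ : ∃ R1 : ℕ, ∀ j, R1 ≤ j → 4 ≤ j ∧ c0 j = 0 := by
    have hlim : Tendsto (fun j : ℕ => (16 * Z4 * 10) * (9 / 10 : ℝ) ^ j) atTop (nhds 0) := by
      have := (tendsto_pow_atTop_nhds_zero_of_lt_one (r := (9 / 10 : ℝ)) (by norm_num)
        (by norm_num)).const_mul (16 * Z4 * 10)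
      simpa using this
    have h1 : ∀ᶠ j : ℕ in atTop, (16 * Z4 * 10) * (9 / 10 : ℝ) ^ j < 1 :=
      hlim.eventually (gt_mem_nhds one_pos)
    obtain ⟨B, hB⟩ := eventually_atTop.mp h1
    refine ⟨max 4 B, fun j hj => ⟨(le_max_left _ _).trans hj, ?_⟩⟩
    have hj4 : 4 ≤ j := (le_max_left _ _).trans hj
    have hjB : B ≤ j := (le_max_right _ _).trans hj
    by_contra h0
    have hz := zeta_ge_one (k j) (h2 j)
    have h1 : (1 : ℝ) ≤ |(c0 j : ℝ)| := by
      exact_mod_cast Int.one_le_abs h0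
    have h3 : (1 : ℝ) ≤ |(c0 j : ℝ) * ∑' n : ℕ, (1 : ℝ) / ((n + 1 : ℕ) : ℝ) ^ (k j)| := by
      rw [abs_mul]
      have h4 : (1 : ℝ) ≤ |∑' n : ℕ, (1 : ℝ) / ((n + 1 : ℕ) : ℝ) ^ (k j)| := hz.trans (le_abs_self _)
      nlinarith [abs_nonneg (c0 j : ℝ)]
    rw [← hrel j] at h3
    have h5 : |∑ r ∈ W j, (c j r : ℝ) * dz r (k j - r)| ≤
        ∑ r ∈ W j, (16 * Z4) * (9 / 10 : ℝ) ^ j * (9 / 10 : ℝ) ^ r := by
      refine (Finset.abs_sum_le_sum_abs _ _).trans (Finset.sum_le_sum fun r hr => ?_)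
      rw [abs_mul]
      obtain ⟨hrj, -, -, h6, -⟩ := hW j r hr
      have h7 : |dz r (k j - r)| ≤ 16 * Z4 / 2 ^ r := by
        rw [abs_of_nonneg (dz_nonneg _ _)]
        exact dz_le r (k j - r) (hj4.trans hrj)
      have h8 : Real.exp (1 / ((j : ℝ) + 1) * r) ≤ (3 / 2 : ℝ) ^ r := by
        have e1 : Real.exp (1 / ((j : ℝ) + 1) * r) = Real.exp (1 / ((j : ℝ) + 1)) ^ r := by
          rw [← Real.exp_nat_mul, mul_comm]
        rw [e1]
        apply pow_le_pow_left₀ (Real.exp_nonneg _)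
        have e2 : Real.exp (1 / ((j : ℝ) + 1)) ≤ Real.exp (1 / 4) := by
          rw [Real.exp_le_exp]
          apply one_div_le_one_div_of_le (by norm_num)
          have : (4 : ℝ) ≤ j := by exact_mod_cast hj4
          linarith
        refine e2.trans ?_
        have e3 : Real.exp (1 / 4) ^ 4 = Real.exp 1 := by
          rw [← Real.exp_nat_mul]
          congr 1
          norm_num
        have e4 : Real.exp (1 / 4) ^ 4 ≤ (3 / 2 : ℝ) ^ 4 := by
          rw [e3]
          have := Real.exp_one_lt_d9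
          norm_num
          linarith
        exact (pow_le_pow_iff_left₀ (Real.exp_nonneg _) (by norm_num) (by norm_num)).mp e4
      calc |(c j r : ℝ)| * |dz r (k j - r)| ≤ (3 / 2 : ℝ) ^ r * (16 * Z4 / 2 ^ r) :=
            mul_le_mul (h6.trans h8) h7 (abs_nonneg _) (by positivity)
        _ = (16 * Z4) * (3 / 4 : ℝ) ^ r := by
            have e5 : (3 / 4 : ℝ) ^ r = (3 / 2) ^ r / 2 ^ r := by
              rw [← div_pow]
              norm_num
            rw [e5]
            ring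
        _ ≤ (16 * Z4) * ((9 / 10 : ℝ) ^ r * (9 / 10 : ℝ) ^ r) := by
            refine mul_le_mul_of_nonneg_left ?_ (by positivity)
            rw [← mul_pow]
            exact pow_le_pow_left₀ (by norm_num) (by norm_num) r
        _ ≤ (16 * Z4) * ((9 / 10 : ℝ) ^ j * (9 / 10 : ℝ) ^ r) := by
            refine mul_le_mul_of_nonneg_left ?_ (by positivity)
            refine mul_le_mul_of_nonneg_right ?_ (by positivity)
            exact pow_le_pow_of_le_one (by norm_num) (by norm_num) hrj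
        _ = _ := by ring
    rw [← Finset.mul_sum] at h5
    have h9 := sum_geo (9 / 10) (by norm_num) (by norm_num) (W j)
    have h10 := hB j hjB
    have h11 : (16 * Z4) * (9 / 10 : ℝ) ^ j * ∑ r ∈ W j, (9 / 10 : ℝ) ^ r ≤
        (16 * Z4) * (9 / 10 : ℝ) ^ j * 10 := by
      refine mul_le_mul_of_nonneg_left ?_ (by positivity)
      norm_num at h9 ⊢
      exact h9
    linarith
  have hWne : ∀ j, R1 ≤ j → (W j).Nonempty := by
    intro j hj
    rw [Finset.nonempty_iff_ne_empty]
    intro h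
    exact hnon j h (hR1 j hj).2
  have hEne : ∀ j, R1 ≤ j → (E j).Nonempty := by
    intro j hj
    obtain ⟨r, hr⟩ := hWne j hj
    obtain ⟨-, -, -, -, e, he, -⟩ := hW j r hr
    exact ⟨e, he⟩
  -- the ultrafilter
  obtain ⟨U, hU⟩ : ∃ U : Ultrafilter ℕ, (U : Filter ℕ) ≤ atTop :=
    ⟨Ultrafilter.of atTop, Ultrafilter.of_le atTop⟩
  have hUR : ∀ᶠ j in (U : Filter ℕ), R1 ≤ j := hU (eventually_ge_atTop R1)
  obtain ⟨n', hn'⟩ := constU U (fun j => (⟨min (E j).card t, by omega⟩ : Fin (t + 1)))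
  have hn'' : ∀ᶠ j in (U : Filter ℕ), (E j).card = (n' : ℕ) := by
    filter_upwards [hn'] with j hj
    have h1 := congrArg (fun x : Fin (t + 1) => (x : ℕ)) hj
    have h3 := hEcard j
    simp only at h1
    omega
  obtain ⟨n, hn⟩ : ∃ n, (n' : ℕ) = n + 1 := by
    obtain ⟨j, hj, hjn⟩ := (hUR.and hn'').exists
    have h1 := Finset.card_pos.mpr (hEne j hj)
    exact ⟨(n' : ℕ) - 1, by omega⟩
  rw [hn] at hn''
  obtain ⟨e, hedef⟩ : ∃ e : ℕ → Fin (n + 1) → ℕ, ∀ j, ∀ h : (E j).card = n + 1,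
      ∀ i, e j i = (E j).orderEmbOfFin h i := by
    refine ⟨fun j => if h : (E j).card = n + 1 then (E j).orderEmbOfFin h else fun _ => 0, ?_⟩
    intro j h i
    simp only [h, dif_pos]
  have hmem : ∀ j, (E j).card = n + 1 → ∀ i, e j i ∈ E j := by
    intro j hj i
    rw [hedef j hj]
    exact Finset.orderEmbOfFin_mem _ _ _
  have hmono : ∀ j, (E j).card = n + 1 → StrictMono (e j) := by
    intro j hj i i' hii'
    rw [hedef j hj, hedef j hj]
    exact ((E j).orderEmbOfFin hj).strictMono hii'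
  have hsurj : ∀ j, (E j).card = n + 1 → ∀ x ∈ E j, ∃ i, e j i = x := by
    intro j hj x hx
    have h1 : x ∈ Set.range ((E j).orderEmbOfFin hj) := by
      rw [Finset.range_orderEmbOfFin]
      exact hx
    obtain ⟨i, hi⟩ := h1
    exact ⟨i, by rw [hedef j hj]; exact hi⟩
  obtain ⟨q, hq⟩ : ∃ q : ℕ → ℕ → Fin (n + 1), ∀ j r, (E j).card = n + 1 → r ∈ W j →
      e j (q j r) ≤ r ∧ (r : ℝ) ≤ (1 + 1 / ((j : ℝ) + 1)) * e j (q j r) := by
    have h1 : ∀ j r, ∃ i : Fin (n + 1), (E j).card = n + 1 → r ∈ W j →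
        e j i ≤ r ∧ (r : ℝ) ≤ (1 + 1 / ((j : ℝ) + 1)) * e j i := by
      intro j r
      by_cases h : (E j).card = n + 1 ∧ r ∈ W j
      · obtain ⟨-, -, -, -, x, hx, h3, h4⟩ := hW j r h.2
        obtain ⟨i, hi⟩ := hsurj j h.1 x hx
        refine ⟨i, fun _ _ => ?_⟩
        rw [hi]
        exact ⟨h3, h4⟩
      · exact ⟨0, fun h3 h4 => absurd ⟨h3, h4⟩ h⟩
    choose q hq using h1
    exact ⟨q, hq⟩
  have hD : DatW U n e k W c q := by
    refine ⟨hU, ?_, ?_, ?_, ?_, ?_⟩
    · filter_upwards [hn''] with j hj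
      exact hmono j hj
    · filter_upwards [hn''] with j hj
      exact (hW j _ (hEW j (hmem j hj 0))).1
    · filter_upwards [hn''] with j hj i
      exact (hW j _ (hEW j (hmem j hj i))).2.1
    · filter_upwards [hn''] with j hj r hr
      obtain ⟨-, h3, -, h4, -⟩ := hW j r hr
      obtain ⟨h5, h6⟩ := hq j r hj hr
      exact ⟨h5, h6, h3, h4⟩
    · filter_upwards [hUR] with j hj
      rw [hrel j, (hR1 j hj).2]
      simp
  -- the cluster
  have hI0 : clI U e 0 := by
    intro η hη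
    refine Eventually.of_forall fun j => ?_
    show Real.exp ((e j 0 - e j 0 : ℕ) : ℝ) ≤ Real.exp (e j 0) ^ η
    rw [Nat.sub_self, Nat.cast_zero, Real.exp_zero]
    exact Real.one_le_rpow (Real.one_le_exp (Nat.cast_nonneg _)) hη.le
  obtain ⟨V, hV⟩ : ∃ V : ℕ → Finset ℕ, ∀ j, V j = (W j).filter (fun r => clI U e (q j r)) :=
    ⟨_, fun _ => rfl⟩
  have hVW : ∀ j, ∀ r ∈ V j, r ∈ W j := by
    intro j r hr
    rw [hV, Finset.mem_filter] at hr
    exact hr.1
  have hV0 : ∀ j, (E j).card = n + 1 → e j 0 ∈ V j := by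
    intro j hj
    have h1 := hEW j (hmem j hj 0)
    rw [hV, Finset.mem_filter]
    refine ⟨h1, ?_⟩
    have h3 := (hq j _ hj h1).1
    have h4 : q j (e j 0) = 0 := by
      by_contra hne
      have h5 : (0 : Fin (n + 1)) < q j (e j 0) := Fin.pos_iff_ne_zero.mpr hne
      have h6 := hmono j hj h5
      omega
    rw [h4]
    exact hI0
  have hsysV : ∀ p : ℕ, p.Prime → ∀ᶠ j in (U : Filter ℕ), ∑ r ∈ V j,
      (c j r : ℝ) * ff p r (k j - r) (if clA U e k then p - 1 else 1) = 0 := by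
    intro p hp
    filter_upwards [sysW hAV hSUBT U n e k W c q hD p hp] with j hj
    rw [hV]
    exact hj
  -- one of the two cases
  rcases Ultrafilter.eventually_or.mp (Eventually.of_forall hsgn :
      ∀ᶠ j in (U : Filter ℕ), _) with hA | hB
  · -- few changes of sign
    obtain ⟨pl, hpl, hplL⟩ := primes (16 * (2 * t + 2) ^ 2)
    have hall : ∀ᶠ j in (U : Filter ℕ), ∀ l : Fin (t + 1), ∑ r ∈ V j,
        (c j r : ℝ) * ff (pl l) r (k j - r) (if clA U e k then pl l - 1 else 1) = 0 :=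
      Filter.eventually_all.mpr fun l => hsysV (pl l) (hpl l)
    obtain ⟨j, ⟨h3, h4⟩, g, hg⟩ := ((hall.and hn'').and hA).exists
    refine signs t (k j) (V j) (c j) g pl (fun l => if clA U e k then pl l - 1 else 1)
      ⟨_, hV0 j h4⟩ (fun r hr => (hW j r (hVW j r hr)).2.1) (fun r hr => (hW j r (hVW j r hr)).2.2.1)
      (fun r hr => ?_) (fun l => (hpl l).two_le) hplL (fun l => ?_) (fun l => ?_) (fun l hl => ?_)
    · obtain ⟨h5, h6, h7⟩ := hg r (hVW j r hr)
      exact ⟨h5, h6, fun r' hr' => h7 r' (hVW j r' hr')⟩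
    · have := (hpl l).two_le
      show 1 ≤ if clA U e k then pl l - 1 else 1
      split_ifs <;> omega
    · have := (hpl l).two_le
      show (if clA U e k then pl l - 1 else 1) ≤ pl l
      split_ifs <;> omega
    · exact h3 ⟨l, by omega⟩
  · by_cases hcA : clA U e k
    · -- the weight is close to the first argument
      obtain ⟨C, hHBL⟩ := Pool.Agent.Helper43.OD.height_bound_linear
      obtain ⟨L, hL⟩ : ∃ L : ℝ, L = Real.log (2 * ((t + 1 : ℕ) : ℝ)) := ⟨_, rfl⟩
      have hL0 : 0 ≤ L := by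
        rw [hL]
        apply Real.log_nonneg
        push_cast
        have : (0 : ℝ) ≤ t := Nat.cast_nonneg t
        linarith
      obtain ⟨η, hη⟩ : ∃ η : ℝ, η = 1 / (2 * (|C| * L + 1)) := ⟨_, rfl⟩
      have hη0 : 0 < η := by rw [hη]; positivity
      obtain ⟨j, ⟨h3, h4⟩, ⟨h5, h6⟩, h7⟩ := (((hcA η hη0).and hn'').and ((hB.and hUR).and
        (hU (eventually_ge_atTop 4) : ∀ᶠ j in (U : Filter ℕ), 4 ≤ j))).exists
      have hj4 : 4 ≤ j := (hR1 j h6).1
      have h0 := hW j _ (hEW j (hmem j h4 0))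
      have hS1 : 1 ≤ k j - e j 0 := by
        have := h0.2.1
        omega
      have hmin : ∀ r ∈ W j, e j 0 ≤ r := by
        intro r hr
        have h8 := (hq j r h4 hr).1
        have h9 := (hmono j h4).monotone (Fin.zero_le (q j r))
        omega
      have hkey := hHBL (k j) (k j - e j 0) 0 (fun s => if k j - s ∈ W j then c j (k j - s) else 0)
        ((t + 1 : ℕ) : ℝ) hS1 (by
          have := h0.1
          omega)
        (Or.inr ⟨k j - e j 0, Finset.mem_Icc.mpr ⟨hS1, le_rfl⟩, by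
          have h8 := h0.2.1
          rw [show k j - (k j - e j 0) = e j 0 by omega, if_pos (hEW j (hmem j h4 0))]
          exact h0.2.2.1⟩)
        (by
          simp only [Int.cast_zero, abs_zero]
          positivity)
        (by
          intro s _
          split_ifs with hs
          · have h8 := h5 _ hs
            have h9 : |c j (k j - s)| ≤ ((t + 1 : ℕ) : ℤ) := by
              push_cast
              linarith
            exact_mod_cast h9
          · simp only [Int.cast_zero, abs_zero]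
            positivity)
        (by
          simp only [Int.cast_zero, zero_mul]
          have h8 : ∑ r ∈ W j, (c j r : ℝ) * dz r (k j - r) = 0 := by
            rw [hrel j, (hR1 j h6).2]
            simp
          rw [← h8]
          have h9 : ∀ s ∈ Finset.Icc 1 (k j - e j 0),
              (((if k j - s ∈ W j then c j (k j - s) else 0 : ℤ) : ℤ) : ℝ) * ∑' p : ℕ × ℕ,
                (1 : ℝ) / ((((p.1 + p.2 + 2 : ℕ) : ℝ) ^ (k j - s)) * (((p.2 + 1 : ℕ) : ℝ) ^ s))
              = if k j - s ∈ W j then (c j (k j - s) : ℝ) * dz (k j - s) s else 0 := by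
            intro s _
            split_ifs
            · rfl
            · simp
          rw [Finset.sum_congr rfl h9, ← Finset.sum_filter]
          refine Finset.sum_nbij' (fun s => k j - s) (fun x => k j - x) ?_ ?_ ?_ ?_ ?_
          · intro s hs
            rw [Finset.mem_filter] at hs
            exact hs.2
          · intro x hx
            have hx1 := (hW j x hx).2.1
            have hx2 := hmin x hx
            rw [Finset.mem_filter, Finset.mem_Icc]
            refine ⟨⟨by omega, by omega⟩, ?_⟩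
            rw [show k j - (k j - x) = x by omega]
            exact hx
          · intro s hs
            rw [Finset.mem_filter, Finset.mem_Icc] at hs
            omega
          · intro x hx
            have hx1 := (hW j x hx).2.1
            omega
          · intro s hs
            rw [Finset.mem_filter, Finset.mem_Icc] at hs
            rw [show k j - (k j - s) = s by omega])
      rw [← hL] at hkey
      rw [← Real.exp_mul, Real.exp_le_exp] at h3
      have h8 : C * ((k j - e j 0 : ℕ) : ℝ) * L ≤ (|C| * L) * ((e j 0 : ℝ) * η) := by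
        calc C * ((k j - e j 0 : ℕ) : ℝ) * L ≤ |C| * ((k j - e j 0 : ℕ) : ℝ) * L := by
              refine mul_le_mul_of_nonneg_right ?_ hL0
              exact mul_le_mul_of_nonneg_right (le_abs_self _) (Nat.cast_nonneg _)
          _ = (|C| * L) * ((k j - e j 0 : ℕ) : ℝ) := by ring
          _ ≤ _ := mul_le_mul_of_nonneg_left h3 (by positivity)
      have h9 : (|C| * L) * ((e j 0 : ℝ) * η) ≤ (e j 0 : ℝ) / 2 := by
        have h10 : (|C| * L) * η ≤ 1 / 2 := by
          rw [hη, mul_one_div, div_le_div_iff₀ (by positivity) (by norm_num)]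
          have : 0 ≤ |C| * L := by positivity
          linarith
        have h11 : (0 : ℝ) ≤ e j 0 := Nat.cast_nonneg _
        calc (|C| * L) * ((e j 0 : ℝ) * η) = (e j 0 : ℝ) * ((|C| * L) * η) := by ring
          _ ≤ (e j 0 : ℝ) * (1 / 2) := mul_le_mul_of_nonneg_left h10 h11
          _ = _ := by ring
      have h10 : (e j 0 : ℝ) < k j := by exact_mod_cast h0.2.1
      have h11 : (0 : ℝ) ≤ e j 0 := Nat.cast_nonneg _
      linarith
    · -- a prime larger than the coefficients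
      obtain ⟨p, hpt, hp⟩ := Nat.exists_infinite_primes (t + 1)
      obtain ⟨j, ⟨h3, h4⟩, h5⟩ := (((hsysV p hp).and hn'').and hB).exists
      rw [if_neg hcA] at h3
      refine fin_arith p hp.one_lt (V j) (c j) (fun r => r) ⟨_, hV0 j h4⟩
        (fun r _ r' _ h => h) (fun r hr => (hW j r (hVW j r hr)).2.2.1) (fun r hr => ?_) ?_
      · have h6 := h5 r (hVW j r hr)
        have h7 : (t : ℤ) < (p : ℤ) := by exact_mod_cast (by omega : t < p)
        linarith
      · have h6 : ((∑ r ∈ V j, (c j r : ℚ) * (1 / (p : ℚ) ^ r) : ℚ) : ℝ) = 0 := by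
          push_cast
          rw [← h3]
          refine Finset.sum_congr rfl fun r _ => ?_
          unfold ff
          rw [Finset.sum_range_one]
          simp
        exact_mod_cast h6

end Pool.Agent.Helper27.SUB
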