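import Pool.Agent.Helper27.SUB.T3d

/-!
Relations between double zeta values supported in few windows: truncation.
-/

set_option autoImplicit false

namespace Pool.Agent.Helper27.SUB

open Finset Filter Pool.Agent.Helper70.SUB

theorem ND_mono (w r k : ℕ) (hwr : w ≤ r) (hrk : r ≤ k) (y : ℕ × ℕ) :
    ND w (k - w) y ≤ ND r (k - r) y := by
  unfold ND
  have h1 : k - w = (k - r) + (r - w) := by omega
  have h2 : (y.1 + y.2 + 2) ^ r = (y.1 + y.2 + 2) ^ w * (y.1 + y.2 + 2) ^ (r - w) := by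
    rw [← pow_add]
    congr 1
    omega
  rw [h1, h2, pow_add]
  have h3 : (y.2 + 1) ^ (r - w) ≤ (y.1 + y.2 + 2) ^ (r - w) := Nat.pow_le_pow_left (by omega) _
  calc (y.1 + y.2 + 2) ^ w * ((y.2 + 1) ^ (k - r) * (y.2 + 1) ^ (r - w))
      ≤ (y.1 + y.2 + 2) ^ w * ((y.2 + 1) ^ (k - r) * (y.1 + y.2 + 2) ^ (r - w)) :=
        Nat.mul_le_mul_left _ (Nat.mul_le_mul_left _ h3)
    _ = _ := by ring

theorem dz_truncW (P r0 w r k : ℕ) (hP : 1 ≤ P) (hr0 : 4 ≤ r0) (hw : r0 ≤ w) (hwr : w ≤ r)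
    (hrk : r ≤ k) :
    |dz r (k - r) - ∑ x ∈ Fs P r0 w (k - w), 1 / (ND r (k - r) x : ℝ)| ≤
      (P : ℝ) ^ 4 * Z4 / (P : ℝ) ^ r0 := by
  have hr : r0 ≤ r := hw.trans hwr
  have hs := term_summable r (k - r) (hr0.trans hr)
  have hP0 : (0 : ℝ) < P := by exact_mod_cast hP
  have h1 := hs.sum_add_tsum_compl (s := Fs P r0 w (k - w))
  rw [dz_eq, ← h1, add_sub_cancel_left,
    tsum_subtype (s := ((↑(Fs P r0 w (k - w)) : Set (ℕ × ℕ)))ᶜ)
    (f := fun x => 1 / (ND r (k - r) x : ℝ))]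
  have h2 : ∀ x, 0 ≤ (((↑(Fs P r0 w (k - w)) : Set (ℕ × ℕ)))ᶜ).indicator
      (fun x => 1 / (ND r (k - r) x : ℝ)) x := by
    intro x
    exact Set.indicator_nonneg (fun x _ => by positivity) x
  rw [abs_of_nonneg (tsum_nonneg h2)]
  have h3 : ∀ x, (((↑(Fs P r0 w (k - w)) : Set (ℕ × ℕ)))ᶜ).indicator
      (fun x => 1 / (ND r (k - r) x : ℝ)) x ≤ (P : ℝ) ^ 4 / (P : ℝ) ^ r0 * g4 x := by
    intro x
    by_cases hx : x ∈ (((↑(Fs P r0 w (k - w)) : Set (ℕ × ℕ)))ᶜ)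
    · rw [Set.indicator_of_mem hx]
      have hx' : ¬ ND w (k - w) x ≤ P ^ r0 := by
        rw [← mem_Fs hr0 hw x]
        simpa using hx
      rcases le_or_gt P (x.1 + x.2 + 2) with hm | hm
      · have h4 := term_le r (k - r) P hP (hr0.trans hr) x hm
        refine h4.trans (mul_le_mul_of_nonneg_right ?_ (g4_nonneg x))
        apply div_le_div_of_nonneg_left (by positivity) (by positivity)
        exact pow_le_pow_right₀ (by exact_mod_cast hP) hr
      · have h5 : ((P : ℝ)) ^ r0 ≤ (ND r (k - r) x : ℝ) := by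
          have : P ^ r0 ≤ ND r (k - r) x := (not_le.mp hx').le.trans (ND_mono w r k hwr hrk x)
          exact_mod_cast this
        have h6 : (1 : ℝ) ≤ (P : ℝ) ^ 4 * g4 x := by
          unfold g4
          rw [mul_one_div, le_div_iff₀ (by positivity), one_mul]
          apply pow_le_pow_left₀ (by positivity)
          exact_mod_cast hm.le
        calc 1 / (ND r (k - r) x : ℝ) ≤ 1 / (P : ℝ) ^ r0 :=
              one_div_le_one_div_of_le (by positivity) h5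
          _ ≤ 1 / (P : ℝ) ^ r0 * ((P : ℝ) ^ 4 * g4 x) :=
              le_mul_of_one_le_right (by positivity) h6
          _ = _ := by ring
    · rw [Set.indicator_of_notMem hx]
      have := g4_nonneg x
      positivity
  calc _ ≤ ∑' x, (P : ℝ) ^ 4 / (P : ℝ) ^ r0 * g4 x :=
        (hs.indicator _).tsum_le_tsum h3 (g4_summable.mul_left _)
    _ = (P : ℝ) ^ 4 / (P : ℝ) ^ r0 * Z4 := by rw [tsum_mul_left]; rfl
    _ = _ := by ring

/-- weights -/
noncomputable def wt (P r0 r : ℕ) : ℝ := if r ≤ 4 * P * r0 then 1 else (4 / 5) ^ r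

theorem wt_nonneg (P r0 r : ℕ) : 0 ≤ wt P r0 r := by
  unfold wt
  split_ifs
  · norm_num
  · positivity

theorem sum_geo (x : ℝ) (hx : 0 ≤ x) (hx1 : x < 1) (W : Finset ℕ) :
    ∑ r ∈ W, x ^ r ≤ (1 - x)⁻¹ := by
  rw [← tsum_geometric_of_lt_one hx hx1]
  exact (summable_geometric_of_lt_one hx hx1).sum_le_tsum _ (fun r _ => by positivity)

theorem sum_wt (P r0 : ℕ) (W : Finset ℕ) : ∑ r ∈ W, wt P r0 r ≤ 4 * P * r0 + 6 := by
  have h1 : ∀ r ∈ W, wt P r0 r ≤ (if r ≤ 4 * P * r0 then (1 : ℝ) else 0) + (4 / 5) ^ r := by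
    intro r _
    unfold wt
    split_ifs
    · have : (0 : ℝ) ≤ (4 / 5) ^ r := by positivity
      linarith
    · linarith
  have h2 := sum_geo (4 / 5) (by norm_num) (by norm_num) W
  have h3 : ∑ r ∈ W, (if r ≤ 4 * P * r0 then (1 : ℝ) else 0) ≤ 4 * P * r0 + 1 := by
    rw [← Finset.sum_filter, Finset.sum_const, nsmul_eq_mul, mul_one]
    have h4 : (W.filter (fun r => r ≤ 4 * P * r0)).card ≤ 4 * P * r0 + 1 := by
      calc (W.filter (fun r => r ≤ 4 * P * r0)).card ≤ (range (4 * P * r0 + 1)).card :=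
            Finset.card_le_card (fun r hr => by
              rw [Finset.mem_filter] at hr
              rw [Finset.mem_range]
              omega)
        _ = _ := Finset.card_range _
    exact_mod_cast h4
  calc ∑ r ∈ W, wt P r0 r ≤ ∑ r ∈ W, ((if r ≤ 4 * P * r0 then (1 : ℝ) else 0) + (4 / 5) ^ r) :=
        Finset.sum_le_sum h1
    _ = ∑ r ∈ W, (if r ≤ 4 * P * r0 then (1 : ℝ) else 0) + ∑ r ∈ W, (4 / 5 : ℝ) ^ r :=
        Finset.sum_add_distrib
    _ ≤ (4 * P * r0 + 1) + 5 := by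
        norm_num at h2
        linarith
    _ = _ := by ring

/-- truncation with weights -/
theorem tailW (P r0 w r k : ℕ) (hP : 1 ≤ P) (hr0 : 4 ≤ r0) (hw : r0 ≤ w) (hwr : w ≤ r)
    (hrk : r ≤ k) (a τ : ℝ) (hτ : 0 ≤ τ)
    (hτ4 : τ ≤ 1 / 4) (ha : |a| ≤ Real.exp (τ * r)) :
    |a * (dz r (k - r) - ∑ x ∈ Fs P r0 w (k - w), 1 / (ND r (k - r) x : ℝ))| ≤
      ((((P : ℝ) ^ 4 + 16) * Z4) * Real.exp (τ * (4 * P * r0)) / (P : ℝ) ^ r0) * wt P r0 r := by
  have hP0 : (0 : ℝ) < P := by exact_mod_cast hP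
  have hZ := Z4_nonneg
  rw [abs_mul]
  unfold wt
  split_ifs with h
  · have h1 : |a| ≤ Real.exp (τ * (4 * P * r0)) := by
      refine ha.trans (Real.exp_le_exp.mpr (mul_le_mul_of_nonneg_left ?_ hτ))
      exact_mod_cast h
    have h2 := dz_truncW P r0 w r k hP hr0 hw hwr hrk
    rw [mul_one]
    calc |a| * |dz r (k - r) - ∑ x ∈ Fs P r0 w (k - w), 1 / (ND r (k - r) x : ℝ)| ≤
          Real.exp (τ * (4 * P * r0)) * ((P : ℝ) ^ 4 * Z4 / (P : ℝ) ^ r0) :=
          mul_le_mul h1 h2 (abs_nonneg _) (Real.exp_nonneg _)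
      _ = ((P : ℝ) ^ 4 * Z4) * Real.exp (τ * (4 * P * r0)) / (P : ℝ) ^ r0 := by ring
      _ ≤ _ := by
          apply div_le_div_of_nonneg_right _ (by positivity)
          apply mul_le_mul_of_nonneg_right _ (Real.exp_nonneg _)
          apply mul_le_mul_of_nonneg_right _ hZ
          linarith
  · have h0 : r0 ≤ r := hw.trans hwr
    have h1 : |dz r (k - r) - ∑ x ∈ Fs P r0 w (k - w), 1 / (ND r (k - r) x : ℝ)| ≤
        16 * Z4 / 2 ^ r := by
      have h2 : ∑ x ∈ Fs P r0 w (k - w), 1 / (ND r (k - r) x : ℝ) ≤ dz r (k - r) := by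
        rw [dz_eq]
        exact (term_summable r (k - r) (hr0.trans h0)).sum_le_tsum _ (fun x _ => by positivity)
      have h3 : 0 ≤ ∑ x ∈ Fs P r0 w (k - w), 1 / (ND r (k - r) x : ℝ) :=
        Finset.sum_nonneg fun x _ => by positivity
      rw [abs_of_nonneg (by linarith)]
      have := dz_le r (k - r) (hr0.trans h0)
      linarith
    have h2 : |a| ≤ Real.exp ((r : ℝ) / 4) := by
      refine ha.trans (Real.exp_le_exp.mpr ?_)
      have : (0 : ℝ) ≤ r := Nat.cast_nonneg r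
      nlinarith
    have h3 : Real.exp ((r : ℝ) / 4) * (P : ℝ) ^ r0 ≤ (8 / 5) ^ r := by
      obtain ⟨E, hE⟩ : ∃ E : ℝ, E = Real.exp ((r : ℝ) / 4) := ⟨_, rfl⟩
      have hE0 : 0 < E := by rw [hE]; exact Real.exp_pos _
      have hE4 : E ^ 4 = Real.exp 1 ^ r := by
        rw [hE, ← Real.exp_nat_mul, ← Real.exp_nat_mul]
        congr 1
        push_cast
        ring
      have hP2 : ((P : ℝ) ^ r0) ^ 4 ≤ 2 ^ r := by
        have h6 : (P ^ r0) ^ 4 ≤ 2 ^ r := by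
          calc (P ^ r0) ^ 4 ≤ ((2 ^ P) ^ r0) ^ 4 :=
                Nat.pow_le_pow_left (Nat.pow_le_pow_left Nat.lt_two_pow_self.le _) _
            _ = 2 ^ (4 * P * r0) := by
                rw [← pow_mul, ← pow_mul]
                congr 1
                ring
            _ ≤ _ := Nat.pow_le_pow_right (by norm_num) (by omega)
        exact_mod_cast h6
      rw [← hE]
      have h7 : (E * (P : ℝ) ^ r0) ^ 4 ≤ ((8 / 5 : ℝ) ^ r) ^ 4 := by
        rw [mul_pow, hE4]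
        have h8 : ((8 / 5 : ℝ) ^ r) ^ 4 = ((8 / 5 : ℝ) ^ 4) ^ r := by
          rw [← pow_mul, ← pow_mul, mul_comm]
        rw [h8]
        calc Real.exp 1 ^ r * ((P : ℝ) ^ r0) ^ 4 ≤ Real.exp 1 ^ r * 2 ^ r :=
              mul_le_mul_of_nonneg_left hP2 (by positivity)
          _ = (Real.exp 1 * 2) ^ r := by rw [mul_pow]
          _ ≤ _ := by
              apply pow_le_pow_left₀ (by positivity)
              have := Real.exp_one_lt_d9
              norm_num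
              linarith
      exact (pow_le_pow_iff_left₀ (by positivity) (by positivity) (by norm_num)).mp h7
    have h10 : (2 : ℝ) ^ r * (4 / 5) ^ r = (8 / 5) ^ r := by
      rw [← mul_pow]
      norm_num
    calc |a| * |dz r (k - r) - ∑ x ∈ Fs P r0 w (k - w), 1 / (ND r (k - r) x : ℝ)| ≤
          Real.exp ((r : ℝ) / 4) * (16 * Z4 / 2 ^ r) :=
          mul_le_mul h2 h1 (abs_nonneg _) (Real.exp_nonneg _)
      _ ≤ 16 * Z4 / (P : ℝ) ^ r0 * (4 / 5) ^ r := by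
          rw [mul_div_assoc', div_mul_eq_mul_div, div_le_div_iff₀ (by positivity) (by positivity)]
          have := mul_le_mul_of_nonneg_left h3 (by positivity : (0 : ℝ) ≤ 16 * Z4)
          rw [← h10] at this
          calc Real.exp ((r : ℝ) / 4) * (16 * Z4) * (P : ℝ) ^ r0 =
              16 * Z4 * (Real.exp ((r : ℝ) / 4) * (P : ℝ) ^ r0) := by ring
            _ ≤ _ := this
            _ = _ := by ring
      _ ≤ _ := by
          apply mul_le_mul_of_nonneg_right _ (by positivity)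
          apply div_le_div_of_nonneg_right _ (by positivity)
          have h8 : 1 ≤ Real.exp (τ * (4 * P * r0)) := Real.one_le_exp (by positivity)
          have h9 : 16 * Z4 ≤ ((P : ℝ) ^ 4 + 16) * Z4 := by
            apply mul_le_mul_of_nonneg_right _ hZ
            have : 0 ≤ (P : ℝ) ^ 4 := by positivity
            linarith
          calc 16 * Z4 = 16 * Z4 * 1 := by ring
            _ ≤ _ := mul_le_mul h9 h8 (by norm_num) (by positivity)

theorem sumFIG (P n : ℕ) (e : Fin (n + 1) → ℕ) (k : ℕ) (G : Fin (n + 1) → ℕ × ℕ → ℝ) :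
    ∑ x ∈ FI P n e k, G x.2 ((x.1.1 : ℕ), (x.1.2 : ℕ))
      = ∑ i, ∑ y ∈ Fs P (e 0) (e i) (k - e i), G i y := by
  unfold FI
  rw [Finset.sum_filter, Fintype.sum_prod_type, Finset.sum_comm]
  refine Finset.sum_congr rfl fun i _ => ?_
  unfold Fs
  rw [Finset.sum_filter, Finset.sum_product, Fintype.sum_prod_type, Finset.sum_range]
  refine Finset.sum_congr rfl fun y1 _ => ?_
  rw [Finset.sum_range]
  refine Finset.sum_congr rfl fun y2 _ => ?_
  unfold NI
  rfl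

theorem trunc_relW (P n : ℕ) (e : Fin (n + 1) → ℕ) (k : ℕ) (W : Finset ℕ) (c : ℕ → ℤ)
    (q : ℕ → Fin (n + 1)) (τ : ℝ) (hτ : 0 ≤ τ) (hτ4 : τ ≤ 1 / 4) (hP : 1 ≤ P) (h4 : 4 ≤ e 0)
    (hmono : ∀ i, e 0 ≤ e i)
    (hW : ∀ r ∈ W, e (q r) ≤ r ∧ r < k ∧ |(c r : ℝ)| ≤ Real.exp (τ * r))
    (hrel : ∑ r ∈ W, (c r : ℝ) * dz r (k - r) = 0) :
    |∑ x ∈ FI P n e k, ∑ r ∈ W.filter (fun r => q r = x.2),
      (c r : ℝ) / (ND r (k - r) ((x.1.1 : ℕ), (x.1.2 : ℕ)) : ℝ)| ≤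
      ((((P : ℝ) ^ 4 + 16) * Z4) * Real.exp (τ * (4 * P * e 0)) / (P : ℝ) ^ e 0) *
        (4 * P * e 0 + 6) := by
  have hZ := Z4_nonneg
  rw [sumFIG P n e k (fun i y => ∑ r ∈ W.filter (fun r => q r = i),
      (c r : ℝ) / (ND r (k - r) y : ℝ))]
  have h1 : ∑ i, ∑ y ∈ Fs P (e 0) (e i) (k - e i), ∑ r ∈ W.filter (fun r => q r = i),
      (c r : ℝ) / (ND r (k - r) y : ℝ) =
      ∑ r ∈ W, (c r : ℝ) * ∑ y ∈ Fs P (e 0) (e (q r)) (k - e (q r)),
        1 / (ND r (k - r) y : ℝ) := by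
    have h2 : ∀ i, ∑ y ∈ Fs P (e 0) (e i) (k - e i), ∑ r ∈ W.filter (fun r => q r = i),
        (c r : ℝ) / (ND r (k - r) y : ℝ) =
        ∑ r ∈ W.filter (fun r => q r = i), (c r : ℝ) *
          ∑ y ∈ Fs P (e 0) (e (q r)) (k - e (q r)), 1 / (ND r (k - r) y : ℝ) := by
      intro i
      rw [Finset.sum_comm]
      refine Finset.sum_congr rfl fun r hr => ?_
      rw [Finset.mem_filter] at hr
      rw [hr.2, Finset.mul_sum]
      refine Finset.sum_congr rfl fun y _ => ?_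
      ring
    rw [Finset.sum_congr rfl fun i _ => h2 i]
    exact Finset.sum_fiberwise_of_maps_to (fun _ _ => Finset.mem_univ _) _
  rw [h1]
  have h2 : ∑ r ∈ W, (c r : ℝ) * ∑ y ∈ Fs P (e 0) (e (q r)) (k - e (q r)),
        1 / (ND r (k - r) y : ℝ)
      = - ∑ r ∈ W, (c r : ℝ) * (dz r (k - r) -
        ∑ y ∈ Fs P (e 0) (e (q r)) (k - e (q r)), 1 / (ND r (k - r) y : ℝ)) := by
    simp only [mul_sub, Finset.sum_sub_distrib]
    rw [hrel]
    ring
  rw [h2, abs_neg]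
  calc _ ≤ ∑ r ∈ W, |(c r : ℝ) * (dz r (k - r) -
        ∑ y ∈ Fs P (e 0) (e (q r)) (k - e (q r)), 1 / (ND r (k - r) y : ℝ))| :=
        Finset.abs_sum_le_sum_abs _ _
    _ ≤ ∑ r ∈ W, ((((P : ℝ) ^ 4 + 16) * Z4) * Real.exp (τ * (4 * P * e 0)) /
        (P : ℝ) ^ e 0) * wt P (e 0) r := by
        refine Finset.sum_le_sum fun r hr => ?_
        obtain ⟨e1, e2, e3⟩ := hW r hr
        exact tailW P (e 0) (e (q r)) r k hP h4 (hmono _) e1 e2.le (c r) τ hτ hτ4 e3
    _ = ((((P : ℝ) ^ 4 + 16) * Z4) * Real.exp (τ * (4 * P * e 0)) /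
        (P : ℝ) ^ e 0) * ∑ r ∈ W, wt P (e 0) r := by rw [Finset.mul_sum]
    _ ≤ _ := mul_le_mul_of_nonneg_left (sum_wt P (e 0) W) (by positivity)

end Pool.Agent.Helper27.SUB
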