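import Pool.Agent.Helper27.SUB.T5a

/-!
The sum over a class vanishes, general version.
-/

set_option autoImplicit false

namespace Pool.Agent.Helper27.SUB

open Finset Filter Pool.Agent.Helper70.SUB

/-- sums of fractions `B / N`, `N` an S-unit, `B` a small integer: if the whole sum is much smaller
than `1 / N α`, then the sum over the class of `α` vanishes -/
theorem clsG (hAV : ST_AV) (hSUBT : ST_SUBT) (U : Ultrafilter ℕ) (hU : (U : Filter ℕ) ≤ atTop)
    (X : ℕ → ℝ) (hX1 : ∀ j, 1 ≤ X j) (hXj : ∀ᶠ j : ℕ in (U : Filter ℕ), (j : ℝ) ≤ X j)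
    (ι : Type) [Fintype ι] [DecidableEq ι] (S : Finset ℕ) (hS : ∀ p ∈ S, p.Prime)
    (N : ℕ → ι → ℕ) (hN0 : ∀ j x, 0 < N j x)
    (hNS : ∀ j x, ∀ q : ℕ, q.Prime → q ∣ N j x → q ∈ S) (B : ℕ → ι → ℤ) (F : Finset ι)
    (hB : ∀ x ∈ F, Sml U X (fun j => max |(B j x : ℝ)| 1)) (C0 : ℝ) (hC0 : 0 ≤ C0)
    (hNC : ∀ᶠ j in (U : Filter ℕ), ∀ x ∈ F, (N j x : ℝ) ≤ X j ^ C0) (α : ι) (hαF : α ∈ F)
    (hT : ∀ᶠ j in (U : Filter ℕ), |∑ x ∈ F, (B j x : ℝ) / (N j x : ℝ)| * (N j α : ℝ) <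
      X j ^ (-(1 / 5) : ℝ)) :
    ∃ T : Finset ι, (∀ x, x ∈ T ↔ x ∈ F ∧ Sml U X (fun j => hq ((N j x : ℚ) / (N j α : ℚ)))) ∧
      ∀ᶠ j in (U : Filter ℕ), ∑ x ∈ T, (B j x : ℝ) / (N j x : ℝ) = 0 := by
  classical
  have hX0 : ∀ j, 0 < X j := fun j => lt_of_lt_of_le one_pos (hX1 j)
  have hXt : Tendsto X U atTop :=
    tendsto_atTop_mono' _ hXj (tendsto_natCast_atTop_atTop.mono_left hU)
  have hNq : ∀ j x, (N j x : ℚ) ≠ 0 := fun j x => by exact_mod_cast (hN0 j x).ne'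
  have hNr : ∀ j x, (0 : ℝ) < (N j x : ℝ) := fun j x => by exact_mod_cast hN0 j x
  obtain ⟨D, hDdef⟩ : ∃ D : ℕ → ℕ, ∀ j, D j = ∏ y ∈ F, N j y := ⟨_, fun _ => rfl⟩
  have hD0 : ∀ j, 0 < D j := fun j => by
    rw [hDdef]; exact Finset.prod_pos (fun y _ => hN0 j y)
  obtain ⟨u, hudef⟩ : ∃ u : ℕ → ι → ℤ, ∀ j x, u j x = ((∏ y ∈ F.erase x, N j y : ℕ) : ℤ) :=
    ⟨_, fun _ _ => rfl⟩
  have hu0 : ∀ j x, (0 : ℤ) < u j x := by
    intro j x
    have : 0 < ∏ y ∈ F.erase x, N j y := Finset.prod_pos (fun y _ => hN0 j y)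
    rw [hudef]
    exact Int.natCast_pos.mpr this
  have hDu : ∀ j, ∀ x ∈ F, u j x * (N j x : ℤ) = (D j : ℤ) := by
    intro j x hx
    have := Finset.prod_erase_mul F (N j) hx
    rw [hudef, hDdef, ← this]
    push_cast
    ring
  have hAV2 := hAV.2.2 S hS
  obtain ⟨avp, avm, -, -, avi, -, avpf, avS, -⟩ := hAV2
  have huS : ∀ j x, ∏ v ∈ plc S, av v (u j x) = 1 := by
    intro j x
    refine avS (u j x) (hu0 j x).ne' fun q hq hqu => ?_
    rw [hudef] at hqu
    have h1 : q ∣ ∏ y ∈ F.erase x, N j y := Int.natCast_dvd_natCast.mp hqu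
    obtain ⟨y, -, hy⟩ := (hq.prime.dvd_finsetProd_iff _).mp h1
    exact hNS j y q hq hy
  -- the equivalence relation
  let s : Setoid (ι) :=
    { r := fun x y => Sml U X (fun j => hq ((N j x : ℚ) / (N j y : ℚ)))
      iseqv :=
        { refl := fun x η hη => Eventually.of_forall fun j => by
            show hq ((N j x : ℚ) / (N j x : ℚ)) ≤ X j ^ η
            rw [div_self (hNq j x)]
            have h1 := hq_nat 1 one_ne_zero
            rw [Nat.cast_one, Nat.cast_one] at h1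
            exact h1.trans (Real.one_le_rpow (hX1 j) hη.le)
          symm := fun {x y} h => Sml.mono h (Eventually.of_forall fun j => by
            show hq ((N j y : ℚ) / (N j x : ℚ)) ≤ hq ((N j x : ℚ) / (N j y : ℚ))
            rw [← inv_div]
            exact hq_inv _)
          trans := fun {x y w} h1 h2 => Sml.mono (Sml.mul hX1 h1 h2 (fun j => (hq_pos _).le))
            (Eventually.of_forall fun j => by
              show hq ((N j x : ℚ) / (N j w : ℚ)) ≤
                hq ((N j x : ℚ) / (N j y : ℚ)) * hq ((N j y : ℚ) / (N j w : ℚ))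
              refine le_trans (le_of_eq ?_) (hq_mul _ _)
              rw [div_mul_div_cancel₀ (hNq j y)]) } }
  -- sums over subsets of a class
  obtain ⟨z, hzdef⟩ : ∃ z : Finset (ι) → ι → ℕ → ℚ, ∀ T x0 j,
      z T x0 j = ∑ x ∈ T, (B j x : ℚ) * ((N j x0 : ℚ) / (N j x : ℚ)) := ⟨_, fun _ _ _ => rfl⟩
  have hzu : ∀ T ⊆ F, ∀ x0 ∈ F, ∀ j, ((∑ x ∈ T, B j x * u j x : ℤ) : ℚ) = u j x0 * z T x0 j := by
    intro T hTF x0 hx0 j
    rw [hzdef, Finset.mul_sum]
    push_cast
    refine Finset.sum_congr rfl fun x hx => ?_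
    have h1 : (u j x : ℚ) * N j x = u j x0 * N j x0 := by
      have e1 := hDu j x (hTF hx)
      rw [← hDu j x0 hx0] at e1
      exact_mod_cast e1
    have h2 := hNq j x
    calc (B j x : ℚ) * (u j x : ℚ) = (B j x : ℚ) * ((u j x : ℚ) * N j x / N j x) := by
          rw [mul_div_cancel_right₀ _ h2]
      _ = (B j x : ℚ) * ((u j x0 : ℚ) * N j x0 / N j x) := by rw [h1]
      _ = _ := by ring
  have hzS : ∀ T ⊆ F, ∀ x0, (∀ x ∈ T, s.r x0 x) → Sml U X (fun j => hq (z T x0 j)) := by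
    intro T hTF x0 hcl
    have h1 : Sml U X (fun j => ∏ x ∈ T,
        (2 * (max |(B j x : ℝ)| 1 * hq ((N j x0 : ℚ) / (N j x : ℚ))))) := by
      refine Sml.prod hX1 T (fun x j => 2 * (max |(B j x : ℝ)| 1 *
        hq ((N j x0 : ℚ) / (N j x : ℚ)))) (fun x hx => ?_) (fun x _ j => ?_)
      · refine Sml.mul hX1 (Sml.const hXt 2) (Sml.mul hX1 ?_ (hcl x hx)
          (fun j => (hq_pos _).le)) (fun j => ?_)
        · exact hB x (hTF hx)
        · exact mul_nonneg (le_max_of_le_right zero_le_one) (hq_pos _).le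
      · exact mul_nonneg (by norm_num) (mul_nonneg (le_max_of_le_right zero_le_one) (hq_pos _).le)
    refine h1.mono (Eventually.of_forall fun j => ?_)
    rw [hzdef]
    refine (hq_sum _ _).trans (Finset.prod_le_prod (fun x _ => by
      have := hq_pos ((B j x : ℚ) * ((N j x0 : ℚ) / (N j x : ℚ)))
      positivity) (fun x _ => ?_))
    refine mul_le_mul_of_nonneg_left ?_ (by norm_num)
    exact (hq_mul _ _).trans (mul_le_mul_of_nonneg_right (hq_int' _) (hq_pos _).le)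
  refine ⟨F.filter (fun x => Sml U X (fun j => hq ((N j x : ℚ) / (N j α : ℚ)))),
    fun x => by rw [Finset.mem_filter], ?_⟩
  -- contradiction
  by_contra hcon
  rw [← Ultrafilter.eventually_not] at hcon
  obtain ⟨cl, hcldef⟩ : ∃ cl : Quotient s → Finset (ι), ∀ q, cl q =
      F.filter (fun x => Quotient.mk s x = q) := ⟨_, fun _ => rfl⟩
  obtain ⟨xq, hxqdef⟩ : ∃ xq : ℕ → Quotient s → ℤ, ∀ j q, xq j q = ∑ x ∈ cl q, B j x * u j x :=
    ⟨_, fun _ _ => rfl⟩
  have hcl0 : cl (Quotient.mk s α) = F.filter (fun x => Sml U X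
      (fun j => hq ((N j x : ℚ) / (N j α : ℚ)))) := by
    rw [hcldef]
    refine Finset.filter_congr fun x _ => ?_
    rw [Quotient.eq]
    rfl
  have hur : ∀ j, ∀ x ∈ F, (u j x : ℝ) = (D j : ℝ) / (N j x : ℝ) := by
    intro j x hx
    rw [eq_div_iff (hNr j x).ne']
    exact_mod_cast hDu j x hx
  have hne0 : ∀ᶠ j in (U : Filter ℕ), xq j (Quotient.mk s α) ≠ 0 := by
    filter_upwards [hcon] with j hj h0
    apply hj
    have h1 : ((xq j (Quotient.mk s α) : ℤ) : ℝ) = (D j : ℝ) * ∑ x ∈ F.filter (fun x => Sml U X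
        (fun j => hq ((N j x : ℚ) / (N j α : ℚ)))), (B j x : ℝ) / (N j x : ℝ) := by
      rw [hxqdef, hcl0, Finset.mul_sum]
      push_cast
      refine Finset.sum_congr rfl fun x hx => ?_
      rw [hur j x (Finset.mem_filter.mp hx).1]
      ring
    rw [h0, Int.cast_zero] at h1
    have h2 : (D j : ℝ) ≠ 0 := by exact_mod_cast (hD0 j).ne'
    exact (mul_eq_zero.mp h1.symm).resolve_left h2
  let κ : Type := {q : Quotient s // ∀ᶠ j in (U : Filter ℕ), xq j q ≠ 0}
  have hfinκ : Finite κ := inferInstance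
  have : Fintype κ := Fintype.ofFinite κ
  let q0 : κ := ⟨Quotient.mk s α, hne0⟩
  -- representatives
  have hrep : ∀ q : κ, ∃ x ∈ F, Quotient.mk s x = q.1 := by
    intro q
    obtain ⟨j, hj⟩ := q.2.exists
    by_contra h
    push Not at h
    apply hj
    rw [hxqdef, hcldef, Finset.filter_eq_empty_iff.mpr (fun x hx => h x hx), Finset.sum_empty]
  choose rep hrepF hrepq using hrep
  have hclrep : ∀ q : κ, ∀ x ∈ cl q.1, s.r (rep q) x := by
    intro q x hx
    rw [hcldef, Finset.mem_filter] at hx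
    have h1 : Quotient.mk s (rep q) = Quotient.mk s x := by rw [hrepq, hx.2]
    exact Quotient.eq.mp h1
  have hclF : ∀ q, cl q ⊆ F := fun q => by rw [hcldef]; exact Finset.filter_subset _ _
  -- separation
  have hsep : ∀ q q' : κ, ∃ d : ℝ, 0 < d ∧ (q ≠ q' → ∀ᶠ j in (U : Filter ℕ),
      X j ^ d ≤ hq ((N j (rep q) : ℚ) / (N j (rep q') : ℚ))) := by
    intro q q'
    by_cases hqq : q = q'
    · exact ⟨1, one_pos, fun h => absurd hqq h⟩
    · have h1 : ¬ Sml U X (fun j => hq ((N j (rep q) : ℚ) / (N j (rep q') : ℚ))) := by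
        intro h
        apply hqq
        apply Subtype.ext
        rw [← hrepq q, ← hrepq q']
        exact Quotient.sound (s := s) h
      unfold Sml at h1
      push Not at h1
      obtain ⟨d, hd, h2⟩ := h1
      refine ⟨d, hd, fun _ => ?_⟩
      filter_upwards [h2] with j hj
      exact hj.le
  choose d hd0 hdsep using hsep
  obtain ⟨⟨q1, q2⟩, -, hmin⟩ := Finset.exists_min_image (Finset.univ : Finset (κ × κ))
    (fun x => d x.1 x.2) ⟨(q0, q0), Finset.mem_univ _⟩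
  obtain ⟨δ, hδdef⟩ : ∃ δ : ℝ, δ = d q1 q2 := ⟨_, rfl⟩
  have hδ : 0 < δ := by rw [hδdef]; exact hd0 _ _
  have hδsep : ∀ q q' : κ, q ≠ q' → ∀ᶠ j in (U : Filter ℕ),
      X j ^ δ ≤ hq ((N j (rep q) : ℚ) / (N j (rep q') : ℚ)) := by
    intro q q' hqq
    filter_upwards [hdsep q q' hqq] with j hj
    refine le_trans ?_ hj
    apply Real.rpow_le_rpow_of_exponent_le (hX1 j)
    rw [hδdef]
    exact hmin (q, q') (Finset.mem_univ _)
  -- the constants
  obtain ⟨c, hc⟩ : ∃ c : ℕ, c = Fintype.card κ := ⟨_, rfl⟩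
  obtain ⟨η, hη, hη1, hη2⟩ : ∃ η : ℝ, 0 < η ∧ 4 * (c : ℝ) * η ≤ δ / 2 ∧
      2 * (c : ℝ) * η ≤ 1 / 10 := by
    refine ⟨min (δ / 2) (1 / 10) / (4 * ((c : ℝ) + 1)), by positivity, ?_, ?_⟩
    · have h1 : 4 * (c : ℝ) * (min (δ / 2) (1 / 10) / (4 * ((c : ℝ) + 1))) =
          min (δ / 2) (1 / 10) * (c / (c + 1)) := by
        field_simp
      rw [h1]
      have h2 : (c : ℝ) / (c + 1) ≤ 1 := by
        rw [div_le_one (by positivity)]; linarith
      calc min (δ / 2) (1 / 10) * ((c : ℝ) / (c + 1)) ≤ min (δ / 2) (1 / 10) * 1 :=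
            mul_le_mul_of_nonneg_left h2 (by positivity)
        _ ≤ _ := by rw [mul_one]; exact min_le_left _ _
    · have h1 : 2 * (c : ℝ) * (min (δ / 2) (1 / 10) / (4 * ((c : ℝ) + 1))) =
          min (δ / 2) (1 / 10) * (c / (2 * (c + 1))) := by
        field_simp
        ring
      rw [h1]
      have h2 : (c : ℝ) / (2 * (c + 1)) ≤ 1 := by
        rw [div_le_one (by positivity)]
        have : (0 : ℝ) ≤ c := Nat.cast_nonneg c
        linarith
      calc min (δ / 2) (1 / 10) * ((c : ℝ) / (2 * (c + 1))) ≤ min (δ / 2) (1 / 10) * 1 :=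
            mul_le_mul_of_nonneg_left h2 (by positivity)
        _ ≤ _ := by rw [mul_one]; exact min_le_right _ _
  obtain ⟨zz, hzz⟩ : ∃ zz : κ → ℕ → ℚ, ∀ q j, zz q j = z (cl q.1) (rep q) j := ⟨_, fun _ _ => rfl⟩
  have hzzS : ∀ q : κ, Sml U X (fun j => hq (zz q j)) := by
    intro q
    simp only [hzz]
    exact hzS _ (hclF _) _ (hclrep q)
  have hzzx : ∀ (q : κ) j, ((xq j q.1 : ℤ) : ℚ) = u j (rep q) * zz q j := by
    intro q j
    rw [hxqdef, hzz]
    exact hzu _ (hclF _) _ (hrepF q) j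
  have hzα : Sml U X (fun j => hq (z (cl (Quotient.mk s α)) α j)) := by
    refine hzS _ (hclF _) _ fun x hx => ?_
    rw [hcldef, Finset.mem_filter] at hx
    exact Quotient.eq.mp hx.2.symm
  have hzero : ∀ᶠ j in (U : Filter ℕ), ∀ q : Quotient s,
      ¬ (∀ᶠ j in (U : Filter ℕ), xq j q ≠ 0) → xq j q = 0 := by
    rw [Filter.eventually_all]
    intro q
    by_cases h : ∀ᶠ j in (U : Filter ℕ), xq j q ≠ 0
    · exact Eventually.of_forall fun j hn => absurd h hn
    · rw [← Ultrafilter.eventually_not] at h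
      filter_upwards [h] with j hj _
      exact Classical.not_not.mp hj
  obtain ⟨M, hMdef⟩ : ∃ M : Set ℕ, M = {j : ℕ | (j : ℝ) ≤ X j ∧ (∀ x ∈ F, (N j x : ℝ) ≤ X j ^ C0) ∧
      |∑ x ∈ F, (B j x : ℝ) / (N j x : ℝ)| * (N j α : ℝ) < X j ^ (-(1 / 5) : ℝ) ∧
      (∀ q : κ, xq j q.1 ≠ 0) ∧ (∀ q : κ, hq (zz q j) ≤ X j ^ η) ∧
      (∀ q : κ, hq (zz q j) ≤ X j ^ (δ / 4)) ∧ (∀ q : κ, hq (zz q j) ≤ X j ^ (1 : ℝ)) ∧
      (∀ q q' : κ, q ≠ q' → X j ^ δ ≤ hq ((N j (rep q) : ℚ) / (N j (rep q') : ℚ))) ∧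
      (∀ q : Quotient s, ¬ (∀ᶠ j in (U : Filter ℕ), xq j q ≠ 0) → xq j q = 0) ∧
      hq (z (cl (Quotient.mk s α)) α j) ≤ X j ^ (1 / 10 : ℝ)} := ⟨_, rfl⟩
  have hMU : ∀ᶠ j in (U : Filter ℕ), j ∈ M := by
    rw [hMdef]
    simp only [Set.mem_ofPred_eq]
    refine hXj.and (hNC.and (hT.and ?_))
    refine (Filter.eventually_all.mpr fun q => q.2).and ?_
    refine (Filter.eventually_all.mpr fun q => hzzS q η hη).and ?_
    refine (Filter.eventually_all.mpr fun q => hzzS q (δ / 4) (by positivity)).and ?_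
    refine (Filter.eventually_all.mpr fun q => hzzS q 1 one_pos).and ?_
    refine (Filter.eventually_all.mpr fun q => Filter.eventually_all.mpr fun q' => ?_).and ?_
    · by_cases hqq : q = q'
      · exact Eventually.of_forall fun j h => absurd hqq h
      · filter_upwards [hδsep q q' hqq] with j hj _
        exact hj
    exact hzero.and (hzα (1 / 10) (by norm_num))
  have hMinf : M.Infinite := inf_of_mem hU hMU
  have hxzne : ∀ j ∈ M, ∀ q : κ, zz q j ≠ 0 := by
    intro j hj q h0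
    rw [hMdef] at hj
    have h1 := hj.2.2.2.1 q
    apply h1
    have h2 := hzzx q j
    rw [h0, mul_zero] at h2
    exact_mod_cast h2
  obtain ⟨C, hCdef⟩ : ∃ C : ℝ, C = (F.card : ℝ) * C0 + 1 := ⟨_, rfl⟩
  have hC : 0 < C := by rw [hCdef]; positivity
  refine U3 hAV hSUBT S hS κ M X (fun j q => xq j q.1) (δ / 2) η (1 / 10) C q0 (by positivity)
    hη.le (by norm_num) hC (by rw [← hc]; exact hη1) (by rw [← hc]; exact hη2) ?_ ?_ ?_
  · refine ⟨hMinf, fun j _ => hX1 j, ?_, ?_, ?_, ?_⟩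
    · intro B'
      obtain ⟨b, hb⟩ := exists_nat_gt B'
      refine (Set.finite_le_nat b).subset ?_
      rintro j ⟨hj, hjB⟩
      rw [hMdef] at hj
      have h1 := hj.1
      have h3 : (j : ℝ) ≤ b := by linarith
      simp only [Set.mem_ofPred_eq]
      exact_mod_cast h3
    · intro j hj q
      rw [hMdef] at hj
      exact hj.2.2.2.1 q
    · intro j hj q
      have hz0 := hxzne j hj q
      rw [hMdef] at hj
      have h1 := hj.2.2.2.2.1 q
      have h2 : ∏ v ∈ plc S, av v ((xq j q.1 : ℤ) : ℚ) = ∏ v ∈ plc S, av v (zz q j) := by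
        have h3 : ∏ v ∈ plc S, av v ((xq j q.1 : ℤ) : ℚ) =
            ∏ v ∈ plc S, (av v (u j (rep q)) * av v (zz q j)) :=
          Finset.prod_congr rfl fun v hv => by rw [hzzx, avm v hv]
        rw [h3, Finset.prod_mul_distrib, huS, one_mul]
      rw [h2]
      exact (av_hq hAV S hS _ hz0).trans h1
    · intro j hj q q' hqq
      have hz0 := hxzne j hj q
      have hz0' := hxzne j hj q'
      rw [hMdef] at hj
      have h1 := hj.2.2.2.2.2.1 q
      have h1' := hj.2.2.2.2.2.1 q'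
      have h2 := hj.2.2.2.2.2.2.2.1 q' q (Ne.symm hqq)
      have hu1 : (u j (rep q) : ℚ) ≠ 0 := by exact_mod_cast (hu0 j _).ne'
      have hu1' : (u j (rep q') : ℚ) ≠ 0 := by exact_mod_cast (hu0 j _).ne'
      have h3 : (N j (rep q') : ℚ) / (N j (rep q) : ℚ) =
          ((xq j q.1 : ℤ) : ℚ) / ((xq j q'.1 : ℤ) : ℚ) * (zz q' j * (zz q j)⁻¹) := by
        rw [hzzx, hzzx]
        have h4 : (u j (rep q) : ℚ) * N j (rep q) = u j (rep q') * N j (rep q') := by
          have e1 := hDu j (rep q) (hrepF q)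
          rw [← hDu j (rep q') (hrepF q')] at e1
          exact_mod_cast e1
        have h5 := hNq j (rep q)
        field_simp
        linarith
      rw [h3] at h2
      have h4 : X j ^ δ ≤ hq (((xq j q.1 : ℤ) : ℚ) / ((xq j q'.1 : ℤ) : ℚ)) *
          (X j ^ (δ / 4) * X j ^ (δ / 4)) := by
        refine h2.trans ((hq_mul _ _).trans (mul_le_mul_of_nonneg_left ?_ (hq_pos _).le))
        refine (hq_mul _ _).trans (mul_le_mul h1' ((hq_inv _).trans h1) (hq_pos _).le ?_)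
        exact Real.rpow_nonneg (hX0 j).le _
      rw [← Real.rpow_add (hX0 j)] at h4
      have h5 : X j ^ δ = X j ^ (δ / 2) * X j ^ (δ / 4 + δ / 4) := by
        rw [← Real.rpow_add (hX0 j)]
        congr 1
        ring
      rw [h5] at h4
      exact le_of_mul_le_mul_right h4 (Real.rpow_pos_of_pos (hX0 j) _)
  · intro j hj q
    rw [hMdef] at hj
    have h1 := hj.2.2.2.2.2.2.1 q
    have h2 : |((xq j q.1 : ℤ) : ℝ)| = |(u j (rep q) : ℝ)| * |((zz q j : ℚ) : ℝ)| := by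
      have h3 := hzzx q j
      have h4 : ((xq j q.1 : ℤ) : ℝ) = (u j (rep q) : ℝ) * ((zz q j : ℚ) : ℝ) := by
        exact_mod_cast congrArg (fun x : ℚ => (x : ℝ)) h3
      rw [h4, abs_mul]
    show |((xq j q.1 : ℤ) : ℝ)| ≤ X j ^ C
    rw [h2, hCdef, Real.rpow_add (hX0 j)]
    refine mul_le_mul ?_ ?_ (abs_nonneg _) (Real.rpow_nonneg (hX0 j).le _)
    · rw [abs_of_pos (by exact_mod_cast hu0 j (rep q)), hudef]
      have h3 : ∏ y ∈ F.erase (rep q), (N j y : ℝ) ≤ (X j ^ C0) ^ F.card := by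
        have hXC : 1 ≤ X j ^ C0 := Real.one_le_rpow (hX1 j) hC0
        calc ∏ y ∈ F.erase (rep q), (N j y : ℝ) ≤ ∏ _y ∈ F.erase (rep q), X j ^ C0 :=
              Finset.prod_le_prod (fun y _ => (hNr j y).le) (fun y hy =>
                hj.2.1 y (Finset.mem_of_mem_erase hy))
          _ = (X j ^ C0) ^ (F.erase (rep q)).card := by rw [Finset.prod_const]
          _ ≤ _ := pow_le_pow_right₀ hXC (Finset.card_le_card (Finset.erase_subset _ _))
      have h4 : (X j ^ C0) ^ F.card = X j ^ ((F.card : ℝ) * C0) := by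
        rw [← Real.rpow_natCast, ← Real.rpow_mul (hX0 j).le, mul_comm]
      rw [← h4]
      push_cast
      exact h3
    · refine le_trans ?_ h1
      have h3 : ((zz q j : ℚ) : ℝ) = ((zz q j).num : ℝ) / ((zz q j).den : ℝ) := by
        have := Rat.num_div_den (zz q j)
        nth_rewrite 1 [← this]
        push_cast
        rfl
      rw [h3, abs_div, Nat.abs_cast]
      have h4 : (1 : ℝ) ≤ ((zz q j).den : ℝ) := by exact_mod_cast (zz q j).den_pos
      exact (div_le_self (abs_nonneg _) h4).trans (num_le_hq _)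
  · intro j hj
    have hjM := hj
    rw [hMdef] at hj
    obtain ⟨-, -, h12, -, -, -, -, -, h11, h13⟩ := hj
    have hDr : (0 : ℝ) < (D j : ℝ) := by exact_mod_cast hD0 j
    -- the whole sum
    have hsum : ∑ q : κ, xq j q.1 = ∑ x ∈ F, B j x * u j x := by
      have e1 : ∑ q : κ, xq j q.1 = ∑ q : Quotient s, xq j q := by
        rw [← Finset.sum_subtype (Finset.univ.filter
          (fun q : Quotient s => ∀ᶠ j in (U : Filter ℕ), xq j q ≠ 0))
          (by intro x; simp) (fun q : Quotient s => xq j q)]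
        rw [Finset.sum_filter_of_ne]
        intro q _ hq
        by_contra hcon2
        exact hq (h11 q hcon2)
      rw [e1]
      simp only [hxqdef, hcldef]
      exact Finset.sum_fiberwise_of_maps_to (fun _ _ => Finset.mem_univ _) _
    obtain ⟨T, hTdef⟩ : ∃ T : ℝ, T = ∑ x ∈ F, (B j x : ℝ) / (N j x : ℝ) := ⟨_, rfl⟩
    rw [← hTdef] at h12
    have hsumT : ((∑ q : κ, xq j q.1 : ℤ) : ℝ) = (D j : ℝ) * T := by
      rw [hsum, hTdef, Finset.mul_sum]
      push_cast
      refine Finset.sum_congr rfl fun x hx => ?_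
      rw [hur j x hx]
      ring
    have hlow : (D j : ℝ) / (N j α : ℝ) * X j ^ (-(1 / 10) : ℝ) ≤
        |((xq j (Quotient.mk s α) : ℤ) : ℝ)| := by
      have e1 := hzu (cl (Quotient.mk s α)) (hclF _) α hαF j
      rw [← hxqdef] at e1
      have e2 : ((xq j (Quotient.mk s α) : ℤ) : ℝ) = (u j α : ℝ) *
          ((z (cl (Quotient.mk s α)) α j : ℚ) : ℝ) := by
        exact_mod_cast congrArg (fun x : ℚ => (x : ℝ)) e1
      have e3 : z (cl (Quotient.mk s α)) α j ≠ 0 := by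
        intro h0
        rw [h0, mul_zero] at e1
        have h6 : xq j q0.1 ≠ 0 := by
          rw [hMdef] at hjM
          exact hjM.2.2.2.1 q0
        exact h6 (by exact_mod_cast e1)
      rw [e2, abs_mul, abs_of_pos (by exact_mod_cast hu0 j α), hur j α hαF]
      refine mul_le_mul_of_nonneg_left ?_ (div_pos hDr (hNr j α)).le
      refine le_trans ?_ (abs_ge_hq _ e3)
      rw [Real.rpow_neg (hX0 j).le, ← one_div]
      exact one_div_le_one_div_of_le (hq_pos _) h13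
    show |((∑ q : κ, xq j q.1 : ℤ) : ℝ)| < |((xq j (Quotient.mk s α) : ℤ) : ℝ)| *
      X j ^ (-(1 / 10) : ℝ)
    rw [hsumT, abs_mul, abs_of_pos hDr]
    have hY : (0 : ℝ) < X j ^ (-(1 / 10) : ℝ) := Real.rpow_pos_of_pos (hX0 j) _
    have hY2 : X j ^ (-(1 / 5) : ℝ) = X j ^ (-(1 / 10) : ℝ) * X j ^ (-(1 / 10) : ℝ) := by
      rw [← Real.rpow_add (hX0 j)]
      norm_num
    rw [hY2] at h12
    have h14 : |T| < X j ^ (-(1 / 10) : ℝ) * X j ^ (-(1 / 10) : ℝ) / (N j α : ℝ) := by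
      rw [lt_div_iff₀ (hNr j α)]
      exact h12
    calc (D j : ℝ) * |T| < (D j : ℝ) * (X j ^ (-(1 / 10) : ℝ) * X j ^ (-(1 / 10) : ℝ) /
          (N j α : ℝ)) := mul_lt_mul_of_pos_left h14 hDr
      _ = (D j : ℝ) / (N j α : ℝ) * X j ^ (-(1 / 10) : ℝ) * X j ^ (-(1 / 10) : ℝ) := by ring
      _ ≤ _ := mul_le_mul_of_nonneg_right hlow hY.le

end Pool.Agent.Helper27.SUB
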