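import Pool.Agent.Helper27.SUB.T5b

/-!
Relations between double zeta values supported in few windows: the linear system.
-/

set_option autoImplicit false

namespace Pool.Agent.Helper27.SUB

open Finset Filter Pool.Agent.Helper70.SUB

/-- the class of `p ^ r0` -/
theorem cl_fwdG (U : Ultrafilter ℕ) (hU : (U : Filter ℕ) ≤ atTop) (p m n : ℕ) (hp : p.Prime)
    (hm : 2 ≤ m) (hn : 1 ≤ n) (hnm : n < m) (ρ r0 ri s : ℕ → ℕ)
    (h01 : ∀ᶠ j in (U : Filter ℕ), j ≤ ρ j) (h00 : ∀ᶠ j in (U : Filter ℕ), ρ j ≤ r0 j) (h02 : ∀ᶠ j in (U : Filter ℕ), r0 j ≤ ri j)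
    (h : Sml U (fun j => Real.exp (ρ j)) (fun j => hq (((m ^ ri j * n ^ s j : ℕ) : ℚ) / ((p ^ r0 j : ℕ) : ℚ)))) :
    m = p ∧ Sml U (fun j => Real.exp (ρ j)) (fun j => Real.exp ((ri j - r0 j : ℕ) : ℝ)) ∧
      (n = 1 ∨ Sml U (fun j => Real.exp (ρ j)) (fun j => Real.exp (s j))) := by
  have hp0 : p ≠ 0 := hp.ne_zero
  have hm0 : m ≠ 0 := by omega
  have hn0 : n ≠ 0 := by omega
  have h1j : ∀ᶠ j in (U : Filter ℕ), 1 ≤ ρ j := by
    filter_upwards [h01, hU (eventually_ge_atTop 1)] with j h1 h2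
    omega
  have hfac : ∀ q j, (m ^ ri j * n ^ s j).factorization q =
      ri j * m.factorization q + s j * n.factorization q := by
    intro q j
    simp only [Nat.factorization_mul (pow_ne_zero _ hm0) (pow_ne_zero _ hn0), Nat.factorization_pow,
      Finsupp.add_apply, Finsupp.smul_apply, smul_eq_mul]
  have hfacp : ∀ q j, (p ^ r0 j).factorization q = r0 j * p.factorization q := by
    intro q j
    simp only [Nat.factorization_pow, Finsupp.smul_apply, smul_eq_mul]
  have hbase : ∀ (q : ℕ) (e : ℕ → ℕ), q.Prime → (∀ᶠ j in (U : Filter ℕ),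
      (p ^ r0 j).factorization q + e j ≤ (m ^ ri j * n ^ s j).factorization q) →
      Sml U (fun j => Real.exp (ρ j)) (fun j => Real.exp (e j)) := by
    intro q e hq' he
    have h3 : Sml U (fun j => Real.exp (ρ j)) (fun j =>
        hq (((m ^ ri j * n ^ s j : ℕ) : ℚ) / ((p ^ r0 j : ℕ) : ℚ)) ^ 2) :=
      Sml.pow (fun j => Real.one_le_exp (Nat.cast_nonneg _)) h (fun j => (hq_pos _).le) 2
    refine h3.mono ?_
    filter_upwards [he] with j hj
    refine (exp_le_prime_pow q (e j) hq'.two_le).trans ?_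
    have h4 := val_hq q (m ^ ri j * n ^ s j) (p ^ r0 j) (e j) hq'
      (mul_ne_zero (pow_ne_zero _ hm0) (pow_ne_zero _ hn0)) (pow_ne_zero _ hp0) hj
    exact pow_le_pow_left₀ (by positivity) h4 2
  -- a quantity larger than `ρ` is not small
  have hbig : ∀ e : ℕ → ℕ, Sml U (fun j => Real.exp (ρ j)) (fun j => Real.exp (e j)) →
      (∀ᶠ j in (U : Filter ℕ), ρ j ≤ e j) → False := by
    intro e he hr
    obtain ⟨j, h1, h2, h3⟩ := ((he (1 / 2) (by norm_num)).and (hr.and h1j)).exists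
    rw [← Real.exp_mul, Real.exp_le_exp] at h1
    have h4 : (ρ j : ℝ) ≤ e j := by exact_mod_cast h2
    have h5 : (1 : ℝ) ≤ ρ j := by exact_mod_cast h3
    linarith
  have hmp : ∀ {q : ℕ}, q.Prime → q ∣ m → q = p := by
    intro q hq' hqm
    by_contra hne
    have h1 : 1 ≤ m.factorization q := (hq'.dvd_iff_one_le_factorization hm0).mp hqm
    have h2 : p.factorization q = 0 := Nat.factorization_eq_zero_of_not_dvd (fun hd =>
      hne ((Nat.prime_dvd_prime_iff_eq hq' hp).mp hd))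
    refine hbig r0 (hbase q r0 hq' ?_) h00
    filter_upwards [h02] with j hj
    rw [hfac, hfacp, h2, mul_zero, zero_add]
    nlinarith [Nat.zero_le (s j * n.factorization q), Nat.zero_le (ri j)]
  have hme := Nat.eq_prime_pow_of_unique_prime_dvd hm0 hmp
  obtain ⟨e, he⟩ : ∃ e, e = m.primeFactorsList.length := ⟨_, rfl⟩
  rw [← he] at hme
  have hpp : p.factorization p = 1 := hp.factorization_self
  have hmf : m.factorization p = e := by
    rw [hme, Nat.factorization_pow, Finsupp.smul_apply, hpp, smul_eq_mul, mul_one]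
  have he1 : e = 1 := by
    have he0 : e ≠ 0 := by
      intro h0
      rw [h0, pow_zero] at hme
      omega
    by_contra hne
    have he2 : 2 ≤ e := by omega
    refine hbig r0 (hbase p r0 hp ?_) h00
    filter_upwards [h02] with j hj
    rw [hfac, hfacp, hpp, hmf]
    nlinarith [Nat.zero_le (s j * n.factorization p), Nat.zero_le (ri j), Nat.zero_le (r0 j)]
  rw [he1, pow_one] at hme
  have hnp : n.factorization p = 0 := Nat.factorization_eq_zero_of_not_dvd (fun hd => by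
    have := Nat.le_of_dvd (by omega) hd
    omega)
  refine ⟨hme, ?_, ?_⟩
  · refine hbase p _ hp ?_
    filter_upwards [h02] with j hj
    rw [hfac, hfacp, hpp, hmf, he1, hnp]
    omega
  · by_cases hn1 : n = 1
    · exact Or.inl hn1
    · right
      obtain ⟨q, hq', hqn⟩ := Nat.exists_prime_and_dvd hn1
      have hqle : q ≤ n := Nat.le_of_dvd (by omega) hqn
      have hqp : q ≠ p := by omega
      have h1 : 1 ≤ n.factorization q := (hq'.dvd_iff_one_le_factorization hn0).mp hqn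
      have h2 : p.factorization q = 0 := Nat.factorization_eq_zero_of_not_dvd (fun hd =>
        hqp ((Nat.prime_dvd_prime_iff_eq hq' hp).mp hd))
      refine hbase q _ hq' ?_
      refine Eventually.of_forall fun j => ?_
      rw [hfac, hfacp, h2, mul_zero, zero_add]
      nlinarith [Nat.zero_le (ri j * m.factorization q), Nat.zero_le (s j)]

theorem cl_bwdG (U : Ultrafilter ℕ) (p n : ℕ) (hp : p.Prime)
    (hn : 1 ≤ n) (ρ r0 ri s : ℕ → ℕ) (h02 : ∀ᶠ j in (U : Filter ℕ), r0 j ≤ ri j)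
    (h1 : Sml U (fun j => Real.exp (ρ j)) (fun j => Real.exp ((ri j - r0 j : ℕ) : ℝ)))
    (h2 : n = 1 ∨ Sml U (fun j => Real.exp (ρ j)) (fun j => Real.exp (s j))) :
    Sml U (fun j => Real.exp (ρ j)) (fun j => hq (((p ^ ri j * n ^ s j : ℕ) : ℚ) / ((p ^ r0 j : ℕ) : ℚ))) := by
  have hX : ∀ j, 1 ≤ Real.exp (ρ j) := fun j => Real.one_le_exp (Nat.cast_nonneg _)
  have hp0 : p ≠ 0 := hp.ne_zero
  have hn0 : n ≠ 0 := by omega
  have h3 : Sml U (fun j => Real.exp (ρ j)) (fun j => ((n ^ s j : ℕ) : ℝ)) := by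
    rcases h2 with h2 | h2
    · subst h2
      intro η hη
      refine Eventually.of_forall fun j => ?_
      simp only [one_pow, Nat.cast_one]
      exact Real.one_le_rpow (hX j) hη.le
    · refine (Sml.pow hX h2 (fun j => Real.exp_nonneg _) n).mono (Eventually.of_forall fun j => ?_)
      push_cast
      exact pow_le_exp_pow n (s j)
  have h4 : Sml U (fun j => Real.exp (ρ j)) (fun j => ((p ^ (ri j - r0 j) : ℕ) : ℝ)) := by
    refine (Sml.pow hX h1 (fun j => Real.exp_nonneg _) p).mono (Eventually.of_forall fun j => ?_)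
    push_cast
    exact pow_le_exp_pow p (ri j - r0 j)
  refine (Sml.mul hX h4 h3 (fun j => Nat.cast_nonneg _)).mono ?_
  filter_upwards [h02] with j hj
  have h5 : (((p ^ ri j * n ^ s j : ℕ) : ℚ) / ((p ^ r0 j : ℕ) : ℚ)) =
      ((p ^ (ri j - r0 j) * n ^ s j : ℕ) : ℚ) := by
    have h6 : ((p ^ r0 j : ℕ) : ℚ) ≠ 0 := by exact_mod_cast (pow_ne_zero _ hp0)
    rw [div_eq_iff h6]
    have h7 : p ^ ri j * n ^ s j = p ^ (ri j - r0 j) * n ^ s j * p ^ r0 j := by
      have h8 : p ^ ri j = p ^ (ri j - r0 j) * p ^ r0 j := by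
        rw [← pow_add]
        congr 1
        omega
      rw [h8]
      ring
    exact_mod_cast h7
  rw [h5]
  have h6 := hq_nat (p ^ (ri j - r0 j) * n ^ s j)
    (mul_ne_zero (pow_ne_zero _ hp0) (pow_ne_zero _ hn0))
  push_cast at h6 ⊢
  exact h6



/-- the sequence of relations -/
structure DatW (U : Ultrafilter ℕ) (n : ℕ) (e : ℕ → Fin (n + 1) → ℕ) (k : ℕ → ℕ)
    (W : ℕ → Finset ℕ) (c : ℕ → ℕ → ℤ) (q : ℕ → ℕ → Fin (n + 1)) : Prop where
  le : (U : Filter ℕ) ≤ atTop
  mono : ∀ᶠ j in (U : Filter ℕ), StrictMono (e j)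
  e0 : ∀ᶠ j in (U : Filter ℕ), j ≤ e j 0
  ek : ∀ᶠ j in (U : Filter ℕ), ∀ i, e j i < k j
  win : ∀ᶠ j : ℕ in (U : Filter ℕ), ∀ r ∈ W j, e j (q j r) ≤ r ∧
    (r : ℝ) ≤ (1 + 1 / ((j : ℝ) + 1)) * e j (q j r) ∧ r < k j ∧
    |(c j r : ℝ)| ≤ Real.exp (1 / ((j : ℝ) + 1) * r)
  rel : ∀ᶠ j in (U : Filter ℕ), ∑ r ∈ W j, (c j r : ℝ) * dz r (k j - r) = 0

/-- the cluster of the first window -/
def clI (U : Ultrafilter ℕ) {n : ℕ} (e : ℕ → Fin (n + 1) → ℕ) (i : Fin (n + 1)) : Prop :=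
  Sml U (fun j => Real.exp (e j 0)) (fun j => Real.exp ((e j i - e j 0 : ℕ) : ℝ))

/-- the weight is close to the first argument -/
def clA (U : Ultrafilter ℕ) {n : ℕ} (e : ℕ → Fin (n + 1) → ℕ) (k : ℕ → ℕ) : Prop :=
  Sml U (fun j => Real.exp (e j 0)) (fun j => Real.exp ((k j - e j 0 : ℕ) : ℝ))

open Classical in
theorem sysW (hAV : ST_AV) (hSUBT : ST_SUBT) (U : Ultrafilter ℕ) (n : ℕ)
    (e : ℕ → Fin (n + 1) → ℕ) (k : ℕ → ℕ) (W : ℕ → Finset ℕ) (c : ℕ → ℕ → ℤ)
    (q : ℕ → ℕ → Fin (n + 1)) (hD : DatW U n e k W c q) (p : ℕ) (hp : p.Prime) :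
    ∀ᶠ j in (U : Filter ℕ), ∑ r ∈ (W j).filter (fun r => clI U e (q j r)),
      (c j r : ℝ) * ff p r (k j - r) (if clA U e k then p - 1 else 1) = 0 := by
  have hp2 := hp.two_le
  have hpr2 : (2 : ℝ) ≤ p := by exact_mod_cast hp2
  obtain ⟨P, hP⟩ : ∃ P, P = p ^ 2 := ⟨_, rfl⟩
  have hP0 : 0 < P := by rw [hP]; positivity
  have hpltP : p < P := by rw [hP]; nlinarith
  have hPr0 : (0 : ℝ) < P := by exact_mod_cast hP0
  obtain ⟨F, hF⟩ := constU U (fun j => FI P n (e j) (k j))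
  obtain ⟨X, hXdef⟩ : ∃ X : ℕ → ℝ, X = fun j => Real.exp (e j 0) := ⟨_, rfl⟩
  have hXj : ∀ j, X j = Real.exp (e j 0) := fun j => by rw [hXdef]
  have hX1 : ∀ j, 1 ≤ X j := fun j => by rw [hXj]; exact Real.one_le_exp (Nat.cast_nonneg _)
  have hX0 : ∀ j, 0 < X j := fun j => lt_of_lt_of_le one_pos (hX1 j)
  have hXge : ∀ᶠ j : ℕ in (U : Filter ℕ), (j : ℝ) ≤ X j := by
    filter_upwards [hD.e0] with j hj
    have h2 : (j : ℝ) ≤ e j 0 := by exact_mod_cast hj
    have h3 := Real.add_one_le_exp (e j 0 : ℝ)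
    rw [hXj]
    linarith
  have hXt : Tendsto X U atTop :=
    tendsto_atTop_mono' _ hXge (tendsto_natCast_atTop_atTop.mono_left hD.le)
  have hle0 : ∀ᶠ j in (U : Filter ℕ), ∀ i, e j 0 ≤ e j i := by
    filter_upwards [hD.mono] with j hj i
    exact hj.monotone (Fin.zero_le i)
  have hone : ∀ η : ℝ, 0 < η → ∀ᶠ j in (U : Filter ℕ), 1 ≤ η * (e j 0 : ℝ) := by
    intro η hη
    obtain ⟨B, hB⟩ := exists_nat_gt (1 / η)
    filter_upwards [hD.e0, hD.le (eventually_ge_atTop B)] with j h1 h2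
    rw [div_lt_iff₀ hη] at hB
    have h3 : (B : ℝ) ≤ e j 0 := by exact_mod_cast h2.trans h1
    nlinarith
  -- the common exponent
  obtain ⟨Sj, hSj⟩ : ∃ Sj : ℕ → ℕ, ∀ j, Sj j = P * e j 0 / (j + 1) + 1 := ⟨_, fun _ => rfl⟩
  have hSle : ∀ j, (Sj j : ℝ) ≤ (P : ℝ) * e j 0 / ((j : ℝ) + 1) + 1 := by
    intro j
    rw [hSj]
    push_cast
    have h1 : ((P * e j 0 / (j + 1) : ℕ) : ℝ) ≤ ((P * e j 0 : ℕ) : ℝ) / ((j + 1 : ℕ) : ℝ) :=
      Nat.cast_div_le
    push_cast at h1
    linarith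
  have hSge : ∀ j, (P : ℝ) * e j 0 / ((j : ℝ) + 1) ≤ Sj j := by
    intro j
    have h1 : P * e j 0 < (P * e j 0 / (j + 1) + 1) * (j + 1) := by
      have := Nat.lt_div_mul_add (a := P * e j 0) (b := j + 1) (by omega)
      nlinarith
    rw [div_le_iff₀ (by positivity), hSj]
    have h2 : ((P * e j 0 : ℕ) : ℝ) ≤ (((P * e j 0 / (j + 1) + 1) * (j + 1) : ℕ) : ℝ) := by
      exact_mod_cast h1.le
    push_cast at h2 ⊢
    exact h2
  have hSml : Sml U X (fun j => Real.exp (Sj j)) := by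
    intro η hη
    obtain ⟨B, hB⟩ := exists_nat_gt (2 * (P : ℝ) / η)
    filter_upwards [hone (η / 2) (by positivity), hD.le (eventually_ge_atTop B)] with j h1 h2
    rw [hXj, ← Real.exp_mul, Real.exp_le_exp]
    refine (hSle j).trans ?_
    rw [div_lt_iff₀ hη] at hB
    have h3 : (B : ℝ) ≤ j := by exact_mod_cast h2
    have h4 : (P : ℝ) * e j 0 / ((j : ℝ) + 1) ≤ η / 2 * e j 0 := by
      rw [div_le_iff₀ (by positivity)]
      have h5 : (0 : ℝ) ≤ e j 0 := Nat.cast_nonneg _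
      have h6 : (P : ℝ) ≤ η / 2 * ((j : ℝ) + 1) := by nlinarith
      calc (P : ℝ) * e j 0 ≤ (η / 2 * ((j : ℝ) + 1)) * e j 0 := mul_le_mul_of_nonneg_right h6 h5
        _ = _ := by ring
    linarith
  have hSpow : ∀ m : ℕ, Sml U X (fun j => Real.exp (Sj j) ^ m) := fun m =>
    Sml.pow hX1 hSml (fun j => Real.exp_nonneg _) m
  -- the terms
  obtain ⟨m, hm⟩ : ∃ m : Ix P n → ℕ, ∀ x, m x = (x.1.1 : ℕ) + (x.1.2 : ℕ) + 2 := ⟨_, fun _ => rfl⟩
  obtain ⟨nn, hnn⟩ : ∃ nn : Ix P n → ℕ, ∀ x, nn x = (x.1.2 : ℕ) + 1 := ⟨_, fun _ => rfl⟩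
  have hm2 : ∀ x, 2 ≤ m x := fun x => by rw [hm]; omega
  have hmP : ∀ x, m x ≤ 2 * P := fun x => by
    rw [hm]
    have := x.1.1.2
    have := x.1.2.2
    omega
  have hn1 : ∀ x, 1 ≤ nn x := fun x => by rw [hnn]; omega
  have hnm : ∀ x, nn x < m x := fun x => by rw [hnn, hm]; omega
  obtain ⟨N, hN⟩ : ∃ N : ℕ → Ix P n → ℕ, ∀ j x, N j x = m x ^ (e j x.2 + Sj j) *
      nn x ^ (k j - e j x.2) := ⟨_, fun _ _ => rfl⟩
  have hN0 : ∀ j x, 0 < N j x := fun j x => by
    rw [hN]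
    have := hm2 x
    have := hn1 x
    positivity
  obtain ⟨B, hB⟩ : ∃ B : ℕ → Ix P n → ℤ, ∀ j x, B j x = ∑ r ∈ (W j).filter (fun r => q j r = x.2),
      c j r * ((m x ^ (Sj j - (r - e j x.2)) * nn x ^ (r - e j x.2) : ℕ) : ℤ) := ⟨_, fun _ _ => rfl⟩
  -- windows which occur
  have hwin : ∀ᶠ j in (U : Filter ℕ), ∀ x ∈ F, e j x.2 ≤ P * e j 0 := by
    filter_upwards [hF] with j h1 x hx
    have h4 : NI (e j) (k j) x ≤ P ^ (e j 0) := by
      rw [← h1] at hx
      exact (Finset.mem_filter.mp hx).2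
    have h6 : 2 ^ (e j x.2) ≤ 2 ^ (P * e j 0) := by
      calc 2 ^ (e j x.2) ≤ ((x.1.1 : ℕ) + (x.1.2 : ℕ) + 2) ^ (e j x.2) :=
            Nat.pow_le_pow_left (by omega) _
        _ ≤ NI (e j) (k j) x := by
            unfold NI ND
            exact Nat.le_mul_of_pos_right _ (by positivity)
        _ ≤ P ^ (e j 0) := h4
        _ ≤ (2 ^ P) ^ (e j 0) := Nat.pow_le_pow_left Nat.lt_two_pow_self.le _
        _ = _ := by rw [← pow_mul]
    exact (Nat.pow_le_pow_iff_right (by norm_num)).mp h6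
  have hrS : ∀ᶠ j in (U : Filter ℕ), ∀ x ∈ F, ∀ r ∈ W j, q j r = x.2 → r - e j x.2 ≤ Sj j := by
    filter_upwards [hwin, hD.win] with j h1 h2 x hx r hr hq
    obtain ⟨h3, h4, -, -⟩ := h2 r hr
    rw [hq] at h3 h4
    have h5 := h1 x hx
    have h6 : (r - e j x.2) * (j + 1) ≤ P * e j 0 := by
      have h7 : (((r - e j x.2) * (j + 1) : ℕ) : ℝ) ≤ (e j x.2 : ℝ) := by
        push_cast [Nat.cast_sub h3]
        have h8 : (1 + 1 / ((j : ℝ) + 1)) * (e j x.2 : ℝ) - e j x.2 = (e j x.2 : ℝ) / ((j : ℝ) + 1) := by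
          ring
        have h9 : (r : ℝ) - e j x.2 ≤ (e j x.2 : ℝ) / ((j : ℝ) + 1) := by linarith
        have h10 : (0 : ℝ) < (j : ℝ) + 1 := by positivity
        calc ((r : ℝ) - e j x.2) * ((j : ℝ) + 1) ≤ (e j x.2 : ℝ) / ((j : ℝ) + 1) * ((j : ℝ) + 1) :=
              mul_le_mul_of_nonneg_right h9 h10.le
          _ = _ := by field_simp
      have h8 : (r - e j x.2) * (j + 1) ≤ e j x.2 := by exact_mod_cast h7
      exact h8.trans h5
    rw [hSj]
    have := (Nat.le_div_iff_mul_le (by omega : 0 < j + 1)).mpr h6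
    omega
  have hBN : ∀ᶠ j in (U : Filter ℕ), ∀ x ∈ F, (B j x : ℝ) / (N j x : ℝ) =
      ∑ r ∈ (W j).filter (fun r => q j r = x.2),
        (c j r : ℝ) / (ND r (k j - r) ((x.1.1 : ℕ), (x.1.2 : ℕ)) : ℝ) := by
    filter_upwards [hrS, hD.win] with j h1 h2 x hx
    rw [hB, hN]
    push_cast
    rw [Finset.sum_div]
    refine Finset.sum_congr rfl fun r hr => ?_
    rw [Finset.mem_filter] at hr
    have h3 := h1 x hx r hr.1 hr.2
    obtain ⟨h4, -, h5, -⟩ := h2 r hr.1
    rw [hr.2] at h4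
    unfold ND
    have hm0 : (0 : ℝ) < m x := by
      have := hm2 x
      exact_mod_cast (by omega : 0 < m x)
    have hn0 : (0 : ℝ) < nn x := by
      have := hn1 x
      exact_mod_cast (by omega : 0 < nn x)
    have e1 : ((((x.1.1 : ℕ) + (x.1.2 : ℕ) + 2) ^ r * ((x.1.2 : ℕ) + 1) ^ (k j - r) : ℕ) : ℝ) =
        (m x : ℝ) ^ r * (nn x : ℝ) ^ (k j - r) := by
      rw [hm, hnn]
      push_cast
      ring
    rw [e1]
    have e2 : (m x : ℝ) ^ (e j x.2 + Sj j) = (m x : ℝ) ^ r * (m x : ℝ) ^ (Sj j - (r - e j x.2)) := by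
      rw [← pow_add]
      congr 1
      omega
    have e3 : (nn x : ℝ) ^ (k j - e j x.2) = (nn x : ℝ) ^ (k j - r) * (nn x : ℝ) ^ (r - e j x.2) := by
      rw [← pow_add]
      congr 1
      omega
    rw [e2, e3]
    have e4 : (m x : ℝ) ^ (Sj j - (r - e j x.2)) ≠ 0 := by positivity
    have e5 : (nn x : ℝ) ^ (r - e j x.2) ≠ 0 := by positivity
    field_simp
  have hBsml : ∀ x ∈ F, Sml U X (fun j => max |(B j x : ℝ)| 1) := by
    intro x hx
    refine (hSpow (3 + 4 * P)).mono ?_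
    filter_upwards [hrS, hD.win, hwin] with j h1 h2 h0
    have hE1 : 1 ≤ Real.exp (Sj j : ℝ) := Real.one_le_exp (Nat.cast_nonneg _)
    refine max_le ?_ (one_le_pow₀ hE1)
    rw [hB]
    push_cast
    have hcard : ((W j).filter (fun r => q j r = x.2)).card ≤ Sj j + 1 := by
      calc ((W j).filter (fun r => q j r = x.2)).card ≤
            (Finset.Icc (e j x.2) (e j x.2 + Sj j)).card := by
            refine Finset.card_le_card fun r hr => ?_
            rw [Finset.mem_filter] at hr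
            have h3 := h1 x hx r hr.1 hr.2
            have h4 := (h2 r hr.1).1
            rw [hr.2] at h4
            rw [Finset.mem_Icc]
            omega
        _ = _ := by rw [Nat.card_Icc]; omega
    have hpw : ∀ (y : ℕ) (s : ℕ), 1 ≤ y → y ≤ 2 * P → s ≤ Sj j →
        (y : ℝ) ^ s ≤ Real.exp (Sj j : ℝ) ^ (2 * P) := by
      intro y s hy1 hy hs
      have e1 : (1 : ℝ) ≤ y := by exact_mod_cast hy1
      calc (y : ℝ) ^ s ≤ (y : ℝ) ^ (Sj j) := pow_le_pow_right₀ e1 hs
        _ ≤ Real.exp (Sj j : ℝ) ^ y := pow_le_exp_pow y (Sj j)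
        _ ≤ _ := pow_le_pow_right₀ hE1 hy
    calc |∑ r ∈ (W j).filter (fun r => q j r = x.2),
          (c j r : ℝ) * ((m x : ℝ) ^ (Sj j - (r - e j x.2)) * (nn x : ℝ) ^ (r - e j x.2))|
        ≤ ∑ r ∈ (W j).filter (fun r => q j r = x.2),
          |(c j r : ℝ) * ((m x : ℝ) ^ (Sj j - (r - e j x.2)) * (nn x : ℝ) ^ (r - e j x.2))| :=
          Finset.abs_sum_le_sum_abs _ _
      _ ≤ ∑ _r ∈ (W j).filter (fun r => q j r = x.2), Real.exp (Sj j : ℝ) ^ (2 + 4 * P) := by
          refine Finset.sum_le_sum fun r hr => ?_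
          rw [Finset.mem_filter] at hr
          have h3 := h1 x hx r hr.1 hr.2
          obtain ⟨h4, -, -, h5⟩ := h2 r hr.1
          rw [hr.2] at h4
          rw [abs_mul, abs_of_nonneg (by positivity : (0 : ℝ) ≤ (m x : ℝ) ^ (Sj j - (r - e j x.2)) *
            (nn x : ℝ) ^ (r - e j x.2))]
          have e1 : |(c j r : ℝ)| ≤ Real.exp (Sj j : ℝ) ^ 2 := by
            refine h5.trans ?_
            rw [← Real.exp_nat_mul, Real.exp_le_exp]
            have e2 : (r : ℝ) ≤ P * e j 0 + Sj j := by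
              have h6 := h0 x hx
              exact_mod_cast (by omega : r ≤ P * e j 0 + Sj j)
            have e3 := hSge j
            have hj1 : (0 : ℝ) < (j : ℝ) + 1 := by positivity
            have e4 : 1 / ((j : ℝ) + 1) * r ≤ (P * e j 0 + Sj j) / ((j : ℝ) + 1) := by
              rw [one_div_mul_eq_div]
              exact div_le_div_of_nonneg_right e2 hj1.le
            have e5 : (Sj j : ℝ) / ((j : ℝ) + 1) ≤ Sj j :=
              div_le_self (Nat.cast_nonneg _) (by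
                have : (0 : ℝ) ≤ j := Nat.cast_nonneg j
                linarith)
            rw [add_div] at e4
            push_cast
            linarith
          calc |(c j r : ℝ)| * ((m x : ℝ) ^ (Sj j - (r - e j x.2)) * (nn x : ℝ) ^ (r - e j x.2))
              ≤ Real.exp (Sj j : ℝ) ^ 2 * (Real.exp (Sj j : ℝ) ^ (2 * P) *
                Real.exp (Sj j : ℝ) ^ (2 * P)) := by
                have e2 := hpw (m x) (Sj j - (r - e j x.2)) (by have := hm2 x; omega) (hmP x)
                  (Nat.sub_le _ _)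
                have e3 := hpw (nn x) (r - e j x.2) (hn1 x) (by
                  have := hnm x
                  have := hmP x
                  omega) h3
                exact mul_le_mul e1 (mul_le_mul e2 e3 (by positivity) (by positivity))
                  (by positivity) (by positivity)
            _ = Real.exp (Sj j : ℝ) ^ (2 + 4 * P) := by
                rw [← pow_add, ← pow_add]
                congr 1
                ring
      _ = (((W j).filter (fun r => q j r = x.2)).card : ℝ) * Real.exp (Sj j : ℝ) ^ (2 + 4 * P) := by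
          rw [Finset.sum_const, nsmul_eq_mul]
      _ ≤ Real.exp (Sj j : ℝ) * Real.exp (Sj j : ℝ) ^ (2 + 4 * P) := by
          refine mul_le_mul_of_nonneg_right ?_ (by positivity)
          have e1 : ((((W j).filter (fun r => q j r = x.2)).card : ℕ) : ℝ) ≤ (Sj j : ℝ) + 1 := by
            exact_mod_cast hcard
          exact e1.trans (Real.add_one_le_exp _)
      _ = _ := by
          rw [← pow_succ']
          congr 1
          ring
  -- the special term
  obtain ⟨α, hα⟩ : ∃ α : Ix P n,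
      α = (((⟨p - 2, by omega⟩ : Fin P), (⟨0, hP0⟩ : Fin P)), (0 : Fin (n + 1))) := ⟨_, rfl⟩
  have hmα : m α = p := by
    rw [hm, hα]
    show p - 2 + 0 + 2 = p
    omega
  have hnα : nn α = 1 := by
    rw [hnn, hα]
  have hα2 : α.2 = 0 := by rw [hα]
  have hNα : ∀ j, N j α = p ^ (e j 0 + Sj j) := by
    intro j
    rw [hN, hmα, hnα, hα2, one_pow, mul_one]
  have hαF : α ∈ F := by
    obtain ⟨j1, hj1⟩ := hF.exists
    rw [← hj1]
    unfold FI
    rw [Finset.mem_filter]
    refine ⟨Finset.mem_univ _, ?_⟩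
    have h1 : NI (e j1) (k j1) α = m α ^ (e j1 α.2) * nn α ^ (k j1 - e j1 α.2) := by
      rw [hm, hnn]
      rfl
    rw [h1, hmα, hnα, hα2, one_pow, mul_one]
    exact Nat.pow_le_pow_left hpltP.le _
  obtain ⟨S, hSdef⟩ : ∃ S : Finset ℕ, S = (Finset.range (2 * P + 1)).filter Nat.Prime := ⟨_, rfl⟩
  have hS : ∀ q ∈ S, q.Prime := by
    intro q hq
    rw [hSdef] at hq
    exact (Finset.mem_filter.mp hq).2
  have hNS : ∀ j x, ∀ q : ℕ, q.Prime → q ∣ N j x → q ∈ S := by
    intro j x q hq hqN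
    rw [hSdef, Finset.mem_filter, Finset.mem_range]
    refine ⟨?_, hq⟩
    rw [hN] at hqN
    have h1 := hm2 x
    have h2 := hn1 x
    have h3 := hmP x
    have h4 := hnm x
    rcases (hq.dvd_mul).mp hqN with h | h
    · have h5 := Nat.le_of_dvd (by omega) (hq.dvd_of_dvd_pow h)
      omega
    · have h5 := Nat.le_of_dvd (by omega) (hq.dvd_of_dvd_pow h)
      omega
  have hlogP : 0 ≤ Real.log P := Real.log_nonneg (by exact_mod_cast hP0)
  have hNC : ∀ᶠ j in (U : Filter ℕ), ∀ x ∈ F, (N j x : ℝ) ≤ X j ^ (Real.log P + 1) := by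
    have h0 := hSpow (2 * P) 1 one_pos
    filter_upwards [hF, h0] with j h1 h2 x hx
    have h4 : NI (e j) (k j) x ≤ P ^ (e j 0) := by
      rw [← h1] at hx
      exact (Finset.mem_filter.mp hx).2
    have h5 : N j x = NI (e j) (k j) x * m x ^ (Sj j) := by
      have h6 : NI (e j) (k j) x = m x ^ (e j x.2) * nn x ^ (k j - e j x.2) := by
        rw [hm, hnn]
        rfl
      rw [hN, h6, pow_add]
      ring
    rw [h5]
    push_cast
    rw [Real.rpow_add (hX0 j)]
    refine mul_le_mul ?_ ?_ (by positivity) (Real.rpow_nonneg (hX0 j).le _)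
    · have h6 : (NI (e j) (k j) x : ℝ) ≤ (P : ℝ) ^ (e j 0) := by exact_mod_cast h4
      refine h6.trans (le_of_eq ?_)
      rw [hXj, ← Real.exp_mul, mul_comm, Real.exp_mul, Real.exp_log hPr0, Real.rpow_natCast]
    · refine le_trans ?_ h2
      have e1 : (1 : ℝ) ≤ Real.exp (Sj j : ℝ) := Real.one_le_exp (Nat.cast_nonneg _)
      exact (pow_le_exp_pow (m x) (Sj j)).trans (pow_le_pow_right₀ e1 (hmP x))
  have hZ := Z4_nonneg
  have hT : ∀ᶠ j in (U : Filter ℕ), |∑ x ∈ F, (B j x : ℝ) / (N j x : ℝ)| * (N j α : ℝ) <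
      X j ^ (-(1 / 5) : ℝ) := by
    obtain ⟨K, hK⟩ : ∃ K : ℝ, K = ((P : ℝ) ^ 4 + 16) * Z4 := ⟨_, rfl⟩
    have hK0 : 0 ≤ K := by rw [hK]; positivity
    have he0s : Sml U X (fun j => 4 * (P : ℝ) * e j 0 + 6) := by
      intro η hη
      have h1 := Sml.const hXt (4 * (P : ℝ) * (2 / η) + 6) (η / 2) (by positivity)
      filter_upwards [h1] with j h2
      have h3 : (e j 0 : ℝ) ≤ 2 / η * X j ^ (η / 2) := by
        rw [hXj, ← Real.exp_mul]
        have h4 := Real.add_one_le_exp ((e j 0 : ℝ) * (η / 2))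
        have h5 : (e j 0 : ℝ) * (η / 2) ≤ Real.exp ((e j 0 : ℝ) * (η / 2)) := by linarith
        calc (e j 0 : ℝ) = 2 / η * ((e j 0 : ℝ) * (η / 2)) := by field_simp
          _ ≤ _ := mul_le_mul_of_nonneg_left h5 (by positivity)
      have h4 : 1 ≤ X j ^ (η / 2) := Real.one_le_rpow (hX1 j) (by positivity)
      calc 4 * (P : ℝ) * e j 0 + 6 ≤ 4 * (P : ℝ) * (2 / η * X j ^ (η / 2)) + 6 * X j ^ (η / 2) := by
            have := mul_le_mul_of_nonneg_left h3 (by positivity : (0 : ℝ) ≤ 4 * (P : ℝ))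
            linarith
        _ = (4 * (P : ℝ) * (2 / η) + 6) * X j ^ (η / 2) := by ring
        _ ≤ X j ^ (η / 2) * X j ^ (η / 2) := mul_le_mul_of_nonneg_right h2 (by linarith)
        _ = X j ^ η := by rw [← Real.rpow_add (hX0 j), add_halves]
    have hG : Sml U X (fun j => K * ((4 * (P : ℝ) * e j 0 + 6) * (Real.exp (Sj j : ℝ) ^ (4 + p)))) :=
      Sml.mul hX1 (Sml.const hXt K) (Sml.mul hX1 he0s (hSpow (4 + p)) (fun j => by positivity))
        (fun j => by positivity)
    filter_upwards [hG (2 / 5) (by norm_num), hBN, hD.win, hD.rel, hle0, hF, hD.e0,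
      hD.le (eventually_ge_atTop 4), hone (1 / 5) (by norm_num)] with j h1 h2 h3 h4 h5 h6 h7 h8 h9
    have hj1 : (0 : ℝ) < (j : ℝ) + 1 := by positivity
    have h10 := trunc_relW P n (e j) (k j) (W j) (c j) (q j) (1 / ((j : ℝ) + 1)) (by positivity) (by
      rw [div_le_div_iff₀ hj1 (by norm_num)]
      have : (4 : ℝ) ≤ j := by exact_mod_cast h8
      linarith) hP0 (h8.trans h7) h5 (fun r hr => ⟨(h3 r hr).1, (h3 r hr).2.2.1, (h3 r hr).2.2.2⟩) h4
    rw [h6] at h10
    have h11 : ∑ x ∈ F, (B j x : ℝ) / (N j x : ℝ) = ∑ x ∈ F,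
        ∑ r ∈ (W j).filter (fun r => q j r = x.2),
        (c j r : ℝ) / (ND r (k j - r) ((x.1.1 : ℕ), (x.1.2 : ℕ)) : ℝ) :=
      Finset.sum_congr rfl fun x hx => h2 x hx
    have h10' : |∑ x ∈ F, (B j x : ℝ) / (N j x : ℝ)| ≤ (((P : ℝ) ^ 4 + 16) * Z4 *
        Real.exp (1 / ((j : ℝ) + 1) * (4 * P * e j 0)) / (P : ℝ) ^ e j 0) * (4 * P * e j 0 + 6) := by
      rw [h11]
      exact h10
    rw [← hK] at h10'
    have hp0 : (0 : ℝ) < p := by linarith
    have hpe : (0 : ℝ) < (p : ℝ) ^ e j 0 := by positivity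
    have e1 : Real.exp (1 / ((j : ℝ) + 1) * (4 * P * e j 0)) ≤ Real.exp (Sj j : ℝ) ^ 4 := by
      rw [← Real.exp_nat_mul, Real.exp_le_exp]
      have := hSge j
      push_cast
      calc 1 / ((j : ℝ) + 1) * (4 * P * e j 0) = 4 * (P * e j 0 / ((j : ℝ) + 1)) := by ring
        _ ≤ _ := by linarith
    have e2 : (p : ℝ) ^ Sj j ≤ Real.exp (Sj j : ℝ) ^ p := pow_le_exp_pow p (Sj j)
    have e3 : (P : ℝ) ^ e j 0 = (p : ℝ) ^ e j 0 * (p : ℝ) ^ e j 0 := by
      rw [hP]
      push_cast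
      rw [← pow_mul, ← pow_add]
      congr 1
      ring
    have e4 : (N j α : ℝ) = (p : ℝ) ^ e j 0 * (p : ℝ) ^ Sj j := by
      rw [hNα]
      push_cast
      rw [pow_add]
    have e5 : X j ^ (3 / 5 : ℝ) < (p : ℝ) ^ e j 0 := by
      have e6 : X j ^ (3 / 5 : ℝ) < 2 ^ e j 0 := by
        rw [hXj, ← Real.exp_mul]
        have e7 : (2 : ℝ) ^ e j 0 = Real.exp (Real.log 2 * e j 0) := by
          rw [Real.exp_mul, Real.exp_log (by norm_num), Real.rpow_natCast]
        rw [e7, Real.exp_lt_exp]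
        have h12 := Real.log_two_gt_d9
        nlinarith
      exact e6.trans_le (pow_le_pow_left₀ (by norm_num) hpr2 _)
    have e6 : |∑ x ∈ F, (B j x : ℝ) / (N j x : ℝ)| * (N j α : ℝ) ≤ X j ^ (2 / 5 : ℝ) /
        (p : ℝ) ^ e j 0 := by
      calc |∑ x ∈ F, (B j x : ℝ) / (N j x : ℝ)| * (N j α : ℝ) ≤
            (K * Real.exp (Sj j : ℝ) ^ 4 / (P : ℝ) ^ e j 0 * (4 * P * e j 0 + 6)) *
              ((p : ℝ) ^ e j 0 * Real.exp (Sj j : ℝ) ^ p) := by
            rw [e4]
            refine mul_le_mul ?_ (mul_le_mul_of_nonneg_left e2 hpe.le) (by positivity) (by positivity)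
            refine h10'.trans ?_
            refine mul_le_mul_of_nonneg_right ?_ (by positivity)
            refine div_le_div_of_nonneg_right ?_ (by positivity)
            exact mul_le_mul_of_nonneg_left e1 hK0
        _ = (K * ((4 * (P : ℝ) * e j 0 + 6) * (Real.exp (Sj j : ℝ) ^ (4 + p)))) /
              (p : ℝ) ^ e j 0 := by
            rw [e3, pow_add]
            field_simp
        _ ≤ _ := div_le_div_of_nonneg_right h1 hpe.le
    refine e6.trans_lt ?_
    rw [div_lt_iff₀ hpe]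
    have e7 : X j ^ (2 / 5 : ℝ) = X j ^ (-(1 / 5) : ℝ) * X j ^ (3 / 5 : ℝ) := by
      rw [← Real.rpow_add (hX0 j)]
      norm_num
    rw [e7]
    exact mul_lt_mul_of_pos_left e5 (Real.rpow_pos_of_pos (hX0 j) _)
  obtain ⟨T, hT1, hT2⟩ := clsG hAV hSUBT U hD.le X hX1 hXge (Ix P n) S hS N hN0 hNS B F hBsml
    (Real.log P + 1) (by positivity) hNC α hαF hT
  obtain ⟨b, hb⟩ : ∃ b : ℕ, b = if clA U e k then p - 1 else 1 := ⟨_, rfl⟩
  rw [← hb]
  have hcA : clA U e k ↔ Sml U X (fun j => Real.exp ((k j - e j 0 : ℕ) : ℝ)) := by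
    rw [hXdef]; rfl
  have hI : ∀ i, clI U e i ↔ Sml U X (fun j => Real.exp ((e j i - e j 0 : ℕ) : ℝ)) := by
    intro i
    rw [hXdef]; rfl
  -- membership
  have hT3 : ∀ x, x ∈ T ↔ x ∈ F ∧ ((x.1.1 : ℕ) + (x.1.2 : ℕ) + 2 = p) ∧ clI U e x.2 ∧
      (x.1.2 : ℕ) < b := by
    intro x
    rw [hT1]
    have h02 : ∀ᶠ j in (U : Filter ℕ), e j 0 + Sj j ≤ e j x.2 + Sj j := by
      filter_upwards [hle0] with j hj
      have := hj x.2
      omega
    constructor
    · rintro ⟨hxF, h⟩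
      refine ⟨hxF, ?_⟩
      simp only [hN, hmα, hnα, hα2, one_pow, mul_one] at h
      obtain ⟨h1, h2, h3⟩ := cl_fwdG U hD.le p (m x) (nn x) hp (hm2 x) (hn1 x) (hnm x)
        (fun j => e j 0) (fun j => e j 0 + Sj j)
        (fun j => e j x.2 + Sj j) (fun j => k j - e j x.2) hD.e0
        (Eventually.of_forall fun j => Nat.le_add_right _ _) h02 (by
          rw [← hXdef]; exact h)
      rw [← hXdef] at h2 h3
      simp only [Nat.add_sub_add_right] at h2
      rw [hm] at h1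
      refine ⟨h1, (hI _).mpr h2, ?_⟩
      rw [hb]
      split_ifs with hc
      · omega
      · rcases h3 with h3 | h3
        · rw [hnn] at h3
          omega
        · exfalso
          apply hc
          rw [hcA]
          refine (Sml.mul hX1 h3 h2 (fun j => Real.exp_nonneg _)).mono ?_
          filter_upwards [hle0, hD.ek] with j e1 e2
          rw [← Real.exp_add, Real.exp_le_exp]
          have e3 := e2 x.2
          have e4 := e1 x.2
          have e5 : k j - e j 0 = (k j - e j x.2) + (e j x.2 - e j 0) := by omega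
          rw [e5]
          push_cast
          exact le_rfl
    · rintro ⟨hxF, h1, h2, h3⟩
      refine ⟨hxF, ?_⟩
      simp only [hN, hmα, hnα, hα2, one_pow, mul_one]
      have hmx : m x = p := by rw [hm]; exact h1
      rw [hmx]
      have h4 := cl_bwdG U p (nn x) hp (hn1 x) (fun j => e j 0) (fun j => e j 0 + Sj j)
        (fun j => e j x.2 + Sj j) (fun j => k j - e j x.2) h02 (by
          rw [← hXdef]
          simp only [Nat.add_sub_add_right]
          exact (hI _).mp h2) (by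
          rw [← hXdef]
          by_cases hc : clA U e k
          · right
            refine (hcA.mp hc).mono ?_
            filter_upwards [hle0] with j e1
            rw [Real.exp_le_exp]
            have e2 := e1 x.2
            have : k j - e j x.2 ≤ k j - e j 0 := by omega
            exact_mod_cast this
          · left
            rw [hb, if_neg hc] at h3
            rw [hnn]
            omega)
      rw [← hXdef] at h4
      exact h4
  -- all members occur
  have hocc : ∀ i : Fin (n + 1), ∀ y, clI U e i → y < b → ∃ x ∈ F,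
      ((x.1.1 : ℕ) + (x.1.2 : ℕ) + 2 = p) ∧ x.2 = i ∧ (x.1.2 : ℕ) = y := by
    intro i y hi hy
    have hyp : y + 1 < p := by
      rw [hb] at hy
      split_ifs at hy
      · omega
      · omega
    refine ⟨((⟨p - 2 - y, by omega⟩, ⟨y, by omega⟩), i), ?_, ?_, rfl, rfl⟩
    · have hs1 := (hI i).mp hi 1 one_pos
      have hs2 : ∀ᶠ j in (U : Filter ℕ), clA U e k → k j - e j 0 ≤ e j 0 := by
        by_cases hc : clA U e k
        · have h1 := hcA.mp hc 1 one_pos
          filter_upwards [h1] with j hj _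
          rw [Real.rpow_one, hXj, Real.exp_le_exp] at hj
          exact_mod_cast hj
        · exact Eventually.of_forall fun j h => absurd h hc
      obtain ⟨j, ⟨h1, h2⟩, h3, h4, h5⟩ := ((hs1.and hs2).and (hF.and (hle0.and hD.ek))).exists
      rw [← h3]
      unfold FI
      rw [Finset.mem_filter]
      refine ⟨Finset.mem_univ _, ?_⟩
      rw [Real.rpow_one, hXj, Real.exp_le_exp] at h1
      have h1' : e j i - e j 0 ≤ e j 0 := by exact_mod_cast h1
      have h4' := h4 i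
      have h5' := h5 i
      show (p - 2 - y + y + 2) ^ (e j i) * (y + 1) ^ (k j - e j i) ≤ P ^ (e j 0)
      rw [show p - 2 - y + y + 2 = p by omega]
      have hfin : p ^ (2 * e j 0) ≤ P ^ (e j 0) := by
        rw [pow_mul, hP]
      refine le_trans ?_ hfin
      by_cases hc : clA U e k
      · have h6 := h2 hc
        calc p ^ e j i * (y + 1) ^ (k j - e j i) ≤ p ^ e j i * p ^ (k j - e j i) :=
              Nat.mul_le_mul_left _ (Nat.pow_le_pow_left (by omega) _)
          _ = p ^ (k j) := by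
              rw [← pow_add]
              congr 1
              omega
          _ ≤ _ := Nat.pow_le_pow_right (by omega) (by omega)
      · rw [hb, if_neg hc] at hy
        have hy0 : y = 0 := by omega
        rw [hy0, zero_add, one_pow, mul_one]
        exact Nat.pow_le_pow_right (by omega) (by omega)
    · show p - 2 - y + y + 2 = p
      omega
  -- the system
  filter_upwards [hT2, hBN] with j hj hBj
  refine Eq.trans ?_ hj
  have h1 : ∑ x ∈ T, (B j x : ℝ) / (N j x : ℝ) = ∑ x ∈ T,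
      ∑ r ∈ (W j).filter (fun r => q j r = x.2),
        (c j r : ℝ) * (1 / ((p : ℝ) ^ r * (((x.1.2 : ℕ) : ℝ) + 1) ^ (k j - r))) := by
    refine Finset.sum_congr rfl fun x hx => ?_
    have hx' := (hT3 x).mp hx
    rw [hBj x hx'.1]
    refine Finset.sum_congr rfl fun r _ => ?_
    unfold ND
    simp only [hx'.2.1]
    push_cast
    rw [div_eq_mul_one_div]
  rw [h1]
  have h2 : ∑ x ∈ T, ∑ r ∈ (W j).filter (fun r => q j r = x.2),
        (c j r : ℝ) * (1 / ((p : ℝ) ^ r * (((x.1.2 : ℕ) : ℝ) + 1) ^ (k j - r))) =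
      ∑ x ∈ (Finset.univ.filter (fun i : Fin (n + 1) => clI U e i)) ×ˢ range b,
        ∑ r ∈ (W j).filter (fun r => q j r = x.1),
          (c j r : ℝ) * (1 / ((p : ℝ) ^ r * ((x.2 : ℝ) + 1) ^ (k j - r))) := by
    refine Finset.sum_nbij (fun x : Ix P n => (x.2, (x.1.2 : ℕ))) ?_ ?_ ?_ ?_
    · intro x hx
      rw [hT3] at hx
      rw [Finset.mem_product, Finset.mem_filter, Finset.mem_range]
      exact ⟨⟨Finset.mem_univ _, hx.2.2.1⟩, hx.2.2.2⟩
    · intro x hx y hy hxy
      have hx' := (hT3 x).mp hx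
      have hy' := (hT3 y).mp hy
      simp only [Prod.mk.injEq] at hxy
      apply Prod.ext
      · apply Prod.ext
        · apply Fin.ext; omega
        · apply Fin.ext; exact hxy.2
      · exact hxy.1
    · rintro ⟨i, y⟩ hiy
      rw [Finset.mem_coe, Finset.mem_product, Finset.mem_filter, Finset.mem_range] at hiy
      obtain ⟨x, hxF, h2, h3, h4⟩ := hocc i y hiy.1.2 hiy.2
      refine ⟨x, ?_, ?_⟩
      · rw [Finset.mem_coe, hT3]
        refine ⟨hxF, h2, ?_, ?_⟩
        · rw [h3]; exact hiy.1.2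
        · rw [h4]; exact hiy.2
      · simp only [h3, h4]
    · intro x hx
      rfl
  rw [h2, Finset.sum_product]
  have h3 : ∀ i, ∑ y ∈ range b, ∑ r ∈ (W j).filter (fun r => q j r = i),
      (c j r : ℝ) * (1 / ((p : ℝ) ^ r * ((y : ℝ) + 1) ^ (k j - r))) =
      ∑ r ∈ (W j).filter (fun r => q j r = i), (c j r : ℝ) * ff p r (k j - r) b := by
    intro i
    rw [Finset.sum_comm]
    refine Finset.sum_congr rfl fun r _ => ?_
    unfold ff
    rw [Finset.mul_sum]
  simp only [h3]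
  have h4 : ∀ r ∈ (W j).filter (fun r => clI U e (q j r)),
      q j r ∈ Finset.univ.filter (fun i : Fin (n + 1) => clI U e i) := by
    intro r hr
    rw [Finset.mem_filter] at hr ⊢
    exact ⟨Finset.mem_univ _, hr.2⟩
  rw [← Finset.sum_fiberwise_of_maps_to h4]
  refine Finset.sum_congr rfl fun i hi => ?_
  rw [Finset.mem_filter] at hi
  refine Finset.sum_congr ?_ fun _ _ => rfl
  ext r
  simp only [Finset.mem_filter]
  constructor
  · rintro ⟨⟨h5, h6⟩, h7⟩
    exact ⟨h5, h7⟩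
  · rintro ⟨h5, h7⟩
    exact ⟨⟨h5, by rw [h7]; exact hi.2⟩, h7⟩

end Pool.Agent.Helper27.SUB
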