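import Pool.Agent.Helper27.SUB.T5

/-!
Relations between double zeta values supported in few windows: essential changes of sign.
-/

set_option autoImplicit false

namespace Pool.Agent.Helper27.SUB

open Finset Filter Pool.Agent.Helper70.SUB

/-- widely spaced primes -/
theorem primes2 (L s0 : ℕ) : ∃ pl : ℕ → ℕ, (∀ l, (pl l).Prime) ∧ (∀ l, s0 ≤ pl l) ∧
    ∀ l l', l < l' → L * (pl l) ^ 4 ≤ pl l' := by
  have h : ∀ x : ℕ, ∃ q, L * x ^ 4 + x ≤ q ∧ q.Prime := fun x => Nat.exists_infinite_primes _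
  choose nx hnx hnp using h
  obtain ⟨pl, hpl⟩ : ∃ pl : ℕ → ℕ, pl 0 = nx s0 ∧ ∀ l, pl (l + 1) = nx (pl l) :=
    ⟨fun l => Nat.rec (nx s0) (fun _ x => nx x) l, rfl, fun _ => rfl⟩
  refine ⟨pl, ?_, ?_, ?_⟩
  · intro l
    cases l with
    | zero => rw [hpl.1]; exact hnp _
    | succ l => rw [hpl.2]; exact hnp _
  · intro l
    induction l with
    | zero =>
      rw [hpl.1]
      have := hnx s0
      omega
    | succ l ih =>
      rw [hpl.2]
      have := hnx (pl l)
      omega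
  · intro l l' hll'
    induction l' with
    | zero => omega
    | succ m ih =>
      have h1 := hnx (pl m)
      rw [hpl.2]
      rcases Nat.lt_or_ge l m with h2 | h2
      · have := ih h2
        omega
      · have : l = m := by omega
        subst this
        omega

theorem geo_shift (x : ℝ) (hx : 0 ≤ x) (hx1 : x < 1) (T : Finset ℕ) (r' : ℕ)
    (hT : ∀ r ∈ T, r' < r) : ∑ r ∈ T, x ^ (r - r') ≤ x * (1 - x)⁻¹ := by
  classical
  have h1 : ∑ r ∈ T, x ^ (r - r') = x * ∑ s ∈ T.image (fun r => r - r' - 1), x ^ s := by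
    rw [Finset.sum_image, Finset.mul_sum]
    · refine Finset.sum_congr rfl fun r hr => ?_
      have := hT r hr
      rw [← pow_succ']
      congr 1
      omega
    · intro r hr s hs h
      have e1 := hT r hr
      have e2 := hT s hs
      simp only at h
      omega
  rw [h1]
  exact mul_le_mul_of_nonneg_left (sum_geo x hx hx1 _) hx

/-- dominated terms are small -/
theorem dom (t p k b : ℕ) (N Ps : Finset ℕ) (c : ℕ → ℤ) (hp2 : 2 ≤ p) (hp : 64 * t ^ 2 ≤ p)
    (hb1 : 1 ≤ b) (hbp : b ≤ p) (hk : ∀ r ∈ N, r < k)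
    (h : ∀ r ∈ N, ∃ r' ∈ Ps, r' < r ∧ |c r| ≤ (t : ℤ) ^ (r - r') * |c r'|) :
    ∑ r ∈ N, |(c r : ℝ)| * ff p r (k - r) b ≤
      1 / 2 * ∑ r ∈ Ps, |(c r : ℝ)| * ff p r (k - r) b := by
  classical
  have hpr2 : (2 : ℝ) ≤ p := by exact_mod_cast hp2
  have hp0 : (0 : ℝ) < p := by linarith
  obtain ⟨q, hq⟩ : ∃ q, q = Real.sqrt p := ⟨_, rfl⟩
  have hqq : q * q = p := by rw [hq]; exact Real.mul_self_sqrt hp0.le
  have hq0 : 0 ≤ q := by rw [hq]; exact Real.sqrt_nonneg _
  have hq1 : 0 < q := by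
    rcases hq0.lt_or_eq with h1 | h1
    · exact h1
    · rw [← h1] at hqq
      linarith
  have hqt : 8 * (t : ℝ) ≤ q := by
    have h1 : (8 * (t : ℝ)) ^ 2 ≤ q ^ 2 := by
      rw [sq q, hqq]
      have h2 : ((64 * t ^ 2 : ℕ) : ℝ) ≤ p := by exact_mod_cast hp
      push_cast at h2
      linarith
    exact (pow_le_pow_iff_left₀ (by positivity) hq0 (by norm_num)).mp h1
  obtain ⟨x, hx⟩ : ∃ x : ℝ, x = (t : ℝ) / p := ⟨_, rfl⟩
  have ht0 : (0 : ℝ) ≤ t := Nat.cast_nonneg t
  have hx0 : 0 ≤ x := by rw [hx]; positivity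
  have hx2 : x ≤ 1 / 2 := by
    rw [hx, div_le_div_iff₀ hp0 (by norm_num)]
    have h1 : (t : ℝ) ≤ t ^ 2 := by
      rcases Nat.eq_zero_or_pos t with h2 | h2
      · rw [h2]; simp
      · have h3 : (1 : ℝ) ≤ t := by exact_mod_cast h2
        nlinarith
    have h2 : ((64 * t ^ 2 : ℕ) : ℝ) ≤ p := by exact_mod_cast hp
    push_cast at h2
    nlinarith
  have hx1 : x < 1 := by linarith
  have hΘ : (2 * q) * (x * (1 - x)⁻¹) ≤ 1 / 2 := by
    have h1 : (1 - x)⁻¹ ≤ 2 := by
      rw [inv_le_comm₀ (by linarith) (by norm_num)]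
      linarith
    have h2 : (2 * q) * (x * (1 - x)⁻¹) ≤ (2 * q) * (x * 2) :=
      mul_le_mul_of_nonneg_left (mul_le_mul_of_nonneg_left h1 hx0) (by positivity)
    have h3 : (2 * q) * (x * 2) = 4 * t / q := by
      rw [hx, ← hqq]
      field_simp
      ring
    have h4 : 4 * (t : ℝ) / q ≤ 1 / 2 := by
      rw [div_le_iff₀ hq1]
      linarith
    linarith
  have hterm : ∀ r ∈ N, |(c r : ℝ)| * ff p r (k - r) b ≤
      ∑ r' ∈ Ps.filter (fun r' => r' < r), (|(c r' : ℝ)| * ff p r' (k - r') b) *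
        ((2 * q) * x ^ (r - r')) := by
    intro r hr
    obtain ⟨r', hr', hlt, hle⟩ := h r hr
    have hkr := hk r hr
    have h1 : |(c r : ℝ)| * ff p r (k - r) b ≤ (|(c r' : ℝ)| * ff p r' (k - r') b) *
        ((2 * q) * x ^ (r - r')) := by
      have h2 : |(c r : ℝ)| ≤ (t : ℝ) ^ (r - r') * |(c r' : ℝ)| := by exact_mod_cast hle
      have h3 : ff p r (k - r) b ≤ 2 * q / (p : ℝ) ^ r := by
        rw [ff_eq, hq]
        exact div_le_div_of_nonneg_right (hs_le (k - r) b p (by omega) hbp) (by positivity)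
      have h4 : 1 / (p : ℝ) ^ r' ≤ ff p r' (k - r') b := by
        rw [ff_eq]
        exact div_le_div_of_nonneg_right (hs_ge _ b hb1) (by positivity)
      have h5 : (p : ℝ) ^ r = (p : ℝ) ^ r' * (p : ℝ) ^ (r - r') := by
        rw [← pow_add]
        congr 1
        omega
      calc |(c r : ℝ)| * ff p r (k - r) b ≤
            ((t : ℝ) ^ (r - r') * |(c r' : ℝ)|) * (2 * q / (p : ℝ) ^ r) :=
            mul_le_mul h2 h3 (ff_pos _ _ _ _ (by omega) hb1).le (by positivity)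
        _ = (|(c r' : ℝ)| * (1 / (p : ℝ) ^ r')) * ((2 * q) * x ^ (r - r')) := by
            rw [h5, hx, div_pow]
            field_simp
        _ ≤ _ := by
            refine mul_le_mul_of_nonneg_right ?_ (by positivity)
            exact mul_le_mul_of_nonneg_left h4 (abs_nonneg _)
    refine h1.trans (Finset.single_le_sum (f := fun r' => (|(c r' : ℝ)| * ff p r' (k - r') b) *
        ((2 * q) * x ^ (r - r'))) (fun s _ => ?_) (Finset.mem_filter.mpr ⟨hr', hlt⟩))
    have := ff_pos p s (k - s) b (by omega) hb1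
    positivity
  calc ∑ r ∈ N, |(c r : ℝ)| * ff p r (k - r) b ≤ ∑ r ∈ N, ∑ r' ∈ Ps.filter (fun r' => r' < r),
        (|(c r' : ℝ)| * ff p r' (k - r') b) * ((2 * q) * x ^ (r - r')) :=
        Finset.sum_le_sum hterm
    _ = ∑ r' ∈ Ps, ∑ r ∈ N.filter (fun r => r' < r),
        (|(c r' : ℝ)| * ff p r' (k - r') b) * ((2 * q) * x ^ (r - r')) := by
        refine Finset.sum_comm' fun r r' => ?_
        simp only [Finset.mem_filter]
        tauto
    _ ≤ ∑ r' ∈ Ps, (|(c r' : ℝ)| * ff p r' (k - r') b) * (1 / 2) := by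
        refine Finset.sum_le_sum fun r' _ => ?_
        have h1 : ∑ r ∈ N.filter (fun r => r' < r),
            (|(c r' : ℝ)| * ff p r' (k - r') b) * ((2 * q) * x ^ (r - r')) =
            (|(c r' : ℝ)| * ff p r' (k - r') b) * ((2 * q) *
              ∑ r ∈ N.filter (fun r => r' < r), x ^ (r - r')) := by
          rw [Finset.mul_sum, Finset.mul_sum]
        rw [h1]
        have h2 := ff_pos p r' (k - r') b (by omega) hb1
        refine mul_le_mul_of_nonneg_left ?_ (by positivity)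
        refine le_trans (mul_le_mul_of_nonneg_left (geo_shift x hx0 hx1 _ r' (fun r hr =>
          (Finset.mem_filter.mp hr).2)) (by positivity)) hΘ
    _ = _ := by rw [← Finset.sum_mul, mul_comm]

/-- few essential changes of sign -/
theorem signs2 (t k : ℕ) (V : Finset ℕ) (c : ℕ → ℤ) (g : ℕ → ℕ) (pl b : ℕ → ℕ)
    (hV : V.Nonempty) (hk : ∀ r ∈ V, r < k) (hc : ∀ r ∈ V, c r ≠ 0)
    (hg : ∀ r ∈ V, g r ≤ t ∧ (∀ r' ∈ V, r ≤ r' → g r ≤ g r') ∧
      (0 < (-1) ^ (g r) * c r ∨ ∃ r' ∈ V, r' < r ∧ g r' = g r ∧ 0 < (-1) ^ (g r) * c r' ∧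
        |c r| ≤ (t : ℤ) ^ (r - r') * |c r'|))
    (hpl : ∀ l, 2 ≤ pl l) (hpl64 : ∀ l, 64 * t ^ 2 ≤ pl l)
    (hplL : ∀ l l', l < l' → 16 * (8 * t + 8) ^ 2 * (pl l) ^ 4 ≤ pl l')
    (hb1 : ∀ l, 1 ≤ b l) (hbp : ∀ l, b l ≤ pl l)
    (hsys : ∀ l ≤ t, ∑ r ∈ V, (c r : ℝ) * ff (pl l) r (k - r) (b l) = 0) : False := by
  classical
  obtain ⟨Vals, hVals⟩ : ∃ Vals : Finset ℕ, Vals = V.image g := ⟨_, rfl⟩
  have hVne : Vals.Nonempty := by rw [hVals]; exact hV.image g
  obtain ⟨n', hn'⟩ : ∃ n', Vals.card = n' + 1 := ⟨Vals.card - 1, by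
    have := Finset.card_pos.mpr hVne
    omega⟩
  have hn't : n' ≤ t := by
    have h1 : Vals ⊆ range (t + 1) := by
      intro x hx
      rw [hVals, Finset.mem_image] at hx
      obtain ⟨r, hr, rfl⟩ := hx
      rw [Finset.mem_range]
      have := (hg r hr).1
      omega
    have h2 := Finset.card_le_card h1
    rw [Finset.card_range] at h2
    omega
  obtain ⟨v, hv⟩ : ∃ v : ℕ → ℕ, ∀ (i : ℕ) (hi : i < n' + 1),
      v i = Vals.orderEmbOfFin hn' ⟨i, hi⟩ := by
    refine ⟨fun i => if hi : i < n' + 1 then Vals.orderEmbOfFin hn' ⟨i, hi⟩ else 0, ?_⟩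
    intro i hi
    simp only [hi, dif_pos]
  have hvmem : ∀ i ≤ n', v i ∈ Vals := by
    intro i hi
    rw [hv i (by omega)]
    exact Finset.orderEmbOfFin_mem _ _ _
  have hvmono : ∀ i i', i < i' → i' ≤ n' → v i < v i' := by
    intro i i' h h'
    rw [hv i (by omega), hv i' (by omega)]
    apply (Vals.orderEmbOfFin hn').strictMono
    exact h
  have hvsurj : ∀ r ∈ V, ∃ i ≤ n', v i = g r := by
    intro r hr
    have h1 : g r ∈ Set.range (Vals.orderEmbOfFin hn') := by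
      rw [Finset.range_orderEmbOfFin, hVals]
      exact Finset.mem_coe.mpr (Finset.mem_image_of_mem _ hr)
    obtain ⟨i, hi⟩ := h1
    refine ⟨i, by omega, ?_⟩
    rw [hv i i.2]
    exact hi
  obtain ⟨Vb, hVb⟩ : ∃ Vb : ℕ → Finset ℕ, ∀ i, Vb i = V.filter (fun r => g r = v i) :=
    ⟨_, fun _ => rfl⟩
  have hVbne : ∀ i ≤ n', (Vb i).Nonempty := by
    intro i hi
    have h1 := hvmem i hi
    rw [hVals, Finset.mem_image] at h1
    obtain ⟨r, hr, hrv⟩ := h1
    exact ⟨r, by rw [hVb, Finset.mem_filter]; exact ⟨hr, hrv⟩⟩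
  have hVbV : ∀ i, ∀ r ∈ Vb i, r ∈ V ∧ g r = v i := by
    intro i r hr
    rw [hVb, Finset.mem_filter] at hr
    exact hr
  have hffp : ∀ l r, 0 < ff (pl l) r (k - r) (b l) := fun l r =>
    ff_pos _ _ _ _ (by have := hpl l; omega) (hb1 l)
  obtain ⟨Ps, hPs⟩ : ∃ Ps : ℕ → Finset ℕ, ∀ i, Ps i =
      (Vb i).filter (fun r => 0 < (-1) ^ (v i) * c r) := ⟨_, fun _ => rfl⟩
  obtain ⟨Ng, hNg⟩ : ∃ Ng : ℕ → Finset ℕ, ∀ i, Ng i =
      (Vb i).filter (fun r => ¬ 0 < (-1) ^ (v i) * c r) := ⟨_, fun _ => rfl⟩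
  obtain ⟨PP, hPP⟩ : ∃ PP : ℕ → ℕ → ℝ, ∀ i l, PP i l =
      ∑ r ∈ Ps i, |(c r : ℝ)| * ff (pl l) r (k - r) (b l) := ⟨_, fun _ _ => rfl⟩
  obtain ⟨NN, hNN⟩ : ∃ NN : ℕ → ℕ → ℝ, ∀ i l, NN i l =
      ∑ r ∈ Ng i, |(c r : ℝ)| * ff (pl l) r (k - r) (b l) := ⟨_, fun _ _ => rfl⟩
  have hPsne : ∀ i ≤ n', (Ps i).Nonempty := by
    intro i hi
    obtain ⟨r, hr⟩ := hVbne i hi
    obtain ⟨h1, h2⟩ := hVbV i r hr
    rcases (hg r h1).2.2 with h3 | ⟨r', h3, -, h5, h6, -⟩
    · refine ⟨r, ?_⟩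
      rw [hPs, Finset.mem_filter]
      rw [h2] at h3
      exact ⟨hr, h3⟩
    · refine ⟨r', ?_⟩
      rw [hPs, Finset.mem_filter, hVb, Finset.mem_filter]
      rw [h2] at h6 h5
      exact ⟨⟨h3, h5⟩, h6⟩
  have hPsV : ∀ i, ∀ r ∈ Ps i, r ∈ V ∧ g r = v i ∧ 0 < (-1) ^ (v i) * c r := by
    intro i r hr
    rw [hPs, Finset.mem_filter] at hr
    obtain ⟨h1, h2⟩ := hVbV i r hr.1
    exact ⟨h1, h2, hr.2⟩
  have hNgV : ∀ i, ∀ r ∈ Ng i, r ∈ V ∧ g r = v i ∧ ¬ 0 < (-1) ^ (v i) * c r := by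
    intro i r hr
    rw [hNg, Finset.mem_filter] at hr
    obtain ⟨h1, h2⟩ := hVbV i r hr.1
    exact ⟨h1, h2, hr.2⟩
  have hPPpos : ∀ i ≤ n', ∀ l, 0 < PP i l := by
    intro i hi l
    rw [hPP]
    refine Finset.sum_pos (fun r hr => ?_) (hPsne i hi)
    have h1 : (c r : ℝ) ≠ 0 := by exact_mod_cast hc r (hPsV i r hr).1
    exact mul_pos (abs_pos.mpr h1) (hffp l r)
  have hNN0 : ∀ i l, 0 ≤ NN i l := by
    intro i l
    rw [hNN]
    exact Finset.sum_nonneg fun r _ => mul_nonneg (abs_nonneg _) (hffp l r).le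
  have hNNle : ∀ i l, NN i l ≤ 1 / 2 * PP i l := by
    intro i l
    rw [hNN, hPP]
    refine dom t (pl l) k (b l) (Ng i) (Ps i) c (hpl l) (hpl64 l) (hb1 l) (hbp l)
      (fun r hr => hk r (hNgV i r hr).1) (fun r hr => ?_)
    obtain ⟨h1, h2, h3⟩ := hNgV i r hr
    rcases (hg r h1).2.2 with h4 | ⟨r', h4, h5, h6, h7, h8⟩
    · rw [h2] at h4
      exact absurd h4 h3
    · refine ⟨r', ?_, h5, h8⟩
      rw [hPs, Finset.mem_filter, hVb, Finset.mem_filter]
      rw [h2] at h6 h7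
      exact ⟨⟨h4, h6⟩, h7⟩
  have hPPcond : ∀ i i' l l', i < i' → i' ≤ n' → l < l' →
      ((8 * t + 8 : ℕ) : ℝ) * (PP i l * PP i' l') ≤ PP i l' * PP i' l := by
    intro i i' l l' hii' hi' hll'
    rw [hPP, hPP, hPP, hPP, Finset.sum_mul_sum, Finset.sum_mul_sum, Finset.mul_sum]
    refine Finset.sum_le_sum fun r hr => ?_
    rw [Finset.mul_sum]
    refine Finset.sum_le_sum fun r' hr' => ?_
    obtain ⟨h1, h2, -⟩ := hPsV i r hr
    obtain ⟨h1', h2', -⟩ := hPsV i' r' hr'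
    have h3 : r < r' := by
      by_contra hcon
      have h4 := (hg r' h1').2.1 r h1 (not_lt.mp hcon)
      have h5 := hvmono i i' hii' hi'
      omega
    have h4 := hk r h1
    have h4' := hk r' h1'
    have h5 := ff_cond (8 * t + 8) (pl l) (pl l') r r' (k - r) (k - r') (b l) (b l') (b l') (b l)
      (hpl l) (hplL l l' hll') h3 (by omega) (by omega) (hbp l) (hbp l') (hb1 l') (hb1 l)
      (k - r) (k - r')
    have h6 : 0 ≤ |(c r : ℝ)| * |(c r' : ℝ)| := by positivity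
    calc ((8 * t + 8 : ℕ) : ℝ) * (|(c r : ℝ)| * ff (pl l) r (k - r) (b l) *
          (|(c r' : ℝ)| * ff (pl l') r' (k - r') (b l')))
        = |(c r : ℝ)| * |(c r' : ℝ)| * (((8 * t + 8 : ℕ) : ℝ) *
          (ff (pl l) r (k - r) (b l) * ff (pl l') r' (k - r') (b l'))) := by ring
      _ ≤ |(c r : ℝ)| * |(c r' : ℝ)| *
          (ff (pl l') r (k - r) (b l') * ff (pl l) r' (k - r') (b l)) :=
          mul_le_mul_of_nonneg_left h5 h6
      _ = _ := by ring
  have hnons := nons n' ((2 * t + 2 : ℕ) : ℝ) (fun i l => PP i l - NN i l)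
    (fun i => (-1 : ℝ) ^ (v i))
    (by
      push_cast
      have : (n' : ℝ) ≤ t := by exact_mod_cast hn't
      linarith)
    (by
      intro i hi l _
      have h1 := hPPpos i hi l
      have h2 := hNNle i l
      show 0 < PP i l - NN i l
      linarith)
    (by
      intro i i' l l' hii' hi' hll' _
      have h0 := hPPcond i i' l l' hii' hi' hll'
      have a1 := hPPpos i (by omega) l
      have a2 := hPPpos i' hi' l'
      have a3 := hPPpos i (by omega) l'
      have a4 := hPPpos i' hi' l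
      have b1 := hNNle i l
      have b2 := hNNle i' l'
      have b3 := hNNle i l'
      have b4 := hNNle i' l
      have c1 := hNN0 i l
      have c2 := hNN0 i' l'
      show ((2 * t + 2 : ℕ) : ℝ) * ((PP i l - NN i l) * (PP i' l' - NN i' l')) ≤
        (PP i l' - NN i l') * (PP i' l - NN i' l)
      have d1 : (PP i l - NN i l) * (PP i' l' - NN i' l') ≤ PP i l * PP i' l' :=
        mul_le_mul (by linarith) (by linarith) (by linarith) a1.le
      have d2 : (1 / 2 * PP i l') * (1 / 2 * PP i' l) ≤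
          (PP i l' - NN i l') * (PP i' l - NN i' l) :=
        mul_le_mul (by linarith) (by linarith) (by positivity) (by linarith)
      calc ((2 * t + 2 : ℕ) : ℝ) * ((PP i l - NN i l) * (PP i' l' - NN i' l')) ≤
            ((2 * t + 2 : ℕ) : ℝ) * (PP i l * PP i' l') :=
            mul_le_mul_of_nonneg_left d1 (Nat.cast_nonneg _)
        _ = 1 / 4 * (((8 * t + 8 : ℕ) : ℝ) * (PP i l * PP i' l')) := by
            push_cast
            ring
        _ ≤ 1 / 4 * (PP i l' * PP i' l) := mul_le_mul_of_nonneg_left h0 (by norm_num)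
        _ = (1 / 2 * PP i l') * (1 / 2 * PP i' l) := by ring
        _ ≤ _ := d2)
    (by
      intro l hl
      rw [← hsys l (by omega)]
      have h1 : ∀ r ∈ V, ∃ i ∈ range (n' + 1), v i = g r := by
        intro r hr
        obtain ⟨i, hi, hiv⟩ := hvsurj r hr
        exact ⟨i, Finset.mem_range.mpr (by omega), hiv⟩
      have h2 : ∑ i ∈ range (n' + 1), (-1 : ℝ) ^ (v i) * (PP i l - NN i l) =
          ∑ i ∈ range (n' + 1), ∑ r ∈ Vb i, (c r : ℝ) * ff (pl l) r (k - r) (b l) := by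
        refine Finset.sum_congr rfl fun i _ => ?_
        rw [← Finset.sum_filter_add_sum_filter_not (Vb i) (fun r => 0 < (-1) ^ (v i) * c r),
          ← hPs, ← hNg, mul_sub, sub_eq_add_neg, hPP, hNN, Finset.mul_sum, Finset.mul_sum,
          ← Finset.sum_neg_distrib]
        congr 1
        · refine Finset.sum_congr rfl fun r hr => ?_
          obtain ⟨-, -, h3⟩ := hPsV i r hr
          have h6 : (0 : ℝ) < (-1) ^ (v i) * (c r : ℝ) := by exact_mod_cast h3
          rw [← mul_assoc]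
          congr 1
          rcases neg_one_pow_eq_or ℝ (v i) with h7 | h7
          · rw [h7, one_mul] at h6 ⊢
            exact abs_of_pos h6
          · rw [h7] at h6 ⊢
            rw [abs_of_neg (by linarith)]
            ring
        · refine Finset.sum_congr rfl fun r hr => ?_
          obtain ⟨-, -, h3⟩ := hNgV i r hr
          have h5 : (-1) ^ (v i) * c r ≤ 0 := not_lt.mp h3
          have h6 : (-1) ^ (v i) * (c r : ℝ) ≤ (0 : ℝ) := by exact_mod_cast h5
          rw [← mul_assoc, ← neg_mul]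
          congr 1
          rcases neg_one_pow_eq_or ℝ (v i) with h7 | h7
          · rw [h7, one_mul] at h6 ⊢
            rw [abs_of_nonpos h6]
            ring
          · rw [h7] at h6 ⊢
            rw [abs_of_nonneg (by linarith)]
            ring
      rw [h2]
      choose! φ hφ1 hφ2 using h1
      rw [← Finset.sum_fiberwise_of_maps_to hφ1]
      refine Finset.sum_congr rfl fun i hi => ?_
      rw [Finset.mem_range] at hi
      refine Finset.sum_congr ?_ fun _ _ => rfl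
      ext r
      rw [hVb]
      simp only [Finset.mem_filter]
      constructor
      · rintro ⟨h3, h4⟩
        refine ⟨h3, ?_⟩
        have h5 := hφ1 r h3
        rw [Finset.mem_range] at h5
        rw [← hφ2 r h3] at h4
        by_contra hne
        rcases lt_or_gt_of_ne hne with h6 | h6
        · have := hvmono _ _ h6 (by omega)
          omega
        · have := hvmono _ _ h6 (by omega)
          omega
      · rintro ⟨h3, h4⟩
        refine ⟨h3, ?_⟩
        rw [← h4, hφ2 r h3])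
    0 (Nat.zero_le _)
  have h1 : ((-1 : ℝ)) ^ (v 0) ≠ 0 := pow_ne_zero _ (by norm_num)
  exact h1 hnons

/-- the main theorem -/
theorem T6 (hAV : ST_AV) (hSUBT : ST_SUBT) (t : ℕ) : ∃ (ε : ℝ) (R : ℕ), 0 < ε ∧
    ∀ (k : ℕ) (W E : Finset ℕ) (c : ℕ → ℤ) (c0 : ℤ), 2 ≤ k → E ⊆ W → E.card ≤ t →
    (∀ r ∈ W, R ≤ r ∧ r < k ∧ c r ≠ 0 ∧ |(c r : ℝ)| ≤ Real.exp (ε * r) ∧
      ∃ e ∈ E, e ≤ r ∧ (r : ℝ) ≤ (1 + ε) * e) →
    (∃ g : ℕ → ℕ, ∀ r ∈ W, g r ≤ t ∧ (∀ r' ∈ W, r ≤ r' → g r ≤ g r') ∧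
      (0 < (-1) ^ (g r) * c r ∨ ∃ r' ∈ W, r' < r ∧ g r' = g r ∧ 0 < (-1) ^ (g r) * c r' ∧
        |c r| ≤ (t : ℤ) ^ (r - r') * |c r'|)) →
    ∑ r ∈ W, (c r : ℝ) * dz r (k - r) = c0 * ∑' n : ℕ, (1 : ℝ) / ((n + 1 : ℕ) : ℝ) ^ k →
    W = ∅ ∧ c0 = 0 := by
  classical
  by_contra hcon
  push Not at hcon
  have hcon1 := fun j : ℕ => hcon (1 / ((j : ℝ) + 1)) j (by positivity)
  choose k W E c c0 h2 hEW hEcard hW hsgn hrel hnon using hcon1
  have hZ := Z4_nonneg
  -- the constant term vanishes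
  obtain ⟨R1, hR1⟩ : ∃ R1 : ℕ, ∀ j, R1 ≤ j → 4 ≤ j ∧ c0 j = 0 := by
    have hlim : Tendsto (fun j : ℕ => (16 * Z4 * 10) * (9 / 10 : ℝ) ^ j) atTop (nhds 0) := by
      have := (tendsto_pow_atTop_nhds_zero_of_lt_one (r := (9 / 10 : ℝ)) (by norm_num)
        (by norm_num)).const_mul (16 * Z4 * 10)
      simpa using this
    have h1 : ∀ᶠ j : ℕ in atTop, (16 * Z4 * 10) * (9 / 10 : ℝ) ^ j < 1 :=
      hlim.eventually (gt_mem_nhds one_pos)
    obtain ⟨B, hB⟩ := eventually_atTop.mp h1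
    refine ⟨max 4 B, fun j hj => ⟨(le_max_left _ _).trans hj, ?_⟩⟩
    have hj4 : 4 ≤ j := (le_max_left _ _).trans hj
    have hjB : B ≤ j := (le_max_right _ _).trans hj
    by_contra h0
    have hz := zeta_ge_one (k j) (h2 j)
    have h1 : (1 : ℝ) ≤ |(c0 j : ℝ)| := by
      exact_mod_cast Int.one_le_abs h0
    have h3 : (1 : ℝ) ≤ |(c0 j : ℝ) * ∑' n : ℕ, (1 : ℝ) / ((n + 1 : ℕ) : ℝ) ^ (k j)| := by
      rw [abs_mul]
      have h4 : (1 : ℝ) ≤ |∑' n : ℕ, (1 : ℝ) / ((n + 1 : ℕ) : ℝ) ^ (k j)| := hz.trans (le_abs_self _)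
      nlinarith [abs_nonneg (c0 j : ℝ)]
    rw [← hrel j] at h3
    have h5 : |∑ r ∈ W j, (c j r : ℝ) * dz r (k j - r)| ≤
        ∑ r ∈ W j, (16 * Z4) * (9 / 10 : ℝ) ^ j * (9 / 10 : ℝ) ^ r := by
      refine (Finset.abs_sum_le_sum_abs _ _).trans (Finset.sum_le_sum fun r hr => ?_)
      rw [abs_mul]
      obtain ⟨hrj, -, -, h6, -⟩ := hW j r hr
      have h7 : |dz r (k j - r)| ≤ 16 * Z4 / 2 ^ r := by
        rw [abs_of_nonneg (dz_nonneg _ _)]
        exact dz_le r (k j - r) (hj4.trans hrj)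
      have h8 : Real.exp (1 / ((j : ℝ) + 1) * r) ≤ (3 / 2 : ℝ) ^ r := by
        have e1 : Real.exp (1 / ((j : ℝ) + 1) * r) = Real.exp (1 / ((j : ℝ) + 1)) ^ r := by
          rw [← Real.exp_nat_mul, mul_comm]
        rw [e1]
        apply pow_le_pow_left₀ (Real.exp_nonneg _)
        have e2 : Real.exp (1 / ((j : ℝ) + 1)) ≤ Real.exp (1 / 4) := by
          rw [Real.exp_le_exp]
          apply one_div_le_one_div_of_le (by norm_num)
          have : (4 : ℝ) ≤ j := by exact_mod_cast hj4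
          linarith
        refine e2.trans ?_
        have e3 : Real.exp (1 / 4) ^ 4 = Real.exp 1 := by
          rw [← Real.exp_nat_mul]
          congr 1
          norm_num
        have e4 : Real.exp (1 / 4) ^ 4 ≤ (3 / 2 : ℝ) ^ 4 := by
          rw [e3]
          have := Real.exp_one_lt_d9
          norm_num
          linarith
        exact (pow_le_pow_iff_left₀ (Real.exp_nonneg _) (by norm_num) (by norm_num)).mp e4
      calc |(c j r : ℝ)| * |dz r (k j - r)| ≤ (3 / 2 : ℝ) ^ r * (16 * Z4 / 2 ^ r) :=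
            mul_le_mul (h6.trans h8) h7 (abs_nonneg _) (by positivity)
        _ = (16 * Z4) * (3 / 4 : ℝ) ^ r := by
            have e5 : (3 / 4 : ℝ) ^ r = (3 / 2) ^ r / 2 ^ r := by
              rw [← div_pow]
              norm_num
            rw [e5]
            ring
        _ ≤ (16 * Z4) * ((9 / 10 : ℝ) ^ r * (9 / 10 : ℝ) ^ r) := by
            refine mul_le_mul_of_nonneg_left ?_ (by positivity)
            rw [← mul_pow]
            exact pow_le_pow_left₀ (by norm_num) (by norm_num) r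
        _ ≤ (16 * Z4) * ((9 / 10 : ℝ) ^ j * (9 / 10 : ℝ) ^ r) := by
            refine mul_le_mul_of_nonneg_left ?_ (by positivity)
            refine mul_le_mul_of_nonneg_right ?_ (by positivity)
            exact pow_le_pow_of_le_one (by norm_num) (by norm_num) hrj
        _ = _ := by ring
    rw [← Finset.mul_sum] at h5
    have h9 := sum_geo (9 / 10) (by norm_num) (by norm_num) (W j)
    have h10 := hB j hjB
    have h11 : (16 * Z4) * (9 / 10 : ℝ) ^ j * ∑ r ∈ W j, (9 / 10 : ℝ) ^ r ≤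
        (16 * Z4) * (9 / 10 : ℝ) ^ j * 10 := by
      refine mul_le_mul_of_nonneg_left ?_ (by positivity)
      norm_num at h9 ⊢
      exact h9
    linarith
  have hWne : ∀ j, R1 ≤ j → (W j).Nonempty := by
    intro j hj
    rw [Finset.nonempty_iff_ne_empty]
    intro h
    exact hnon j h (hR1 j hj).2
  have hEne : ∀ j, R1 ≤ j → (E j).Nonempty := by
    intro j hj
    obtain ⟨r, hr⟩ := hWne j hj
    obtain ⟨-, -, -, -, e, he, -⟩ := hW j r hr
    exact ⟨e, he⟩
  -- the ultrafilter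
  obtain ⟨U, hU⟩ : ∃ U : Ultrafilter ℕ, (U : Filter ℕ) ≤ atTop :=
    ⟨Ultrafilter.of atTop, Ultrafilter.of_le atTop⟩
  have hUR : ∀ᶠ j in (U : Filter ℕ), R1 ≤ j := hU (eventually_ge_atTop R1)
  obtain ⟨n', hn'⟩ := constU U (fun j => (⟨min (E j).card t, by omega⟩ : Fin (t + 1)))
  have hn'' : ∀ᶠ j in (U : Filter ℕ), (E j).card = (n' : ℕ) := by
    filter_upwards [hn'] with j hj
    have h1 := congrArg (fun x : Fin (t + 1) => (x : ℕ)) hj
    have h3 := hEcard j
    simp only at h1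
    omega
  obtain ⟨n, hn⟩ : ∃ n, (n' : ℕ) = n + 1 := by
    obtain ⟨j, hj, hjn⟩ := (hUR.and hn'').exists
    have h1 := Finset.card_pos.mpr (hEne j hj)
    exact ⟨(n' : ℕ) - 1, by omega⟩
  rw [hn] at hn''
  obtain ⟨e, hedef⟩ : ∃ e : ℕ → Fin (n + 1) → ℕ, ∀ j, ∀ h : (E j).card = n + 1,
      ∀ i, e j i = (E j).orderEmbOfFin h i := by
    refine ⟨fun j => if h : (E j).card = n + 1 then (E j).orderEmbOfFin h else fun _ => 0, ?_⟩
    intro j h i
    simp only [h, dif_pos]
  have hmem : ∀ j, (E j).card = n + 1 → ∀ i, e j i ∈ E j := by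
    intro j hj i
    rw [hedef j hj]
    exact Finset.orderEmbOfFin_mem _ _ _
  have hmono : ∀ j, (E j).card = n + 1 → StrictMono (e j) := by
    intro j hj i i' hii'
    rw [hedef j hj, hedef j hj]
    exact ((E j).orderEmbOfFin hj).strictMono hii'
  have hsurj : ∀ j, (E j).card = n + 1 → ∀ x ∈ E j, ∃ i, e j i = x := by
    intro j hj x hx
    have h1 : x ∈ Set.range ((E j).orderEmbOfFin hj) := by
      rw [Finset.range_orderEmbOfFin]
      exact hx
    obtain ⟨i, hi⟩ := h1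
    exact ⟨i, by rw [hedef j hj]; exact hi⟩
  obtain ⟨q, hq⟩ : ∃ q : ℕ → ℕ → Fin (n + 1), ∀ j r, (E j).card = n + 1 → r ∈ W j →
      e j (q j r) ≤ r ∧ (r : ℝ) ≤ (1 + 1 / ((j : ℝ) + 1)) * e j (q j r) := by
    have h1 : ∀ j r, ∃ i : Fin (n + 1), (E j).card = n + 1 → r ∈ W j →
        e j i ≤ r ∧ (r : ℝ) ≤ (1 + 1 / ((j : ℝ) + 1)) * e j i := by
      intro j r
      by_cases h : (E j).card = n + 1 ∧ r ∈ W j
      · obtain ⟨-, -, -, -, x, hx, h3, h4⟩ := hW j r h.2
        obtain ⟨i, hi⟩ := hsurj j h.1 x hx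
        refine ⟨i, fun _ _ => ?_⟩
        rw [hi]
        exact ⟨h3, h4⟩
      · exact ⟨0, fun h3 h4 => absurd ⟨h3, h4⟩ h⟩
    choose q hq using h1
    exact ⟨q, hq⟩
  have hD : DatW U n e k W c q := by
    refine ⟨hU, ?_, ?_, ?_, ?_, ?_⟩
    · filter_upwards [hn''] with j hj
      exact hmono j hj
    · filter_upwards [hn''] with j hj
      exact (hW j _ (hEW j (hmem j hj 0))).1
    · filter_upwards [hn''] with j hj i
      exact (hW j _ (hEW j (hmem j hj i))).2.1
    · filter_upwards [hn''] with j hj r hr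
      obtain ⟨-, h3, -, h4, -⟩ := hW j r hr
      obtain ⟨h5, h6⟩ := hq j r hj hr
      exact ⟨h5, h6, h3, h4⟩
    · filter_upwards [hUR] with j hj
      rw [hrel j, (hR1 j hj).2]
      simp
  -- the cluster
  have hI0 : clI U e 0 := by
    intro η hη
    refine Eventually.of_forall fun j => ?_
    show Real.exp ((e j 0 - e j 0 : ℕ) : ℝ) ≤ Real.exp (e j 0) ^ η
    rw [Nat.sub_self, Nat.cast_zero, Real.exp_zero]
    exact Real.one_le_rpow (Real.one_le_exp (Nat.cast_nonneg _)) hη.le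
  obtain ⟨V, hV⟩ : ∃ V : ℕ → Finset ℕ, ∀ j, V j = (W j).filter (fun r => clI U e (q j r)) :=
    ⟨_, fun _ => rfl⟩
  have hVW : ∀ j, ∀ r ∈ V j, r ∈ W j := by
    intro j r hr
    rw [hV, Finset.mem_filter] at hr
    exact hr.1
  have hV0 : ∀ j, (E j).card = n + 1 → e j 0 ∈ V j := by
    intro j hj
    have h1 := hEW j (hmem j hj 0)
    rw [hV, Finset.mem_filter]
    refine ⟨h1, ?_⟩
    have h3 := (hq j _ hj h1).1
    have h4 : q j (e j 0) = 0 := by
      by_contra hne
      have h5 : (0 : Fin (n + 1)) < q j (e j 0) := Fin.pos_iff_ne_zero.mpr hne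
      have h6 := hmono j hj h5
      omega
    rw [h4]
    exact hI0
  have hsysV : ∀ p : ℕ, p.Prime → ∀ᶠ j in (U : Filter ℕ), ∑ r ∈ V j,
      (c j r : ℝ) * ff p r (k j - r) (if clA U e k then p - 1 else 1) = 0 := by
    intro p hp
    filter_upwards [sysW hAV hSUBT U n e k W c q hD p hp] with j hj
    rw [hV]
    exact hj
  -- the cluster is an initial part
  have hdown : ∀ᶠ j in (U : Filter ℕ), ∀ r ∈ V j, ∀ r' ∈ W j, r' < r → r' ∈ V j := by
    have hpair : ∀ᶠ j : ℕ in (U : Filter ℕ), ∀ i i' : Fin (n + 1), clI U e i → ¬ clI U e i' →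
        (1 + 1 / ((j : ℝ) + 1)) * (e j i : ℝ) < e j i' := by
      refine Filter.eventually_all.mpr fun i => Filter.eventually_all.mpr fun i' => ?_
      by_cases hi : clI U e i
      · by_cases hi' : clI U e i'
        · exact Eventually.of_forall fun j _ h => absurd hi' h
        · have h3 := hi'
          unfold clI Sml at h3
          push Not at h3
          obtain ⟨η, hη, h4⟩ := h3
          obtain ⟨η', hη'⟩ : ∃ η' : ℝ, η' = min η 1 := ⟨_, rfl⟩
          have hη'0 : 0 < η' := by rw [hη']; positivity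
          have hη'1 : η' ≤ 1 := by rw [hη']; exact min_le_right _ _
          have hη'η : η' ≤ η := by rw [hη']; exact min_le_left _ _
          obtain ⟨B, hB⟩ := exists_nat_gt (3 / η')
          filter_upwards [h4, hi (η' / 3) (by positivity), hD.mono, hU (eventually_ge_atTop B)]
            with j h5 h6 h7 h8 _ _
          rw [← Real.exp_mul, Real.exp_lt_exp] at h5
          rw [← Real.exp_mul, Real.exp_le_exp] at h6
          have h9 : e j 0 ≤ e j i := h7.monotone (Fin.zero_le i)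
          have h10 : e j 0 ≤ e j i' := h7.monotone (Fin.zero_le i')
          rw [Nat.cast_sub h10] at h5
          rw [Nat.cast_sub h9] at h6
          have h11 : (0 : ℝ) ≤ e j 0 := Nat.cast_nonneg _
          have h12 : 1 / ((j : ℝ) + 1) ≤ η' / 3 := by
            rw [div_lt_iff₀ hη'0] at hB
            have h13 : (B : ℝ) ≤ j := by exact_mod_cast h8
            rw [div_le_div_iff₀ (by positivity) (by norm_num)]
            nlinarith
          have h14 : (e j i : ℝ) ≤ (1 + η' / 3) * e j 0 := by linarith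
          have h15 : (0 : ℝ) < 1 + 1 / ((j : ℝ) + 1) := by positivity
          calc (1 + 1 / ((j : ℝ) + 1)) * (e j i : ℝ) ≤
                (1 + η' / 3) * ((1 + η' / 3) * e j 0) := by
                refine mul_le_mul (by linarith) h14 (Nat.cast_nonneg _) (by positivity)
            _ ≤ (1 + η') * e j 0 := by
                rw [← mul_assoc]
                refine mul_le_mul_of_nonneg_right ?_ h11
                nlinarith
            _ ≤ (1 + η) * e j 0 := mul_le_mul_of_nonneg_right (by linarith) h11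
            _ < e j i' := by linarith
      · exact Eventually.of_forall fun j h => absurd h hi
    filter_upwards [hpair, hn''] with j h3 h4 r hr r' hr' hlt
    rw [hV, Finset.mem_filter] at hr ⊢
    refine ⟨hr', ?_⟩
    by_contra hcon2
    have h5 := h3 (q j r) (q j r') hr.2 hcon2
    have h6 := (hq j r h4 hr.1).2
    have h7 : (e j (q j r') : ℝ) ≤ r' := by exact_mod_cast (hq j r' h4 hr').1
    have h8 : (r' : ℝ) < r := by exact_mod_cast hlt
    linarith
  obtain ⟨pl, hpl, hpl64, hplL⟩ := primes2 (16 * (8 * t + 8) ^ 2) (64 * t ^ 2)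
  have hall : ∀ᶠ j in (U : Filter ℕ), ∀ l : Fin (t + 1), ∑ r ∈ V j,
      (c j r : ℝ) * ff (pl l) r (k j - r) (if clA U e k then pl l - 1 else 1) = 0 :=
    Filter.eventually_all.mpr fun l => hsysV (pl l) (hpl l)
  obtain ⟨j, ⟨h3, h4⟩, h5⟩ := ((hall.and hn'').and hdown).exists
  obtain ⟨g, hg⟩ := hsgn j
  refine signs2 t (k j) (V j) (c j) g pl (fun l => if clA U e k then pl l - 1 else 1)
    ⟨_, hV0 j h4⟩ (fun r hr => (hW j r (hVW j r hr)).2.1) (fun r hr => (hW j r (hVW j r hr)).2.2.1)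
    (fun r hr => ?_) (fun l => (hpl l).two_le) hpl64 hplL (fun l => ?_) (fun l => ?_)
    (fun l hl => ?_)
  · obtain ⟨h6, h7, h8⟩ := hg r (hVW j r hr)
    refine ⟨h6, fun r' hr' => h7 r' (hVW j r' hr'), ?_⟩
    rcases h8 with h8 | ⟨r', h9, h10, h11⟩
    · exact Or.inl h8
    · exact Or.inr ⟨r', h5 r hr r' h9 h10, h10, h11⟩
  · have := (hpl l).two_le
    show 1 ≤ if clA U e k then pl l - 1 else 1
    split_ifs <;> omega
  · have := (hpl l).two_le
    show (if clA U e k then pl l - 1 else 1) ≤ pl l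
    split_ifs <;> omega
  · exact h3 ⟨l, by omega⟩

end Pool.Agent.Helper27.SUB
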