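import Pool.Agent.Helper27.SUB.T6
import Pool.Agent.Helper70.SUB.Asm

/-!
Relations between double zeta values supported in few windows: final form.
-/

set_option autoImplicit false

namespace Pool.Agent.Helper27.SUB

open Finset Pool.Agent.Helper70.SUB

theorem fewWindows : ∀ t : ℕ, ∃ (ε : ℝ) (R : ℕ), 0 < ε ∧ 2 ≤ R ∧
    ∀ (k : ℕ) (W : Finset ℕ) (X : Finset ℝ) (c : ℕ → ℤ) (c0 : ℤ) (g : ℕ → ℕ),
    2 ≤ k → X.card ≤ t →
    (∀ r ∈ W, R ≤ r ∧ r < k ∧ c r ≠ 0 ∧ |(c r : ℝ)| ≤ Real.exp (ε * r) ∧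
      ∃ x ∈ X, x ≤ r ∧ (r : ℝ) ≤ (1 + ε) * x) →
    (∀ r ∈ W, g r ≤ t) → MonotoneOn g W →
    (∀ r ∈ W, 0 < (-1) ^ (g r) * c r ∨
      ∃ r' ∈ W, r' < r ∧ g r' = g r ∧ 0 < (-1) ^ (g r') * c r' ∧
        |c r| ≤ (t : ℤ) ^ (r - r') * |c r'|) →
    ∑ r ∈ W, (c r : ℝ) * ∑' p : ℕ × ℕ,
        (1 : ℝ) / ((((p.1 + p.2 + 2 : ℕ) : ℝ) ^ r) * (((p.2 + 1 : ℕ) : ℝ) ^ (k - r))) =
      c0 * ∑' n : ℕ, (1 : ℝ) / ((n + 1 : ℕ) : ℝ) ^ k →
    W = ∅ ∧ c0 = 0 := by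
  classical
  intro t
  obtain ⟨ε, R, hε, h⟩ := T6 av_ subt_ t
  refine ⟨ε, max R 2, hε, le_max_right _ _, fun k W X c c0 g hk hX hW hg hmono hsgn hrel => ?_⟩
  -- the smallest element of W in each interval
  have hex : ∀ x : ℝ, ∃ e : ℕ, (∃ r ∈ W, x ≤ r ∧ (r : ℝ) ≤ (1 + ε) * x) →
      e ∈ W ∧ x ≤ e ∧ (e : ℝ) ≤ (1 + ε) * x ∧ ∀ r ∈ W, x ≤ r → e ≤ r := by
    intro x
    by_cases hx : ∃ r ∈ W, x ≤ r ∧ (r : ℝ) ≤ (1 + ε) * x
    · obtain ⟨r0, hr0, h1, h2⟩ := hx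
      have hne : (W.filter fun r : ℕ => x ≤ r).Nonempty := ⟨r0, by simp [hr0, h1]⟩
      refine ⟨(W.filter fun r : ℕ => x ≤ r).min' hne, fun _ => ?_⟩
      have hmem := Finset.min'_mem _ hne
      rw [Finset.mem_filter] at hmem
      have hle : (W.filter fun r : ℕ => x ≤ r).min' hne ≤ r0 :=
        Finset.min'_le _ _ (by simp [hr0, h1])
      refine ⟨hmem.1, hmem.2, ?_, fun r hr hxr => Finset.min'_le _ _ (by simp [hr, hxr])⟩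
      have : (((W.filter fun r : ℕ => x ≤ r).min' hne : ℕ) : ℝ) ≤ r0 := by exact_mod_cast hle
      linarith
    · exact ⟨0, fun h => absurd h hx⟩
  choose f hf using hex
  refine h k W ((X.image f).filter fun e => e ∈ W) c c0 hk ?_ ?_ ?_ ?_ hrel
  · intro e he
    exact (Finset.mem_filter.mp he).2
  · exact (Finset.card_le_card (Finset.filter_subset _ _)).trans (Finset.card_image_le.trans hX)
  · intro r hr
    obtain ⟨h1, h2, h3, h4, x, hxX, hxr, hrx⟩ := hW r hr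
    obtain ⟨e1, e2, -, e4⟩ := hf x ⟨r, hr, hxr, hrx⟩
    refine ⟨(le_max_left _ _).trans h1, h2, h3, h4, f x, ?_, e4 r hr hxr, ?_⟩
    · exact Finset.mem_filter.mpr ⟨Finset.mem_image_of_mem _ hxX, e1⟩
    · exact hrx.trans (mul_le_mul_of_nonneg_left e2 (by positivity))
  · refine ⟨g, fun r hr => ⟨hg r hr, fun r' hr' hrr' => hmono hr hr' hrr', ?_⟩⟩
    rcases hsgn r hr with h1 | ⟨r', hr', h1, h2, h3, h4⟩
    · exact Or.inl h1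
    · exact Or.inr ⟨r', hr', h1, h2, by rw [← h2]; exact h3, h4⟩

end Pool.Agent.Helper27.SUB
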