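import Pool.Agent.Helper70.SUB.SheetA

/-!
Heights of rational numbers, for the moving version of `ST_U2`.
-/

set_option autoImplicit false

namespace Pool.Agent.Helper27.SUB

open Finset Pool.Agent.Helper70.SUB

/-- height of a rational number -/
noncomputable def hq (q : ℚ) : ℝ := max |(q.num : ℝ)| (q.den : ℝ)

theorem hq_one_le (q : ℚ) : 1 ≤ hq q := by
  refine le_max_of_le_right ?_
  have : 1 ≤ q.den := q.den_pos
  exact_mod_cast this

theorem hq_pos (q : ℚ) : 0 < hq q := lt_of_lt_of_le one_pos (hq_one_le q)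

theorem num_le_hq (q : ℚ) : |(q.num : ℝ)| ≤ hq q := le_max_left _ _

theorem den_le_hq (q : ℚ) : (q.den : ℝ) ≤ hq q := le_max_right _ _

theorem hq_le (a b : ℤ) (hb : b ≠ 0) : hq ((a : ℚ) / b) ≤ max |(a : ℝ)| |(b : ℝ)| := by
  have hb1 : (1 : ℝ) ≤ |(b : ℝ)| := by exact_mod_cast Int.one_le_abs hb
  have hden : (((a : ℚ) / b).den : ℝ) ≤ |(b : ℝ)| := by
    have h1 : ((((a : ℚ) / b).den : ℤ)) ∣ b := by
      have := Rat.den_dvd a b
      rwa [Rat.divInt_eq_div] at this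
    have h2 : ((((a : ℚ) / b).den : ℤ)) ≤ |b| := Int.le_of_dvd (abs_pos.mpr hb) ((dvd_abs _ _).mpr h1)
    exact_mod_cast h2
  refine max_le ?_ (hden.trans (le_max_right _ _))
  by_cases ha : a = 0
  · subst ha
    simp only [Int.cast_zero, zero_div, Rat.num_zero, abs_zero]
    exact le_max_of_le_right (abs_nonneg _)
  · refine le_trans ?_ (le_max_left _ _)
    have h1 : (((a : ℚ) / b).num) ∣ a := by
      have := Rat.num_dvd a hb
      rwa [Rat.divInt_eq_div] at this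
    have h2 : |((a : ℚ) / b).num| ≤ |a| :=
      Int.le_of_dvd (abs_pos.mpr ha) ((abs_dvd_abs _ _).mpr h1)
    exact_mod_cast h2

theorem hq_le_of (q : ℚ) (a b : ℤ) (hb : b ≠ 0) (h : q = (a : ℚ) / b) (Y : ℝ)
    (ha : |(a : ℝ)| ≤ Y) (hbY : |(b : ℝ)| ≤ Y) : hq q ≤ Y := by
  rw [h]
  exact (hq_le a b hb).trans (max_le ha hbY)

theorem hq_mul (p q : ℚ) : hq (p * q) ≤ hq p * hq q := by
  have h1 := hq_one_le p
  have h2 := hq_one_le q
  refine hq_le_of (p * q) (p.num * q.num) ((p.den * q.den : ℕ) : ℤ)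
    (by exact_mod_cast (mul_pos p.den_pos q.den_pos).ne') ?_ _ ?_ ?_
  · push_cast
    rw [← div_mul_div_comm, Rat.num_div_den, Rat.num_div_den]
  · push_cast
    rw [abs_mul]
    exact mul_le_mul (num_le_hq p) (num_le_hq q) (abs_nonneg _) (by linarith)
  · push_cast
    rw [abs_mul, Nat.abs_cast, Nat.abs_cast]
    exact mul_le_mul (den_le_hq p) (den_le_hq q) (Nat.cast_nonneg _) (by linarith)

theorem hq_inv (q : ℚ) : hq q⁻¹ ≤ hq q := by
  by_cases h : q = 0
  · subst h; simp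
  · refine hq_le_of q⁻¹ ((q.den : ℕ) : ℤ) q.num (by
      intro h0
      exact h (Rat.num_eq_zero.mp h0)) ?_ _ ?_ (num_le_hq q)
    · push_cast
      nth_rewrite 1 [← Rat.num_div_den q]
      rw [inv_div]
    · push_cast
      rw [Nat.abs_cast]
      exact den_le_hq q

theorem hq_add (p q : ℚ) : hq (p + q) ≤ 2 * (hq p * hq q) := by
  have h1 := hq_one_le p
  have h2 := hq_one_le q
  have hp : (p.den : ℚ) ≠ 0 := by exact_mod_cast p.den_pos.ne'
  have hq' : (q.den : ℚ) ≠ 0 := by exact_mod_cast q.den_pos.ne'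
  have h12 : 0 < hq p * hq q := by positivity
  refine hq_le_of (p + q) (p.num * q.den + q.num * p.den) ((p.den * q.den : ℕ) : ℤ)
    (by exact_mod_cast (mul_pos p.den_pos q.den_pos).ne') ?_ _ ?_ ?_
  · push_cast
    rw [eq_div_iff (mul_ne_zero hp hq')]
    nth_rewrite 1 [← Rat.num_div_den p]
    nth_rewrite 1 [← Rat.num_div_den q]
    field_simp
  · push_cast
    refine (abs_add_le _ _).trans ?_
    rw [abs_mul, abs_mul, Nat.abs_cast, Nat.abs_cast, two_mul]
    refine add_le_add (mul_le_mul (num_le_hq p) (den_le_hq q) (Nat.cast_nonneg _) (by linarith)) ?_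
    rw [mul_comm (hq p)]
    exact mul_le_mul (num_le_hq q) (den_le_hq p) (Nat.cast_nonneg _) (by linarith)
  · push_cast
    rw [abs_mul, Nat.abs_cast, Nat.abs_cast]
    have := mul_le_mul (den_le_hq p) (den_le_hq q) (Nat.cast_nonneg _) (by linarith)
    linarith

theorem hq_int (z : ℤ) (hz : z ≠ 0) : hq (z : ℚ) ≤ |(z : ℝ)| := by
  have h1 : (1 : ℝ) ≤ |(z : ℝ)| := by exact_mod_cast Int.one_le_abs hz
  unfold hq
  rw [Rat.num_intCast, Rat.den_intCast]
  exact max_le le_rfl (by simpa using h1)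

theorem hq_nat (z : ℕ) (hz : z ≠ 0) : hq (z : ℚ) ≤ (z : ℝ) := by
  have := hq_int (z : ℤ) (by exact_mod_cast hz)
  simpa using this

theorem hq_zero : hq 0 = 1 := by
  unfold hq
  simp

theorem hq_sum {ι : Type} [DecidableEq ι] (T : Finset ι) (f : ι → ℚ) :
    hq (∑ i ∈ T, f i) ≤ ∏ i ∈ T, (2 * hq (f i)) := by
  induction T using Finset.induction_on with
  | empty => simp [hq_zero]
  | insert a s ha ih =>
    rw [Finset.sum_insert ha, Finset.prod_insert ha]
    refine (hq_add _ _).trans ?_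
    have h1 := hq_one_le (f a)
    calc 2 * (hq (f a) * hq (∑ i ∈ s, f i)) = 2 * hq (f a) * hq (∑ i ∈ s, f i) := by ring
      _ ≤ _ := mul_le_mul_of_nonneg_left ih (by linarith)

/-- products of the absolute values of a rational number -/
theorem av_hq (hAV : ST_AV) (S : Finset ℕ) (hS : ∀ p ∈ S, p.Prime) (z : ℚ) (hz : z ≠ 0) :
    ∏ v ∈ plc S, av v z ≤ hq z := by
  obtain ⟨av0, -, hAV⟩ := hAV
  obtain ⟨-, avm, -, -, avi, -, avpf, -, -⟩ := hAV S hS
  have h1 : (∏ v ∈ plc S, av v z) * ∏ v ∈ plc S, av v ((z.den : ℤ) : ℚ) =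
      ∏ v ∈ plc S, av v ((z.num : ℤ) : ℚ) := by
    rw [← Finset.prod_mul_distrib]
    refine Finset.prod_congr rfl fun v hv => ?_
    rw [← avm v hv]
    congr 1
    push_cast
    exact Rat.mul_den_eq_num z
  have h2 : 1 ≤ ∏ v ∈ plc S, av v ((z.den : ℤ) : ℚ) :=
    avpf _ (by exact_mod_cast z.den_pos.ne')
  have h3 : ∏ v ∈ plc S, av v ((z.num : ℤ) : ℚ) ≤ |(z.num : ℝ)| := by
    rw [plc, Finset.prod_insertNone]
    have h4 : ∏ p ∈ S, av (some p) ((z.num : ℤ) : ℚ) ≤ 1 :=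
      Finset.prod_le_one (fun p _ => av0 _ _) (fun p hp => avi p hp _)
    have h5 : av none ((z.num : ℤ) : ℚ) = |(z.num : ℝ)| := by simp [av]
    rw [h5]
    exact mul_le_of_le_one_right (abs_nonneg _) h4
  have h4 : 0 ≤ ∏ v ∈ plc S, av v z := Finset.prod_nonneg fun v _ => av0 _ _
  calc ∏ v ∈ plc S, av v z ≤ (∏ v ∈ plc S, av v z) * ∏ v ∈ plc S, av v ((z.den : ℤ) : ℚ) :=
        le_mul_of_one_le_right h4 h2
    _ = _ := h1
    _ ≤ _ := h3
    _ ≤ _ := num_le_hq z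

theorem abs_ge_hq (z : ℚ) (hz : z ≠ 0) : 1 / hq z ≤ |(z : ℝ)| := by
  have h1 : (z : ℝ) = (z.num : ℝ) / (z.den : ℝ) := by
    have := Rat.num_div_den z
    nth_rewrite 1 [← this]
    push_cast
    rfl
  rw [h1, abs_div, Nat.abs_cast]
  have h2 : (1 : ℝ) ≤ |(z.num : ℝ)| := by
    exact_mod_cast Int.one_le_abs (fun h => hz (Rat.num_eq_zero.mp h))
  have h3 : (0 : ℝ) < z.den := by exact_mod_cast z.den_pos
  exact div_le_div₀ (abs_nonneg _) h2 h3 (den_le_hq z)

end Pool.Agent.Helper27.SUB
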