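import Pool.Agent.Helper27.SUB.U3a
import Pool.Agent.Helper89.SUB.Rel

/-!
Sums of moving integers which are almost S-units: no linear relations.
-/

set_option autoImplicit false

namespace Pool.Agent.Helper27.SUB

open Finset Pool.Agent.Helper70.SUB Pool.Agent.Helper89.SUB

/-- integer sequences, almost S-units with respect to the scale `X`, pairwise far from
proportional -/
structure HM {ι : Type} (S : Finset ℕ) (M : Set ℕ) (X : ℕ → ℝ) (x : ℕ → ι → ℤ)
    (δ η : ℝ) : Prop where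
  inf : M.Infinite
  X1 : ∀ j ∈ M, 1 ≤ X j
  fin : ∀ B : ℝ, {j | j ∈ M ∧ X j ≤ B}.Finite
  ne : ∀ j ∈ M, ∀ i, x j i ≠ 0
  pr : ∀ j ∈ M, ∀ i, ∏ v ∈ plc S, av v (x j i) ≤ X j ^ η
  ht : ∀ j ∈ M, ∀ i i', i ≠ i' → X j ^ δ ≤ hq ((x j i : ℚ) / x j i')

theorem HM.sub {ι : Type} {S : Finset ℕ} {M : Set ℕ} {X : ℕ → ℝ} {x : ℕ → ι → ℤ} {δ η : ℝ}
    (h : HM S M X x δ η) {M' : Set ℕ} (hM' : M' ⊆ M) (hi : M'.Infinite) : HM S M' X x δ η :=
  ⟨hi, fun j hj => h.X1 j (hM' hj), fun B => (h.fin B).subset fun j hj => ⟨hM' hj.1, hj.2⟩,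
    fun j hj => h.ne j (hM' hj), fun j hj => h.pr j (hM' hj), fun j hj => h.ht j (hM' hj)⟩

theorem HM.comp {ι κ : Type} {S : Finset ℕ} {M : Set ℕ} {X : ℕ → ℝ} {x : ℕ → ι → ℤ} {δ η : ℝ}
    (h : HM S M X x δ η) (f : κ → ι) (hf : Function.Injective f) :
    HM S M X (fun j k => x j (f k)) δ η :=
  ⟨h.inf, h.X1, h.fin, fun j hj i => h.ne j hj _, fun j hj i => h.pr j hj _,
    fun j hj i i' hii' => h.ht j hj _ _ (fun e => hii' (hf e))⟩

/-- no linear relation -/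
theorem rel3 (hAV0 : ST_AV) (hSUBT : ST_SUBT) (S : Finset ℕ) (hSp : ∀ p ∈ S, p.Prime)
    (δ η : ℝ) (hδ : 0 < δ) (hη : 0 ≤ η) :
    ∀ N : ℕ, ∀ (ι : Type) [Fintype ι] [DecidableEq ι], Fintype.card ι = N →
      ∀ (X : ℕ → ℝ) (a : ι → ℚ) (M : Set ℕ) (u : ℕ → ι → ℤ), 4 * (N : ℝ) * η ≤ δ →
      HM S M X u δ η → Nonempty ι → (∀ i, a i ≠ 0) →
      (∀ j ∈ M, ∑ i, a i * (u j i : ℚ) = 0) → False := by
  obtain ⟨av0, -, hAV⟩ := hAV0
  obtain ⟨avp, avm, -, -, avi, -, avpf, -, -⟩ := hAV S hSp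
  intro N
  induction N using Nat.strong_induction_on with
  | _ N ih =>
  intro ι _ _ hN X a M u hNη hu hne ha hsum
  have hM := hu.inf
  obtain ⟨n, rfl⟩ : ∃ n, N = n + 1 :=
    Nat.exists_eq_succ_of_ne_zero (by rw [← hN]; exact Fintype.card_ne_zero)
  obtain ⟨e⟩ : Nonempty (Fin (n + 1) ≃ ι) := ⟨(Fintype.equivFinOfCardEq hN).symm⟩
  have hs : ∀ j ∈ M, a (e 0) * (u j (e 0) : ℚ) +
      ∑ k : Fin n, a (e k.succ) * (u j (e k.succ) : ℚ) = 0 := by
    intro j hj
    have h1 := hsum j hj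
    rw [← Equiv.sum_comp e, Fin.sum_univ_succ] at h1
    exact h1
  have hu0 : ∀ j ∈ M, ∀ i, (u j i : ℚ) ≠ 0 := fun j hj i => by
    exact_mod_cast hu.ne j hj i
  rcases Nat.lt_or_ge n 2 with hn | hn
  · interval_cases n
    · -- one term
      obtain ⟨j, hj⟩ := hM.nonempty
      have h1 := hs j hj
      rw [Fin.sum_univ_zero, add_zero] at h1
      exact absurd h1 (mul_ne_zero (ha _) (hu0 j hj _))
    · -- two terms
      obtain ⟨q, hq'⟩ : ∃ q : ℚ, q = -(a (e (Fin.succ 0)) / a (e 0)) := ⟨_, rfl⟩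
      have hratio : ∀ j ∈ M, (u j (e 0) : ℚ) / u j (e (Fin.succ 0)) = q := by
        intro j hj
        have h1 := hs j hj
        rw [Fin.sum_univ_one] at h1
        have h2 := ha (e 0)
        have h3 := hu0 j hj (e (Fin.succ 0))
        rw [hq', div_eq_iff h3]
        field_simp
        linarith
      have hbd : ∀ j ∈ M, X j ≤ hq q ^ (1 / δ) := by
        intro j hj
        have h1 := hu.ht j hj (e 0) (e (Fin.succ 0)) (fun h =>
          (Fin.succ_ne_zero 0).symm (e.injective h))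
        rw [hratio j hj] at h1
        have h2 : 0 ≤ X j := zero_le_one.trans (hu.X1 j hj)
        calc X j = (X j ^ δ) ^ (1 / δ) := by
              rw [← Real.rpow_mul h2, mul_one_div_cancel hδ.ne', Real.rpow_one]
          _ ≤ _ := Real.rpow_le_rpow (Real.rpow_nonneg h2 _) h1 (by positivity)
      exact hM ((hu.fin _).subset fun j hj => ⟨hj, hbd j hj⟩)
  -- at least three terms
  have hn0 : 0 < n := by omega
  have hx : ∀ j, ∃ x : Fin n → ℤ, (∀ k, u j (e k.succ) =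
      (univ.gcd fun k : Fin n => u j (e k.succ)) * x k) ∧ univ.gcd x = 1 := by
    intro j
    obtain ⟨x, h1, h2⟩ := Finset.extract_gcd (s := (univ : Finset (Fin n)))
      (fun k => u j (e k.succ)) ⟨⟨0, hn0⟩, Finset.mem_univ _⟩
    exact ⟨x, fun k => h1 k (Finset.mem_univ _), h2⟩
  choose x hx1 hx2 using hx
  obtain ⟨g, hg⟩ : ∃ g : ℕ → ℤ, ∀ j, g j = univ.gcd fun k : Fin n => u j (e k.succ) :=
    ⟨_, fun _ => rfl⟩
  have hux : ∀ j k, u j (e k.succ) = g j * x j k := fun j k => by rw [hg]; exact hx1 j k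
  have huxQ : ∀ j k, (u j (e k.succ) : ℚ) = g j * x j k := fun j k => by
    rw [hux]; push_cast; rfl
  have hg0 : ∀ j ∈ M, g j ≠ 0 := fun j hj h => by
    have h1 := hux j ⟨0, hn0⟩
    rw [h, zero_mul] at h1
    exact hu.ne j hj _ h1
  have hx0 : ∀ j ∈ M, ∀ k, x j k ≠ 0 := fun j hj k h => by
    have h1 := hux j k
    rw [h, mul_zero] at h1
    exact hu.ne j hj _ h1
  -- the vectors are long
  obtain ⟨k0, hk0⟩ : ∃ k : Fin n, k = ⟨0, by omega⟩ := ⟨_, rfl⟩
  obtain ⟨k1, hk1⟩ : ∃ k : Fin n, k = ⟨1, by omega⟩ := ⟨_, rfl⟩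
  have hk01 : e k0.succ ≠ e k1.succ := by
    intro h
    have h1 := Fin.succ_injective _ (e.injective h)
    rw [hk0, hk1, Fin.mk.injEq] at h1
    omega
  have hlong : ∀ j ∈ M, X j ^ δ ≤ ‖x j‖ := by
    intro j hj
    have h1 := hu.ht j hj _ _ hk01
    have h2 : (u j (e k0.succ) : ℚ) / u j (e k1.succ) = (x j k0 : ℚ) / x j k1 := by
      rw [huxQ, huxQ, mul_div_mul_left]
      exact_mod_cast hg0 j hj
    rw [h2] at h1
    refine h1.trans ((hq_le _ _ (hx0 j hj _)).trans (max_le ?_ ?_))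
    · have := norm_le_pi_norm (x j) k0
      rwa [Int.norm_eq_abs] at this
    · have := norm_le_pi_norm (x j) k1
      rwa [Int.norm_eq_abs] at this
  have hfin : ∀ H : ℝ, {j | j ∈ M ∧ ‖x j‖ ≤ H}.Finite := by
    intro H
    refine (hu.fin ((max H 0) ^ (1 / δ))).subset ?_
    rintro j ⟨hj, hjH⟩
    refine ⟨hj, ?_⟩
    have h2 : 0 ≤ X j := zero_le_one.trans (hu.X1 j hj)
    have h1 : X j ^ δ ≤ max H 0 := ((hlong j hj).trans hjH).trans (le_max_left _ _)
    calc X j = (X j ^ δ) ^ (1 / δ) := by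
          rw [← Real.rpow_mul h2, mul_one_div_cancel hδ.ne', Real.rpow_one]
      _ ≤ _ := Real.rpow_le_rpow (Real.rpow_nonneg h2 _) h1 (by positivity)
  -- the maximal coordinates
  have hκ : ∀ j v, ∃ κ : Fin n, ∀ k, av v (x j k) ≤ av v (x j κ) := by
    intro j v
    obtain ⟨κ, -, h⟩ := Finset.exists_max_image (univ : Finset (Fin n))
      (fun k => av v (x j k)) ⟨⟨0, hn0⟩, Finset.mem_univ _⟩
    exact ⟨κ, fun k => h k (Finset.mem_univ _)⟩
  choose κ hκ using hκ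
  obtain ⟨K, -, hK⟩ := pig hM (fun j => fun v : {v // v ∈ plc S} => κ j v.1) Set.univ
    Set.finite_univ fun _ _ => Set.mem_univ _
  obtain ⟨K', hK'⟩ : ∃ K' : Option ℕ → Fin n, ∀ v (hv : v ∈ plc S), K' v = K ⟨v, hv⟩ :=
    ⟨fun v => if hv : v ∈ plc S then K ⟨v, hv⟩ else ⟨0, hn0⟩, fun v hv => by
      simp only [hv, dif_pos]⟩
  obtain ⟨w, hw⟩ : ∃ w : Fin n → ℚ, w = fun k => a (e k.succ) := ⟨_, rfl⟩
  obtain ⟨c0, hc0⟩ : ∃ c0 : ℝ, c0 = ∏ v ∈ plc S, av v (-a (e 0)) := ⟨_, rfl⟩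
  have hc00 : 0 ≤ c0 := by
    rw [hc0]
    exact Finset.prod_nonneg fun v _ => av0 _ _
  obtain ⟨M2, hM2⟩ : ∃ M2 : Set ℕ, M2 =
      {j | j ∈ M ∧ (fun v : {v // v ∈ plc S} => κ j v.1) = K} \
        {j | j ∈ M ∧ ‖x j‖ ≤ c0 ^ 4 + 1} := ⟨_, rfl⟩
  have hM2i : M2.Infinite := by
    rw [hM2]
    exact hK.sdiff (hfin _)
  have hM2M : ∀ j ∈ M2, j ∈ M := fun j hj => by
    rw [hM2] at hj
    exact hj.1.1
  have hM2K : ∀ j ∈ M2, ∀ v ∈ plc S, κ j v = K' v := fun j hj v hv => by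
    rw [hM2] at hj
    rw [hK' v hv, ← hj.1.2]
  have hM2n : ∀ j ∈ M2, c0 ^ 4 + 1 < ‖x j‖ := fun j hj => by
    by_contra h
    have hj' := hj
    rw [hM2] at hj'
    exact hj'.2 ⟨hM2M j hj, not_lt.1 h⟩
  have hprod : ∀ j ∈ M2, ∏ v ∈ plc S, ∏ i, av v ((frm (K' v) w).mulVec (cv (x j)) i) ≤
      ‖x j‖ ^ (-(1 / 2 : ℝ)) := by
    intro j hj
    have hjM := hM2M j hj
    obtain ⟨P, hP⟩ : ∃ P : ℝ, P = ∏ v ∈ plc S, ∏ i,
      av v ((frm (K' v) w).mulVec (cv (x j)) i) := ⟨_, rfl⟩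
    have hP0 : 0 ≤ P := by
      rw [hP]
      exact Finset.prod_nonneg fun v _ => Finset.prod_nonneg fun i _ => av0 _ _
    obtain ⟨L, hL⟩ : ∃ L : ℚ, L = ∑ l, w l * cv (x j) l := ⟨_, rfl⟩
    have hgL : (g j : ℚ) * L = -a (e 0) * u j (e 0) := by
      have h1 := hs j hjM
      have h2 : (g j : ℚ) * L = ∑ k : Fin n, a (e k.succ) * (u j (e k.succ) : ℚ) := by
        rw [hL, Finset.mul_sum]
        refine Finset.sum_congr rfl fun k _ => ?_
        rw [huxQ, hw, cv]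
        ring
      rw [h2]
      linarith
    have hXj := hu.X1 j hjM
    have hX0 : 0 < X j := lt_of_lt_of_le one_pos hXj
    have hg1 : 1 ≤ ∏ v ∈ plc S, av v (g j) := avpf _ (hg0 j hjM)
    have e1 : ∏ v ∈ plc S, av v L ≤ c0 * X j ^ η := by
      have h1 : ∏ v ∈ plc S, (av v (g j) * av v L) =
          ∏ v ∈ plc S, (av v (-a (e 0)) * av v (u j (e 0))) :=
        Finset.prod_congr rfl fun v hv => by rw [← avm v hv, ← avm v hv, hgL]
      rw [Finset.prod_mul_distrib, Finset.prod_mul_distrib, ← hc0] at h1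
      have h2 : 0 ≤ ∏ v ∈ plc S, av v L := Finset.prod_nonneg fun v _ => av0 _ _
      calc ∏ v ∈ plc S, av v L ≤ (∏ v ∈ plc S, av v (g j)) * ∏ v ∈ plc S, av v L :=
            le_mul_of_one_le_left h2 hg1
        _ = _ := h1
        _ ≤ _ := mul_le_mul_of_nonneg_left (hu.pr j hjM _) hc00
    have e1' : ∀ i, ∏ v ∈ plc S, av v (x j i) ≤ X j ^ η := by
      intro i
      have h1 : ∏ v ∈ plc S, (av v (g j) * av v (x j i)) =
          ∏ v ∈ plc S, av v (u j (e i.succ)) :=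
        Finset.prod_congr rfl fun v hv => by rw [← avm v hv, huxQ]
      rw [Finset.prod_mul_distrib] at h1
      have h2 : 0 ≤ ∏ v ∈ plc S, av v (x j i) := Finset.prod_nonneg fun v _ => av0 _ _
      calc ∏ v ∈ plc S, av v (x j i) ≤ (∏ v ∈ plc S, av v (g j)) * ∏ v ∈ plc S, av v (x j i) :=
            le_mul_of_one_le_left h2 hg1
        _ = _ := h1
        _ ≤ _ := hu.pr j hjM _
    have e2 : P * ∏ v ∈ plc S, av v (x j (K' v)) ≤ c0 * X j ^ (δ / 4) := by
      rw [hP, ← Finset.prod_mul_distrib]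
      have h1 : ∏ v ∈ plc S, ((∏ i, av v ((frm (K' v) w).mulVec (cv (x j)) i)) *
          av v (x j (K' v))) = ∏ v ∈ plc S, (av v L * ∏ i, av v (x j i)) := by
        refine Finset.prod_congr rfl fun v _ => ?_
        rw [hL]
        exact frm_prod v (K' v) w (cv (x j))
      rw [h1, Finset.prod_mul_distrib, Finset.prod_comm]
      have h2 : ∏ i, ∏ v ∈ plc S, av v (x j i) ≤ (X j ^ η) ^ n := by
        calc ∏ i, ∏ v ∈ plc S, av v (x j i) ≤ ∏ _i : Fin n, X j ^ η :=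
              Finset.prod_le_prod (fun i _ => Finset.prod_nonneg fun v _ => av0 _ _)
                (fun i _ => e1' i)
          _ = _ := by rw [Finset.prod_const, Finset.card_univ, Fintype.card_fin]
      have h3 : 0 ≤ X j ^ η := Real.rpow_nonneg hX0.le _
      calc _ ≤ (c0 * X j ^ η) * (X j ^ η) ^ n :=
            mul_le_mul e1 h2 (Finset.prod_nonneg fun i _ => Finset.prod_nonneg fun v _ => av0 _ _)
              (by positivity)
        _ = c0 * X j ^ (η * ((n + 1 : ℕ) : ℝ)) := by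
            rw [mul_assoc, ← pow_succ', Real.rpow_mul hX0.le, Real.rpow_natCast]
        _ ≤ _ := by
            refine mul_le_mul_of_nonneg_left ?_ hc00
            apply Real.rpow_le_rpow_of_exponent_le hXj
            linarith
    have hn1 : ‖x j‖ ≤ av none (x j (K' none)) := by
      refine (pi_norm_le_iff_of_nonneg (av0 _ _)).2 fun k => ?_
      have h1 := hκ j none k
      rw [hM2K j hj none (by simp [plc])] at h1
      refine le_trans (le_of_eq ?_) h1
      rw [Int.norm_eq_abs]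
      simp [av]
    have hn2 : ∀ p ∈ S, 1 ≤ av (some p) (x j (K' (some p))) := by
      intro p hp
      have hpp := hSp p hp
      have : Fact p.Prime := ⟨hpp⟩
      obtain ⟨k, hk⟩ : ∃ k, ¬ (p : ℤ) ∣ x j k := by
        by_contra h
        push Not at h
        have h1 : (p : ℤ) ∣ univ.gcd (x j) := Finset.dvd_gcd fun k _ => h k
        rw [hx2] at h1
        have h2 : (p : ℤ) ≤ 1 := Int.le_of_dvd one_pos h1
        have := hpp.two_le
        omega
      have h1 := hκ j (some p) k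
      rw [hM2K j hj (some p) (by simpa [plc] using hp)] at h1
      refine le_trans (le_of_eq ?_) h1
      have h2 : padicNorm p ((x j k : ℤ) : ℚ) = 1 := (padicNorm.int_eq_one_iff _).2 hk
      show (1 : ℝ) = ((padicNorm p ((x j k : ℤ) : ℚ) : ℚ) : ℝ)
      rw [h2]
      simp
    have hn3 : ‖x j‖ ≤ ∏ v ∈ plc S, av v (x j (K' v)) := by
      rw [plc, Finset.prod_insertNone]
      have h1 : (1 : ℝ) ≤ ∏ p ∈ S, av (some p) (x j (K' (some p))) := by
        rw [← Finset.prod_const_one (s := S)]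
        exact Finset.prod_le_prod (fun _ _ => zero_le_one) hn2
      calc ‖x j‖ ≤ av none (x j (K' none)) := hn1
        _ = av none (x j (K' none)) * 1 := (mul_one _).symm
        _ ≤ _ := mul_le_mul_of_nonneg_left h1 (av0 _ _)
    have hnn := hM2n j hj
    have hn4 : 0 < ‖x j‖ := lt_trans (by positivity) hnn
    have hn5 : P * ‖x j‖ ≤ c0 * X j ^ (δ / 4) :=
      (mul_le_mul_of_nonneg_left hn3 hP0).trans e2
    have hn8 : X j ^ (δ / 4) ≤ ‖x j‖ ^ (1 / 4 : ℝ) := by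
      have h1 : X j ^ (δ / 4) = (X j ^ δ) ^ (1 / 4 : ℝ) := by
        rw [← Real.rpow_mul hX0.le]
        congr 1
        ring
      rw [h1]
      exact Real.rpow_le_rpow (Real.rpow_nonneg hX0.le _) (hlong j hjM) (by norm_num)
    have hn9 : c0 ≤ ‖x j‖ ^ (1 / 4 : ℝ) := by
      have h1 : c0 = (c0 ^ (4 : ℕ)) ^ (1 / 4 : ℝ) := by
        rw [← Real.rpow_natCast, ← Real.rpow_mul hc00]
        norm_num
      rw [h1]
      exact Real.rpow_le_rpow (by positivity) (by linarith) (by norm_num)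
    rw [← hP]
    have hn7 : ‖x j‖ ^ (-(1 / 2 : ℝ)) * ‖x j‖ = ‖x j‖ ^ (1 / 4 : ℝ) * ‖x j‖ ^ (1 / 4 : ℝ) := by
      nth_rewrite 2 [← Real.rpow_one ‖x j‖]
      rw [← Real.rpow_add hn4, ← Real.rpow_add hn4]
      norm_num
    refine le_of_mul_le_mul_right ?_ hn4
    rw [hn7]
    refine hn5.trans (mul_le_mul hn9 hn8 (Real.rpow_nonneg hX0.le _) (Real.rpow_nonneg hn4.le _))
  obtain ⟨b, hb0, hbi⟩ := hSUBT n S (fun v => frm (K' v) w) (1 / 2) M2 x (by omega) hSp
    (fun v _ => frm_det _ _ (by rw [hw]; exact ha _)) (by norm_num) hM2i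
    (fun H => (hfin H).subset fun j hj => ⟨hM2M j hj.1, hj.2⟩) hprod
  have hcard : Fintype.card {k : Fin n // b k ≠ 0} < n + 1 :=
    lt_of_le_of_lt ((Fintype.card_subtype_le _).trans (by simp)) (Nat.lt_succ_self n)
  refine ih (Fintype.card {k : Fin n // b k ≠ 0}) hcard
    {k : Fin n // b k ≠ 0} rfl X (fun k => b k.1)
    {j | j ∈ M2 ∧ ∑ i, b i * (x j i : ℚ) = 0} (fun j k => u j (e k.1.succ)) ?_ ?_ ?_
    (fun k => k.2) ?_
  · refine le_trans ?_ hNη
    refine mul_le_mul_of_nonneg_right ?_ hη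
    refine mul_le_mul_of_nonneg_left ?_ (by norm_num)
    exact_mod_cast hcard.le
  · exact (hu.sub (fun j hj => hM2M j hj.1) hbi).comp (fun k : {k : Fin n // b k ≠ 0} => e k.1.succ)
      (fun k k' h => Subtype.ext (Fin.succ_injective _ (e.injective h)))
  · by_contra h
    apply hb0
    funext k
    by_contra hk
    exact h ⟨⟨k, hk⟩⟩
  · intro j hj
    have h1 : ∑ k : {k : Fin n // b k ≠ 0}, b k.1 * (u j (e k.1.succ) : ℚ) =
        ∑ k : Fin n, b k * (u j (e k.succ) : ℚ) := by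
      rw [← Finset.sum_filter_of_ne (s := univ) (p := fun k => b k ≠ 0)
        (f := fun k : Fin n => b k * (u j (e k.succ) : ℚ)) (fun k _ hk h => hk (by
          show b k * (u j (e k.succ) : ℚ) = 0
          rw [h, zero_mul]))]
      exact (Finset.sum_subtype (univ.filter fun k => b k ≠ 0) (fun k => by simp)
        (fun k : Fin n => b k * (u j (e k.succ) : ℚ))).symm
    rw [h1]
    have h2 : ∑ k : Fin n, b k * (u j (e k.succ) : ℚ) =
        (g j : ℚ) * ∑ k : Fin n, b k * (x j k : ℚ) := by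
      rw [Finset.mul_sum]
      refine Finset.sum_congr rfl fun k _ => ?_
      rw [huxQ]
      ring
    rw [h2, hj.2, mul_zero]

end Pool.Agent.Helper27.SUB
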